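import Mathlib

set_option autoImplicit false

namespace Pool.Agent.KTD

private theorem al_avg_aux {K E : Type} [Field K] [CharZero K] [AddCommGroup E] [Module K E]
    {ι : Type} (n : ι → Module.End K E) (hc : ∀ i j, Commute (n i) (n j)) (s : Finset ι) :
    ∀ (e : ι → E) (_ : ∀ i j, ∃ k : ℕ, 0 < k ∧ ((n i) ^ k) (e j) = e j) (h : E)
      (_ : ∀ i, n i h = h) (_ : ∑ i ∈ s, (n i (e i) - e i) = h), h = 0 := by
  classical
  induction s using Finset.induction_on with
  | empty =>
    intro e _ h _ hs
    simpa using hs.symm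
  | insert a s ha ih =>
    intro e hk h hh hs
    obtain ⟨k, hk0, hka⟩ := hk a a
    set P : Module.End K E := ∑ l ∈ Finset.range k, (n a) ^ l with hP
    have hPc : ∀ i, Commute (n i) P := by
      intro i
      rw [hP]
      refine Commute.sum_right _ _ _ (fun l _ => ?_)
      exact (hc i a).pow_right l
    have hpow : ∀ l : ℕ, ((n a) ^ l) h = h := by
      intro l
      induction l with
      | zero => simp
      | succ l ihl => rw [pow_succ, Module.End.mul_apply, hh a, ihl]
    have hPh : P h = (k : K) • h := by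
      rw [hP, LinearMap.sum_apply, Finset.sum_congr rfl (fun l _ => hpow l), Finset.sum_const,
        Finset.card_range, Nat.cast_smul_eq_nsmul]
    have hPn : P (n a (e a) - e a) = 0 := by
      have h1 : P * (n a - 1) = (n a) ^ k - 1 := by
        rw [hP]; exact geom_sum_mul (n a) k
      have h2 : P (n a (e a) - e a) = (P * (n a - 1)) (e a) := by
        simp [Module.End.mul_apply]
      rw [h2, h1]
      simp [hka]
    have hPi : ∀ i x, P (n i x) = n i (P x) := by
      intro i x
      have := congrArg (fun f : Module.End K E => f x) (hPc i).eq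
      simpa [Module.End.mul_apply] using this.symm
    have hs' : ∑ i ∈ s, (n i (P (e i)) - P (e i)) = (k : K) • h := by
      rw [Finset.sum_insert ha] at hs
      have h3 := congrArg P hs
      rw [map_add, hPn, zero_add, map_sum, hPh] at h3
      rw [← h3]
      refine Finset.sum_congr rfl (fun i _ => ?_)
      rw [map_sub, hPi]
    have h4 := ih (fun i => P (e i)) ?_ ((k : K) • h) ?_ hs'
    · rcases smul_eq_zero.mp h4 with h5 | h5
      · exact absurd h5 (by exact_mod_cast hk0.ne')
      · exact h5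
    · intro i j
      obtain ⟨k', hk0', hk'⟩ := hk i j
      refine ⟨k', hk0', ?_⟩
      have h6 : Commute ((n i) ^ k') P := (hPc i).pow_left k'
      have h7 := congrArg (fun f : Module.End K E => f (e j)) h6.eq
      simp only [Module.End.mul_apply] at h7
      rw [h7, hk']
    · intro i
      rw [map_smul, hh i]

/-- Choose `k > 0` with `(n i)^k (e j) = e j` for all `i, j` and apply `∏ i (1 + n i + .. + (n i)^(k-1))`:
`k^m h = 0` -/
theorem al_avg {K E : Type} [Field K] [CharZero K] [AddCommGroup E] [Module K E] {ι : Type}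
    [Fintype ι] (n : ι → Module.End K E) (hc : ∀ i j, Commute (n i) (n j)) (e : ι → E)
    (hk : ∀ i j, ∃ k : ℕ, 0 < k ∧ ((n i) ^ k) (e j) = e j) (h : E) (hh : ∀ i, n i h = h)
    (hs : ∑ i, (n i (e i) - e i) = h) : h = 0 :=
  al_avg_aux n hc Finset.univ e hk h hh hs

/-- Abstract vertex lemma. `E = V × H` with `g (v, h) = (A g v, h + U g v)`, `I` = span of the `n e - e`,
`n ∈ N`; `I ∩ H = 0` by `al_avg`; `E1` = all `e` with `r e ∈ I` for a product `r` of operators `t - c`, `t ∈ T`,
`c ≠ 1`; it is a subspace, stable under `N` and `T`, complementary to `H`; `(v, h) ↦ h - φ(v)` is the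
projection to `H` along `E1`. -/
theorem al_main {K B V H : Type} [Field K] [CharZero K] [Group B] [AddCommGroup V] [Module K V]
    [AddCommGroup H] [Module K H] (A : B →* Module.End K V) (U : B → V →ₗ[K] H)
    (hU : ∀ g g' v, U (g * g') v = U g' v + U g (A g' v)) (N T : Subgroup B)
    (hN : ∀ a ∈ N, ∀ b ∈ N, a * b = b * a) (hT : ∀ a ∈ T, ∀ b ∈ T, a * b = b * a)
    (hTN : ∀ t ∈ T, ∀ n ∈ N, t * n * t⁻¹ ∈ N) (hB : ∀ g, ∃ n ∈ N, ∃ t ∈ T, g = n * t)
    (S : Set V) (hS : Submodule.span K S = ⊤)
    (h1 : ∀ v ∈ S, ∀ n ∈ N, ∃ k : ℕ, 0 < k ∧ A (n ^ k) v = v ∧ U (n ^ k) v = 0)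
    (h2 : ∀ v ∈ S, ∃ t ∈ T, ∃ c : K, c ≠ 1 ∧
      A t v - c • v ∈ Submodule.span K {x | ∃ n ∈ N, ∃ w, x = A n w - w}) :
    ∃ φ : V →ₗ[K] H, ∀ g v, U g v = φ (A g v) - φ v := by
  classical
  have hU1 : ∀ v, U 1 v = 0 := by
    intro v
    have := hU 1 1 v
    simp only [mul_one, map_one, Module.End.one_apply] at this
    simpa using this
  -- the representation on `V × H`
  let ρ : B →* Module.End K (V × H) :=
    { toFun := fun g => LinearMap.prod ((A g).comp (LinearMap.fst K V H))
        (LinearMap.snd K V H + (U g).comp (LinearMap.fst K V H))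
      map_one' := by
        apply LinearMap.ext
        rintro ⟨v, h⟩
        simp [hU1]
      map_mul' := by
        intro g g'
        apply LinearMap.ext
        rintro ⟨v, h⟩
        change (A (g * g') v, h + U (g * g') v) = (A g (A g' v), h + U g' v + U g (A g' v))
        rw [map_mul, Module.End.mul_apply, hU, add_assoc] }
  have hρ : ∀ g v h, ρ g (v, h) = (A g v, h + U g v) := fun g v h => rfl
  have hρinv : ∀ g x, ρ g (ρ g⁻¹ x) = x := by
    intro g x
    rw [← Module.End.mul_apply, ← map_mul, mul_inv_cancel, map_one, Module.End.one_apply]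
  let I : Submodule K (V × H) := Submodule.span K {x | ∃ n ∈ N, ∃ e, x = ρ n e - e}
  have hIgen : ∀ n ∈ N, ∀ e, ρ n e - e ∈ I := fun n hn e =>
    Submodule.subset_span ⟨n, hn, e, rfl⟩
  -- `I` is stable under `T`
  have hIT : ∀ t ∈ T, ∀ x ∈ I, ρ t x ∈ I := by
    intro t ht x hx
    induction hx using Submodule.span_induction with
    | mem x hx =>
      obtain ⟨n, hn, e, rfl⟩ := hx
      have h3 : ρ t (ρ n e - e) = ρ (t * n * t⁻¹) (ρ t e) - ρ t e := by
        rw [map_sub, ← Module.End.mul_apply, ← Module.End.mul_apply, ← map_mul, ← map_mul]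
        simp
      rw [h3]
      exact hIgen _ (hTN t ht n hn) _
    | zero => rw [map_zero]; exact I.zero_mem
    | add x y _ _ hx hy => rw [map_add]; exact I.add_mem hx hy
    | smul a x _ hx => rw [map_smul]; exact I.smul_mem a hx
  -- `I` meets `H` in `0`
  have hIH : ∀ h : H, ((0 : V), h) ∈ I → h = 0 := by
    intro h hh
    let I' : Submodule K (V × H) := Submodule.span K {x | ∃ n ∈ N, ∃ v ∈ S, x = ρ n (v, 0) - (v, 0)}
    have hII' : I ≤ I' := by
      refine Submodule.span_le.mpr ?_
      rintro x ⟨n, hn, ⟨w, y⟩, rfl⟩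
      have h4 : ρ n (w, y) - (w, y) = ρ n (w, 0) - (w, 0) := by
        rw [hρ, hρ]
        ext <;> simp
      rw [h4]
      have h5 : w ∈ Submodule.span K S := by rw [hS]; trivial
      change ρ n (w, 0) - (w, 0) ∈ I'
      clear h4
      induction h5 using Submodule.span_induction with
      | mem w hw => exact Submodule.subset_span ⟨n, hn, w, hw, rfl⟩
      | zero =>
        have : ((0 : V), (0 : H)) = 0 := rfl
        rw [this, map_zero, sub_zero]
        exact I'.zero_mem
      | add a b _ _ ha hb =>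
        have h6 : ((a + b : V), (0 : H)) = (a, 0) + (b, 0) := by simp
        rw [h6, map_add]
        have h7 : ρ n (a, 0) + ρ n (b, 0) - ((a, 0) + (b, 0)) =
          (ρ n (a, 0) - (a, 0)) + (ρ n (b, 0) - (b, 0)) := by abel
        rw [h7]
        exact I'.add_mem ha hb
      | smul c a _ ha =>
        have h6 : ((c • a : V), (0 : H)) = c • ((a : V), (0 : H)) := by simp
        rw [h6, map_smul, ← smul_sub]
        exact I'.smul_mem c ha
    have h8 := hII' hh
    obtain ⟨m, f, g, hfg⟩ := Submodule.mem_span_set'.mp h8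
    choose n hn v hv hx using fun i => (g i).2
    have h9 : ((0 : V), h) = 0 := by
      refine al_avg (fun i : Fin m => ρ (n i)) ?_ (fun i => f i • ((v i : V), (0 : H))) ?_ _ ?_ ?_
      · intro i j
        change ρ (n i) * ρ (n j) = ρ (n j) * ρ (n i)
        rw [← map_mul, ← map_mul, hN _ (hn i) _ (hn j)]
      · intro i j
        obtain ⟨k, hk0, hk1, hk2⟩ := h1 (v j) (hv j) (n i) (hn i)
        refine ⟨k, hk0, ?_⟩
        rw [← map_pow, map_smul, hρ, hk1, hk2, add_zero]
      · intro i
        rw [hρ, map_zero, map_zero, add_zero]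
      · rw [← hfg]
        refine Finset.sum_congr rfl (fun i _ => ?_)
        rw [hx i, map_smul, smul_sub]
    exact (Prod.mk_eq_zero.mp h9).2
  -- products of operators `t - c`
  let X : Set (Module.End K (V × H)) := {x | ∃ t ∈ T, ∃ c : K, c ≠ 1 ∧ x = ρ t - c • 1}
  let C : Submonoid (Module.End K (V × H)) := Submonoid.closure X
  have hCT : ∀ r ∈ C, ∀ t ∈ T, Commute r (ρ t) := by
    intro r hr t ht
    induction hr using Submonoid.closure_induction with
    | mem x hx =>
      obtain ⟨t', ht', c, _, rfl⟩ := hx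
      refine Commute.sub_left ?_ ((Commute.one_left _).smul_left c)
      change ρ t' * ρ t = ρ t * ρ t'
      rw [← map_mul, ← map_mul, hT _ ht' _ ht]
    | one => exact Commute.one_left _
    | mul x y _ _ hx hy => exact hx.mul_left hy
  have hCC : ∀ r ∈ C, ∀ s ∈ C, Commute r s := by
    intro r hr s hs
    induction hs using Submonoid.closure_induction with
    | mem x hx =>
      obtain ⟨t', ht', c, _, rfl⟩ := hx
      exact Commute.sub_right (hCT r hr t' ht') ((Commute.one_right _).smul_right c)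
    | one => exact Commute.one_right _
    | mul x y _ _ hx hy => exact hx.mul_right hy
  have hCI : ∀ r ∈ C, ∀ x ∈ I, r x ∈ I := by
    intro r hr
    induction hr using Submonoid.closure_induction with
    | mem y hy =>
      obtain ⟨t', ht', c, _, rfl⟩ := hy
      intro x hx
      rw [LinearMap.sub_apply, LinearMap.smul_apply, Module.End.one_apply]
      exact I.sub_mem (hIT t' ht' x hx) (I.smul_mem c hx)
    | one => intro x hx; exact hx
    | mul a b _ _ ha hb => intro x hx; exact ha _ (hb _ hx)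
  have hCH : ∀ r ∈ C, ∃ a : K, a ≠ 0 ∧ ∀ h : H, r ((0 : V), h) = ((0 : V), a • h) := by
    intro r hr
    induction hr using Submonoid.closure_induction with
    | mem y hy =>
      obtain ⟨t', ht', c, hc, rfl⟩ := hy
      refine ⟨1 - c, sub_ne_zero.mpr (Ne.symm hc), ?_⟩
      intro h
      rw [LinearMap.sub_apply, LinearMap.smul_apply, Module.End.one_apply, hρ]
      ext
      · simp
      · simp [sub_smul]
    | one => exact ⟨1, one_ne_zero, fun h => by simp⟩
    | mul x y _ _ hx hy =>
      obtain ⟨a, ha, hax⟩ := hx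
      obtain ⟨b, hb, hby⟩ := hy
      refine ⟨a * b, mul_ne_zero ha hb, ?_⟩
      intro h
      rw [Module.End.mul_apply, hby, hax, smul_smul]
  let E1 : Submodule K (V × H) :=
    { carrier := {e | ∃ r ∈ C, r e ∈ I}
      zero_mem' := ⟨1, C.one_mem, by simp⟩
      add_mem' := by
        rintro a b ⟨r, hr, hra⟩ ⟨s, hs, hsb⟩
        refine ⟨r * s, C.mul_mem hr hs, ?_⟩
        rw [map_add]
        refine I.add_mem ?_ ?_
        · rw [(hCC r hr s hs).eq, Module.End.mul_apply]
          exact hCI s hs _ hra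
        · rw [Module.End.mul_apply]
          exact hCI r hr _ hsb
      smul_mem' := by
        rintro c a ⟨r, hr, hra⟩
        refine ⟨r, hr, ?_⟩
        rw [map_smul]
        exact I.smul_mem c hra }
  have hIE : ∀ x ∈ I, x ∈ E1 := fun x hx => ⟨1, C.one_mem, by simpa using hx⟩
  have hEN : ∀ n ∈ N, ∀ x ∈ E1, ρ n x ∈ E1 := by
    intro n hn x hx
    have : ρ n x = x + (ρ n x - x) := by abel
    rw [this]
    exact E1.add_mem hx (hIE _ (hIgen n hn x))
  have hET : ∀ t ∈ T, ∀ x ∈ E1, ρ t x ∈ E1 := by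
    rintro t ht x ⟨r, hr, hrx⟩
    refine ⟨r, hr, ?_⟩
    have h3 := congrArg (fun f : Module.End K (V × H) => f x) (hCT r hr t ht).eq
    simp only [Module.End.mul_apply] at h3
    rw [h3]
    exact hIT t ht _ hrx
  have hEB : ∀ g, ∀ x ∈ E1, ρ g x ∈ E1 := by
    intro g x hx
    obtain ⟨n, hn, t, ht, rfl⟩ := hB g
    rw [map_mul, Module.End.mul_apply]
    exact hEN n hn _ (hET t ht x hx)
  have hEH : ∀ h : H, ((0 : V), h) ∈ E1 → h = 0 := by
    rintro h ⟨r, hr, hrx⟩
    obtain ⟨a, ha, hax⟩ := hCH r hr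
    rw [hax] at hrx
    rcases smul_eq_zero.mp (hIH _ hrx) with h5 | h5
    · exact absurd h5 ha
    · exact h5
  -- `E1` projects onto `V`
  have hproj : ∀ v : V, ∃ h : H, (v, h) ∈ E1 := by
    intro v
    have hv : v ∈ Submodule.span K S := by rw [hS]; trivial
    induction hv using Submodule.span_induction with
    | mem v hv =>
      obtain ⟨t, ht, c, hc, hx⟩ := h2 v hv
      have h3 : ∀ x ∈ Submodule.span K {x | ∃ n ∈ N, ∃ w, x = A n w - w}, ∃ h : H, (x, h) ∈ I := by
        intro x hx
        induction hx using Submodule.span_induction with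
        | mem x hx =>
          obtain ⟨n, hn, w, rfl⟩ := hx
          refine ⟨U n w, ?_⟩
          have h4 := hIgen n hn (w, 0)
          rw [hρ] at h4
          simpa using h4
        | zero => exact ⟨0, I.zero_mem⟩
        | add x y _ _ hx hy =>
          obtain ⟨a, ha⟩ := hx
          obtain ⟨b, hb⟩ := hy
          exact ⟨a + b, I.add_mem ha hb⟩
        | smul c x _ hx =>
          obtain ⟨a, ha⟩ := hx
          exact ⟨c • a, I.smul_mem c ha⟩
      obtain ⟨h, hh⟩ := h3 _ hx
      have hc' : (1 - c) ≠ 0 := sub_ne_zero.mpr (Ne.symm hc)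
      refine ⟨(1 - c)⁻¹ • (h - U t v), ρ t - c • 1, Submonoid.subset_closure ⟨t, ht, c, hc, rfl⟩, ?_⟩
      rw [LinearMap.sub_apply, LinearMap.smul_apply, Module.End.one_apply, hρ]
      have h5 : (A t v, (1 - c)⁻¹ • (h - U t v) + U t v) - c • (v, (1 - c)⁻¹ • (h - U t v)) =
          (A t v - c • v, h) := by
        ext
        · simp
        · have h6 : (1 - c)⁻¹ • (h - U t v) - c • ((1 - c)⁻¹ • (h - U t v)) = h - U t v := by
            rw [smul_smul, ← sub_smul]
            have : (1 - c)⁻¹ - c * (1 - c)⁻¹ = 1 := by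
              rw [← one_sub_mul, mul_inv_cancel₀ hc']
            rw [this, one_smul]
          change (1 - c)⁻¹ • (h - U t v) + U t v - c • ((1 - c)⁻¹ • (h - U t v)) = h
          rw [add_sub_right_comm, h6, sub_add_cancel]
      rw [h5]
      exact hh
    | zero => exact ⟨0, E1.zero_mem⟩
    | add x y _ _ hx hy =>
      obtain ⟨a, ha⟩ := hx
      obtain ⟨b, hb⟩ := hy
      exact ⟨a + b, E1.add_mem ha hb⟩
    | smul c x _ hx =>
      obtain ⟨a, ha⟩ := hx
      exact ⟨c • a, E1.smul_mem c ha⟩
  have huniq : ∀ (v : V) (h h' : H), (v, h) ∈ E1 → (v, h') ∈ E1 → h = h' := by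
    intro v h h' hh hh'
    have h3 := E1.sub_mem hh hh'
    have h4 : (v, h) - (v, h') = ((0 : V), h - h') := by ext <;> simp
    rw [h4] at h3
    exact sub_eq_zero.mp (hEH _ h3)
  choose ψ hψ using hproj
  let φ : V →ₗ[K] H :=
    { toFun := ψ
      map_add' := fun x y => huniq (x + y) _ _ (hψ _) (E1.add_mem (hψ x) (hψ y))
      map_smul' := fun c x => huniq (c • x) _ _ (hψ _) (E1.smul_mem c (hψ x)) }
  refine ⟨φ, ?_⟩
  intro g v
  have h3 := hEB g _ (hψ v)
  rw [hρ] at h3
  have h4 := huniq _ _ _ h3 (hψ (A g v))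
  change U g v = ψ (A g v) - ψ v
  rw [← h4]
  abel

/-- functional equations on finite sets: `θ^j x = θ^(j+m) x` for some `m > 0` -/
theorem lem_P {K H X : Type} [Field K] [AddCommGroup H] [Module K H] [Finite X] (θ : X → X) (κ : K)
    (hκ : ∀ m : ℕ, 0 < m → κ ^ m ≠ 1) (h : X → H) (hh : ∀ x, h x = κ • h (θ x)) (x : X) :
    h x = 0 := by
  have hit : ∀ (j : ℕ) (y : X), h y = κ ^ j • h (θ^[j] y) := by
    intro j
    induction j with
    | zero => intro y; simp
    | succ j ih =>
      intro y
      rw [hh y, ih (θ y), smul_smul, Function.iterate_succ_apply, pow_succ']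
  obtain ⟨i, j, hij, he⟩ := Finite.exists_ne_map_eq_of_infinite (fun j : ℕ => θ^[j] x)
  wlog hlt : i < j generalizing i j with H'
  · exact H' j i hij.symm he.symm (lt_of_le_of_ne (not_lt.mp hlt) hij.symm)
  have h1 : h (θ^[i] x) = κ ^ (j - i) • h (θ^[i] x) := by
    have h2 := hit (j - i) (θ^[i] x)
    rw [← Function.iterate_add_apply, Nat.sub_add_cancel hlt.le] at h2
    have he' : θ^[i] x = θ^[j] x := he
    rw [← he'] at h2
    exact h2
  have h3 : (1 - κ ^ (j - i)) • h (θ^[i] x) = 0 := by
    rw [sub_smul, one_smul, ← h1, sub_self]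
  rcases smul_eq_zero.mp h3 with h4 | h4
  · exact absurd (sub_eq_zero.mp h4).symm (hκ _ (Nat.sub_pos_of_lt hlt))
  · rw [hit i x, h4, smul_zero]

end Pool.Agent.KTD
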