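import Pool.Agent.Lib_helper87.KTD.Defs

set_option autoImplicit false

namespace Pool.Agent.KTD

open Complex Pool.Agent.TCL

variable {O : Subring ℂ} {N : ℕ}

theorem O_le_ON {z : ℂ} (hz : z ∈ O) : z ∈ ON O N := ⟨0, by simpa using hz⟩

private theorem da_N (hN : 0 < N) : (N : ℂ) ≠ 0 := by
  exact_mod_cast hN.ne'

theorem ON_le_KK (hN : 0 < N) {z : ℂ} (hz : z ∈ ON O N) : z ∈ KK O := by
  obtain ⟨k, hk⟩ := hz
  have h1 : (N : ℂ) ^ k * z ∈ KK O := Subfield.subset_closure hk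
  have h2 : (N : ℂ) ^ k ∈ KK O := (KK O).pow_mem (natCast_mem _ N) k
  have h3 : z = ((N : ℂ) ^ k)⁻¹ * ((N : ℂ) ^ k * z) := by
    rw [← mul_assoc, inv_mul_cancel₀ (pow_ne_zero _ (da_N hN)), one_mul]
  rw [h3]
  exact (KK O).mul_mem ((KK O).inv_mem h2) h1

/-- if `N^k z` is in `O` and `p ∣ z` in `O[1/N]` then `p ∣ N^m z` in `O`; `p` does not divide `N` -/
theorem on_cap (hN : 0 < N) {p : O} (hp : Prime p) (hpN : ¬ p ∣ (N : O)) {z : O} {y : ℂ}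
    (hy : y ∈ ON O N) (h : (z : ℂ) = p * y) : p ∣ z := by
  obtain ⟨k, hk⟩ := hy
  have h1 : (N : O) ^ k * z = p * ⟨_, hk⟩ := by
    apply Subtype.ext
    push_cast
    rw [h]
    ring
  have h2 : p ∣ (N : O) ^ k * z := ⟨_, h1⟩
  rcases hp.dvd_or_dvd h2 with h3 | h3
  · exact absurd (hp.dvd_of_dvd_pow h3) hpN
  · exact h3

theorem on_prime (hN : 0 < N) {p : O} (hp : Prime p) (hpN : ¬ p ∣ (N : O)) {z w y : ℂ}
    (hz : z ∈ ON O N) (hw : w ∈ ON O N) (hy : y ∈ ON O N) (h : z * w = p * y) :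
    (∃ y' ∈ ON O N, z = p * y') ∨ ∃ y' ∈ ON O N, w = p * y' := by
  obtain ⟨k, hk⟩ := hz
  obtain ⟨m, hm⟩ := hw
  obtain ⟨j, hj⟩ := hy
  have h1 : (⟨_, hk⟩ : O) * ⟨_, hm⟩ * (N : O) ^ j = p * ((N : O) ^ (k + m) * ⟨_, hj⟩) := by
    apply Subtype.ext
    push_cast
    calc (N : ℂ) ^ k * z * ((N : ℂ) ^ m * w) * (N : ℂ) ^ j
        = (N : ℂ) ^ (k + m) * (N : ℂ) ^ j * (z * w) := by ring
      _ = p * ((N : ℂ) ^ (k + m) * ((N : ℂ) ^ j * y)) := by rw [h]; ring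
  have h2 : p ∣ (⟨_, hk⟩ : O) * ⟨_, hm⟩ * (N : O) ^ j := ⟨_, h1⟩
  have key : ∀ {x : ℂ} {i : ℕ} (hx : (N : ℂ) ^ i * x ∈ O), p ∣ (⟨_, hx⟩ : O) →
      ∃ y' ∈ ON O N, x = p * y' := by
    rintro x i hx ⟨c, hc⟩
    have hc' := congrArg Subtype.val hc
    push_cast at hc'
    have hNi : (N : ℂ) ^ i ≠ 0 := pow_ne_zero _ (da_N hN)
    refine ⟨((N : ℂ) ^ i)⁻¹ * c, ⟨i, ?_⟩, ?_⟩
    · rw [← mul_assoc, mul_inv_cancel₀ hNi, one_mul]
      exact c.2
    · have : x = ((N : ℂ) ^ i)⁻¹ * ((N : ℂ) ^ i * x) := by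
        rw [← mul_assoc, inv_mul_cancel₀ hNi, one_mul]
      rw [this, hc']
      ring
  rcases hp.dvd_or_dvd h2 with h3 | h3
  · rcases hp.dvd_or_dvd h3 with h4 | h4
    · exact Or.inl (key hk h4)
    · exact Or.inr (key hm h4)
  · exact absurd (hp.dvd_of_dvd_pow h3) hpN

private theorem da_cr {v l : V2} (hv : In (ON O N) v) (hl : In (ON O N) l) : cr v l ∈ ON O N :=
  (ON O N).sub_mem ((ON O N).mul_mem hv.1 hl.2) ((ON O N).mul_mem hv.2 hl.1)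

/-- if `c w` is in `p O[1/N]²` and `w` is not, then `p ∣ c` -/
private theorem da_key (hN : 0 < N) {p : O} (hp : Prime p) (hpN : ¬ p ∣ (N : O)) {w : V2} {c : ℂ}
    (hc : c ∈ ON O N) (hw : In (ON O N) w) (hw' : w ∉ pL O N p) {y1 y2 : ℂ} (hy1 : y1 ∈ ON O N)
    (hy2 : y2 ∈ ON O N) (h1 : c * w.1 = p * y1) (h2 : c * w.2 = p * y2) :
    ∃ z ∈ ON O N, c = p * z := by
  rcases on_prime hN hp hpN hc hw.1 hy1 h1 with h3 | ⟨z1, hz1, h3⟩
  · exact h3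
  · rcases on_prime hN hp hpN hc hw.2 hy2 h2 with h4 | ⟨z2, hz2, h4⟩
    · exact h4
    · exact absurd ⟨(z1, z2), ⟨hz1, hz2⟩, Prod.ext (by simpa using h3) (by simpa using h4)⟩ hw'

/-- `[w, m] l - [l, m] w = [w, l] m` and `on_prime` -/
theorem lw_eq (hN : 0 < N) {p : O} (hp : Prime p) (hpN : ¬ p ∣ (N : O)) {w l : V2}
    (hw : In (ON O N) w) (hw' : w ∉ pL O N p) (hl : l ∈ Lw O N p w) (hl' : l ∉ pL O N p) :
    Lw O N p w = Lw O N p l := by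
  obtain ⟨hlin, z, hz, hzl⟩ := hl
  ext m
  constructor
  · rintro ⟨hm, y, hy, hym⟩
    refine ⟨hm, ?_⟩
    refine da_key hN hp hpN (da_cr hlin hm) hw hw'
      (y1 := y * l.1 - z * m.1) (y2 := y * l.2 - z * m.2) ?_ ?_ ?_ ?_
    · exact (ON O N).sub_mem ((ON O N).mul_mem hy hlin.1) ((ON O N).mul_mem hz hm.1)
    · exact (ON O N).sub_mem ((ON O N).mul_mem hy hlin.2) ((ON O N).mul_mem hz hm.2)
    · have : cr l m * w.1 = cr w m * l.1 - cr w l * m.1 := by simp only [cr]; ring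
      rw [this, hym, hzl]
      ring
    · have : cr l m * w.2 = cr w m * l.2 - cr w l * m.2 := by simp only [cr]; ring
      rw [this, hym, hzl]
      ring
  · rintro ⟨hm, y, hy, hym⟩
    refine ⟨hm, ?_⟩
    refine da_key hN hp hpN (da_cr hw hm) hlin hl'
      (y1 := y * w.1 + z * m.1) (y2 := y * w.2 + z * m.2) ?_ ?_ ?_ ?_
    · exact (ON O N).add_mem ((ON O N).mul_mem hy hw.1) ((ON O N).mul_mem hz hm.1)
    · exact (ON O N).add_mem ((ON O N).mul_mem hy hw.2) ((ON O N).mul_mem hz hm.2)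
    · have : cr w m * l.1 = cr l m * w.1 + cr w l * m.1 := by simp only [cr]; ring
      rw [this, hym, hzl]
      ring
    · have : cr w m * l.2 = cr l m * w.2 + cr w l * m.2 := by simp only [cr]; ring
      rw [this, hym, hzl]
      ring

theorem pL_sub {p : O} {w : V2} (hw : In (ON O N) w) : pL O N p ⊆ Lw O N p w := by
  rintro l ⟨l', hl', rfl⟩
  have hp : (p : ℂ) ∈ ON O N := O_le_ON p.2
  refine ⟨⟨(ON O N).mul_mem hp hl'.1, (ON O N).mul_mem hp hl'.2⟩, cr w l', da_cr hw hl', ?_⟩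
  simp only [cr, Prod.smul_fst, Prod.smul_snd, smul_eq_mul]
  ring

/-- two vectors of `L_w` have a bracket divisible by `p` -/
theorem lw_cr (hN : 0 < N) {p : O} (hp : Prime p) (hpN : ¬ p ∣ (N : O)) {L : Set V2}
    (hL : L ∈ LS O N p) {a b : V2} (ha : a ∈ L) (hb : b ∈ L) : ∃ z ∈ ON O N, cr a b = p * z := by
  obtain ⟨w, hw, hw', rfl⟩ := hL
  obtain ⟨hain, x, hx, hxa⟩ := ha
  obtain ⟨hbin, y, hy, hyb⟩ := hb
  refine da_key hN hp hpN (da_cr hain hbin) hw hw'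
    (y1 := y * a.1 - x * b.1) (y2 := y * a.2 - x * b.2) ?_ ?_ ?_ ?_
  · exact (ON O N).sub_mem ((ON O N).mul_mem hy hain.1) ((ON O N).mul_mem hx hbin.1)
  · exact (ON O N).sub_mem ((ON O N).mul_mem hy hain.2) ((ON O N).mul_mem hx hbin.2)
  · have : cr a b * w.1 = cr w b * a.1 - cr w a * b.1 := by simp only [cr]; ring
    rw [this, hyb, hxa]
    ring
  · have : cr a b * w.2 = cr w b * a.2 - cr w a * b.2 := by simp only [cr]; ring
    rw [this, hyb, hxa]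
    ring

end Pool.Agent.KTD
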