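import Pool.Agent.Lib_helper87.KTD.P.DA
import Pool.Agent.Lib_helper76.TCL.P.QB
import Pool.Agent.Lib_helper76.TCL.P.QD

set_option autoImplicit false

namespace Pool.Agent.KTD

open Complex Pool.Agent.TCL

variable {O : Subring ℂ} {ω : ℂ} {N : ℕ}

private theorem db_one {p : O} (hN : 0 < N) (hp : Prime p) (hpN : ¬ p ∣ (N : O)) {y : ℂ}
    (hy : y ∈ ON O N) : (1 : ℂ) ≠ p * y := by
  intro h
  have h1 : p ∣ (1 : O) := on_cap hN hp hpN hy (by push_cast; exact h)
  exact hp.not_isUnit (isUnit_of_dvd_one h1)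

private theorem db_n01 {p : O} (hN : 0 < N) (hp : Prime p) (hpN : ¬ p ∣ (N : O)) {x : ℂ} :
    ((x, 1) : V2) ∉ pL O N p := by
  rintro ⟨l', hl', h⟩
  have h2 : (1 : ℂ) = p * l'.2 := by
    have := congrArg Prod.snd h
    simpa using this
  exact db_one hN hp hpN hl'.2 h2

private theorem db_n10 {p : O} (hN : 0 < N) (hp : Prime p) (hpN : ¬ p ∣ (N : O)) {x : ℂ} :
    ((1, x) : V2) ∉ pL O N p := by
  rintro ⟨l', hl', h⟩
  have h2 : (1 : ℂ) = p * l'.1 := by
    have := congrArg Prod.fst h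
    simpa using this
  exact db_one hN hp hpN hl'.1 h2

private theorem db_pow {p : O} (hN : 0 < N) (hp : Prime p) (hpN : ¬ p ∣ (N : O)) (k : ℕ)
    {z y : ℂ} (hz : z ∈ ON O N) (hy : y ∈ ON O N) (h : (N : ℂ) ^ k * z = p * y) :
    ∃ y' ∈ ON O N, z = p * y' := by
  have hNk : (N : ℂ) ^ k ∈ ON O N := O_le_ON (O.pow_mem (natCast_mem O N) k)
  rcases on_prime hN hp hpN hNk hz hy h with ⟨y', hy', h1⟩ | h1
  · exfalso
    have h2 : p ∣ ((N : O) ^ k) := on_cap hN hp hpN hy' (by push_cast; exact h1)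
    exact hpN (hp.dvd_of_dvd_pow h2)
  · exact h1

private theorem db_int {p : O} (hN : 0 < N) (hp : Prime p) (hpN : ¬ p ∣ (N : O)) {w : V2}
    (hw : In (ON O N) w) (hw' : w ∉ pL O N p) :
    ∃ a b : O, ((a : ℂ), (b : ℂ)) ∉ pL O N p ∧ Lw O N p w = Lw O N p ((a : ℂ), (b : ℂ)) := by
  obtain ⟨⟨k, hk⟩, ⟨m, hm⟩⟩ := hw
  have hNj : ∀ j : ℕ, (N : ℂ) ^ j ∈ O := fun j => O.pow_mem (natCast_mem O N) j
  have e1 : (N : ℂ) ^ (k + m) * w.1 ∈ O := by
    have : (N : ℂ) ^ (k + m) * w.1 = (N : ℂ) ^ m * ((N : ℂ) ^ k * w.1) := by ring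
    rw [this]
    exact O.mul_mem (hNj m) hk
  have e2 : (N : ℂ) ^ (k + m) * w.2 ∈ O := by
    have : (N : ℂ) ^ (k + m) * w.2 = (N : ℂ) ^ k * ((N : ℂ) ^ m * w.2) := by ring
    rw [this]
    exact O.mul_mem (hNj k) hm
  have hn : (((⟨_, e1⟩ : O) : ℂ), ((⟨_, e2⟩ : O) : ℂ)) ∉ pL O N p := by
    rintro ⟨l', hl', h⟩
    apply hw'
    have h1 : (N : ℂ) ^ (k + m) * w.1 = p * l'.1 := by
      have := congrArg Prod.fst h
      simpa using this
    have h2 : (N : ℂ) ^ (k + m) * w.2 = p * l'.2 := by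
      have := congrArg Prod.snd h
      simpa using this
    obtain ⟨y1, hy1, h1'⟩ := db_pow hN hp hpN (k + m) ⟨k, hk⟩ hl'.1 h1
    obtain ⟨y2, hy2, h2'⟩ := db_pow hN hp hpN (k + m) ⟨m, hm⟩ hl'.2 h2
    exact ⟨(y1, y2), ⟨hy1, hy2⟩, Prod.ext (by simpa using h1') (by simpa using h2')⟩
  refine ⟨⟨_, e1⟩, ⟨_, e2⟩, hn, ?_⟩
  refine lw_eq hN hp hpN ⟨⟨k, hk⟩, ⟨m, hm⟩⟩ hw' ?_ hn
  refine ⟨⟨O_le_ON e1, O_le_ON e2⟩, 0, (ON O N).zero_mem, ?_⟩
  simp only [cr, mul_zero]
  ring

/-- every `p`-sublattice is `L_w` with `w = (0, 1)` or `w = (1, j)`, `j` in a set of representatives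
modulo `p` (`exists_reps`, `card_reps`); multiply `w` by a power of `N` first -/
theorem ls_eq (hO : Quad O ω) (hN : 0 < N) {p : O} (hp : Prime p) (hpN : ¬ p ∣ (N : O))
    {S : Finset O} (hS : IsReps p S) {L : Set V2} (hL : L ∈ LS O N p) :
    L = Lw O N p (0, 1) ∨ ∃ j ∈ S, L = Lw O N p (1, (j : ℂ)) := by
  obtain ⟨w, hw, hw', rfl⟩ := hL
  obtain ⟨a, b, hab, he⟩ := db_int hN hp hpN hw hw'
  rw [he]
  have hin : In (ON O N) ((a : ℂ), (b : ℂ)) := ⟨O_le_ON a.2, O_le_ON b.2⟩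
  by_cases ha : p ∣ a
  · left
    obtain ⟨c, rfl⟩ := ha
    refine lw_eq hN hp hpN hin hab ?_ (db_n01 hN hp hpN)
    refine ⟨⟨(ON O N).zero_mem, (ON O N).one_mem⟩, c, O_le_ON c.2, ?_⟩
    simp only [cr]
    push_cast
    ring
  · right
    classical
    choose σ hσ using fun x : O => (hS x).exists
    have hinj : Set.InjOn (fun j => σ (a * j)) (S : Set O) := by
      intro j hj j' hj' h
      have h1 := (hσ (a * j)).2
      have h2 := (hσ (a * j')).2
      have h : σ (a * j) = σ (a * j') := h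
      rw [h] at h1
      have h3 : p ∣ a * (j - j') := by
        have := dvd_sub h1 h2
        have e : a * j - σ (a * j') - (a * j' - σ (a * j')) = a * (j - j') := by ring
        rwa [e] at this
      rcases hp.dvd_or_dvd h3 with h4 | h4
      · exact absurd h4 ha
      · exact (hS j).unique ⟨hj, by simp⟩ ⟨hj', h4⟩
    have hmaps : Set.MapsTo (fun j => σ (a * j)) (S : Set O) (S : Set O) := fun j _ => (hσ _).1
    have hsurj := Finset.surjOn_of_injOn_of_card_le (fun j => σ (a * j)) hmaps hinj le_rfl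
    obtain ⟨j, hj, hjb⟩ := hsurj (hσ b).1
    refine ⟨j, hj, ?_⟩
    have hjb : σ (a * j) = σ b := hjb
    have h5 : p ∣ a * j - b := by
      have h1 := (hσ (a * j)).2
      have h2 := (hσ b).2
      rw [hjb] at h1
      have := dvd_sub h1 h2
      have e : a * j - σ b - (b - σ b) = a * j - b := by ring
      rwa [e] at this
    obtain ⟨c, hc⟩ := h5
    refine lw_eq hN hp hpN hin hab ?_ (db_n10 hN hp hpN)
    refine ⟨⟨(ON O N).one_mem, O_le_ON j.2⟩, c, O_le_ON c.2, ?_⟩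
    have hc' := congrArg (Subtype.val) hc
    push_cast at hc'
    simp only [cr]
    rw [← hc']
    ring

private theorem db_sub (hO : Quad O ω) (hN : 0 < N) {p : O} (hp : Prime p) (hpN : ¬ p ∣ (N : O))
    {S : Finset O} (hS : IsReps p S) : LS O N p ⊆
      insert (Lw O N p (0, 1)) ((fun j : O => Lw O N p (1, (j : ℂ))) '' (S : Set O)) := by
  intro L hL
  rcases ls_eq hO hN hp hpN hS hL with h | ⟨j, hj, h⟩
  · exact Set.mem_insert_iff.2 (Or.inl h)
  · exact Set.mem_insert_iff.2 (Or.inr ⟨j, hj, h.symm⟩)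

theorem ls_finite (hO : Quad O ω) (hN : 0 < N) {p : O} (hp : Prime p) (hpN : ¬ p ∣ (N : O)) :
    (LS O N p).Finite := by
  obtain ⟨S, hS⟩ := exists_reps hO p hp.ne_zero
  exact ((S.finite_toSet.image _).insert _).subset (db_sub hO hN hp hpN hS)

theorem mem_LF (hO : Quad O ω) (hN : 0 < N) {p : O} (hp : Prime p) (hpN : ¬ p ∣ (N : O))
    {L : Set V2} : L ∈ LF O N p ↔ L ∈ LS O N p := by
  rw [LF, dif_pos (ls_finite hO hN hp hpN), Set.Finite.mem_toFinset]

theorem lf_card (hO : Quad O ω) (hN : 0 < N) {p : O} (hp : Prime p) (hpN : ¬ p ∣ (N : O)) :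
    ((LF O N p).card : ℝ) ≤ ‖(p : ℂ)‖ ^ 2 + 1 := by
  classical
  obtain ⟨S, hS⟩ := exists_reps hO p hp.ne_zero
  have h1 : LF O N p ⊆ insert (Lw O N p (0, 1)) (S.image fun j : O => Lw O N p (1, (j : ℂ))) := by
    intro L hL
    rw [mem_LF hO hN hp hpN] at hL
    rcases ls_eq hO hN hp hpN hS hL with h | ⟨j, hj, h⟩
    · exact Finset.mem_insert.2 (Or.inl h)
    · exact Finset.mem_insert.2 (Or.inr (Finset.mem_image.2 ⟨j, hj, h.symm⟩))
  have h2 : (LF O N p).card ≤ S.card + 1 :=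
    (Finset.card_le_card h1).trans ((Finset.card_insert_le _ _).trans
      (Nat.add_le_add_right Finset.card_image_le 1))
  have h3 := card_reps hO hp.ne_zero hS
  have h4 : ((LF O N p).card : ℝ) ≤ (S.card : ℝ) + 1 := by exact_mod_cast h2
  linarith

/-- a vector outside of `p O[1/N]²` is in exactly one sublattice (`lw_eq`), one inside is in all -/
theorem sum_res (hO : Quad O ω) (hN : 0 < N) {p : O} (hp : Prime p) (hpN : ¬ p ∣ (N : O))
    {F : Fm O} (hF : ∀ c l, F c l ≠ 0 → In (ON O N) l) :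
    ∑ L ∈ LF O N p, res L F = F + (((LF O N p).card - 1 : ℤ) : KK O) • res (pL O N p) F := by
  classical
  funext c l
  have e1 : (∑ L ∈ LF O N p, res L F) c l =
      ∑ L ∈ LF O N p, if l ∈ L then F c l else 0 := by
    rw [Finset.sum_apply, Finset.sum_apply]
    refine Finset.sum_congr rfl fun L _ => ?_
    unfold res
    split_ifs <;> rfl
  rw [e1]
  have e2 : (F + (((LF O N p).card - 1 : ℤ) : KK O) • res (pL O N p) F) c l =
      F c l + (((LF O N p).card - 1 : ℤ) : KK O) • (if l ∈ pL O N p then F c l else 0) := by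
    show F c l + (((LF O N p).card - 1 : ℤ) : KK O) • (res (pL O N p) F c l) = _
    unfold res
    split_ifs <;> rfl
  rw [e2]
  by_cases h0 : F c l = 0
  · simp [h0]
  · have hl := hF c l h0
    by_cases hpl : l ∈ pL O N p
    · rw [if_pos hpl]
      have h1 : ∀ L ∈ LF O N p, (if l ∈ L then F c l else 0) = F c l := by
        intro L hL
        rw [mem_LF hO hN hp hpN] at hL
        obtain ⟨w, hw, -, rfl⟩ := hL
        exact if_pos (pL_sub hw hpl)
      rw [Finset.sum_congr rfl h1, Finset.sum_const]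
      have h2 : (((LF O N p).card - 1 : ℤ) : KK O) • F c l =
          ((LF O N p).card : KK O) • F c l - F c l := by
        push_cast
        rw [sub_smul, one_smul]
      rw [h2, ← Nat.cast_smul_eq_nsmul (KK O)]
      abel
    · rw [if_neg hpl, smul_zero, add_zero]
      have hmem : Lw O N p l ∈ LF O N p := (mem_LF hO hN hp hpN).2 ⟨l, hl, hpl, rfl⟩
      have hself : l ∈ Lw O N p l := by
        refine ⟨hl, 0, (ON O N).zero_mem, ?_⟩
        simp only [cr, mul_zero]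
        ring
      rw [Finset.sum_eq_single_of_mem _ hmem, if_pos hself]
      intro L hL hne
      rw [mem_LF hO hN hp hpN] at hL
      obtain ⟨w, hw, hw', rfl⟩ := hL
      refine if_neg fun hlL => hne ?_
      exact lw_eq hN hp hpN hw hw' hlL hpl

end Pool.Agent.KTD
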