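import Pool.Agent.Lib_helper87.KTD.Defs

set_option autoImplicit false

namespace Pool.Agent.KTD

open Complex Pool.Agent.TCL

/-- Plücker: `[a, b] [v, l] = [a, l] [v, b] - [b, l] [v, a]` -/
theorem gb_pl (a b v l : V2) : cr a b * cr v l = cr a l * cr v b - cr b l * cr v a := by
  unfold cr
  ring

/-- with `r_i = r_0 + [v, l] z_i`, `e_ij = z_i - z_j` (`z_0 = 0`) this is a ring identity -/
theorem gg_coc {u0 u1 u2 u3 v l : V2} (h0 : cr u0 l ≠ 0) (h1 : cr u1 l ≠ 0) (h2 : cr u2 l ≠ 0)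
    (h3 : cr u3 l ≠ 0) :
    GG u1 u2 u3 v l - GG u0 u2 u3 v l + GG u0 u1 u3 v l - GG u0 u1 u2 v l = 0 := by
  -- `z_i = e_(i0)`
  have hr : ∀ u : V2, cr u l ≠ 0 → rr u v l = rr u0 v l + cr v l * ee u u0 l := by
    intro u hu
    unfold rr ee
    field_simp
    unfold cr
    ring
  have he : ∀ u w : V2, cr u l ≠ 0 → cr w l ≠ 0 → ee u w l = ee u u0 l - ee w u0 l := by
    intro u w hu hw
    unfold ee
    field_simp
    unfold cr
    ring
  have h00 : ee u0 u0 l = 0 := by
    unfold ee cr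
    ring_nf
  unfold GG
  rw [hr u1 h1, hr u2 h2, hr u3 h3, he u1 u2 h1 h2, he u2 u3 h2 h3, he u0 u2 h0 h2,
    he u0 u1 h0 h1, he u1 u3 h1 h3, h00]
  simp only [map_sub, map_zero]
  ring

theorem gb_lin (g : GL2) (v : V2) : g v = v.1 • g (1, 0) + v.2 • g (0, 1) := by
  have e : v = v.1 • ((1, 0) : V2) + v.2 • ((0, 1) : V2) := by
    ext <;> simp
  conv_lhs => rw [e]
  rw [map_add, map_smul, map_smul]

theorem cr_act (g : GL2) (u v : V2) : cr (g u) (g v) = dt g * cr u v := by
  rw [gb_lin g u, gb_lin g v]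
  unfold dt cr
  simp only [Prod.fst_add, Prod.snd_add, Prod.smul_fst, Prod.smul_snd, smul_eq_mul]
  ring

theorem dt_mul (g h : GL2) : dt (g * h) = dt g * dt h := by
  have : dt (g * h) = cr (g (h (1, 0))) (g (h (0, 1))) := rfl
  rw [this, cr_act]
  rfl

theorem dt_one : dt 1 = 1 := by
  show cr ((1, 0) : V2) (0, 1) = 1
  simp [cr]

theorem dt_ne_zero (g : GL2) : dt g ≠ 0 := by
  intro h
  have e : dt (g * g⁻¹) = dt g * dt g⁻¹ := dt_mul g g⁻¹
  rw [mul_inv_cancel, dt_one, h, zero_mul] at e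
  exact one_ne_zero e

theorem gg_act (g : GL2) (u1 u2 u3 v l : V2) :
    GG (g u1) (g u2) (g u3) (g v) (g l) = GG u1 u2 u3 v l / (‖dt g‖ : ℂ) ^ 2 := by
  have hd := dt_ne_zero g
  have hr : ∀ u : V2, rr (g u) (g v) (g l) = rr u v l := by
    intro u
    unfold rr
    rw [cr_act, cr_act, mul_div_mul_left _ _ hd]
  have he : ∀ u w : V2, ee (g u) (g w) (g l) = ee u w l / dt g := by
    intro u w
    unfold ee
    rw [cr_act, cr_act, cr_act]
    by_cases h : cr u l * cr w l = 0
    · have : dt g * cr u l * (dt g * cr w l) = 0 := by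
        rw [show dt g * cr u l * (dt g * cr w l) = dt g * dt g * (cr u l * cr w l) by ring, h,
          mul_zero]
      rw [h, this]
      simp
    · have h1 : cr u l ≠ 0 := left_ne_zero_of_mul h
      have h2 : cr w l ≠ 0 := right_ne_zero_of_mul h
      field_simp
  have hn : ((‖dt g‖ : ℝ) : ℂ) ^ 2 = dt g * starRingEnd ℂ (dt g) := by
    rw [Complex.mul_conj, Complex.normSq_eq_norm_sq]
    push_cast
    ring
  have hc : starRingEnd ℂ (dt g) ≠ 0 := by
    rw [Ne, map_eq_zero]
    exact hd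
  unfold GG
  rw [hr, hr, he, he, hn, map_div₀, map_div₀]
  field_simp

theorem gg_line (t : ℂ) (ht : t ≠ 0) (u1 u2 u3 v l : V2) :
    GG u1 u2 u3 v (t • l) = GG u1 u2 u3 v l * (starRingEnd ℂ t / (‖t‖ : ℂ) ^ 6) := by
  have hc : ∀ u : V2, cr u (t • l) = t * cr u l := by
    intro u
    unfold cr
    simp only [Prod.smul_fst, Prod.smul_snd, smul_eq_mul]
    ring
  have hr : ∀ u : V2, rr u v (t • l) = rr u v l / t := by
    intro u
    unfold rr
    rw [hc]
    by_cases h : cr u l = 0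
    · rw [h]; simp
    · field_simp
  have he : ∀ u w : V2, ee u w (t • l) = ee u w l / t ^ 2 := by
    intro u w
    unfold ee
    rw [hc, hc]
    by_cases h : cr u l * cr w l = 0
    · have : t * cr u l * (t * cr w l) = 0 := by
        rw [show t * cr u l * (t * cr w l) = t * t * (cr u l * cr w l) by ring, h, mul_zero]
      rw [h, this]
      simp
    · have h1 : cr u l ≠ 0 := left_ne_zero_of_mul h
      have h2 : cr w l ≠ 0 := right_ne_zero_of_mul h
      field_simp
  have hn : ((‖t‖ : ℝ) : ℂ) ^ 2 = t * starRingEnd ℂ t := by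
    rw [Complex.mul_conj, Complex.normSq_eq_norm_sq]
    push_cast
    ring
  have hn6 : ((‖t‖ : ℝ) : ℂ) ^ 6 = (t * starRingEnd ℂ t) ^ 3 := by
    rw [← hn]; ring
  have hct : starRingEnd ℂ t ≠ 0 := by
    rw [Ne, map_eq_zero]
    exact ht
  unfold GG
  rw [hr, hr, he, he, hn6, map_div₀, map_div₀, map_pow]
  field_simp

/-- `u, u0` are proportional and nonzero -/
theorem par_smul {u0 u : V2} (h0 : u0 ≠ 0) (hu : u ≠ 0) (h : cr u0 u = 0) :
    ∃ s : ℂ, s ≠ 0 ∧ u = s • u0 := by
  obtain ⟨a, b⟩ := u0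
  obtain ⟨c, d⟩ := u
  unfold cr at h
  simp only at h
  by_cases ha : a = 0
  · have hb : b ≠ 0 := by
      intro hb
      exact h0 (by rw [ha, hb]; rfl)
    have hc : c = 0 := by
      rw [ha, zero_mul, zero_sub, neg_eq_zero] at h
      rcases mul_eq_zero.1 h with h | h
      · exact absurd h hb
      · exact h
    have hd : d ≠ 0 := by
      intro hd
      exact hu (by rw [hc, hd]; rfl)
    refine ⟨d / b, div_ne_zero hd hb, ?_⟩
    ext
    · simp [ha, hc]
    · show d = d / b * b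
      field_simp
  · have e : d = c / a * b := by
      field_simp
      linear_combination h
    have hc : c ≠ 0 := by
      intro hc
      apply hu
      rw [e, hc]
      simp
    refine ⟨c / a, div_ne_zero hc ha, ?_⟩
    ext
    · show c = c / a * a
      field_simp
    · exact e

end Pool.Agent.KTD
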