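import Pool.Agent.Lib_helper87.KTD.P.DA
import Pool.Agent.Lib_helper87.KTD.P.GB

set_option autoImplicit false

namespace Pool.Agent.KTD

open Complex Pool.Agent.TCL

variable {O : Subring ℂ} {N : ℕ}

private theorem dc_cr {u v : V2} (hu : In (ON O N) u) (hv : In (ON O N) v) : cr u v ∈ ON O N :=
  (ON O N).sub_mem ((ON O N).mul_mem hu.1 hv.2) ((ON O N).mul_mem hu.2 hv.1)

private theorem dc_dt {g : GL2} (hg : g ∈ GS (ON O N)) : dt g ∈ ON O N := by
  have h1 : In (ON O N) ((1, 0) : V2) := ⟨(ON O N).one_mem, (ON O N).zero_mem⟩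
  have h2 : In (ON O N) ((0, 1) : V2) := ⟨(ON O N).zero_mem, (ON O N).one_mem⟩
  exact dc_cr (hg _ h1).1 (hg _ h2).1

private theorem dc_inv (g : GL2) : dt g⁻¹ = (dt g)⁻¹ := by
  have h1 : dt g * dt g⁻¹ = 1 := by rw [← dt_mul, mul_inv_cancel, dt_one]
  exact eq_inv_of_mul_eq_one_right h1

private theorem dc_gi (g : GL2) (l : V2) : g (g⁻¹ l) = l := by
  rw [← LinearEquiv.mul_apply, mul_inv_cancel]; rfl

private theorem dc_ig (g : GL2) (l : V2) : g⁻¹ (g l) = l := by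
  rw [← LinearEquiv.mul_apply, inv_mul_cancel]; rfl

/-- `dt g` is a unit of `O[1/N]` -/
theorem dt_mem {g : GL2} (hg : g ∈ GS (ON O N)) : dt g ∈ ON O N ∧ (dt g)⁻¹ ∈ ON O N := by
  refine ⟨dc_dt hg, ?_⟩
  rw [← dc_inv]
  exact dc_dt ((GS (ON O N : Set ℂ)).inv_mem hg)

private theorem dc_sub {p : O} {g : GL2} (hg : g ∈ GS (ON O N)) (w : V2) :
    ∀ l ∈ Lw O N p w, g l ∈ Lw O N p (g w) := by
  rintro l ⟨h1, z, hz, h2⟩
  refine ⟨(hg l h1).1, dt g * z, (ON O N).mul_mem (dt_mem hg).1 hz, ?_⟩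
  rw [cr_act, h2]
  ring

private theorem dc_mem (g : GL2) (L : Set V2) (l : V2) : l ∈ g '' L ↔ g⁻¹ l ∈ L := by
  constructor
  · rintro ⟨m, hm, rfl⟩
    rw [dc_ig]
    exact hm
  · intro h
    exact ⟨g⁻¹ l, h, dc_gi g l⟩

private theorem dc_Lw {p : O} {g : GL2} (hg : g ∈ GS (ON O N)) (w : V2) :
    g '' Lw O N p w = Lw O N p (g w) := by
  apply Set.Subset.antisymm
  · rintro _ ⟨l, hl, rfl⟩
    exact dc_sub hg w l hl
  · intro m hm
    rw [dc_mem]
    have h := dc_sub ((GS (ON O N : Set ℂ)).inv_mem hg) (g w) m hm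
    rwa [dc_ig] at h

private theorem dc_pL_sub {p : O} {g : GL2} (hg : g ∈ GS (ON O N)) :
    ∀ l ∈ pL O N p, g l ∈ pL O N p := by
  rintro _ ⟨l, hl, rfl⟩
  exact ⟨g l, (hg l hl).1, by rw [map_smul]⟩

private theorem dc_pL {p : O} {g : GL2} (hg : g ∈ GS (ON O N)) : g '' pL O N p = pL O N p := by
  apply Set.Subset.antisymm
  · rintro _ ⟨l, hl, rfl⟩
    exact dc_pL_sub hg l hl
  · intro m hm
    rw [dc_mem]
    exact dc_pL_sub ((GS (ON O N : Set ℂ)).inv_mem hg) m hm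

theorem image_LS {p : O} {g : GL2} (hg : g ∈ GS (ON O N)) {L : Set V2} (hL : L ∈ LS O N p) :
    g '' L ∈ LS O N p := by
  obtain ⟨w, hw, hw', rfl⟩ := hL
  refine ⟨g w, (hg w hw).1, ?_, dc_Lw hg w⟩
  intro h
  apply hw'
  have h1 := dc_pL_sub ((GS (ON O N : Set ℂ)).inv_mem hg) _ h
  rwa [dc_ig] at h1

theorem res_act (g : GL2) (L : Set V2) (F : Fm O) : res (g '' L) (act g F) = act g (res L F) := by
  funext c l
  by_cases h : g⁻¹ l ∈ L
  · have h' := (dc_mem g L l).2 h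
    simp only [res, act, if_pos h, if_pos h']
  · have h' : l ∉ g '' L := fun h1 => h ((dc_mem g L l).1 h1)
    simp only [res, act, if_neg h, if_neg h', map_zero, smul_zero]

theorem res_pL_act {p : O} {g : GL2} (hg : g ∈ GS (ON O N)) (F : Fm O) :
    res (pL O N p) (act g F) = act g (res (pL O N p) F) := by
  have h := res_act g (pL O N p) F
  rwa [dc_pL hg] at h

/-- the sum over all sublattices is invariant under `L ↦ g L` -/
theorem sum_image {M : Type} [AddCommMonoid M] {p : O} (hfin : (LS O N p).Finite) {g : GL2}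
    (hg : g ∈ GS (ON O N)) (φ : Set V2 → M) :
    ∑ L ∈ LF O N p, φ (g '' L) = ∑ L ∈ LF O N p, φ L := by
  have hmem : ∀ L, L ∈ LF O N p ↔ L ∈ LS O N p := by
    intro L
    unfold LF
    rw [dif_pos hfin, Set.Finite.mem_toFinset]
  refine Finset.sum_nbij' (fun L => g '' L) (fun L => (g⁻¹ : GL2) '' L) ?_ ?_ ?_ ?_ ?_
  · intro L hL
    exact (hmem _).2 (image_LS hg ((hmem _).1 hL))
  · intro L hL
    exact (hmem _).2 (image_LS ((GS (ON O N : Set ℂ)).inv_mem hg) ((hmem _).1 hL))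
  · intro L _
    ext l
    rw [dc_mem, dc_mem, inv_inv, dc_ig]
  · intro L _
    ext l
    rw [dc_mem, dc_mem, inv_inv, dc_gi]
  · intro L _
    rfl

end Pool.Agent.KTD
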