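import Pool.Agent.Lib_helper87.KTD.P.DA
import Pool.Agent.Lib_helper87.KTD.P.DC
import Pool.Agent.Lib_helper76.TCL.P.SB

set_option autoImplicit false

namespace Pool.Agent.KTD

open Complex Pool.Agent.TCL

variable {O : Subring ℂ} {ω : ℂ} {f : O} {ε : O → O} {N : ℕ} {R : Finset O} {Λ : ℂ →ₗ[KK O] KK O}

theorem act_mul (g h : GL2) (F : Fm O) : act (g * h) F = act g (act h F) := by
  funext c l
  show ((‖dt (g * h)‖ : ℂ) ^ 2) • ((g * h) (F c ((g * h)⁻¹ l))) =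
    ((‖dt g‖ : ℂ) ^ 2) • g (((‖dt h‖ : ℂ) ^ 2) • h (F c (h⁻¹ (g⁻¹ l))))
  rw [dt_mul, norm_mul, map_smul, smul_smul, mul_inv_rev]
  congr 1
  push_cast
  ring

theorem act_one (F : Fm O) : act 1 F = F := by
  funext c l
  show ((‖dt 1‖ : ℂ) ^ 2) • (F c ((1 : GL2)⁻¹ l)) = F c l
  rw [dt_one, inv_one]
  simp

theorem act_add (g : GL2) (F F' : Fm O) : act g (F + F') = act g F + act g F' := by
  funext c l
  show ((‖dt g‖ : ℂ) ^ 2) • g (F c (g⁻¹ l) + F' c (g⁻¹ l)) =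
    ((‖dt g‖ : ℂ) ^ 2) • g (F c (g⁻¹ l)) + ((‖dt g‖ : ℂ) ^ 2) • g (F' c (g⁻¹ l))
  rw [map_add, smul_add]

theorem act_smul (g : GL2) (k : KK O) (F : Fm O) : act g (k • F) = k • act g F := by
  funext c l
  show ((‖dt g‖ : ℂ) ^ 2) • g ((k : ℂ) • F c (g⁻¹ l)) =
    (k : ℂ) • (((‖dt g‖ : ℂ) ^ 2) • g (F c (g⁻¹ l)))
  rw [map_smul, smul_comm]

theorem res_add (L : Set V2) (F F' : Fm O) : res L (F + F') = res L F + res L F' := by
  funext c l
  have e : (res L F + res L F') c l = res L F c l + res L F' c l := rfl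
  rw [e]
  unfold res
  split_ifs
  · rfl
  · rw [add_zero]

theorem res_smul (L : Set V2) (k : KK O) (F : Fm O) : res L (k • F) = k • res L F := by
  funext c l
  have e : (k • res L F) c l = (k : ℂ) • res L F c l := rfl
  rw [e]
  unfold res
  split_ifs
  · rfl
  · rw [smul_zero]

theorem dd_In_smul {S : Subfield ℂ} {k : ℂ} (hk : k ∈ S) {l : V2} (hl : In S l) : In S (k • l) :=
  ⟨mul_mem hk hl.1, mul_mem hk hl.2⟩

/-- `GS (ON O N) ≤ GS (KK O)` -/
theorem dd_GS (hN : 0 < N) : GS (ON O N : Set ℂ) ≤ GS (KK O : Set ℂ) := by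
  intro g hg l hl
  -- `g (1, 0)`, `g (0, 1)` have coordinates in `O[1/N]`
  have h10 : In (ON O N) ((1, 0) : V2) := ⟨(ON O N).one_mem, (ON O N).zero_mem⟩
  have h01 : In (ON O N) ((0, 1) : V2) := ⟨(ON O N).zero_mem, (ON O N).one_mem⟩
  have key : ∀ g' : GL2, In (ON O N) (g' (1, 0)) → In (ON O N) (g' (0, 1)) →
      In (KK O) (g' l) := by
    intro g' ha hb
    have e : l = l.1 • ((1, 0) : V2) + l.2 • ((0, 1) : V2) := by ext <;> simp
    have e2 : g' l = l.1 • g' (1, 0) + l.2 • g' (0, 1) := by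
      conv_lhs => rw [e]
      rw [map_add, map_smul, map_smul]
    rw [e2]
    refine ⟨?_, ?_⟩
    · show l.1 * (g' (1, 0)).1 + l.2 * (g' (0, 1)).1 ∈ (KK O : Set ℂ)
      exact (KK O).add_mem ((KK O).mul_mem hl.1 (ON_le_KK hN ha.1))
        ((KK O).mul_mem hl.2 (ON_le_KK hN hb.1))
    · show l.1 * (g' (1, 0)).2 + l.2 * (g' (0, 1)).2 ∈ (KK O : Set ℂ)
      exact (KK O).add_mem ((KK O).mul_mem hl.1 (ON_le_KK hN ha.2))
        ((KK O).mul_mem hl.2 (ON_le_KK hN hb.2))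
  exact ⟨key g (hg _ h10).1 (hg _ h01).1, key g⁻¹ (hg _ h10).2 (hg _ h01).2⟩

/-- `G ≤ G'` -/
theorem MM_mono (hN : 0 < N) : MM O ω ε N (GS (ON O N)) ≤ MM O ω ε N (GS (KK O)) := by
  apply Submodule.span_mono
  rintro F ⟨g, hg, v, x, hv, hx, rfl⟩
  exact ⟨g, dd_GS hN hg, v, x, hv, hx, rfl⟩

theorem act_mem {G : Subgroup GL2} {g : GL2} (hg : g ∈ G) {F : Fm O} (hF : F ∈ MM O ω ε N G) :
    act g F ∈ MM O ω ε N G := by
  unfold MM at hF
  induction hF using Submodule.span_induction with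
  | mem x hx =>
    obtain ⟨g', hg', v, y, hv, hy, rfl⟩ := hx
    rw [← act_mul]
    exact Submodule.subset_span ⟨g * g', mul_mem hg hg', v, y, hv, hy, rfl⟩
  | zero =>
    have : act g (0 : Fm O) = 0 := by
      have := act_smul g (0 : KK O) (0 : Fm O)
      rwa [zero_smul, zero_smul] at this
    rw [this]
    exact zero_mem _
  | add x y _ _ hx hy =>
    rw [act_add]
    exact add_mem hx hy
  | smul k x _ hx =>
    rw [act_smul]
    exact Submodule.smul_mem _ _ hx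

theorem supp_MM {F : Fm O} (hF : F ∈ MM O ω ε N (GS (ON O N))) (c : O) (l : V2)
    (hl : F c l ≠ 0) : In (ON O N) l := by
  by_contra hn
  apply hl
  clear hl
  unfold MM at hF
  induction hF using Submodule.span_induction with
  | mem x hx =>
    obtain ⟨g, hg, v, y, hv, hy, rfl⟩ := hx
    show ((‖dt g‖ : ℂ) ^ 2) • g (chi O ω ε N y c (g⁻¹ l) • v) = 0
    have h0 : chi O ω ε N y c (g⁻¹ l) = 0 := by
      unfold chi
      rw [if_neg]
      rintro ⟨h1, -⟩
      apply hn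
      have h2 : In (ON O N) (g⁻¹ l) := ⟨O_le_ON h1.1, O_le_ON h1.2⟩
      have h3 := (hg _ h2).1
      have e : g (g⁻¹ l) = l := g.apply_symm_apply l
      rw [e] at h3
      exact h3
    rw [h0, zero_smul, map_zero, smul_zero]
  | zero => rfl
  | add x y _ _ hx hy =>
    show x c l + y c l = 0
    rw [hx, hy, add_zero]
  | smul k x _ hx =>
    show (k : ℂ) • x c l = 0
    rw [hx, smul_zero]

end Pool.Agent.KTD
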