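import Pool.Agent.Lib_helper87.KTD.P.SB

set_option autoImplicit false

namespace Pool.Agent.KTD

open Complex Pool.Agent.TCL

variable {O : Subring ℂ} {ω : ℂ} {ε : O → O} {N : ℕ}

private theorem ta_gg_add (u1 u2 u3 v w l : V2) :
    GG u1 u2 u3 (v + w) l = GG u1 u2 u3 v l + GG u1 u2 u3 w l := by
  have h := gg_lin u1 u2 u3 v w l 1 1
  simpa using h

private theorem ta_gg_smul (u1 u2 u3 v l : V2) (a : ℂ) :
    GG u1 u2 u3 (a • v) l = a * GG u1 u2 u3 v l := by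
  have h := gg_lin u1 u2 u3 v 0 l a 0
  simpa using h

theorem tt_add (hO : Quad O ω) (R : Finset O) {u1 u2 u3 : V2} (h1 : In (KK O) u1)
    (h2 : In (KK O) u2) (h3 : In (KK O) u3) {F F' : Fm O} (hF : Nice F) (hF' : Nice F') :
    TT R u1 u2 u3 (F + F') = TT R u1 u2 u3 F + TT R u1 u2 u3 F' := by
  unfold TT
  rw [← Finset.sum_add_distrib]
  refine Finset.sum_congr rfl (fun c _ => ?_)
  rw [← Summable.tsum_add (gg_summable hO h1 h2 h3 hF c) (gg_summable hO h1 h2 h3 hF' c)]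
  refine tsum_congr (fun l => ?_)
  exact ta_gg_add u1 u2 u3 (F c l) (F' c l) l

theorem tt_smul (R : Finset O) (u1 u2 u3 : V2) (k : KK O) (F : Fm O) :
    TT R u1 u2 u3 (k • F) = (k : ℂ) * TT R u1 u2 u3 F := by
  unfold TT
  rw [Finset.mul_sum]
  refine Finset.sum_congr rfl (fun c _ => ?_)
  rw [← tsum_mul_left]
  refine tsum_congr (fun l => ?_)
  exact ta_gg_smul u1 u2 u3 (F c l) l (k : ℂ)

/-- `Equiv.tsum_eq`, `gg_act`, `gg_lin` -/
theorem tt_act (R : Finset O) (g : GL2) (u1 u2 u3 : V2) (F : Fm O) :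
    TT R (g u1) (g u2) (g u3) (act g F) = TT R u1 u2 u3 F := by
  unfold TT
  refine Finset.sum_congr rfl (fun c _ => ?_)
  rw [← Equiv.tsum_eq g.toEquiv]
  refine tsum_congr (fun l => ?_)
  have h0 : act g F c (g l) = ((‖dt g‖ : ℂ) ^ 2) • g (F c l) := by
    unfold act
    have : g⁻¹ (g l) = l := by
      show (g⁻¹ * g) l = l
      rw [inv_mul_cancel]
      rfl
    rw [this]
  have hd : (‖dt g‖ : ℂ) ^ 2 ≠ 0 := by
    have h1 := dt_ne_zero g
    have h2 : ‖dt g‖ ≠ 0 := norm_ne_zero_iff.2 h1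
    exact pow_ne_zero _ (by exact_mod_cast h2)
  show GG (g u1) (g u2) (g u3) (act g F c (g l)) (g l) = _
  rw [h0, ta_gg_smul, gg_act, mul_div_assoc', mul_div_cancel_left₀ _ hd]

theorem tt_us (R : Finset O) (s : ℂ) (hs : s ≠ 0) (u1 u2 u3 : V2) (F : Fm O) :
    TT R (s • u1) u2 u3 F = TT R u1 u2 u3 F ∧ TT R u1 (s • u2) u3 F = TT R u1 u2 u3 F ∧
      TT R u1 u2 (s • u3) F = TT R u1 u2 u3 F := by
  unfold TT
  refine ⟨?_, ?_, ?_⟩
  · exact Finset.sum_congr rfl (fun c _ => tsum_congr (fun l => (gg_smul s hs u1 u2 u3 _ l).1))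
  · exact Finset.sum_congr rfl (fun c _ => tsum_congr (fun l => (gg_smul s hs u1 u2 u3 _ l).2.1))
  · exact Finset.sum_congr rfl (fun c _ => tsum_congr (fun l => (gg_smul s hs u1 u2 u3 _ l).2.2))

theorem tt_swap (R : Finset O) (u1 u2 u3 : V2) (F : Fm O) :
    TT R u2 u1 u3 F = - TT R u1 u2 u3 F ∧ TT R u1 u3 u2 F = - TT R u1 u2 u3 F := by
  unfold TT
  rw [← Finset.sum_neg_distrib]
  refine ⟨Finset.sum_congr rfl (fun c _ => ?_), Finset.sum_congr rfl (fun c _ => ?_)⟩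
  · rw [← tsum_neg]
    exact tsum_congr (fun l => gg_swap12 u1 u2 u3 _ l)
  · rw [← tsum_neg]
    exact tsum_congr (fun l => gg_swap23 u1 u2 u3 _ l)

theorem tt_par (R : Finset O) {u1 u2 u3 : V2} (F : Fm O) (h : cr u1 u2 = 0) :
    TT R u1 u2 u3 F = 0 := by
  unfold TT
  refine Finset.sum_eq_zero (fun c _ => ?_)
  have h0 : (fun l : V2 => GG u1 u2 u3 (F c l) l) = fun _ => 0 := by
    funext l
    exact gg_par h
  rw [h0, tsum_zero]

private theorem ta_in_mul {S : Subring ℂ} {v : V2} {D : ℕ} (E : ℕ) (h : In S ((D : ℂ) • v)) :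
    In S (((D * E : ℕ) : ℂ) • v) := by
  refine ⟨?_, ?_⟩
  · show ((D * E : ℕ) : ℂ) * v.1 ∈ S
    have e : ((D * E : ℕ) : ℂ) * v.1 = (E : ℂ) * ((D : ℂ) * v.1) := by push_cast; ring
    rw [e]
    exact S.mul_mem (natCast_mem S E) h.1
  · show ((D * E : ℕ) : ℂ) * v.2 ∈ S
    have e : ((D * E : ℕ) : ℂ) * v.2 = (E : ℂ) * ((D : ℂ) * v.2) := by push_cast; ring
    rw [e]
    exact S.mul_mem (natCast_mem S E) h.2

theorem nice_add {F F' : Fm O} (hF : Nice F) (hF' : Nice F') : Nice (F + F') := by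
  obtain ⟨C, D, hD, h⟩ := hF
  obtain ⟨C', D', hD', h'⟩ := hF'
  refine ⟨C + C', D * D', Nat.mul_pos hD hD', fun c l => ⟨?_, ?_⟩⟩
  · exact (norm_add_le _ _).trans (add_le_add (h c l).1 (h' c l).1)
  · intro hne
    by_cases h0 : F c l = 0
    · have h1 : F' c l ≠ 0 := by
        intro h2
        apply hne
        show F c l + F' c l = 0
        rw [h0, h2, add_zero]
      rw [mul_comm]
      exact ta_in_mul D ((h' c l).2 h1)
    · exact ta_in_mul D' ((h c l).2 h0)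

theorem nice_smul (k : KK O) {F : Fm O} (hF : Nice F) : Nice (k • F) := by
  obtain ⟨C, D, hD, h⟩ := hF
  refine ⟨‖(k : ℂ)‖ * C, D, hD, fun c l => ⟨?_, ?_⟩⟩
  · show ‖(k : ℂ) • F c l‖ ≤ _
    rw [norm_smul]
    exact mul_le_mul_of_nonneg_left (h c l).1 (norm_nonneg _)
  · intro hne
    refine (h c l).2 ?_
    intro h0
    apply hne
    show (k : ℂ) • F c l = 0
    rw [h0, smul_zero]

end Pool.Agent.KTD
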