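import Pool.Agent.Lib_helper87.KTD.P.DD
import Pool.Agent.Lib_helper87.KTD.P.DB
import Pool.Agent.Lib_helper87.KTD.P.TA
import Pool.Agent.Lib_helper76.TCL.P.QK

set_option autoImplicit false

namespace Pool.Agent.KTD

open Complex Pool.Agent.TCL

variable {O : Subring ℂ} {ω : ℂ} {f : O} {ε : O → O} {N : ℕ} {R : Finset O} {Λ : ℂ →ₗ[KK O] KK O}

private theorem de_pr_add (ω t g g' : ℂ) : pr ω t (g + g') = pr ω t g * pr ω t g' := by
  rw [← pr_conj', pr_add, map_mul, pr_conj', pr_conj']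

private theorem de_lin (g : GL2) (l : V2) :
    g l = (l.1 * (g (1, 0)).1 + l.2 * (g (0, 1)).1, l.1 * (g (1, 0)).2 + l.2 * (g (0, 1)).2) := by
  have h : l = l.1 • ((1, 0) : V2) + l.2 • ((0, 1) : V2) := by
    ext <;> simp
  conv_lhs => rw [h, map_add, map_smul, map_smul]
  rfl

/-- `χ_x` restricted to the image of `O²` under `h = (h1, h2)` is `h_* χ_(h^* x)`, `h^*` the conjugate
transpose: `pr_mul` -/
theorem chi_res {hm : GL2} {a b c d : O} (h1 : hm (1, 0) = ((a : ℂ), (b : ℂ)))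
    (h2 : hm (0, 1) = ((c : ℂ), (d : ℂ))) (x : V2) (e : O) (l : V2) :
    (open Classical in if In O (hm⁻¹ l) then chi O ω ε N x e l else 0) =
      pf hm (chi O ω ε N (starRingEnd ℂ a * x.1 + starRingEnd ℂ b * x.2,
        starRingEnd ℂ c * x.1 + starRingEnd ℂ d * x.2)) e l := by
  classical
  set m : V2 := hm⁻¹ l with hm'
  have hl : l = hm m := by
    rw [hm']
    exact (LinearEquiv.apply_symm_apply hm l).symm
  have hlm : l = (m.1 * (a : ℂ) + m.2 * (c : ℂ), m.1 * (b : ℂ) + m.2 * (d : ℂ)) := by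
    rw [hl, de_lin hm m, h1, h2]
  unfold pf
  rw [← hm']
  by_cases hIn : In O m
  · rw [if_pos hIn]
    have hInl : In O l := by
      rw [hlm]
      exact ⟨O.add_mem (O.mul_mem hIn.1 a.2) (O.mul_mem hIn.2 c.2),
        O.add_mem (O.mul_mem hIn.1 b.2) (O.mul_mem hIn.2 d.2)⟩
    unfold chi
    by_cases hc : IsCoprime e (N : O)
    · rw [if_pos ⟨hInl, hc⟩, if_pos ⟨hIn, hc⟩, hlm]
      simp only
      rw [de_pr_add, de_pr_add]
      have e1 : (ε e : ℂ) * e * (starRingEnd ℂ a * x.1 + starRingEnd ℂ b * x.2) =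
          starRingEnd ℂ a * ((ε e : ℂ) * e * x.1) + starRingEnd ℂ b * ((ε e : ℂ) * e * x.2) := by
        ring
      have e2 : (ε e : ℂ) * e * (starRingEnd ℂ c * x.1 + starRingEnd ℂ d * x.2) =
          starRingEnd ℂ c * ((ε e : ℂ) * e * x.1) + starRingEnd ℂ d * ((ε e : ℂ) * e * x.2) := by
        ring
      have e3 : ∀ (t g : ℂ) (k : O), pr ω (starRingEnd ℂ (k : ℂ) * t) g = pr ω t (g * k) := by
        intro t g k
        rw [pr_mul, Complex.conj_conj, mul_comm]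
      rw [e1, e2, pr_add, pr_add, e3, e3, e3, e3]
      ring
    · rw [if_neg (fun h => hc h.2), if_neg (fun h => hc h.2)]
  · rw [if_neg hIn]
    unfold chi
    rw [if_neg (fun h => hIn h.1)]

private theorem de_nsq (hO : Quad O ω) (a : O) : ((‖(a : ℂ)‖ : ℂ)) ^ 2 ∈ KK O := by
  rw [← Complex.mul_conj']
  exact (KK O).mul_mem (coe_mem_KK a) (conj_mem_KK hO (coe_mem_KK a))

private theorem de_GS (hN : 0 < N) {g : GL2} (hg : g ∈ GS (ON O N)) : g ∈ GS (KK O) := by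
  have key : ∀ g : GL2, (∀ l, In (ON O N) l → In (ON O N) (g l)) →
      ∀ l, In (KK O) l → In (KK O) (g l) := by
    intro g hg l hl
    have h1 := hg (1, 0) ⟨(ON O N).one_mem, (ON O N).zero_mem⟩
    have h2 := hg (0, 1) ⟨(ON O N).zero_mem, (ON O N).one_mem⟩
    rw [de_lin g l]
    exact ⟨(KK O).add_mem ((KK O).mul_mem hl.1 (ON_le_KK hN h1.1))
      ((KK O).mul_mem hl.2 (ON_le_KK hN h2.1)),
      (KK O).add_mem ((KK O).mul_mem hl.1 (ON_le_KK hN h1.2))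
      ((KK O).mul_mem hl.2 (ON_le_KK hN h2.2))⟩
  intro l hl
  exact ⟨key g (fun l hl => (hg l hl).1) l hl, key g⁻¹ (fun l hl => (hg l hl).2) l hl⟩

/-- the matrix with the columns `(s, j s), (0, t)` -/
private noncomputable def deh (s t j : O) (hs : (s : ℂ) ≠ 0) (ht : (t : ℂ) ≠ 0) : GL2 :=
  un j * dg (Units.mk0 (s : ℂ) hs) (Units.mk0 (t : ℂ) ht)

private theorem deh_apply (s t j : O) (hs : (s : ℂ) ≠ 0) (ht : (t : ℂ) ≠ 0) (l : V2) :
    deh s t j hs ht l = ((s : ℂ) * l.1, (t : ℂ) * l.2 + j * ((s : ℂ) * l.1)) := rfl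

private theorem deh_inv (s t j : O) (hs : (s : ℂ) ≠ 0) (ht : (t : ℂ) ≠ 0) (l : V2) :
    (deh s t j hs ht)⁻¹ l = (l.1 / s, (l.2 - j * l.1) / t) := by
  apply (deh s t j hs ht).injective
  have : deh s t j hs ht ((deh s t j hs ht)⁻¹ l) = l := LinearEquiv.apply_symm_apply _ l
  rw [this, deh_apply]
  ext
  · simp only
    field_simp
  · simp only
    field_simp
    ring

private theorem deh_dt (s t j : O) (hs : (s : ℂ) ≠ 0) (ht : (t : ℂ) ≠ 0) :
    dt (deh s t j hs ht) = s * t := by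
  unfold dt
  rw [deh_apply, deh_apply]
  unfold cr
  simp

private theorem deh_GS (s t j : O) (hs : (s : ℂ) ≠ 0) (ht : (t : ℂ) ≠ 0) :
    deh s t j hs ht ∈ GS (KK O) := by
  intro l hl
  have h1 := coe_mem_KK s
  have h2 := coe_mem_KK t
  have h3 := coe_mem_KK j
  rw [deh_apply, deh_inv]
  exact ⟨⟨(KK O).mul_mem h1 hl.1, (KK O).add_mem ((KK O).mul_mem h2 hl.2)
    ((KK O).mul_mem h3 ((KK O).mul_mem h1 hl.1))⟩,
    ⟨(KK O).div_mem hl.1 h1, (KK O).div_mem ((KK O).sub_mem hl.2 ((KK O).mul_mem h3 hl.1)) h2⟩⟩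

/-- the scalar `‖s t‖⁻²` -/
private noncomputable def dek (hO : Quad O ω) (s t : O) : KK O :=
  ⟨(((‖((s * t : O) : ℂ)‖ : ℂ)) ^ 2)⁻¹, (KK O).inv_mem (de_nsq hO (s * t))⟩

private noncomputable def dex (s t j : O) (x : V2) : V2 :=
  (starRingEnd ℂ (s : ℂ) * x.1 + starRingEnd ℂ ((j * s : O) : ℂ) * x.2,
    starRingEnd ℂ ((0 : O) : ℂ) * x.1 + starRingEnd ℂ (t : ℂ) * x.2)

/-- restriction to `L` with `L ∩ O² = h O²` -/
private theorem de_key (hO : Quad O ω) (s t j : O) (hs : (s : ℂ) ≠ 0) (ht : (t : ℂ) ≠ 0)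
    {L : Set V2} (hL : ∀ l, In O l → (l ∈ L ↔ In O (l.1 / (s : ℂ), (l.2 - j * l.1) / (t : ℂ))))
    (v x : V2) : res L (ten v (chi O ω ε N x)) =
      dek hO s t • act (deh s t j hs ht)
        (ten ((deh s t j hs ht)⁻¹ v) (chi O ω ε N (dex s t j x))) := by
  classical
  funext c l
  set h := deh s t j hs ht with hh
  have e1 := chi_res (ω := ω) (ε := ε) (N := N) (hm := h) (a := s) (b := j * s) (c := 0) (d := t)
    (by rw [hh, deh_apply]; ext <;> simp) (by rw [hh, deh_apply]; ext <;> simp) x c l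
  have hst : (((‖((s * t : O) : ℂ)‖ : ℂ)) ^ 2) ≠ 0 := by
    apply pow_ne_zero
    rw [Complex.ofReal_ne_zero, norm_ne_zero_iff]
    push_cast
    exact mul_ne_zero hs ht
  have hR : (dek hO s t • act h (ten (h⁻¹ v) (chi O ω ε N (dex s t j x)))) c l =
      pf h (chi O ω ε N (dex s t j x)) c l • v := by
    show (((‖((s * t : O) : ℂ)‖ : ℂ)) ^ 2)⁻¹ • (((‖dt h‖ : ℂ) ^ 2) •
      h (chi O ω ε N (dex s t j x) c (h⁻¹ l) • (h⁻¹ v))) = _
    have e2 : h (h⁻¹ v) = v := LinearEquiv.apply_symm_apply _ v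
    rw [map_smul, e2, hh, deh_dt, smul_smul]
    have e3 : (((‖((s * t : O) : ℂ)‖ : ℂ)) ^ 2)⁻¹ * ((‖((s : ℂ) * (t : ℂ))‖ : ℂ)) ^ 2 = 1 := by
      have : (((s * t : O) : ℂ)) = (s : ℂ) * t := by push_cast; rfl
      rw [← this]
      exact inv_mul_cancel₀ hst
    rw [e3, one_smul]
    rfl
  rw [hR]
  have e4 : pf h (chi O ω ε N (dex s t j x)) c l =
      if In O (h⁻¹ l) then chi O ω ε N x c l else 0 := e1.symm
  rw [e4]
  show (if l ∈ L then chi O ω ε N x c l • v else 0) = _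
  by_cases hIn : In O l
  · have hiff := hL l hIn
    rw [hh, deh_inv]
    by_cases hl : l ∈ L
    · rw [if_pos hl, if_pos (hiff.mp hl)]
    · rw [if_neg hl, if_neg (fun h' => hl (hiff.mpr h')), zero_smul]
  · have e0 : chi O ω ε N x c l = 0 := by
      unfold chi
      rw [if_neg (fun h' => hIn h'.1)]
    rw [e0]
    simp

private theorem dex_mem (hO : Quad O ω) (s t j : O) {x : V2} (hx : In O ((N : ℂ) • x)) :
    In O ((N : ℂ) • dex s t j x) := by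
  have h1 : (N : ℂ) * x.1 ∈ O := hx.1
  have h2 : (N : ℂ) * x.2 ∈ O := hx.2
  constructor
  · show (N : ℂ) * (starRingEnd ℂ (s : ℂ) * x.1 + starRingEnd ℂ ((j * s : O) : ℂ) * x.2) ∈ O
    have e : (N : ℂ) * (starRingEnd ℂ (s : ℂ) * x.1 + starRingEnd ℂ ((j * s : O) : ℂ) * x.2) =
      starRingEnd ℂ (s : ℂ) * ((N : ℂ) * x.1) + starRingEnd ℂ ((j * s : O) : ℂ) * ((N : ℂ) * x.2) := by
      ring
    rw [e]
    exact O.add_mem (O.mul_mem (conj_mem hO s.2) h1) (O.mul_mem (conj_mem hO (j * s).2) h2)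
  · show (N : ℂ) * (starRingEnd ℂ ((0 : O) : ℂ) * x.1 + starRingEnd ℂ (t : ℂ) * x.2) ∈ O
    have e : (N : ℂ) * (starRingEnd ℂ ((0 : O) : ℂ) * x.1 + starRingEnd ℂ (t : ℂ) * x.2) =
      starRingEnd ℂ ((0 : O) : ℂ) * ((N : ℂ) * x.1) + starRingEnd ℂ (t : ℂ) * ((N : ℂ) * x.2) := by
      ring
    rw [e]
    exact O.add_mem (O.mul_mem (conj_mem hO (0 : O).2) h1) (O.mul_mem (conj_mem hO t.2) h2)

/-- the restriction of a generator is in the span -/
private theorem de_gen (hO : Quad O ω) (s t j : O) (hs : (s : ℂ) ≠ 0) (ht : (t : ℂ) ≠ 0)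
    {L : Set V2} (hL : ∀ l, In O l → (l ∈ L ↔ In O (l.1 / (s : ℂ), (l.2 - j * l.1) / (t : ℂ))))
    {v x : V2} (hv : In (KK O) v) (hx : In O ((N : ℂ) • x)) :
    res L (ten v (chi O ω ε N x)) ∈ MM O ω ε N (GS (KK O)) := by
  rw [de_key hO s t j hs ht hL]
  exact Submodule.smul_mem _ _ (Submodule.subset_span ⟨_, deh_GS s t j hs ht, _, _,
    ((deh_GS s t j hs ht) v hv).2, dex_mem hO s t j hx, rfl⟩)

private theorem de_dvd {p : O} (hp0 : (p : ℂ) ≠ 0) {z : ℂ} (hz : z ∈ O) :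
    z / p ∈ O ↔ p ∣ (⟨z, hz⟩ : O) := by
  constructor
  · intro h
    refine ⟨⟨z / p, h⟩, Subtype.ext ?_⟩
    push_cast
    field_simp
  · rintro ⟨y, hy⟩
    have : z = p * y := by
      have := congrArg (fun z : O => (z : ℂ)) hy
      simpa using this
    rw [this, mul_div_cancel_left₀ _ hp0]
    exact y.2

/-- the condition for the sublattice of `w = (0, 1)` -/
private theorem de_L1 (hN : 0 < N) {p : O} (hp : Prime p) (hpN : ¬ p ∣ (N : O)) (l : V2)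
    (hl : In O l) : (l ∈ Lw O N p (0, 1) ↔
      In O (l.1 / (p : ℂ), (l.2 - ((0 : O) : ℂ) * l.1) / ((1 : O) : ℂ))) := by
  have hp0 : (p : ℂ) ≠ 0 := coe_ne_zero hp.ne_zero
  have h2 : (l.2 - ((0 : O) : ℂ) * l.1) / ((1 : O) : ℂ) ∈ O := by
    have : (l.2 - ((0 : O) : ℂ) * l.1) / ((1 : O) : ℂ) = l.2 := by simp
    rw [this]; exact hl.2
  constructor
  · rintro ⟨-, z, hz, hcr⟩
    refine ⟨?_, h2⟩
    have h3 : ((⟨l.1, hl.1⟩ : O) : ℂ) = p * (-z) := by
      unfold cr at hcr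
      simp only at hcr
      show l.1 = _
      linear_combination -hcr
    exact (de_dvd hp0 hl.1).mpr (on_cap hN hp hpN ((ON O N).neg_mem hz) h3)
  · rintro ⟨h1, -⟩
    refine ⟨⟨O_le_ON hl.1, O_le_ON hl.2⟩, -(l.1 / p), (ON O N).neg_mem (O_le_ON h1), ?_⟩
    unfold cr
    simp only
    field_simp
    ring

/-- the condition for the sublattice of `w = (1, j)` -/
private theorem de_L2 (hN : 0 < N) {p : O} (hp : Prime p) (hpN : ¬ p ∣ (N : O)) (j : O) (l : V2)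
    (hl : In O l) : (l ∈ Lw O N p (1, (j : ℂ)) ↔
      In O (l.1 / ((1 : O) : ℂ), (l.2 - (j : ℂ) * l.1) / (p : ℂ))) := by
  have hp0 : (p : ℂ) ≠ 0 := coe_ne_zero hp.ne_zero
  have h2 : l.1 / ((1 : O) : ℂ) ∈ O := by
    have : l.1 / ((1 : O) : ℂ) = l.1 := by simp
    rw [this]; exact hl.1
  have h4 : l.2 - (j : ℂ) * l.1 ∈ O := O.sub_mem hl.2 (O.mul_mem j.2 hl.1)
  constructor
  · rintro ⟨-, z, hz, hcr⟩
    refine ⟨h2, ?_⟩
    have h3 : ((⟨l.2 - (j : ℂ) * l.1, h4⟩ : O) : ℂ) = p * z := by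
      unfold cr at hcr
      simp only at hcr
      show l.2 - (j : ℂ) * l.1 = _
      linear_combination hcr
    exact (de_dvd hp0 h4).mpr (on_cap hN hp hpN hz h3)
  · rintro ⟨-, h1⟩
    refine ⟨⟨O_le_ON hl.1, O_le_ON hl.2⟩, (l.2 - (j : ℂ) * l.1) / p, O_le_ON h1, ?_⟩
    unfold cr
    simp only
    field_simp

/-- the condition for `p O[1/N]²` -/
private theorem de_L3 (hN : 0 < N) {p : O} (hp : Prime p) (hpN : ¬ p ∣ (N : O)) (l : V2)
    (hl : In O l) : (l ∈ pL O N p ↔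
      In O (l.1 / (p : ℂ), (l.2 - ((0 : O) : ℂ) * l.1) / (p : ℂ))) := by
  have hp0 : (p : ℂ) ≠ 0 := coe_ne_zero hp.ne_zero
  have e : (l.2 - ((0 : O) : ℂ) * l.1) / (p : ℂ) = l.2 / p := by simp
  rw [e]
  constructor
  · rintro ⟨l', hl', rfl⟩
    have h1 : ((⟨((p : ℂ) • l').1, hl.1⟩ : O) : ℂ) = p * l'.1 := rfl
    have h2 : ((⟨((p : ℂ) • l').2, hl.2⟩ : O) : ℂ) = p * l'.2 := rfl
    exact ⟨(de_dvd hp0 hl.1).mpr (on_cap hN hp hpN hl'.1 h1),
      (de_dvd hp0 hl.2).mpr (on_cap hN hp hpN hl'.2 h2)⟩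
  · rintro ⟨h1, h2⟩
    refine ⟨(l.1 / p, l.2 / p), ⟨O_le_ON h1, O_le_ON h2⟩, ?_⟩
    ext
    · show l.1 = p * (l.1 / p)
      field_simp
    · show l.2 = p * (l.2 / p)
      field_simp

/-- `ten v χ_x` restricted to `L`: `L ∩ O² = h O²` with the columns `(1, j), (0, p)` or
`(p, 0), (0, 1)` of `h` (`ls_eq`); `ten v χ_y = act h (|det h|⁻² ten (h⁻¹ v) ..)` -/
theorem res_mem (h : Ctx O ω f ε N R Λ) {p : O} (hp : Prime p) (hpN : ¬ p ∣ (N : O)) {L : Set V2}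
    (hL : L ∈ LS O N p) {F : Fm O} (hF : F ∈ MM O ω ε N (GS (ON O N))) :
    res L F ∈ MM O ω ε N (GS (KK O)) := by
  have hO := h.quad
  have hp0 : (p : ℂ) ≠ 0 := coe_ne_zero hp.ne_zero
  have h10 : ((1 : O) : ℂ) ≠ 0 := by simp
  induction hF using Submodule.span_induction with
  | mem F hF =>
    obtain ⟨g, hg, v, x, hv, hx, rfl⟩ := hF
    have hgi : g⁻¹ ∈ GS (ON O N) := (GS (ON O N)).inv_mem hg
    have hL' := image_LS hgi hL
    have e : g '' ((g⁻¹ : GL2) '' L) = L := by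
      rw [Set.image_image]
      have : (fun x => g (g⁻¹ x)) = id := by
        funext x
        exact LinearEquiv.apply_symm_apply g x
      rw [this, Set.image_id]
    rw [← e, res_act]
    refine act_mem (de_GS h.N_pos hg) ?_
    obtain ⟨S, hS⟩ := exists_reps hO p hp.ne_zero
    rcases ls_eq hO h.N_pos hp hpN hS hL' with h1 | ⟨j, -, h1⟩
    · rw [h1]
      exact de_gen hO p 1 0 hp0 h10 (de_L1 h.N_pos hp hpN) hv hx
    · rw [h1]
      exact de_gen hO 1 p j h10 hp0 (de_L2 h.N_pos hp hpN j) hv hx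
  | zero =>
    have : res L (0 : Fm O) = 0 := by
      funext c l
      unfold res
      simp
    rw [this]; exact Submodule.zero_mem _
  | add F F' _ _ h1 h2 => rw [res_add]; exact Submodule.add_mem _ h1 h2
  | smul k F _ h1 => rw [res_smul]; exact Submodule.smul_mem _ k h1

private theorem de_dex (p : O) (x : V2) : dex p p 0 x = (starRingEnd ℂ (p : ℂ)) • x := by
  unfold dex
  ext <;> simp

/-- `ten v χ_x` restricted to `p O[1/N]²` is `|p|⁻⁴ p⁻¹ act (p) (ten v χ_(conj(p) x))`, and the scalar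
`p` does not change `tau` -/
theorem tau_pL (h : Ctx O ω f ε N R Λ) {p : O} (hp : Prime p) (hpN : ¬ p ∣ (N : O)) {g : GL2}
    (hg : g ∈ GS (ON O N)) {v x : V2} (hv : In (KK O) v) (hx : In O ((N : ℂ) • x)) {u1 u2 u3 : V2}
    (h1 : In (KK O) u1) (h2 : In (KK O) u2) (h3 : In (KK O) u3) :
    (p : ℂ) * (‖(p : ℂ)‖ : ℂ) ^ 4 * (tau Λ R u1 u2 u3 (res (pL O N p) (act g (ten v (chi O ω ε N x)))) : ℂ)
      = (tau Λ R u1 u2 u3 (act g (ten v (chi O ω ε N ((starRingEnd ℂ (p : ℂ)) • x)))) : ℂ) := by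
  have hO := h.quad
  have hp0 : (p : ℂ) ≠ 0 := coe_ne_zero hp.ne_zero
  set P := deh p p 0 hp0 hp0 with hP
  have hPa : ∀ l : V2, P l = (p : ℂ) • l := by
    intro l
    rw [hP, deh_apply]
    ext <;> simp
  have hPi : ∀ l : V2, P⁻¹ l = ((p : ℂ)⁻¹) • l := by
    intro l
    rw [hP, deh_inv]
    ext
    · show l.1 / p = (p : ℂ)⁻¹ * l.1
      rw [div_eq_inv_mul]
    · show (l.2 - ((0 : O) : ℂ) * l.1) / p = (p : ℂ)⁻¹ * l.2
      rw [div_eq_inv_mul]
      simp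
  set pk : KK O := ⟨(p : ℂ), coe_mem_KK p⟩ with hpk
  have hpk0 : pk ≠ 0 := by
    intro h0
    exact hp0 (congrArg (fun z : KK O => (z : ℂ)) h0)
  have e1 : res (pL O N p) (act g (ten v (chi O ω ε N x))) =
      (dek hO p p * pk⁻¹) • act P (act g (ten v (chi O ω ε N ((starRingEnd ℂ (p : ℂ)) • x)))) := by
    rw [res_pL_act hg, de_key hO p p 0 hp0 hp0 (de_L3 h.N_pos hp hpN), de_dex, act_smul, mul_smul]
    congr 1
    rw [← act_mul, ← hP]
    have ecomm : g * P = P * g := by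
      apply LinearEquiv.ext
      intro l
      show g (P l) = P (g l)
      rw [hPa, hPa, map_smul]
    rw [ecomm, act_mul, ← act_smul, ← act_smul]
    congr 2
    funext c l
    show chi O ω ε N ((starRingEnd ℂ (p : ℂ)) • x) c l • (P⁻¹ v) = (pk⁻¹ : KK O) •
      (chi O ω ε N ((starRingEnd ℂ (p : ℂ)) • x) c l • v)
    have hk : ∀ w : V2, (pk⁻¹ : KK O) • w = ((p : ℂ)⁻¹) • w := fun w => rfl
    rw [hPi, hk, smul_comm]
  have e2 : ∀ F : Fm O, TT R u1 u2 u3 (act P F) = TT R u1 u2 u3 F := by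
    intro F
    have hs : (p : ℂ)⁻¹ ≠ 0 := inv_ne_zero hp0
    have e3 : ∀ u : V2, u = P ((p : ℂ)⁻¹ • u) := by
      intro u
      rw [hPa, smul_smul, mul_inv_cancel₀ hp0, one_smul]
    conv_lhs => rw [e3 u1, e3 u2, e3 u3]
    rw [tt_act, (tt_us R _ hs _ _ _ F).1, (tt_us R _ hs _ _ _ F).2.1, (tt_us R _ hs _ _ _ F).2.2]
  unfold tau
  rw [e1, tt_smul, e2]
  have e4 : ∀ (k : KK O) (z : ℂ), ((Λ ((k : ℂ) * z) : KK O) : ℂ) = (k : ℂ) * ((Λ z : KK O) : ℂ) := by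
    intro k z
    have := Λ.map_smul k z
    have h5 : (k • z : ℂ) = (k : ℂ) * z := rfl
    rw [h5] at this
    rw [this]
    push_cast [smul_eq_mul]
    rfl
  rw [e4]
  have e5 : ((dek hO p p * pk⁻¹ : KK O) : ℂ) = (((‖(p : ℂ)‖ : ℂ)) ^ 4)⁻¹ * (p : ℂ)⁻¹ := by
    push_cast
    have e6 : ((dek hO p p : KK O) : ℂ) = (((‖(p : ℂ)‖ : ℂ)) ^ 4)⁻¹ := by
      unfold dek
      simp only
      congr 1
      have : ((p * p : O) : ℂ) = (p : ℂ) * p := by push_cast; rfl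
      rw [this, norm_mul]
      push_cast
      ring
    rw [e6]
  rw [e5]
  have hn : (((‖(p : ℂ)‖ : ℂ)) ^ 4) ≠ 0 := by
    apply pow_ne_zero
    rw [Complex.ofReal_ne_zero, norm_ne_zero_iff]
    exact hp0
  generalize (((‖(p : ℂ)‖ : ℂ)) ^ 4) = n4 at hn ⊢
  field_simp

theorem res_pL_mem (h : Ctx O ω f ε N R Λ) {p : O} (hp : Prime p) (hpN : ¬ p ∣ (N : O))
    {F : Fm O} (hF : F ∈ MM O ω ε N (GS (ON O N))) :
    res (pL O N p) F ∈ MM O ω ε N (GS (KK O)) := by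
  have hO := h.quad
  have hp0 : (p : ℂ) ≠ 0 := coe_ne_zero hp.ne_zero
  induction hF using Submodule.span_induction with
  | mem F hF =>
    obtain ⟨g, hg, v, x, hv, hx, rfl⟩ := hF
    rw [res_pL_act hg]
    exact act_mem (de_GS h.N_pos hg) (de_gen hO p p 0 hp0 hp0 (de_L3 h.N_pos hp hpN) hv hx)
  | zero =>
    have : res (pL O N p) (0 : Fm O) = 0 := by
      funext c l
      unfold res
      simp
    rw [this]; exact Submodule.zero_mem _
  | add F F' _ _ h1 h2 => rw [res_add]; exact Submodule.add_mem _ h1 h2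
  | smul k F _ h1 => rw [res_smul]; exact Submodule.smul_mem _ k h1

end Pool.Agent.KTD
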