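import Pool.Agent.Lib_helper87.KTD.P.DA
import Pool.Agent.Lib_helper76.TCL.P.QB
import Pool.Agent.Lib_helper76.TCL.P.QD

set_option autoImplicit false

namespace Pool.Agent.KTD

open Complex Pool.Agent.TCL

variable {O : Subring ℂ} {ω : ℂ} {N : ℕ}

/-- linear independence of `1`, `ω` -/
theorem df_ind (hO : Quad O ω) {a b : ℤ} (h : (a : ℂ) + b * ω = 0) : a = 0 ∧ b = 0 := by
  have h1 := congrArg Complex.im h
  simp only [add_im, intCast_im, mul_im, intCast_re, zero_mul, add_zero, zero_im, zero_add] at h1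
  have h2 : (b : ℝ) = 0 := by
    rcases mul_eq_zero.1 h1 with h2 | h2
    · exact h2
    · exact absurd h2 hO.im_pos.ne'
  have hb : b = 0 := by exact_mod_cast h2
  subst hb
  have ha : (a : ℂ) = 0 := by simpa using h
  exact ⟨by exact_mod_cast ha, rfl⟩

theorem df_exists (hO : Quad O ω) (hN : 0 < N) {p : O} (hp : Prime p)
    {L : Set V2} (hL : L ∈ LS O N p) : ∃ v, v ∈ L ∧ In O v ∧ v ≠ 0 ∧
      ‖v‖ ≤ (1 + ‖ω‖) * √‖(p : ℂ)‖ := by
  classical
  obtain ⟨w, ⟨⟨k1, h1⟩, ⟨k2, h2⟩⟩, -, rfl⟩ := hL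
  have hNO : ∀ j : ℕ, (N : ℂ) ^ j ∈ O := fun j => O.pow_mem (natCast_mem O N) j
  have hNC : (N : ℂ) ≠ 0 := by exact_mod_cast hN.ne'
  set k := k1 + k2 with hk
  have hα : (N : ℂ) ^ k * w.1 ∈ O := by
    have e : (N : ℂ) ^ k * w.1 = (N : ℂ) ^ k2 * ((N : ℂ) ^ k1 * w.1) := by rw [hk]; ring
    rw [e]; exact O.mul_mem (hNO _) h1
  have hβ : (N : ℂ) ^ k * w.2 ∈ O := by
    have e : (N : ℂ) ^ k * w.2 = (N : ℂ) ^ k1 * ((N : ℂ) ^ k2 * w.2) := by rw [hk]; ring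
    rw [e]; exact O.mul_mem (hNO _) h2
  set α : O := ⟨_, hα⟩ with hαd
  set β : O := ⟨_, hβ⟩ with hβd
  set w0 : O := ⟨ω, quad_omega hO⟩ with hw0
  obtain ⟨R, hR⟩ := exists_reps hO p hp.ne_zero
  have hcard := card_reps hO hp.ne_zero hR
  set s : ℝ := √‖(p : ℂ)‖ with hs
  have hs0 : 0 ≤ s := Real.sqrt_nonneg _
  have hss : s ^ 2 = ‖(p : ℂ)‖ := Real.sq_sqrt (norm_nonneg _)
  set m : ℕ := ⌊s⌋₊ with hm
  have hms : (m : ℝ) ≤ s := Nat.floor_le hs0
  have hsm : s < m + 1 := Nat.lt_floor_add_one s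
  choose ρ hρ using fun x : O => (hR x).exists
  let X : (ℕ × ℕ) × (ℕ × ℕ) → O := fun t => (t.1.1 : O) + (t.1.2 : O) * w0
  let Y : (ℕ × ℕ) × (ℕ × ℕ) → O := fun t => (t.2.1 : O) + (t.2.2 : O) * w0
  let T : Finset ((ℕ × ℕ) × (ℕ × ℕ)) :=
    (Finset.range (m + 1) ×ˢ Finset.range (m + 1)) ×ˢ
      (Finset.range (m + 1) ×ˢ Finset.range (m + 1))
  have hTc : T.card = (m + 1) ^ 4 := by
    simp only [T, Finset.card_product, Finset.card_range]
    ring
  have hlt : R.card < T.card := by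
    rw [hTc]
    have e1 : (R.card : ℝ) < ((m : ℝ) + 1) ^ 4 := by
      rw [hcard, ← hss]
      have e2 : (s ^ 2) ^ 2 = s ^ 4 := by ring
      rw [e2]
      exact pow_lt_pow_left₀ hsm hs0 (by norm_num)
    exact_mod_cast e1
  obtain ⟨t, ht, t', ht', hne, heq⟩ := Finset.exists_ne_map_eq_of_card_lt_of_maps_to
    (f := fun t => ρ (α * Y t - β * X t)) hlt (fun t _ => (hρ _).1)
  have hd : p ∣ (α * Y t - β * X t) - (α * Y t' - β * X t') := by
    have e1 := (hρ (α * Y t - β * X t)).2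
    have e2 := (hρ (α * Y t' - β * X t')).2
    rw [← show ρ (α * Y t - β * X t) = ρ (α * Y t' - β * X t') from heq] at e2
    have e3 := dvd_sub e1 e2
    rwa [sub_sub_sub_cancel_right] at e3
  obtain ⟨z, hz⟩ := hd
  have hzC := congrArg (Subtype.val : O → ℂ) hz
  refine ⟨((X t - X t' : O), (Y t - Y t' : O)), ⟨⟨?_, ?_⟩, ?_⟩, ⟨?_, ?_⟩, ?_, ?_⟩
  · exact ⟨0, by simpa using (X t - X t').2⟩
  · exact ⟨0, by simpa using (Y t - Y t').2⟩
  · refine ⟨(z : ℂ) / (N : ℂ) ^ k, ⟨k, ?_⟩, ?_⟩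
    · rw [mul_div_cancel₀ _ (pow_ne_zero _ hNC)]
      exact z.2
    · have hNk := pow_ne_zero k hNC
      rw [mul_div_assoc', eq_div_iff hNk]
      have e1 : (p : ℂ) * z = ((N : ℂ) ^ k * w.1) * ((Y t - Y t' : O) : ℂ) -
          ((N : ℂ) ^ k * w.2) * ((X t - X t' : O) : ℂ) := by
        have e2 : (p : ℂ) * z = ((p * z : O) : ℂ) := by push_cast; rfl
        rw [e2, ← hz]
        push_cast
        ring
      rw [e1]
      unfold cr
      ring
  · exact (X t - X t').2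
  · exact (Y t - Y t').2
  · intro h0
    apply hne
    rw [Prod.mk_eq_zero] at h0
    obtain ⟨g1, g2⟩ := h0
    have e1 : ((((t.1.1 : ℤ) - t'.1.1 : ℤ)) : ℂ) + (((t.1.2 : ℤ) - t'.1.2 : ℤ) : ℂ) * ω = 0 := by
      rw [← g1]
      simp only [X]
      push_cast
      ring
    have e2 : ((((t.2.1 : ℤ) - t'.2.1 : ℤ)) : ℂ) + (((t.2.2 : ℤ) - t'.2.2 : ℤ) : ℂ) * ω = 0 := by
      rw [← g2]
      simp only [Y]
      push_cast
      ring
    obtain ⟨a1, a2⟩ := df_ind hO e1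
    obtain ⟨a3, a4⟩ := df_ind hO e2
    refine Prod.ext (Prod.ext ?_ ?_) (Prod.ext ?_ ?_) <;> omega
  · have key : ∀ a b a' b' : ℕ, a ≤ m → b ≤ m → a' ≤ m → b' ≤ m →
        ‖((((a : O) + (b : O) * w0) - ((a' : O) + (b' : O) * w0) : O) : ℂ)‖ ≤ (1 + ‖ω‖) * s := by
      intro a b a' b' ha hb ha' hb'
      have e1 : ((((a : O) + (b : O) * w0) - ((a' : O) + (b' : O) * w0) : O) : ℂ) =
          (((a : ℝ) - a' : ℝ) : ℂ) + (((b : ℝ) - b' : ℝ) : ℂ) * ω := by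
        push_cast
        ring
      rw [e1]
      have d : ∀ i j : ℕ, i ≤ m → j ≤ m → |(i : ℝ) - j| ≤ s := by
        intro i j hi hj
        have hi' : (i : ℝ) ≤ m := by exact_mod_cast hi
        have hj' : (j : ℝ) ≤ m := by exact_mod_cast hj
        have hi0 : (0 : ℝ) ≤ i := Nat.cast_nonneg _
        have hj0 : (0 : ℝ) ≤ j := Nat.cast_nonneg _
        rw [abs_le]
        constructor <;> linarith
      refine (norm_add_le _ _).trans ?_
      rw [norm_mul, Complex.norm_real, Complex.norm_real, Real.norm_eq_abs, Real.norm_eq_abs]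
      have e2 := d a a' ha ha'
      have e3 := mul_le_mul_of_nonneg_right (d b b' hb hb') (norm_nonneg ω)
      rw [add_mul, one_mul, mul_comm ‖ω‖ s]
      exact add_le_add e2 e3
    simp only [T, Finset.mem_product, Finset.mem_range] at ht ht'
    rw [Prod.norm_def]
    apply max_le
    · exact key _ _ _ _ (by omega) (by omega) (by omega) (by omega)
    · exact key _ _ _ _ (by omega) (by omega) (by omega) (by omega)

theorem sv_spec (hO : Quad O ω) (hN : 0 < N) {p : O} (hp : Prime p) (hpN : ¬ p ∣ (N : O))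
    {L : Set V2} (hL : L ∈ LS O N p) : sv O ω p L ∈ L ∧ In O (sv O ω p L) ∧ sv O ω p L ≠ 0 ∧
      ‖sv O ω p L‖ ≤ (1 + ‖ω‖) * √‖(p : ℂ)‖ := by
  have h := df_exists hO hN hp hL
  unfold sv
  rw [dif_pos h]
  exact h.choose_spec

end Pool.Agent.KTD
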