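import Pool.Agent.Lib_helper87.KTD.Defs
import Pool.Agent.Lib_helper76.TCL.P.QB

set_option autoImplicit false

namespace Pool.Agent.KTD

open Complex Pool.Agent.TCL

variable {O : Subring ℂ} {ω : ℂ} {N : ℕ}

theorem fin_ball (hO : Quad O ω) {D : ℕ} (hD : 0 < D) (C : ℝ) :
    {z : ℂ | (D : ℂ) * z ∈ O ∧ ‖z‖ ≤ C}.Finite := by
  have him : 0 < ω.im := hO.im_pos
  have hDC : (D : ℂ) ≠ 0 := by exact_mod_cast hD.ne'
  obtain ⟨M, hM⟩ := exists_nat_ge (D * C / ω.im)
  obtain ⟨M', hM'⟩ := exists_nat_ge (D * C + M * |ω.re|)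
  let s : Set (ℤ × ℤ) := (Set.Icc (-(M' : ℤ)) M') ×ˢ (Set.Icc (-(M : ℤ)) M)
  have hs : s.Finite := (Set.finite_Icc _ _).prod (Set.finite_Icc _ _)
  refine (hs.image (fun q : ℤ × ℤ => ((q.1 : ℂ) + q.2 * ω) / D)).subset ?_
  rintro z ⟨hz, hzC⟩
  obtain ⟨a, b, hab⟩ := (hO.mem _).1 hz
  have hnorm : ‖(D : ℂ) * z‖ ≤ D * C := by
    rw [norm_mul, Complex.norm_natCast]
    exact mul_le_mul_of_nonneg_left hzC (Nat.cast_nonneg D)
  have hbi : ((D : ℂ) * z).im = b * ω.im := by rw [hab]; simp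
  have hre : ((D : ℂ) * z).re = a + b * ω.re := by rw [hab]; simp
  have h1 : |(b : ℝ) * ω.im| ≤ D * C := by
    rw [← hbi]; exact (Complex.abs_im_le_norm _).trans hnorm
  have h2 : |(a : ℝ) + b * ω.re| ≤ D * C := by
    rw [← hre]; exact (Complex.abs_re_le_norm _).trans hnorm
  have hb : |(b : ℝ)| ≤ M := by
    rw [abs_mul, abs_of_pos him] at h1
    exact ((le_div_iff₀ him).2 h1).trans hM
  have ha : |(a : ℝ)| ≤ M' := by
    have h3 : |(a : ℝ)| ≤ |(a : ℝ) + b * ω.re| + |(b : ℝ) * ω.re| := by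
      have := abs_sub ((a : ℝ) + b * ω.re) (b * ω.re)
      simpa using this
    have h4 : |(b : ℝ) * ω.re| ≤ M * |ω.re| := by
      rw [abs_mul]
      exact mul_le_mul_of_nonneg_right hb (abs_nonneg _)
    linarith
  have hbZ : -(M : ℤ) ≤ b ∧ b ≤ M := by
    have := abs_le.1 hb
    constructor
    · exact_mod_cast this.1
    · exact_mod_cast this.2
  have haZ : -(M' : ℤ) ≤ a ∧ a ≤ M' := by
    have := abs_le.1 ha
    constructor
    · exact_mod_cast this.1
    · exact_mod_cast this.2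
  refine ⟨(a, b), ⟨haZ, hbZ⟩, ?_⟩
  show ((a : ℂ) + b * ω) / D = z
  rw [← hab]
  field_simp

/-- functions with values zero or `N`-th roots of unity, support in `E⁻¹ O²`, period `E O²`, zero off `R` -/
def ST (R : Finset O) (N E : ℕ) : Set (Fs O) :=
  {φ | (∀ c, c ∉ R → ∀ l, φ c l = 0) ∧ (∀ c l, φ c l = 0 ∨ φ c l ^ N = 1) ∧
    (∀ c l, φ c l ≠ 0 → In O ((E : ℂ) • l)) ∧
    ∀ c l m, In O m → φ c (l + (E : ℂ) • m) = φ c l}

/-- `φ` is determined by its values at `(c, E⁻¹ (k, k'))`, `c ∈ R`, `k, k'` in representatives modulo `E²` -/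
theorem st_finite (hO : Quad O ω) (R : Finset O) {N E : ℕ} (hN : 0 < N) (hE : 0 < E) :
    (ST R N E).Finite := by
  classical
  have hEC : (E : ℂ) ≠ 0 := by exact_mod_cast hE.ne'
  have hEO : ((E : O) ^ 2) ≠ 0 := by
    intro h
    have := congrArg (fun x : O => (x : ℂ)) h
    simp at this
    exact hE.ne' this
  obtain ⟨S, hS⟩ := exists_reps hO ((E : O) ^ 2) hEO
  let V : Set ℂ := {0} ∪ (Polynomial.nthRootsFinset N (1 : ℂ) : Set ℂ)
  have hV : V.Finite := (Set.finite_singleton _).union (Finset.finite_toSet _)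
  let Φ : Fs O → (R × S × S → ℂ) := fun φ q =>
    φ q.1 ((q.2.1 : ℂ) / E, (q.2.2 : ℂ) / E)
  have hP : (Set.univ.pi (fun _ : R × S × S => V)).Finite := Set.Finite.pi fun _ => hV
  refine Set.Finite.of_finite_image (f := Φ) (hP.subset ?_) ?_
  · rintro _ ⟨φ, hφ, rfl⟩ q -
    rcases hφ.2.1 q.1 ((q.2.1 : ℂ) / E, (q.2.2 : ℂ) / E) with h | h
    · left; exact h
    · right
      rw [Finset.mem_coe, Polynomial.mem_nthRootsFinset hN]
      exact h
  · intro φ hφ φ' hφ' he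
    funext c l
    by_cases hc : c ∈ R
    swap
    · rw [hφ.1 c hc, hφ'.1 c hc]
    by_cases hl : In O ((E : ℂ) • l)
    swap
    · have e1 : φ c l = 0 := by
        by_contra hne; exact hl (hφ.2.2.1 c l hne)
      have e2 : φ' c l = 0 := by
        by_contra hne; exact hl (hφ'.2.2.1 c l hne)
      rw [e1, e2]
    obtain ⟨k, ⟨hk, m, hm⟩, -⟩ := hS ⟨_, hl.1⟩
    obtain ⟨k', ⟨hk', m', hm'⟩, -⟩ := hS ⟨_, hl.2⟩
    have hm1 : (E : ℂ) * l.1 = k + E ^ 2 * m := by
      have := congrArg (fun x : O => (x : ℂ)) hm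
      push_cast at this
      have h' : (E : ℂ) * l.1 - k = E ^ 2 * m := this
      linear_combination h'
    have hm2 : (E : ℂ) * l.2 = k' + E ^ 2 * m' := by
      have := congrArg (fun x : O => (x : ℂ)) hm'
      push_cast at this
      have h3 : (E : ℂ) * l.2 - k' = E ^ 2 * m' := this
      linear_combination h3
    have hl' : l = ((k : ℂ) / E, (k' : ℂ) / E) + (E : ℂ) • (((m : ℂ), (m' : ℂ)) : V2) := by
      refine Prod.ext ?_ ?_
      · show l.1 = (k : ℂ) / E + E * m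
        field_simp
        linear_combination hm1
      · show l.2 = (k' : ℂ) / E + E * m'
        field_simp
        linear_combination hm2
    have hm0 : In O (((m : ℂ), (m' : ℂ)) : V2) := ⟨m.2, m'.2⟩
    rw [hl', hφ.2.2.2 c _ _ hm0, hφ'.2.2.2 c _ _ hm0]
    exact congrFun he (⟨c, hc⟩, ⟨k, hk⟩, ⟨k', hk'⟩)

end Pool.Agent.KTD
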