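import Pool.Agent.Lib_helper87.KTD.P.EA
import Pool.Agent.Lib_helper87.KTD.P.DA
import Pool.Agent.Lib_helper76.TCL.P.SB

set_option autoImplicit false

namespace Pool.Agent.KTD

open Complex Pool.Agent.TCL

variable {O : Subring ℂ} {ω : ℂ} {f : O} {ε : O → O} {N : ℕ} {R : Finset O} {Λ : ℂ →ₗ[KK O] KK O}

/-- the hypotheses on the short vectors -/
def Sh (O : Subring ℂ) (N k : ℕ) (C : ℝ) (p : O) (L : Set V2) (a : V2) : Prop :=
  a ∈ L ∧ In O ((N : ℂ) ^ k • a) ∧ ‖a‖ ≤ C * √‖(p : ℂ)‖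

theorem eb_cr_norm (a b : V2) : ‖cr a b‖ ≤ 2 * (‖a‖ * ‖b‖) := by
  unfold cr
  have h1 : ‖a.1‖ ≤ ‖a‖ := norm_fst_le a
  have h2 : ‖a.2‖ ≤ ‖a‖ := norm_snd_le a
  have h3 : ‖b.1‖ ≤ ‖b‖ := norm_fst_le b
  have h4 : ‖b.2‖ ≤ ‖b‖ := norm_snd_le b
  refine le_trans (norm_sub_le _ _) ?_
  rw [norm_mul, norm_mul]
  have h5 : ‖a.1‖ * ‖b.2‖ ≤ ‖a‖ * ‖b‖ := mul_le_mul h1 h4 (norm_nonneg _) (norm_nonneg _)
  have h6 : ‖a.2‖ * ‖b.1‖ ≤ ‖a‖ * ‖b‖ := mul_le_mul h2 h3 (norm_nonneg _) (norm_nonneg _)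
  linarith

theorem eb_cr_smul (s t : ℂ) (a b : V2) : cr (s • a) (t • b) = s * t * cr a b := by
  unfold cr
  simp only [Prod.smul_fst, Prod.smul_snd, smul_eq_mul]
  ring

theorem eb_cr_mem {a b : V2} (ha : In O a) (hb : In O b) : cr a b ∈ O :=
  O.sub_mem (O.mul_mem ha.1 hb.2) (O.mul_mem ha.2 hb.1)

theorem eb_pne {p : O} (hp : Prime p) : (p : ℂ) ≠ 0 := by
  intro h
  exact hp.ne_zero (Subtype.ext h)

/-- if `s • a`, `t • b` are in `O²` and `a, b` in `L` then `s t [a, b] / p` is in `O` -/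
theorem eb_div (hN : 0 < N) {p : O} (hp : Prime p) (hpN : ¬ p ∣ (N : O)) {L : Set V2}
    (hL : L ∈ LS O N p) {a b : V2} (ha : a ∈ L) (hb : b ∈ L) {s t : ℕ}
    (hs : In O ((s : ℂ) • a)) (ht : In O ((t : ℂ) • b)) :
    ∃ κ : ℂ, cr a b = p * κ ∧ ((s : ℂ) * t) * κ ∈ O := by
  obtain ⟨z, hz, hab⟩ := lw_cr hN hp hpN hL ha hb
  refine ⟨z, hab, ?_⟩
  have h1 : cr ((s : ℂ) • a) ((t : ℂ) • b) ∈ O := eb_cr_mem hs ht
  have h2 : ((⟨_, h1⟩ : O) : ℂ) = p * (((s * t : ℕ) : ℂ) * z) := by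
    show cr ((s : ℂ) • a) ((t : ℂ) • b) = _
    rw [eb_cr_smul, hab]
    push_cast
    ring
  have h3 : ((s * t : ℕ) : ℂ) * z ∈ ON O N :=
    (ON O N).mul_mem (natCast_mem _ _) hz
  obtain ⟨y, hy⟩ := on_cap hN hp hpN h3 h2
  have h4 : ((⟨_, h1⟩ : O) : ℂ) = p * y := by
    have := congrArg (fun z : O => (z : ℂ)) hy
    simpa using this
  have h5 : ((s : ℂ) * t) * z = y := by
    apply mul_left_cancel₀ (eb_pne hp)
    rw [← h4, h2]
    push_cast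
    ring
  rw [h5]
  exact y.2

/-- brackets of short vectors: `[a, b] = p κ` with `N^(2k) κ ∈ O`, `‖κ‖ ≤ 2 C²`: `lw_cr`, `on_cap` -/
theorem sh_cr (hN : 0 < N) {k : ℕ} {C : ℝ} {p : O} (hp : Prime p) (hpN : ¬ p ∣ (N : O)) {L : Set V2}
    (hL : L ∈ LS O N p) {a b : V2} (ha : Sh O N k C p L a) (hb : Sh O N k C p L b) :
    ∃ κ : ℂ, cr a b = p * κ ∧ (N : ℂ) ^ (2 * k) * κ ∈ O ∧ ‖κ‖ ≤ 2 * C ^ 2 := by
  obtain ⟨a1, a2, a3⟩ := ha
  obtain ⟨b1, b2, b3⟩ := hb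
  obtain ⟨κ, h1, h2⟩ := eb_div (s := N ^ k) (t := N ^ k) hN hp hpN hL a1 b1
    (by push_cast; exact a2) (by push_cast; exact b2)
  have hp0 := eb_pne hp
  have hpn : 0 < ‖(p : ℂ)‖ := norm_pos_iff.2 hp0
  refine ⟨κ, h1, ?_, ?_⟩
  · push_cast at h2
    have e : (N : ℂ) ^ (2 * k) * κ = (N : ℂ) ^ k * (N : ℂ) ^ k * κ := by ring
    rw [e]
    exact h2
  · have h3 := eb_cr_norm a b
    rw [h1, norm_mul] at h3
    have h4 : ‖a‖ * ‖b‖ ≤ (C * √‖(p : ℂ)‖) * (C * √‖(p : ℂ)‖) :=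
      mul_le_mul a3 b3 (norm_nonneg _) (le_trans (norm_nonneg _) a3)
    have h5 : (C * √‖(p : ℂ)‖) * (C * √‖(p : ℂ)‖) = C ^ 2 * ‖(p : ℂ)‖ := by
      have := Real.mul_self_sqrt hpn.le
      calc (C * √‖(p : ℂ)‖) * (C * √‖(p : ℂ)‖) = C ^ 2 * (√‖(p : ℂ)‖ * √‖(p : ℂ)‖) := by ring
        _ = _ := by rw [this]
    rw [h5] at h4
    have h6 : ‖(p : ℂ)‖ * ‖κ‖ ≤ ‖(p : ℂ)‖ * (2 * C ^ 2) := by linarith
    exact le_of_mul_le_mul_left h6 hpn

theorem eb_norm (hO : Quad O ω) (D : ℕ) (κ : ℂ) : ∃ n : ℕ, 0 < n ∧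
    (κ ≠ 0 → D ≠ 0 → (D : ℂ) * κ ∈ O → ∃ w ∈ O, (n : ℂ) = D * κ * w) := by
  by_cases h : κ ≠ 0 ∧ D ≠ 0 ∧ (D : ℂ) * κ ∈ O
  · obtain ⟨h1, h2, h3⟩ := h
    have h4 : (⟨_, h3⟩ : O) ≠ 0 := by
      intro h5
      have h6 : (D : ℂ) * κ = 0 := congrArg (fun z : O => (z : ℂ)) h5
      rcases mul_eq_zero.1 h6 with h7 | h7
      · exact h2 (by exact_mod_cast h7)
      · exact h1 h7
    obtain ⟨n, hn, w, hw⟩ := qb_norm hO _ h4
    refine ⟨n, Nat.pos_of_ne_zero hn, fun _ _ _ => ⟨w, w.2, ?_⟩⟩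
    have := congrArg (fun z : O => (z : ℂ)) hw
    simpa using this
  · refine ⟨1, one_pos, fun h1 h2 h3 => absurd ⟨h1, h2, h3⟩ h⟩

theorem eb_lw {p : O} {L : Set V2} (hL : L ∈ LS O N p) {a b : V2} (ha : a ∈ L) (hb : b ∈ L)
    {s t : ℂ} (hs : s ∈ O) (ht : t ∈ O) {m : V2} : m + (s • a + t • b) ∈ L ↔ m ∈ L := by
  obtain ⟨w, hw, -, rfl⟩ := hL
  have key : ∀ (m : V2) (s t : ℂ), s ∈ O → t ∈ O → m ∈ Lw O N p w →
      m + (s • a + t • b) ∈ Lw O N p w := by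
    intro m s t hs ht hm
    obtain ⟨m1, z, hz, hmz⟩ := hm
    obtain ⟨a1, z', hz', haz⟩ := ha
    obtain ⟨b1, z'', hz'', hbz⟩ := hb
    have hs' := O_le_ON (N := N) hs
    have ht' := O_le_ON (N := N) ht
    refine ⟨⟨?_, ?_⟩, z + (s * z' + t * z''), ?_, ?_⟩
    · exact (ON O N).add_mem m1.1 ((ON O N).add_mem ((ON O N).mul_mem hs' a1.1)
        ((ON O N).mul_mem ht' b1.1))
    · exact (ON O N).add_mem m1.2 ((ON O N).add_mem ((ON O N).mul_mem hs' a1.2)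
        ((ON O N).mul_mem ht' b1.2))
    · exact (ON O N).add_mem hz ((ON O N).add_mem ((ON O N).mul_mem hs' hz')
        ((ON O N).mul_mem ht' hz''))
    · have e : cr w (m + (s • a + t • b)) = cr w m + (s * cr w a + t * cr w b) := by
        unfold cr
        simp only [Prod.fst_add, Prod.snd_add, Prod.smul_fst, Prod.smul_snd, smul_eq_mul]
        ring
      rw [e, hmz, haz, hbz]
      ring
  constructor
  · intro h
    have h1 := key _ (-s) (-t) (O.neg_mem hs) (O.neg_mem ht) h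
    have e : m + (s • a + t • b) + (-s • a + -t • b) = m := by
      rw [neg_smul, neg_smul]
      abel
    rw [e] at h1
    exact h1
  · exact key m s t hs ht

theorem eb_chi_pow (hO : Quad O ω) {x : V2} (hx : In O ((N : ℂ) • x)) (c : O) (l : V2) :
    chi O ω ε N x c l = 0 ∨ chi O ω ε N x c l ^ N = 1 := by
  unfold chi
  by_cases hc : In O l ∧ IsCoprime c (N : O)
  · right
    rw [if_pos hc]
    obtain ⟨hl, -⟩ := hc
    have key : ∀ a z : ℂ, (N : ℂ) * a ∈ O → z ∈ O → pr ω (ε c * c * a) z ^ N = 1 := by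
      intro a z ha hz
      have e1 : ∀ n : ℕ, pr ω (ε c * c * a) z ^ n = pr ω ((n : ℂ) * (ε c * c * a)) z := by
        intro n
        induction n with
        | zero => simp [pr_zero]
        | succ n ih =>
          rw [pow_succ, ih, ← pr_add]
          congr 1
          push_cast
          ring
      rw [e1]
      have e : (N : ℂ) * ((ε c : ℂ) * c * a) = ((ε c * c * ⟨N * a, ha⟩ : O) : ℂ) := by
        push_cast; ring
      have e2 : z = ((⟨z, hz⟩ : O) : ℂ) := rfl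
      rw [e, e2, pr_mem hO]
    rw [mul_pow, key _ _ hx.1 hl.1, key _ _ hx.2 hl.2, one_mul]
  · left
    rw [if_neg hc]

theorem eb_chi_per (hO : Quad O ω) {x : V2} (hx : In O ((N : ℂ) • x)) (c : O) (l y : V2)
    (hy : In O y) : chi O ω ε N x c (l + (N : ℂ) • y) = chi O ω ε N x c l := by
  unfold chi
  have hNO : (N : ℂ) ∈ O := natCast_mem O N
  have h1 : In O ((N : ℂ) • y) := ⟨O.mul_mem hNO hy.1, O.mul_mem hNO hy.2⟩
  have h2 : In O (l + (N : ℂ) • y) ↔ In O l := by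
    constructor
    · rintro ⟨u, v⟩
      refine ⟨?_, ?_⟩
      · have := O.sub_mem u h1.1
        simpa using this
      · have := O.sub_mem v h1.2
        simpa using this
    · rintro ⟨u, v⟩
      exact ⟨O.add_mem u h1.1, O.add_mem v h1.2⟩
  by_cases hc : In O l ∧ IsCoprime c (N : O)
  · have hc' : In O (l + (N : ℂ) • y) ∧ IsCoprime c (N : O) := ⟨h2.2 hc.1, hc.2⟩
    rw [if_pos hc, if_pos hc']
    obtain ⟨hl, -⟩ := hc
    have key : ∀ a z w : ℂ, (N : ℂ) * a ∈ O → z ∈ O → w ∈ O →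
        pr ω (ε c * c * a) (z + N * w) = pr ω (ε c * c * a) z := by
      intro a z w ha hz hw
      have e0 : ∀ t g g' : ℂ, pr ω t (g + g') = pr ω t g * pr ω t g' := by
        intro t g g'
        unfold pr
        rw [← Complex.exp_add]
        congr 1
        rw [map_add, mul_add, Complex.add_im, add_div]
        push_cast
        ring
      rw [e0]
      have e3 : pr ω (ε c * c * a) (N * w) = pr ω ((N : ℂ) * (ε c * c * a)) w := by
        rw [pr_mul ω (ε c * c * a) w (N : ℂ), map_natCast]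
      have e : (N : ℂ) * ((ε c : ℂ) * c * a) = ((ε c * c * ⟨N * a, ha⟩ : O) : ℂ) := by
        push_cast; ring
      have e2 : w = ((⟨w, hw⟩ : O) : ℂ) := rfl
      rw [e3, e, e2, pr_mem hO, mul_one]
    have k1 := key x.1 l.1 y.1 hx.1 hl.1 hy.1
    have k2 := key x.2 l.2 y.2 hx.2 hl.2 hy.2
    simp only [Prod.fst_add, Prod.snd_add, Prod.smul_fst, Prod.smul_snd, smul_eq_mul]
    rw [k1, k2]
  · have hc' : ¬ (In O (l + (N : ℂ) • y) ∧ IsCoprime c (N : O)) := by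
      rw [h2]; exact hc
    rw [if_neg hc, if_neg hc']

/-- `l = ([m, b], [a, m]) / [a, b]` for `m = l.1 a + l.2 b`, and `[m, b], [a, m]` are in `p N^(-k) O`; for the
finitely many `κ ≠ 0` (`fin_ball`) there is an `E` with `E / (N^k κ) ∈ O`, `N N^k ∣ E` -/
theorem phi_mem (h : Ctx O ω f ε N R Λ) (k : ℕ) (C : ℝ) {x : V2} (hx : In O ((N : ℂ) • x)) :
    ∃ E : ℕ, 0 < E ∧ ∀ (p : O) (_ : Prime p) (_ : ¬ p ∣ (N : O)) (L : Set V2) (_ : L ∈ LS O N p)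
      (a b : V2) (_ : Sh O N k C p L a) (_ : Sh O N k C p L b) (_ : cr a b ≠ 0),
      (fun (c : O) (l : V2) => open Classical in
        if c ∈ R ∧ l.1 • a + l.2 • b ∈ L then chi O ω ε N x c (l.1 • a + l.2 • b) else 0)
        ∈ ST R N E := by
  classical
  have hN := h.N_pos
  set D : ℕ := N ^ (2 * k) with hD
  have hD0 : 0 < D := Nat.pos_of_ne_zero (pow_ne_zero _ hN.ne')
  have hNk0 : 0 < N ^ k := Nat.pos_of_ne_zero (pow_ne_zero _ hN.ne')
  choose n hn0 hn using eb_norm (O := O) h.quad D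
  set S := (fin_ball h.quad hD0 (2 * C ^ 2)).toFinset with hS
  set E : ℕ := N * N ^ k * ∏ κ ∈ S, n κ with hE
  have hE0 : 0 < E := by
    rw [hE]
    exact Nat.mul_pos (Nat.mul_pos hN hNk0) (Finset.prod_pos fun κ _ => hn0 κ)
  have hEκ : ∀ κ : ℂ, κ ≠ 0 → (D : ℂ) * κ ∈ O → ‖κ‖ ≤ 2 * C ^ 2 → ∃ w ∈ O, (E : ℂ) = D * κ * w := by
    intro κ h1 h2 h3
    have h4 : κ ∈ S := by
      rw [hS, Set.Finite.mem_toFinset]
      exact ⟨h2, h3⟩
    obtain ⟨w, hw, hnw⟩ := hn κ h1 hD0.ne' h2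
    have h5 : n κ ∣ E := by
      rw [hE]
      exact Dvd.dvd.mul_left (Finset.dvd_prod_of_mem _ h4) _
    obtain ⟨e, he⟩ := h5
    refine ⟨w * e, O.mul_mem hw (natCast_mem O e), ?_⟩
    rw [he]
    push_cast
    rw [hnw]
    ring
  refine ⟨E, hE0, ?_⟩
  intro p hp hpN L hL a b ha hb hab
  obtain ⟨κ, hκ1, hκ2, hκ3⟩ := sh_cr hN hp hpN hL ha hb
  have hp0 := eb_pne hp
  have hκ0 : κ ≠ 0 := by
    intro h0
    rw [h0, mul_zero] at hκ1
    exact hab hκ1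
  have hκ2' : (D : ℂ) * κ ∈ O := by rw [hD]; push_cast; exact hκ2
  obtain ⟨w, hw, hEw⟩ := hEκ κ hκ0 hκ2' hκ3
  have hNkC : (N : ℂ) ^ k ≠ 0 := by
    apply pow_ne_zero
    exact_mod_cast hN.ne'
  have hEN : ∃ e : ℕ, (E : ℂ) = N * ((N : ℂ) ^ k * e) := by
    refine ⟨∏ κ ∈ S, n κ, ?_⟩
    rw [hE]
    push_cast
    ring
  refine ⟨?_, ?_, ?_, ?_⟩
  · intro c hc l
    show (if c ∈ R ∧ _ then _ else _) = (0 : ℂ)
    rw [if_neg (fun h => hc h.1)]
  · intro c l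
    show (if c ∈ R ∧ _ then _ else _) = (0 : ℂ) ∨ (if c ∈ R ∧ _ then _ else _) ^ N = (1 : ℂ)
    by_cases hc : c ∈ R ∧ l.1 • a + l.2 • b ∈ L
    · rw [if_pos hc]
      exact eb_chi_pow h.quad hx c _
    · rw [if_neg hc]
      exact Or.inl rfl
  · intro c l hcl
    have hcl' : (if c ∈ R ∧ l.1 • a + l.2 • b ∈ L then
      chi O ω ε N x c (l.1 • a + l.2 • b) else 0) ≠ (0 : ℂ) := hcl
    by_cases hc : c ∈ R ∧ l.1 • a + l.2 • b ∈ L
    · rw [if_pos hc] at hcl'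
      obtain ⟨-, hmL⟩ := hc
      set m := l.1 • a + l.2 • b with hm
      have hmO : In O m := by
        by_contra hcon
        apply hcl'
        unfold chi
        rw [if_neg (fun h => hcon h.1)]
      have hmO1 : In O (((1 : ℕ) : ℂ) • m) := by
        rw [Nat.cast_one, one_smul]; exact hmO
      obtain ⟨z, hz1, hz2⟩ := eb_div (s := 1) (t := N ^ k) hN hp hpN hL hmL hb.1 hmO1
        (by push_cast; exact hb.2.1)
      obtain ⟨z', hz1', hz2'⟩ := eb_div (s := N ^ k) (t := 1) hN hp hpN hL ha.1 hmL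
        (by push_cast; exact ha.2.1) hmO1
      push_cast at hz2 hz2'
      have e1 : cr m b = l.1 * cr a b := by
        rw [hm]; unfold cr
        simp only [Prod.fst_add, Prod.snd_add, Prod.smul_fst, Prod.smul_snd, smul_eq_mul]
        ring
      have e2 : cr a m = l.2 * cr a b := by
        rw [hm]; unfold cr
        simp only [Prod.fst_add, Prod.snd_add, Prod.smul_fst, Prod.smul_snd, smul_eq_mul]
        ring
      have e3 : z = l.1 * κ := by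
        apply mul_left_cancel₀ hp0
        rw [← hz1, e1, hκ1]; ring
      have e4 : z' = l.2 * κ := by
        apply mul_left_cancel₀ hp0
        rw [← hz1', e2, hκ1]; ring
      have e5 : (D : ℂ) = (N : ℂ) ^ k * (N : ℂ) ^ k := by
        rw [hD]; push_cast; ring
      have hNkO : (N : ℂ) ^ k ∈ O := O.pow_mem (natCast_mem O N) k
      constructor
      · show (E : ℂ) * l.1 ∈ O
        have e6 : (E : ℂ) * l.1 = ((N : ℂ) ^ k * w) * (1 * (N : ℂ) ^ k * z) := by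
          rw [hEw, e5, e3]; ring
        rw [e6]
        exact O.mul_mem (O.mul_mem hNkO hw) hz2
      · show (E : ℂ) * l.2 ∈ O
        have e6 : (E : ℂ) * l.2 = ((N : ℂ) ^ k * w) * ((N : ℂ) ^ k * 1 * z') := by
          rw [hEw, e5, e4]; ring
        rw [e6]
        exact O.mul_mem (O.mul_mem hNkO hw) hz2'
    · rw [if_neg hc] at hcl'
      exact absurd rfl hcl'
  · intro c l m hm
    obtain ⟨e, he⟩ := hEN
    have e1 : (l + (E : ℂ) • m).1 • a + (l + (E : ℂ) • m).2 • b =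
        (l.1 • a + l.2 • b) + (((E : ℂ) * m.1) • a + ((E : ℂ) * m.2) • b) := by
      simp only [Prod.fst_add, Prod.snd_add, Prod.smul_fst, Prod.smul_snd, smul_eq_mul, add_smul]
      abel
    have hEO : (E : ℂ) ∈ O := natCast_mem O E
    have e2 : (l.1 • a + l.2 • b) + (((E : ℂ) * m.1) • a + ((E : ℂ) * m.2) • b) ∈ L ↔
        l.1 • a + l.2 • b ∈ L :=
      eb_lw hL ha.1 hb.1 (O.mul_mem hEO hm.1) (O.mul_mem hEO hm.2)
    have e3 : ((E : ℂ) * m.1) • a + ((E : ℂ) * m.2) • b =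
        (N : ℂ) • (((e : ℂ) * m.1) • ((N : ℂ) ^ k • a) + ((e : ℂ) * m.2) • ((N : ℂ) ^ k • b)) := by
      rw [he]
      simp only [smul_add, smul_smul]
      congr 2 <;> ring
    have e4 : In O (((e : ℂ) * m.1) • ((N : ℂ) ^ k • a) + ((e : ℂ) * m.2) • ((N : ℂ) ^ k • b)) := by
      have heO : (e : ℂ) ∈ O := natCast_mem O e
      exact ⟨O.add_mem (O.mul_mem (O.mul_mem heO hm.1) ha.2.1.1)
        (O.mul_mem (O.mul_mem heO hm.2) hb.2.1.1),
        O.add_mem (O.mul_mem (O.mul_mem heO hm.1) ha.2.1.2)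
        (O.mul_mem (O.mul_mem heO hm.2) hb.2.1.2)⟩
    show (if c ∈ R ∧ (l + (E : ℂ) • m).1 • a + (l + (E : ℂ) • m).2 • b ∈ L then
      chi O ω ε N x c ((l + (E : ℂ) • m).1 • a + (l + (E : ℂ) • m).2 • b) else 0) =
      (if c ∈ R ∧ l.1 • a + l.2 • b ∈ L then chi O ω ε N x c (l.1 • a + l.2 • b) else 0)
    rw [e1]
    by_cases hc : c ∈ R ∧ l.1 • a + l.2 • b ∈ L
    · rw [if_pos hc, if_pos ⟨hc.1, e2.2 hc.2⟩, e3, eb_chi_per h.quad hx c _ _ e4]
    · rw [if_neg hc, if_neg (fun h' => hc ⟨h'.1, e2.1 h'.2⟩)]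

end Pool.Agent.KTD
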