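import Pool.Agent.Lib_helper87.KTD.P.EB
import Pool.Agent.Lib_helper87.KTD.P.DD
import Pool.Agent.Lib_helper87.KTD.P.TA
import Pool.Agent.Lib_helper76.TCL.P.QA
import Pool.Agent.Lib_helper76.TCL.P.QK

set_option autoImplicit false

namespace Pool.Agent.KTD

open Complex Pool.Agent.TCL

variable {O : Subring ℂ} {ω : ℂ} {f : O} {ε : O → O} {N : ℕ} {R : Finset O} {Λ : ℂ →ₗ[KK O] KK O}

/-- `tau` on the standard triangles `e1, e2, (α, β)` and the `φ ∈ ST` has finitely many values -/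
theorem fin_tau (h : Ctx O ω f ε N R Λ) (E : ℕ) (hE : 0 < E) (S : Set V2) (hS : S.Finite) :
    ∃ C : ℝ, ∀ s ∈ S, ∀ φ ∈ ST R N E, ‖(tau Λ R (1, 0) (0, 1) s (ten (1, 0) φ) : ℂ)‖ ≤ C ∧
      ‖(tau Λ R (1, 0) (0, 1) s (ten (0, 1) φ) : ℂ)‖ ≤ C := by
  have hfin := hS.prod (st_finite h.quad R h.N_pos hE)
  obtain ⟨C1, hC1⟩ := (hfin.image (fun p : V2 × Fs O =>
    ‖(tau Λ R (1, 0) (0, 1) p.1 (ten (1, 0) p.2) : ℂ)‖)).bddAbove
  obtain ⟨C2, hC2⟩ := (hfin.image (fun p : V2 × Fs O =>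
    ‖(tau Λ R (1, 0) (0, 1) p.1 (ten (0, 1) p.2) : ℂ)‖)).bddAbove
  refine ⟨max C1 C2, fun s hs φ hφ => ⟨?_, ?_⟩⟩
  · exact le_trans (hC1 ⟨(s, φ), ⟨hs, hφ⟩, rfl⟩) (le_max_left _ _)
  · exact le_trans (hC2 ⟨(s, φ), ⟨hs, hφ⟩, rfl⟩) (le_max_right _ _)

/-- the linear map with the columns `a, b` -/
private noncomputable def ec_hm (a b : V2) (hab : cr a b ≠ 0) : GL2 where
  toFun l := l.1 • a + l.2 • b
  invFun m := (cr m b / cr a b, cr a m / cr a b)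
  map_add' l m := by
    ext <;> simp <;> ring
  map_smul' t l := by
    ext <;> simp <;> ring
  left_inv l := by
    have h : a.1 * b.2 - a.2 * b.1 ≠ 0 := hab
    ext
    · show cr (l.1 • a + l.2 • b) b / cr a b = l.1
      rw [div_eq_iff hab]
      simp only [cr, Prod.fst_add, Prod.snd_add, Prod.smul_fst, Prod.smul_snd, smul_eq_mul]
      ring
    · show cr a (l.1 • a + l.2 • b) / cr a b = l.2
      rw [div_eq_iff hab]
      simp only [cr, Prod.fst_add, Prod.snd_add, Prod.smul_fst, Prod.smul_snd, smul_eq_mul]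
      ring
  right_inv m := by
    have h : a.1 * b.2 - a.2 * b.1 ≠ 0 := hab
    ext
    · show cr m b / cr a b * a.1 + cr a m / cr a b * b.1 = m.1
      have e : cr m b / cr a b * a.1 + cr a m / cr a b * b.1
          = (cr m b * a.1 + cr a m * b.1) / cr a b := by ring
      rw [e, div_eq_iff hab]
      simp only [cr]
      ring
    · show cr m b / cr a b * a.2 + cr a m / cr a b * b.2 = m.2
      have e : cr m b / cr a b * a.2 + cr a m / cr a b * b.2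
          = (cr m b * a.2 + cr a m * b.2) / cr a b := by ring
      rw [e, div_eq_iff hab]
      simp only [cr]
      ring

private theorem ec_apply (a b : V2) (hab : cr a b ≠ 0) (l : V2) :
    ec_hm a b hab l = l.1 • a + l.2 • b := rfl

private theorem ec_inv_apply (a b : V2) (hab : cr a b ≠ 0) (m : V2) :
    (ec_hm a b hab)⁻¹ m = (cr m b / cr a b, cr a m / cr a b) := rfl

private theorem ec_dt (a b : V2) (hab : cr a b ≠ 0) : dt (ec_hm a b hab) = cr a b := by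
  unfold dt
  rw [ec_apply, ec_apply]
  simp

private theorem ec_dt_inv (a b : V2) (hab : cr a b ≠ 0) :
    dt (ec_hm a b hab)⁻¹ = (cr a b)⁻¹ := by
  have h1 := dt_mul (ec_hm a b hab) (ec_hm a b hab)⁻¹
  rw [mul_inv_cancel, dt_one, ec_dt] at h1
  exact eq_inv_of_mul_eq_one_right h1.symm

private theorem ec_KK_of {O : Subring ℂ} {z : ℂ} {D : ℕ} (hD : 0 < D) (hz : (D : ℂ) * z ∈ O) :
    z ∈ KK O := by
  have h1 : (D : ℂ) ≠ 0 := by exact_mod_cast hD.ne'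
  have h2 : z = ((⟨(D : ℂ) * z, hz⟩ : O) : ℂ) / (((D : O) : O) : ℂ) := by
    push_cast
    field_simp
  rw [h2]
  exact (KK O).div_mem (coe_mem_KK _) (coe_mem_KK _)

private theorem ec_cr_KK {O : Subring ℂ} {u v : V2} (hu : In (KK O) u) (hv : In (KK O) v) :
    cr u v ∈ KK O :=
  (KK O).sub_mem ((KK O).mul_mem hu.1 hv.2) ((KK O).mul_mem hu.2 hv.1)

private theorem ec_cr_norm (u v : V2) : ‖cr u v‖ ≤ 2 * ‖u‖ * ‖v‖ := by
  have h1 : ‖u.1‖ ≤ ‖u‖ := norm_fst_le u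
  have h2 : ‖u.2‖ ≤ ‖u‖ := norm_snd_le u
  have h3 : ‖v.1‖ ≤ ‖v‖ := norm_fst_le v
  have h4 : ‖v.2‖ ≤ ‖v‖ := norm_snd_le v
  have h5 : ‖u.1 * v.2‖ ≤ ‖u‖ * ‖v‖ := by
    rw [norm_mul]
    exact mul_le_mul h1 h4 (norm_nonneg _) (norm_nonneg _)
  have h6 : ‖u.2 * v.1‖ ≤ ‖u‖ * ‖v‖ := by
    rw [norm_mul]
    exact mul_le_mul h2 h3 (norm_nonneg _) (norm_nonneg _)
  calc ‖cr u v‖ ≤ ‖u.1 * v.2‖ + ‖u.2 * v.1‖ := norm_sub_le _ _
    _ ≤ 2 * ‖u‖ * ‖v‖ := by linarith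

/-- `TT` depends on the values at `c ∈ R` only -/
private theorem ec_tt_congr (R : Finset O) (u1 u2 u3 : V2) {F F' : Fm O}
    (hF : ∀ c ∈ R, ∀ l, F c l = F' c l) : TT R u1 u2 u3 F = TT R u1 u2 u3 F' := by
  unfold TT
  refine Finset.sum_congr rfl fun c hc => ?_
  congr 1
  funext l
  rw [hF c hc l]

private theorem ec_nice (hN : 0 < N) {E : ℕ} (hE : 0 < E) {φ : Fs O} (hφ : φ ∈ ST R N E) (v : V2) :
    Nice (ten v φ) := by
  refine ⟨‖v‖, E, hE, fun c l => ⟨?_, ?_⟩⟩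
  · show ‖φ c l • v‖ ≤ ‖v‖
    rw [norm_smul]
    have h1 : ‖φ c l‖ ≤ 1 := by
      rcases hφ.2.1 c l with h | h
      · rw [h, norm_zero]; exact zero_le_one
      · have h2 : ‖φ c l‖ ^ N = 1 := by rw [← norm_pow, h, norm_one]
        exact le_of_eq ((pow_eq_one_iff_of_nonneg (norm_nonneg _) hN.ne').1 h2)
    calc ‖φ c l‖ * ‖v‖ ≤ 1 * ‖v‖ := mul_le_mul_of_nonneg_right h1 (norm_nonneg _)
      _ = ‖v‖ := one_mul _
  · intro hl
    refine hφ.2.2.1 c l fun h0 => hl ?_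
    show φ c l • v = 0
    rw [h0, zero_smul]

private theorem ec_pow {P : ℝ} (hP : 0 < P) : √P * (P ^ 3)⁻¹ = P ^ (-(5 / 2) : ℝ) := by
  rw [Real.sqrt_eq_rpow, ← Real.rpow_natCast P 3, ← Real.rpow_neg hP.le, ← Real.rpow_add hP]
  congr 1
  norm_num

private theorem ec_coef {v b : V2} {q κ : ℂ} {P C : ℝ} {D : ℕ} (hD : 0 < D) (hP : 0 < P)
    (hκ : 1 ≤ (D : ℝ) * ‖κ‖) (hq : ‖q‖ = P * ‖κ‖) (hb : ‖b‖ ≤ C * √P) (u : ℂ)
    (hu : ‖u‖ ≤ 2 * ‖v‖ * ‖b‖) :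
    ‖(‖q⁻¹‖ : ℂ) ^ 2 * (u / q)‖ ≤ 2 * ‖v‖ * |C| * (D : ℝ) ^ 3 * P ^ (-(5 / 2) : ℝ) := by
  have hκ0 : 0 < ‖κ‖ := by
    rcases (norm_nonneg κ).lt_or_eq with h | h
    · exact h
    · rw [← h] at hκ
      norm_num at hκ
  have hD' : (0 : ℝ) < D := by exact_mod_cast hD
  have hq0 : 0 < ‖q‖ := by rw [hq]; positivity
  have e1 : ‖(‖q⁻¹‖ : ℂ) ^ 2 * (u / q)‖ = ‖u‖ * (‖q‖ ^ 3)⁻¹ := by
    rw [norm_mul, norm_pow, norm_div, Complex.norm_real, norm_inv, norm_inv, norm_norm]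
    field_simp
  rw [e1]
  have h1 : (‖q‖ ^ 3)⁻¹ ≤ (D : ℝ) ^ 3 * (P ^ 3)⁻¹ := by
    have h2 : P ≤ D * ‖q‖ := by
      rw [hq]
      calc P = P * 1 := (mul_one P).symm
        _ ≤ P * (D * ‖κ‖) := mul_le_mul_of_nonneg_left hκ hP.le
        _ = D * (P * ‖κ‖) := by ring
    have h3 : P ^ 3 ≤ (D * ‖q‖) ^ 3 := pow_le_pow_left₀ hP.le h2 3
    rw [mul_pow] at h3
    rw [← div_eq_mul_inv, inv_eq_one_div, div_le_div_iff₀ (by positivity) (by positivity)]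
    linarith
  have h4 : ‖u‖ ≤ 2 * ‖v‖ * |C| * √P := by
    have h5 : ‖b‖ ≤ |C| * √P :=
      hb.trans (mul_le_mul_of_nonneg_right (le_abs_self C) (Real.sqrt_nonneg P))
    calc ‖u‖ ≤ 2 * ‖v‖ * ‖b‖ := hu
      _ ≤ 2 * ‖v‖ * (|C| * √P) := mul_le_mul_of_nonneg_left h5 (by positivity)
      _ = 2 * ‖v‖ * |C| * √P := by ring
  calc ‖u‖ * (‖q‖ ^ 3)⁻¹ ≤ (2 * ‖v‖ * |C| * √P) * ((D : ℝ) ^ 3 * (P ^ 3)⁻¹) :=
        mul_le_mul h4 h1 (by positivity) (by positivity)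
    _ = 2 * ‖v‖ * |C| * (D : ℝ) ^ 3 * (√P * (P ^ 3)⁻¹) := by ring
    _ = _ := by rw [ec_pow hP]

/-- `hm = (a, b)` (columns): `tau a b c (res L (ten v χ)) = tau e1 e2 (hm⁻¹ c) (act hm⁻¹ ..)`, and
`act hm⁻¹ (res L (ten v χ)) = |[a, b]|⁻² (α ten e1 φ + β ten e2 φ)` on `R`, `α = [v, b]/[a, b]`,
`β = [a, v]/[a, b]`, `hm⁻¹ c = ([c, b], [a, c])/[a, b]`; `[a, b] = 0`: `tt_par` -/
theorem short_gen (h : Ctx O ω f ε N R Λ) (k : ℕ) (C : ℝ) {v x : V2} (hv : In (KK O) v)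
    (hx : In O ((N : ℂ) • x)) :
    ∃ C' : ℝ, ∀ (p : O) (_ : Prime p) (_ : ¬ p ∣ (N : O)) (L : Set V2) (_ : L ∈ LS O N p)
      (a b c : V2) (_ : Sh O N k C p L a) (_ : Sh O N k C p L b) (_ : Sh O N k C p L c),
      ‖(tau Λ R a b c (res L (ten v (chi O ω ε N x))) : ℂ)‖ ≤ C' * ‖(p : ℂ)‖ ^ (-(5 / 2) : ℝ) := by
  classical
  obtain ⟨E, hE, hphi⟩ := phi_mem h k C hx
  set D : ℕ := N ^ (2 * k) with hD
  have hDpos : 0 < D := pow_pos h.N_pos _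
  set Kap : Set ℂ := {z : ℂ | (D : ℂ) * z ∈ O ∧ ‖z‖ ≤ 2 * C ^ 2} with hKapdef
  have hKap : Kap.Finite := fin_ball h.quad hDpos _
  set S : Set V2 := (fun q : ℂ × ℂ × ℂ => ((q.1 / q.2.2, q.2.1 / q.2.2) : V2)) ''
    (Kap ×ˢ Kap ×ˢ Kap) with hSdef
  have hS : S.Finite := (hKap.prod (hKap.prod hKap)).image _
  obtain ⟨C0, hC0⟩ := fin_tau h E hE S hS
  refine ⟨4 * ‖v‖ * |C| * (D : ℝ) ^ 3 * |C0|, ?_⟩
  intro p hp hpN L hL a b c ha hb hc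
  have hp0 : (p : ℂ) ≠ 0 := coe_ne_zero hp.ne_zero
  have hpn : 0 < ‖(p : ℂ)‖ := norm_pos_iff.2 hp0
  by_cases hab : cr a b = 0
  · have h1 : tau Λ R a b c (res L (ten v (chi O ω ε N x))) = 0 := by
      unfold tau
      rw [tt_par R _ hab, map_zero]
    rw [h1]
    push_cast
    rw [norm_zero]
    positivity
  obtain ⟨κ, hκ, hκO, hκn⟩ := sh_cr h.N_pos hp hpN hL ha hb
  obtain ⟨κ1, hκ1, hκ1O, hκ1n⟩ := sh_cr h.N_pos hp hpN hL hc hb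
  obtain ⟨κ2, hκ2, hκ2O, hκ2n⟩ := sh_cr h.N_pos hp hpN hL ha hc
  have hDc : (D : ℂ) = (N : ℂ) ^ (2 * k) := by rw [hD]; push_cast; rfl
  rw [← hDc] at hκO hκ1O hκ2O
  have hκ0 : κ ≠ 0 := by
    rintro rfl
    exact hab (by rw [hκ, mul_zero])
  have hab' : cr a b ≠ 0 := hab
  set s : V2 := (κ1 / κ, κ2 / κ) with hs
  have hsS : s ∈ S := ⟨(κ1, κ2, κ), ⟨⟨hκ1O, hκ1n⟩, ⟨hκ2O, hκ2n⟩, ⟨hκO, hκn⟩⟩, rfl⟩
  have hinv : (ec_hm a b hab')⁻¹ c = s := by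
    rw [ec_inv_apply, hκ, hκ1, hκ2, hs, mul_div_mul_left _ _ hp0, mul_div_mul_left _ _ hp0]
  have hinva : (ec_hm a b hab')⁻¹ a = (1, 0) := by
    rw [ec_inv_apply]
    have e : cr a a = 0 := by simp only [cr]; ring
    rw [div_self hab', e, zero_div]
  have hinvb : (ec_hm a b hab')⁻¹ b = (0, 1) := by
    rw [ec_inv_apply]
    have e : cr b b = 0 := by simp only [cr]; ring
    rw [div_self hab', e, zero_div]
  -- membership in `K`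
  have hNk : 0 < N ^ k := pow_pos h.N_pos _
  have hNkc : ((N ^ k : ℕ) : ℂ) = (N : ℂ) ^ k := by push_cast; rfl
  have inK : ∀ m : V2, Sh O N k C p L m → In (KK O) m := fun m hm =>
    ⟨ec_KK_of hNk (by rw [hNkc]; exact hm.2.1.1), ec_KK_of hNk (by rw [hNkc]; exact hm.2.1.2)⟩
  have haK := inK a ha
  have hbK := inK b hb
  have hcK := inK c hc
  have hqK : cr a b ∈ KK O := ec_cr_KK haK hbK
  have hrK : (‖(cr a b)⁻¹‖ : ℂ) ^ 2 ∈ KK O := by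
    have e : (‖(cr a b)⁻¹‖ : ℂ) ^ 2 = (cr a b)⁻¹ * starRingEnd ℂ (cr a b)⁻¹ := by
      rw [qa_mul_conj]
      push_cast
      rfl
    rw [e]
    exact (KK O).mul_mem ((KK O).inv_mem hqK) (conj_mem_KK h.quad ((KK O).inv_mem hqK))
  set kα : KK O := ⟨(‖(cr a b)⁻¹‖ : ℂ) ^ 2 * (cr v b / cr a b),
    (KK O).mul_mem hrK ((KK O).div_mem (ec_cr_KK hv hbK) hqK)⟩ with hkα
  set kβ : KK O := ⟨(‖(cr a b)⁻¹‖ : ℂ) ^ 2 * (cr a v / cr a b),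
    (KK O).mul_mem hrK ((KK O).div_mem (ec_cr_KK haK hv) hqK)⟩ with hkβ
  set φ : Fs O := fun (c : O) (l : V2) =>
    if c ∈ R ∧ l.1 • a + l.2 • b ∈ L then chi O ω ε N x c (l.1 • a + l.2 • b) else 0 with hφdef
  have hφ : φ ∈ ST R N E := by
    have := hphi p hp hpN L hL a b ha hb hab'
    convert this using 1
  have hTT : TT R a b c (res L (ten v (chi O ω ε N x))) =
      (kα : ℂ) * TT R (1, 0) (0, 1) s (ten (1, 0) φ) +
        (kβ : ℂ) * TT R (1, 0) (0, 1) s (ten (0, 1) φ) := by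
    have h1 := tt_act R (ec_hm a b hab')⁻¹ a b c (res L (ten v (chi O ω ε N x)))
    rw [hinv, hinva, hinvb] at h1
    rw [← h1]
    have h10 : In (KK O) ((1, 0) : V2) := ⟨(KK O).one_mem, (KK O).zero_mem⟩
    have h01 : In (KK O) ((0, 1) : V2) := ⟨(KK O).zero_mem, (KK O).one_mem⟩
    have hsK : In (KK O) s := ⟨(KK O).div_mem (ec_KK_of hDpos hκ1O) (ec_KK_of hDpos hκO),
      (KK O).div_mem (ec_KK_of hDpos hκ2O) (ec_KK_of hDpos hκO)⟩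
    rw [← tt_smul, ← tt_smul, ← tt_add h.quad R h10 h01 hsK
      (nice_smul kα (ec_nice h.N_pos hE hφ _)) (nice_smul kβ (ec_nice h.N_pos hE hφ _))]
    refine ec_tt_congr R _ _ _ fun c' hc' l => ?_
    show ((‖dt (ec_hm a b hab')⁻¹‖ : ℂ) ^ 2) • (ec_hm a b hab')⁻¹
      (res L (ten v (chi O ω ε N x)) c' (((ec_hm a b hab')⁻¹)⁻¹ l)) =
        (kα : ℂ) • (φ c' l • ((1, 0) : V2)) + (kβ : ℂ) • (φ c' l • ((0, 1) : V2))
    rw [inv_inv, ec_dt_inv, ec_apply]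
    have h2 : res L (ten v (chi O ω ε N x)) c' (l.1 • a + l.2 • b) = φ c' l • v := by
      show (if l.1 • a + l.2 • b ∈ L then chi O ω ε N x c' (l.1 • a + l.2 • b) • v else 0) = _
      rw [hφdef]
      by_cases hm : l.1 • a + l.2 • b ∈ L
      · simp only [hm, hc', and_self, if_true]
      · simp only [hm, and_false, if_false, zero_smul]
    rw [h2, map_smul, ec_inv_apply]
    ext
    · simp only [Prod.smul_fst, Prod.fst_add, smul_eq_mul, hkα, hkβ]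
      ring
    · simp only [Prod.smul_snd, Prod.snd_add, smul_eq_mul, hkα, hkβ]
      ring
  have htau : (tau Λ R a b c (res L (ten v (chi O ω ε N x))) : ℂ) =
      (kα : ℂ) * (tau Λ R (1, 0) (0, 1) s (ten (1, 0) φ) : ℂ) +
        (kβ : ℂ) * (tau Λ R (1, 0) (0, 1) s (ten (0, 1) φ) : ℂ) := by
    unfold tau
    rw [hTT, map_add]
    have e1 : ∀ (q : KK O) (z : ℂ), Λ ((q : ℂ) * z) = q * Λ z := fun q z => by
      have := Λ.map_smul q z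
      exact this
    rw [e1, e1]
    push_cast
    rfl
  obtain ⟨b1, b2⟩ := hC0 s hsS φ hφ
  have hκone : 1 ≤ (D : ℝ) * ‖κ‖ := by
    have h1 : (⟨(D : ℂ) * κ, hκO⟩ : O) ≠ 0 := by
      intro h0
      have h2 : (D : ℂ) * κ = 0 := congrArg Subtype.val h0
      rcases mul_eq_zero.1 h2 with h3 | h3
      · exact hDpos.ne' (by exact_mod_cast h3)
      · exact hκ0 h3
    have h2 := one_le_norm h.quad _ h1
    have h3 : ‖(D : ℂ) * κ‖ = (D : ℝ) * ‖κ‖ := by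
      rw [norm_mul, Complex.norm_natCast]
    rw [← h3]
    exact h2
  have hqn : ‖cr a b‖ = ‖(p : ℂ)‖ * ‖κ‖ := by rw [hκ, norm_mul]
  have nα : ‖(kα : ℂ)‖ ≤ 2 * ‖v‖ * |C| * (D : ℝ) ^ 3 * ‖(p : ℂ)‖ ^ (-(5 / 2) : ℝ) :=
    ec_coef hDpos hpn hκone hqn hb.2.2 _ (ec_cr_norm v b)
  have nβ : ‖(kβ : ℂ)‖ ≤ 2 * ‖v‖ * |C| * (D : ℝ) ^ 3 * ‖(p : ℂ)‖ ^ (-(5 / 2) : ℝ) :=
    ec_coef hDpos hpn hκone hqn ha.2.2 _ (by
      have := ec_cr_norm a v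
      linarith)
  rw [htau]
  have hC00 : C0 ≤ |C0| := le_abs_self C0
  set M : ℝ := 2 * ‖v‖ * |C| * (D : ℝ) ^ 3 * ‖(p : ℂ)‖ ^ (-(5 / 2) : ℝ) with hM
  have hM0 : 0 ≤ M := (norm_nonneg _).trans nα
  calc ‖(kα : ℂ) * (tau Λ R (1, 0) (0, 1) s (ten (1, 0) φ) : ℂ) +
        (kβ : ℂ) * (tau Λ R (1, 0) (0, 1) s (ten (0, 1) φ) : ℂ)‖
      ≤ ‖(kα : ℂ) * (tau Λ R (1, 0) (0, 1) s (ten (1, 0) φ) : ℂ)‖ +
        ‖(kβ : ℂ) * (tau Λ R (1, 0) (0, 1) s (ten (0, 1) φ) : ℂ)‖ := norm_add_le _ _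
    _ ≤ M * |C0| + M * |C0| := by
        refine add_le_add ?_ ?_
        · exact (norm_mul_le _ _).trans (mul_le_mul nα (b1.trans hC00) (norm_nonneg _) hM0)
        · exact (norm_mul_le _ _).trans (mul_le_mul nβ (b2.trans hC00) (norm_nonneg _) hM0)
    _ = 4 * ‖v‖ * |C| * (D : ℝ) ^ 3 * |C0| * ‖(p : ℂ)‖ ^ (-(5 / 2) : ℝ) := by
        rw [hM]
        ring

end Pool.Agent.KTD
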