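import Pool.Agent.Lib_helper87.KTD.P.EC
import Pool.Agent.Lib_helper87.KTD.P.DE

set_option autoImplicit false

namespace Pool.Agent.KTD

open Complex Pool.Agent.TCL

variable {O : Subring ℂ} {ω : ℂ} {f : O} {ε : O → O} {N : ℕ} {R : Finset O} {Λ : ℂ →ₗ[KK O] KK O}

private theorem ed_apply (g : GL2) (a : V2) : g a = a.1 • g (1, 0) + a.2 • g (0, 1) := by
  have h : a = a.1 • ((1, 0) : V2) + a.2 • ((0, 1) : V2) := by
    ext <;> simp
  calc g a = g (a.1 • ((1, 0) : V2) + a.2 • ((0, 1) : V2)) := by rw [← h]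
    _ = a.1 • g (1, 0) + a.2 • g (0, 1) := by rw [map_add, map_smul, map_smul]

private theorem ed_pow {z : ℂ} (hz : z ∈ ON O N) : ∃ k : ℕ, ∀ m : ℕ, k ≤ m → (N : ℂ) ^ m * z ∈ O := by
  obtain ⟨k, hk⟩ := hz
  refine ⟨k, fun m hm => ?_⟩
  have e : (N : ℂ) ^ m * z = (N : ℂ) ^ (m - k) * ((N : ℂ) ^ k * z) := by
    rw [← mul_assoc, ← pow_add, Nat.sub_add_cancel hm]
  rw [e]
  exact O.mul_mem (O.pow_mem (natCast_mem O N) _) hk

/-- images of short vectors under `g` are short, with other constants -/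
theorem sh_act (hN : 0 < N) {g : GL2} (hg : g ∈ GS (ON O N)) (k : ℕ) (C : ℝ) (hC : 0 ≤ C) :
    ∃ (k' : ℕ) (C' : ℝ), 0 ≤ C' ∧ ∀ (p : O) (L : Set V2) (a : V2), Sh O N k C p L a →
      Sh O N k' C' p (g '' L) (g a) := by
  have h10 : In (ON O N : Set ℂ) ((1, 0) : V2) := ⟨(ON O N).one_mem, (ON O N).zero_mem⟩
  have h01 : In (ON O N : Set ℂ) ((0, 1) : V2) := ⟨(ON O N).zero_mem, (ON O N).one_mem⟩
  have hg1 := (hg _ h10).1
  have hg2 := (hg _ h01).1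
  obtain ⟨m1, hm1⟩ := ed_pow (O := O) (N := N) hg1.1
  obtain ⟨m2, hm2⟩ := ed_pow (O := O) (N := N) hg1.2
  obtain ⟨m3, hm3⟩ := ed_pow (O := O) (N := N) hg2.1
  obtain ⟨m4, hm4⟩ := ed_pow (O := O) (N := N) hg2.2
  refine ⟨k + (m1 + m2 + m3 + m4), C * (‖g (1, 0)‖ + ‖g (0, 1)‖), by positivity, ?_⟩
  rintro p L a ⟨haL, haO, han⟩
  obtain ⟨m, hm⟩ : ∃ m, m = m1 + m2 + m3 + m4 := ⟨_, rfl⟩
  rw [← hm]
  have e1 := hm1 m (by omega)
  have e2 := hm2 m (by omega)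
  have e3 := hm3 m (by omega)
  have e4 := hm4 m (by omega)
  refine ⟨⟨a, haL, rfl⟩, ?_, ?_⟩
  · rw [ed_apply g a]
    constructor
    · have e : ((N : ℂ) ^ (k + m) • (a.1 • g (1, 0) + a.2 • g (0, 1))).1 =
          ((N : ℂ) ^ k • a).1 * ((N : ℂ) ^ m * (g (1, 0)).1) +
          ((N : ℂ) ^ k • a).2 * ((N : ℂ) ^ m * (g (0, 1)).1) := by
        simp only [Prod.smul_fst, Prod.fst_add, smul_eq_mul, Prod.smul_snd]
        ring
      rw [e]
      exact O.add_mem (O.mul_mem haO.1 e1) (O.mul_mem haO.2 e3)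
    · have e : ((N : ℂ) ^ (k + m) • (a.1 • g (1, 0) + a.2 • g (0, 1))).2 =
          ((N : ℂ) ^ k • a).1 * ((N : ℂ) ^ m * (g (1, 0)).2) +
          ((N : ℂ) ^ k • a).2 * ((N : ℂ) ^ m * (g (0, 1)).2) := by
        simp only [Prod.smul_fst, Prod.snd_add, smul_eq_mul, Prod.smul_snd]
        ring
      rw [e]
      exact O.add_mem (O.mul_mem haO.1 e2) (O.mul_mem haO.2 e4)
  · rw [ed_apply g a]
    have h1 : ‖a.1‖ ≤ ‖a‖ := norm_fst_le a
    have h2 : ‖a.2‖ ≤ ‖a‖ := norm_snd_le a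
    calc ‖a.1 • g (1, 0) + a.2 • g (0, 1)‖ ≤ ‖a.1 • g (1, 0)‖ + ‖a.2 • g (0, 1)‖ := norm_add_le _ _
      _ = ‖a.1‖ * ‖g (1, 0)‖ + ‖a.2‖ * ‖g (0, 1)‖ := by rw [norm_smul, norm_smul]
      _ ≤ ‖a‖ * ‖g (1, 0)‖ + ‖a‖ * ‖g (0, 1)‖ := by gcongr
      _ = ‖a‖ * (‖g (1, 0)‖ + ‖g (0, 1)‖) := by ring
      _ ≤ (C * √‖(p : ℂ)‖) * (‖g (1, 0)‖ + ‖g (0, 1)‖) := by gcongr
      _ = C * (‖g (1, 0)‖ + ‖g (0, 1)‖) * √‖(p : ℂ)‖ := by ring

private theorem ed_K (hN : 0 < N) {k : ℕ} {C : ℝ} {p : O} {L : Set V2} {a : V2}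
    (ha : Sh O N k C p L a) : In (KK O) a :=
  ⟨ON_le_KK hN ⟨k, ha.2.1.1⟩, ON_le_KK hN ⟨k, ha.2.1.2⟩⟩

private theorem ed_tau_act (R : Finset O) (Λ : ℂ →ₗ[KK O] KK O) (g : GL2) (L : Set V2) (a b c : V2)
    (F : Fm O) : tau Λ R a b c (res L (act g F)) =
      tau Λ R (g⁻¹ a) (g⁻¹ b) (g⁻¹ c) (res (⇑(g⁻¹ : GL2) '' L) F) := by
  have h2 : ∀ x : V2, g (g⁻¹ x) = x := fun x => g.apply_symm_apply x
  have h1 : g '' (⇑(g⁻¹ : GL2) '' L) = L := by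
    ext x
    constructor
    · rintro ⟨y, ⟨z, hz, rfl⟩, rfl⟩
      rw [h2]
      exact hz
    · intro hx
      exact ⟨g⁻¹ x, ⟨x, hx, rfl⟩, h2 x⟩
  have h3 : res L (act g F) = act g (res (⇑(g⁻¹ : GL2) '' L) F) := by
    rw [← res_act, h1]
  unfold tau
  rw [h3]
  congr 1
  have h4 := tt_act R g (g⁻¹ a) (g⁻¹ b) (g⁻¹ c) (res (⇑(g⁻¹ : GL2) '' L) F)
  rw [h2, h2, h2] at h4
  exact h4

private theorem ed_tau_smul (R : Finset O) (Λ : ℂ →ₗ[KK O] KK O) (L : Set V2) (a b c : V2) (k : KK O)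
    (F : Fm O) : tau Λ R a b c (res L (k • F)) = k * tau Λ R a b c (res L F) := by
  unfold tau
  rw [res_smul, tt_smul]
  have h : (k : ℂ) * TT R a b c (res L F) = k • TT R a b c (res L F) := rfl
  rw [h, map_smul]
  rfl

private theorem ed_tau_zero (R : Finset O) (Λ : ℂ →ₗ[KK O] KK O) (L : Set V2) (a b c : V2) :
    tau Λ R a b c (res L (0 : Fm O)) = 0 := by
  have h0 : ∀ l : V2, GG a b c 0 l = 0 := by
    intro l
    have h := gg_lin a b c 0 0 l 0 0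
    rw [smul_zero, add_zero, zero_mul, add_zero] at h
    exact h
  have h1 : ∀ (e : O) (l : V2), res L (0 : Fm O) e l = 0 := by
    intro e l
    unfold res
    split_ifs <;> rfl
  have h2 : TT R a b c (res L (0 : Fm O)) = 0 := by
    unfold TT
    apply Finset.sum_eq_zero
    intro e _
    have h3 : ∀ l : V2, GG a b c (res L (0 : Fm O) e l) l = 0 := by
      intro l
      rw [h1]
      exact h0 l
    simp_rw [h3]
    exact tsum_zero
  unfold tau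
  rw [h2, map_zero]

/-- span induction; `tau a b c (res L (act g F)) = tau (g⁻¹ a) (g⁻¹ b) (g⁻¹ c) (res (⇑(g⁻¹ : GL2) '' L) F)` -/
theorem short (h : Ctx O ω f ε N R Λ) {F : Fm O} (hF : F ∈ MM O ω ε N (GS (ON O N))) (k : ℕ)
    (C : ℝ) (hC : 0 ≤ C) :
    ∃ C' : ℝ, ∀ (p : O) (_ : Prime p) (_ : ¬ p ∣ (N : O)) (L : Set V2) (_ : L ∈ LS O N p)
      (a b c : V2) (_ : Sh O N k C p L a) (_ : Sh O N k C p L b) (_ : Sh O N k C p L c),
      ‖(tau Λ R a b c (res L F) : ℂ)‖ ≤ C' * ‖(p : ℂ)‖ ^ (-(5 / 2) : ℝ) := by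
  have hN := h.N_pos
  unfold MM at hF
  induction hF using Submodule.span_induction with
  | mem F hF =>
    obtain ⟨g, hg, v, x, hv, hx, rfl⟩ := hF
    have hgi : g⁻¹ ∈ GS (ON O N) := (GS (ON O N)).inv_mem hg
    obtain ⟨k', C', hC', h1⟩ := sh_act hN hgi k C hC
    obtain ⟨C'', h2⟩ := short_gen h k' C' hv hx
    refine ⟨C'', fun p hp hpN L hL a b c ha hb hc => ?_⟩
    rw [ed_tau_act]
    exact h2 p hp hpN _ (image_LS hgi hL) _ _ _ (h1 p L a ha) (h1 p L b hb) (h1 p L c hc)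
  | zero =>
    refine ⟨0, fun p _ _ L _ a b c _ _ _ => ?_⟩
    rw [ed_tau_zero R Λ L a b c, ZeroMemClass.coe_zero, norm_zero, zero_mul]
  | add F F' hF hF' ih ih' =>
    obtain ⟨C1, h1⟩ := ih
    obtain ⟨C2, h2⟩ := ih'
    refine ⟨C1 + C2, fun p hp hpN L hL a b c ha hb hc => ?_⟩
    have e : tau Λ R a b c (res L (F + F')) = tau Λ R a b c (res L F) + tau Λ R a b c (res L F') := by
      unfold tau
      rw [res_add, tt_add h.quad R (ed_K hN ha) (ed_K hN hb) (ed_K hN hc)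
        (nice_MM h.quad (res_mem h hp hpN hL hF)) (nice_MM h.quad (res_mem h hp hpN hL hF')), map_add]
    rw [e]
    push_cast
    refine (norm_add_le _ _).trans ?_
    rw [add_mul]
    exact add_le_add (h1 p hp hpN L hL a b c ha hb hc) (h2 p hp hpN L hL a b c ha hb hc)
  | smul t F hF ih =>
    obtain ⟨C1, h1⟩ := ih
    refine ⟨‖(t : ℂ)‖ * C1, fun p hp hpN L hL a b c ha hb hc => ?_⟩
    rw [ed_tau_smul]
    push_cast
    rw [norm_mul, mul_assoc]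
    exact mul_le_mul_of_nonneg_left (h1 p hp hpN L hL a b c ha hb hc) (norm_nonneg _)

end Pool.Agent.KTD
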