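import Pool.Agent.Lib_helper87.KTD.P.LC
import Pool.Agent.Lib_helper87.KTD.P.DE
import Pool.Agent.Lib_helper87.KTD.P.DF

set_option autoImplicit false

namespace Pool.Agent.KTD

open Complex Pool.Agent.TCL

variable {O : Subring ℂ} {ω : ℂ} {f : O} {ε : O → O} {N : ℕ} {R : Finset O} {Λ : ℂ →ₗ[KK O] KK O}

private theorem fa_ON_mem {p : O} {L : Set V2} (hL : L ∈ LS O N p) {l : V2} (hl : l ∈ L) :
    In (ON O N) l := by
  obtain ⟨w, -, -, rfl⟩ := hL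
  exact hl.1

/-- `g⁻¹ s(g L)` is in `L`, has coordinates in `K`, is not zero (and `s(L)` too) -/
theorem sv_good (h : Ctx O ω f ε N R Λ) (p : PP O N) {L : Set V2} (hL : L ∈ LF O N p.1) {g : GL2}
    (hg : g ∈ GS (ON O N)) : g⁻¹ (sv O ω p.1 (g '' L)) ∈ L ∧
      In (ON O N) (g⁻¹ (sv O ω p.1 (g '' L))) ∧ In (KK O) (g⁻¹ (sv O ω p.1 (g '' L))) ∧
      g⁻¹ (sv O ω p.1 (g '' L)) ≠ 0 := by
  have hLS : L ∈ LS O N p.1 := (mem_LF h.quad h.N_pos p.2.1 p.2.2).1 hL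
  have hgL : g '' L ∈ LS O N p.1 := image_LS hg hLS
  obtain ⟨h1, -, h3, -⟩ := sv_spec h.quad h.N_pos p.2.1 p.2.2 hgL
  obtain ⟨l, hl, hle⟩ := h1
  have e : g⁻¹ (sv O ω p.1 (g '' L)) = l := by
    rw [← hle]
    exact g.symm_apply_apply l
  have hin : In (ON O N) l := fa_ON_mem hLS hl
  rw [e]
  refine ⟨hl, hin, ⟨ON_le_KK h.N_pos hin.1, ON_le_KK h.N_pos hin.2⟩, ?_⟩
  rintro rfl
  apply h3
  rw [← hle]
  exact g.map_zero

private theorem fa_sv (h : Ctx O ω f ε N R Λ) (p : PP O N) {L : Set V2} (hL : L ∈ LF O N p.1) :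
    In (KK O) (sv O ω p.1 L) := by
  have hLS : L ∈ LS O N p.1 := (mem_LF h.quad h.N_pos p.2.1 p.2.2).1 hL
  obtain ⟨-, h2, -, -⟩ := sv_spec h.quad h.N_pos p.2.1 p.2.2 hLS
  exact ⟨Subfield.subset_closure h2.1, Subfield.subset_closure h2.2⟩

private theorem fa_nice (h : Ctx O ω f ε N R Λ) (p : PP O N) {L : Set V2} (hL : L ∈ LF O N p.1)
    {F : Fm O} (hF : F ∈ MM O ω ε N (GS (ON O N))) : Nice (res L F) :=
  nice_MM h.quad (res_mem h p.2.1 p.2.2 ((mem_LF h.quad h.N_pos p.2.1 p.2.2).1 hL) hF)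

private theorem fa_tau_add (h : Ctx O ω f ε N R Λ) {u1 u2 u3 : V2} (h1 : In (KK O) u1)
    (h2 : In (KK O) u2) (h3 : In (KK O) u3) {F F' : Fm O} (hF : Nice F) (hF' : Nice F') :
    tau Λ R u1 u2 u3 (F + F') = tau Λ R u1 u2 u3 F + tau Λ R u1 u2 u3 F' := by
  unfold tau
  rw [tt_add h.quad R h1 h2 h3 hF hF', map_add]

private theorem fa_tau_smul (u1 u2 u3 : V2) (k : KK O) (F : Fm O) :
    tau Λ R u1 u2 u3 (k • F) = k * tau Λ R u1 u2 u3 F := by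
  unfold tau
  rw [tt_smul]
  have : (k : ℂ) * TT R u1 u2 u3 F = k • TT R u1 u2 u3 F := rfl
  rw [this, map_smul]
  rfl

theorem ww_add (h : Ctx O ω f ε N R Λ) {x0 x1 : V2} (h0 : In (KK O) x0) (h1 : In (KK O) x1)
    {F F' : Fm O} (hF : F ∈ MM O ω ε N (GS (ON O N))) (hF' : F' ∈ MM O ω ε N (GS (ON O N))) :
    WW ω N Λ R x0 x1 (F + F') = WW ω N Λ R x0 x1 F + WW ω N Λ R x0 x1 F' := by
  funext p
  show _ = WW ω N Λ R x0 x1 F p + WW ω N Λ R x0 x1 F' p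
  unfold WW
  rw [← Finset.sum_add_distrib]
  refine Finset.sum_congr rfl fun L hL => ?_
  rw [res_add]
  exact fa_tau_add h (fa_sv h p hL) h0 h1 (fa_nice h p hL hF) (fa_nice h p hL hF')

theorem ww_smul (x0 x1 : V2) (k : KK O) (F : Fm O) :
    WW ω N Λ R x0 x1 (k • F) = k • WW ω N Λ R x0 x1 F := by
  funext p
  show _ = k * WW ω N Λ R x0 x1 F p
  unfold WW
  rw [Finset.mul_sum]
  refine Finset.sum_congr rfl fun L _ => ?_
  rw [res_smul]
  exact fa_tau_smul _ _ _ k _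

theorem uu_add (h : Ctx O ω f ε N R Λ) {g : GL2} (hg : g ∈ GS (ON O N)) {x : V2}
    (hx : In (KK O) x) {F F' : Fm O} (hF : F ∈ MM O ω ε N (GS (ON O N)))
    (hF' : F' ∈ MM O ω ε N (GS (ON O N))) :
    UU ω N Λ R g x (F + F') = UU ω N Λ R g x F + UU ω N Λ R g x F' := by
  funext p
  show _ = UU ω N Λ R g x F p + UU ω N Λ R g x F' p
  unfold UU
  rw [← Finset.sum_add_distrib]
  refine Finset.sum_congr rfl fun L hL => ?_
  rw [res_add]
  exact fa_tau_add h (sv_good h p hL hg).2.2.1 (fa_sv h p hL) hx (fa_nice h p hL hF)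
    (fa_nice h p hL hF')

theorem uu_smul (g : GL2) (x : V2) (k : KK O) (F : Fm O) :
    UU ω N Λ R g x (k • F) = k • UU ω N Λ R g x F := by
  funext p
  show _ = k * UU ω N Λ R g x F p
  unfold UU
  rw [Finset.mul_sum]
  refine Finset.sum_congr rfl fun L _ => ?_
  rw [res_smul]
  exact fa_tau_smul _ _ _ k _

theorem ww_scale (s t : ℂ) (hs : s ≠ 0) (ht : t ≠ 0) (x0 x1 : V2) (F : Fm O) :
    WW ω N Λ R (s • x0) (t • x1) F = WW ω N Λ R x0 x1 F := by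
  funext p
  unfold WW tau
  refine Finset.sum_congr rfl fun L _ => ?_
  rw [(tt_us R s hs _ x0 (t • x1) _).2.1, (tt_us R t ht _ x0 x1 _).2.2]

theorem uu_scale (s : ℂ) (hs : s ≠ 0) (g : GL2) (x : V2) (F : Fm O) :
    UU ω N Λ R g (s • x) F = UU ω N Λ R g x F := by
  funext p
  unfold UU tau
  refine Finset.sum_congr rfl fun L _ => ?_
  rw [(tt_us R s hs _ _ x _).2.2]

theorem ww_swap (x0 x1 : V2) (F : Fm O) :
    WW ω N Λ R x1 x0 F = - WW ω N Λ R x0 x1 F := by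
  funext p
  show _ = - WW ω N Λ R x0 x1 F p
  unfold WW tau
  rw [← Finset.sum_neg_distrib]
  refine Finset.sum_congr rfl fun L _ => ?_
  rw [(tt_swap R _ x0 x1 _).2, map_neg]

end Pool.Agent.KTD
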