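import Pool.Agent.Lib_helper87.KTD.P.FA
import Pool.Agent.Lib_helper76.TCL.P.QE

set_option autoImplicit false

namespace Pool.Agent.KTD

open Complex Pool.Agent.TCL

variable {O : Subring ℂ} {ω : ℂ} {f : O} {ε : O → O} {N : ℕ} {R : Finset O} {Λ : ℂ →ₗ[KK O] KK O}

/-- there are infinitely many primes not dividing `N`; norms tend to infinity -/
theorem pp_norm (h : Ctx O ω f ε N R Λ) :
    Filter.Tendsto (fun p : PP O N => ‖(p.1 : ℂ)‖) Filter.cofinite Filter.atTop := by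
  rw [Filter.tendsto_atTop]
  intro C
  rw [Filter.eventually_cofinite]
  have h1 := (finite_ball h.quad C).preimage (f := fun p : PP O N => p.1)
    (fun a _ b _ hab => Subtype.ext hab)
  refine h1.subset ?_
  intro p hp
  have hp' : ¬ C ≤ ‖(p.1 : ℂ)‖ := hp
  exact (not_le.1 hp').le

theorem pp_infinite (h : Ctx O ω f ε N R Λ) : Infinite (PP O N) := by
  have := h.pid
  -- a prime of `O` above every rational prime
  have key : ∀ q : {q : ℕ // q.Prime ∧ N < q}, ∃ p : PP O N, p.1 ∣ ((q.1 : ℕ) : O) := by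
    rintro ⟨q, hq, hqN⟩
    have hq0 : ((q : ℕ) : O) ≠ 0 := by
      intro h0
      have h1 : ((q : ℕ) : ℂ) = 0 := by
        have := congrArg (fun z : O => (z : ℂ)) h0
        simpa using this
      exact hq.ne_zero (by exact_mod_cast h1)
    have hqu : ¬ IsUnit ((q : ℕ) : O) := by
      intro hu
      have h1 := (isUnit_iff_norm h.quad _).1 hu
      have h2 : ‖((((q : ℕ) : O) : O) : ℂ)‖ = q := by
        push_cast
        exact Complex.norm_natCast q
      rw [h2] at h1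
      have h3 : q = 1 := by exact_mod_cast h1
      exact hq.one_lt.ne' h3
    obtain ⟨p, hp, hpq⟩ := WfDvdMonoid.exists_irreducible_factor hqu hq0
    refine ⟨⟨p, hp.prime, ?_⟩, hpq⟩
    intro hpN
    have hcop : Nat.Coprime q N := by
      rw [hq.coprime_iff_not_dvd]
      intro hd
      exact absurd (Nat.le_of_dvd h.N_pos hd) (by omega)
    have h1 := Nat.isCoprime_iff_coprime.2 hcop
    obtain ⟨u, v, huv⟩ := h1
    have h2 : p ∣ (1 : O) := by
      have h3 : (1 : O) = (u : O) * ((q : ℕ) : O) + (v : O) * ((N : ℕ) : O) := by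
        have := congrArg (fun z : ℤ => (z : O)) huv
        push_cast at this
        exact this.symm
      rw [h3]
      exact dvd_add (Dvd.dvd.mul_left hpq _) (Dvd.dvd.mul_left hpN _)
    exact hp.not_isUnit (isUnit_of_dvd_one h2)
  choose F hF using key
  have hinf : Infinite {q : ℕ // q.Prime ∧ N < q} := by
    refine Set.infinite_coe_iff.2 (Set.infinite_of_not_bddAbove (s := {q : ℕ | q.Prime ∧ N < q}) ?_)
    rintro ⟨B, hB⟩
    obtain ⟨q, hq1, hq2⟩ := Nat.exists_infinite_primes (N + B + 1)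
    have := hB (show q ∈ {q : ℕ | q.Prime ∧ N < q} from ⟨hq2, by omega⟩)
    omega
  refine Infinite.of_injective F ?_
  intro q q' hqq
  by_contra hne
  have hne' : q.1 ≠ q'.1 := fun h => hne (Subtype.ext h)
  have hcop : Nat.Coprime q.1 q'.1 := (Nat.coprime_primes q.2.1 q'.2.1).2 hne'
  obtain ⟨u, v, huv⟩ := Nat.isCoprime_iff_coprime.2 hcop
  have h1 := hF q
  have h2 := hF q'
  rw [← hqq] at h2
  have h3 : (F q).1 ∣ (1 : O) := by
    have h3 : (1 : O) = (u : O) * ((q.1 : ℕ) : O) + (v : O) * ((q'.1 : ℕ) : O) := by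
      have := congrArg (fun z : ℤ => (z : O)) huv
      push_cast at this
      exact this.symm
    rw [h3]
    exact dvd_add (Dvd.dvd.mul_left h1 _) (Dvd.dvd.mul_left h2 _)
  exact (F q).2.1.not_isUnit (isUnit_of_dvd_one h3)

/-- a sequence bounded by `C |p|^(-δ)` is null -/
theorem nul_of_bound (h : Ctx O ω f ε N R Λ) {a : PP O N → KK O} {C δ : ℝ} (hδ : 0 < δ)
    (ha : ∀ p, ‖((a p : KK O) : ℂ)‖ ≤ C * ‖(p.1 : ℂ)‖ ^ (-δ)) : a ∈ Nul O N := by
  have h1 : Filter.Tendsto (fun p : PP O N => C * ‖(p.1 : ℂ)‖ ^ (-δ)) Filter.cofinite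
      (nhds (C * 0)) :=
    ((tendsto_rpow_neg_atTop hδ).comp (pp_norm h)).const_mul C
  rw [mul_zero] at h1
  exact squeeze_zero (fun p => norm_nonneg _) ha h1

/-- a constant null sequence is zero -/
theorem nul_const (h : Ctx O ω f ε N R Λ) {k : KK O} (hk : (fun _ : PP O N => k) ∈ Nul O N) :
    k = 0 := by
  have := pp_infinite h
  have h1 : Filter.Tendsto (fun _ : PP O N => ‖((k : KK O) : ℂ)‖) Filter.cofinite (nhds 0) := hk
  have h2 := tendsto_nhds_unique h1 tendsto_const_nhds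
  have h3 : ((k : KK O) : ℂ) = 0 := norm_eq_zero.1 h2.symm
  exact Subtype.ext h3

/-- `χ_y` only depends on `y` modulo `O²` -/
theorem fb_chi (hO : Quad O ω) {x y : V2} (h1 : y.1 - x.1 ∈ O) (h2 : y.2 - x.2 ∈ O) :
    chi O ω ε N y = chi O ω ε N x := by
  funext c l
  unfold chi
  by_cases hc : In O l ∧ IsCoprime c (N : O)
  · rw [if_pos hc, if_pos hc]
    obtain ⟨hl, -⟩ := hc
    have key : ∀ a b z : ℂ, b - a ∈ O → z ∈ O → pr ω (ε c * c * b) z = pr ω (ε c * c * a) z := by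
      intro a b z hab hz
      have e : (ε c : ℂ) * c * b = ε c * c * a + ((ε c * c * ⟨b - a, hab⟩ : O) : ℂ) := by
        push_cast; ring
      have e2 : z = ((⟨z, hz⟩ : O) : ℂ) := rfl
      rw [e, pr_add, e2, pr_mem hO, mul_one]
    rw [key _ _ _ h1 hl.1, key _ _ _ h2 hl.2]
  · rw [if_neg hc, if_neg hc]

/-- finitely many characters -/
theorem fb_bound (h : Ctx O ω f ε N R Λ) (g : GL2) (v : V2) (u1 u2 u3 : V2) :
    ∃ B : ℝ, 0 ≤ B ∧ ∀ y : V2, In O ((N : ℂ) • y) →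
      ‖((tau Λ R u1 u2 u3 (act g (ten v (chi O ω ε N y))) : KK O) : ℂ)‖ ≤ B := by
  have hN0 : ((N : ℕ) : O) ≠ 0 := by
    intro h0
    have h1 : ((N : ℕ) : ℂ) = 0 := by
      have := congrArg (fun z : O => (z : ℂ)) h0
      simpa using this
    exact h.N_pos.ne' (by exact_mod_cast h1)
  have hNC : (N : ℂ) ≠ 0 := by exact_mod_cast h.N_pos.ne'
  obtain ⟨S, hS⟩ := exists_reps h.quad ((N : ℕ) : O) hN0
  refine ⟨∑ k ∈ S, ∑ k' ∈ S, ‖((tau Λ R u1 u2 u3 (act g (ten v (chi O ω ε N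
    ((k : ℂ) / N, (k' : ℂ) / N)))) : KK O) : ℂ)‖,
    Finset.sum_nonneg fun _ _ => Finset.sum_nonneg fun _ _ => norm_nonneg _, ?_⟩
  intro y hy
  obtain ⟨hy1, hy2⟩ := hy
  obtain ⟨k, ⟨hk, hk1⟩, -⟩ := hS ⟨_, hy1⟩
  obtain ⟨k', ⟨hk', hk1'⟩, -⟩ := hS ⟨_, hy2⟩
  have e : chi O ω ε N y = chi O ω ε N ((k : ℂ) / N, (k' : ℂ) / N) := by
    apply fb_chi h.quad
    · obtain ⟨z, hz⟩ := hk1
      have hz' : (N : ℂ) * y.1 - k = N * z := by
        have := congrArg (fun z : O => (z : ℂ)) hz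
        simpa using this
      have : y.1 - (k : ℂ) / N = z := by
        field_simp
        linear_combination hz'
      rw [this]; exact z.2
    · obtain ⟨z, hz⟩ := hk1'
      have hz' : (N : ℂ) * y.2 - k' = N * z := by
        have := congrArg (fun z : O => (z : ℂ)) hz
        simpa using this
      have : y.2 - (k' : ℂ) / N = z := by
        field_simp
        linear_combination hz'
      rw [this]; exact z.2
  rw [e]
  refine le_trans ?_ (Finset.single_le_sum (f := fun k : O => ∑ k' ∈ S, ‖((tau Λ R u1 u2 u3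
    (act g (ten v (chi O ω ε N ((k : ℂ) / N, (k' : ℂ) / N)))) : KK O) : ℂ)‖)
    (fun _ _ => Finset.sum_nonneg fun _ _ => norm_nonneg _) hk)
  exact Finset.single_le_sum (f := fun k' : O => ‖((tau Λ R u1 u2 u3
    (act g (ten v (chi O ω ε N ((k : ℂ) / N, (k' : ℂ) / N)))) : KK O) : ℂ)‖)
    (fun _ _ => norm_nonneg _) hk'

theorem fb_pnorm (h : Ctx O ω f ε N R Λ) (p : PP O N) : 1 ≤ ‖(p.1 : ℂ)‖ :=
  one_le_norm h.quad p.1 p.2.1.ne_zero

theorem fb_card (h : Ctx O ω f ε N R Λ) (p : PP O N) :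
    ‖(((((LF O N p.1).card - 1 : ℤ) : KK O)) : ℂ)‖ ≤ 3 * ‖(p.1 : ℂ)‖ ^ 2 := by
  have h1 := lf_card h.quad h.N_pos p.2.1 p.2.2
  have h2 := fb_pnorm h p
  have h3 : (((((LF O N p.1).card - 1 : ℤ) : KK O)) : ℂ) = (((LF O N p.1).card : ℂ) - 1) := by
    push_cast; rfl
  rw [h3]
  refine le_trans (norm_sub_le _ _) ?_
  rw [Complex.norm_natCast, norm_one]
  nlinarith

theorem fb_add (h : Ctx O ω f ε N R Λ) {u1 u2 u3 : V2} (h1 : In (KK O) u1) (h2 : In (KK O) u2)
    (h3 : In (KK O) u3) {F F' : Fm O} (hF : F ∈ MM O ω ε N (GS (KK O)))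
    (hF' : F' ∈ MM O ω ε N (GS (KK O))) :
    tau Λ R u1 u2 u3 (F + F') = tau Λ R u1 u2 u3 F + tau Λ R u1 u2 u3 F' := by
  unfold tau
  rw [tt_add h.quad R h1 h2 h3 (nice_MM h.quad hF) (nice_MM h.quad hF'), map_add]

theorem fb_smul (u1 u2 u3 : V2) (k : KK O) (F : Fm O) :
    tau Λ R u1 u2 u3 (k • F) = k * tau Λ R u1 u2 u3 F := by
  unfold tau
  rw [tt_smul]
  have : (k : ℂ) * TT R u1 u2 u3 F = k • TT R u1 u2 u3 F := rfl
  rw [this, map_smul]
  rfl

theorem fb_sum (h : Ctx O ω f ε N R Λ) {u1 u2 u3 : V2} (h1 : In (KK O) u1) (h2 : In (KK O) u2)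
    (h3 : In (KK O) u3) {ι : Type} (s : Finset ι) (F : ι → Fm O)
    (hF : ∀ i ∈ s, F i ∈ MM O ω ε N (GS (KK O))) :
    tau Λ R u1 u2 u3 (∑ i ∈ s, F i) = ∑ i ∈ s, tau Λ R u1 u2 u3 (F i) := by
  classical
  induction s using Finset.induction_on with
  | empty =>
    rw [Finset.sum_empty, Finset.sum_empty]
    have := fb_smul (Λ := Λ) (R := R) u1 u2 u3 (0 : KK O) (0 : Fm O)
    rw [zero_smul, zero_mul] at this
    exact this
  | insert a s ha ih =>
    rw [Finset.sum_insert ha, Finset.sum_insert ha, fb_add h h1 h2 h3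
      (hF a (Finset.mem_insert_self a s))
      (Submodule.sum_mem _ fun i hi => hF i (Finset.mem_insert_of_mem hi)),
      ih fun i hi => hF i (Finset.mem_insert_of_mem hi)]

/-- the term at `p O[1/N]²`: `tau_pL`; `χ_y` depends on `y` modulo `O²` only, so the right side of `tau_pL` has
finitely many values; `lf_card` -/
theorem pL_nul (h : Ctx O ω f ε N R Λ) {F : Fm O} (hF : F ∈ MM O ω ε N (GS (ON O N)))
    {u1 u2 u3 : V2} (h1 : In (KK O) u1) (h2 : In (KK O) u2) (h3 : In (KK O) u3) :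
    (fun p : PP O N => (((LF O N p.1).card - 1 : ℤ) : KK O) * tau Λ R u1 u2 u3 (res (pL O N p.1) F))
      ∈ Nul O N := by
  induction hF using Submodule.span_induction with
  | mem F hF =>
    obtain ⟨g, hg, v, x, hv, hx, rfl⟩ := hF
    obtain ⟨B, hB0, hB⟩ := fb_bound h g v u1 u2 u3
    apply nul_of_bound h (C := 3 * B) (δ := 3) (by norm_num)
    intro p
    have hp1 := fb_pnorm h p
    have hp0 : 0 < ‖(p.1 : ℂ)‖ := by linarith
    have e1 := tau_pL h p.2.1 p.2.2 hg hv hx h1 h2 h3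
    have e2 : In O ((N : ℂ) • ((starRingEnd ℂ (p.1 : ℂ)) • x)) := by
      rw [smul_comm]
      have hc := conj_mem h.quad p.1.2
      exact ⟨O.mul_mem hc hx.1, O.mul_mem hc hx.2⟩
    have e3 := hB _ e2
    rw [← e1, norm_mul, norm_mul, norm_pow, Complex.norm_real, norm_norm] at e3
    have e4 : ((((((LF O N p.1).card - 1 : ℤ) : KK O)) * tau Λ R u1 u2 u3
        (res (pL O N p.1) (act g (ten v (chi O ω ε N x)))) : KK O) : ℂ) =
        (((((LF O N p.1).card - 1 : ℤ) : KK O)) : ℂ) * ((tau Λ R u1 u2 u3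
        (res (pL O N p.1) (act g (ten v (chi O ω ε N x)))) : KK O) : ℂ) := by
      push_cast; rfl
    rw [e4, norm_mul]
    set t := ‖((tau Λ R u1 u2 u3
        (res (pL O N p.1) (act g (ten v (chi O ω ε N x)))) : KK O) : ℂ)‖ with ht
    have ht0 : 0 ≤ t := norm_nonneg _
    have e5 := fb_card h p
    have e6 : ‖(p.1 : ℂ)‖ ^ (-3 : ℝ) = (‖(p.1 : ℂ)‖ ^ 3)⁻¹ := by
      rw [Real.rpow_neg hp0.le]
      norm_cast
    rw [e6]
    have e7 : t ≤ B * (‖(p.1 : ℂ)‖ ^ 5)⁻¹ := by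
      rw [← div_eq_mul_inv, le_div_iff₀ (by positivity)]
      calc t * ‖(p.1 : ℂ)‖ ^ 5 = ‖(p.1 : ℂ)‖ * ‖(p.1 : ℂ)‖ ^ 4 * t := by ring
        _ ≤ B := e3
    calc ‖(((((LF O N p.1).card - 1 : ℤ) : KK O)) : ℂ)‖ * t
        ≤ (3 * ‖(p.1 : ℂ)‖ ^ 2) * (B * (‖(p.1 : ℂ)‖ ^ 5)⁻¹) :=
          mul_le_mul e5 e7 ht0 (by positivity)
      _ = 3 * B * (‖(p.1 : ℂ)‖ ^ 3)⁻¹ := by field_simp
  | zero =>
    have e : (fun p : PP O N => (((LF O N p.1).card - 1 : ℤ) : KK O) *
        tau Λ R u1 u2 u3 (res (pL O N p.1) (0 : Fm O))) = 0 := by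
      funext p
      have h0 : res (pL O N p.1) (0 : Fm O) = (0 : KK O) • (0 : Fm O) := by
        rw [zero_smul]
        funext c l
        unfold res
        simp
      rw [h0, fb_smul, zero_mul, mul_zero]
      rfl
    rw [e]
    exact Submodule.zero_mem _
  | add F F' hF hF' ih ih' =>
    have e : (fun p : PP O N => (((LF O N p.1).card - 1 : ℤ) : KK O) *
        tau Λ R u1 u2 u3 (res (pL O N p.1) (F + F'))) =
        (fun p : PP O N => (((LF O N p.1).card - 1 : ℤ) : KK O) *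
        tau Λ R u1 u2 u3 (res (pL O N p.1) F)) +
        (fun p : PP O N => (((LF O N p.1).card - 1 : ℤ) : KK O) *
        tau Λ R u1 u2 u3 (res (pL O N p.1) F')) := by
      funext p
      rw [res_add, fb_add h h1 h2 h3 (res_pL_mem h p.2.1 p.2.2 hF) (res_pL_mem h p.2.1 p.2.2 hF'),
        mul_add]
      rfl
    rw [e]
    exact Submodule.add_mem _ ih ih'
  | smul k F hF ih =>
    have e : (fun p : PP O N => (((LF O N p.1).card - 1 : ℤ) : KK O) *
        tau Λ R u1 u2 u3 (res (pL O N p.1) (k • F))) =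
        k • (fun p : PP O N => (((LF O N p.1).card - 1 : ℤ) : KK O) *
        tau Λ R u1 u2 u3 (res (pL O N p.1) F)) := by
      funext p
      rw [res_smul, fb_smul]
      show _ = k * ((((LF O N p.1).card - 1 : ℤ) : KK O) * tau Λ R u1 u2 u3 (res (pL O N p.1) F))
      ring
    rw [e]
    exact Submodule.smul_mem _ _ ih

/-- (H1) -/
theorem ww_coc (h : Ctx O ω f ε N R Λ) {F : Fm O} (hF : F ∈ MM O ω ε N (GS (ON O N)))
    {x0 x1 x2 : V2} (h0 : In (KK O) x0) (h1 : In (KK O) x1) (h2 : In (KK O) x2) (n0 : x0 ≠ 0)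
    (n1 : x1 ≠ 0) (n2 : x2 ≠ 0) :
    WW ω N Λ R x1 x2 F - WW ω N Λ R x0 x2 F + WW ω N Λ R x0 x1 F
      - (fun _ => tau Λ R x0 x1 x2 F) ∈ Nul O N := by
  have key := pL_nul h hF h0 h1 h2
  convert key using 1
  funext p
  show (WW ω N Λ R x1 x2 F p - WW ω N Λ R x0 x2 F p + WW ω N Λ R x0 x1 F p
      - tau Λ R x0 x1 x2 F) = _
  unfold WW
  rw [← Finset.sum_sub_distrib, ← Finset.sum_add_distrib]
  have e1 : ∀ L ∈ LF O N p.1, tau Λ R (sv O ω p.1 L) x1 x2 (res L F) -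
      tau Λ R (sv O ω p.1 L) x0 x2 (res L F) + tau Λ R (sv O ω p.1 L) x0 x1 (res L F) =
      tau Λ R x0 x1 x2 (res L F) := by
    intro L hL
    have hL' := (mem_LF h.quad h.N_pos p.2.1 p.2.2).1 hL
    obtain ⟨s1, s2, s3, s4⟩ := sv_spec h.quad h.N_pos p.2.1 p.2.2 hL'
    have hs : In (KK O) (sv O ω p.1 L) :=
      ⟨Subfield.subset_closure s2.1, Subfield.subset_closure s2.2⟩
    have := tau_coc h (res_mem h p.2.1 p.2.2 hL' hF) hs h0 h1 h2 s3 n0 n1 n2
    linear_combination -this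
  rw [Finset.sum_congr rfl e1, ← fb_sum h h0 h1 h2 _ _ (fun L hL =>
    res_mem h p.2.1 p.2.2 ((mem_LF h.quad h.N_pos p.2.1 p.2.2).1 hL) hF),
    sum_res h.quad h.N_pos p.2.1 p.2.2 (fun c l hl => supp_MM hF c l hl),
    fb_add h h0 h1 h2 (MM_mono h.N_pos hF)
      (Submodule.smul_mem _ _ (res_pL_mem h p.2.1 p.2.2 hF)), fb_smul]
  ring

end Pool.Agent.KTD
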