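import Pool.Agent.Lib_helper87.KTD.P.FA
import Pool.Agent.Lib_helper87.KTD.P.FB
import Pool.Agent.Lib_helper87.KTD.P.ED
import Pool.Agent.Lib_helper76.TCL.P.QA
import Pool.Agent.Lib_helper76.TCL.P.QK

set_option autoImplicit false

namespace Pool.Agent.KTD

open Complex Pool.Agent.TCL

variable {O : Subring ℂ} {ω : ℂ} {f : O} {ε : O → O} {N : ℕ} {R : Finset O} {Λ : ℂ →ₗ[KK O] KK O}

private theorem fc_inv_apply (g : GL2) (v : V2) : g (g⁻¹ v) = v := by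
  rw [← LinearEquiv.mul_apply, mul_inv_cancel]
  rfl

private theorem fc_inv_apply' (g : GL2) (v : V2) : g⁻¹ (g v) = v := by
  rw [← LinearEquiv.mul_apply, inv_mul_cancel]
  rfl

private theorem fc_image_inv (g : GL2) (L : Set V2) : (g⁻¹ : GL2) '' (g '' L) = L := by
  ext v
  constructor
  · rintro ⟨w, ⟨u, hu, rfl⟩, rfl⟩
    rwa [fc_inv_apply']
  · intro hv
    exact ⟨g v, ⟨v, hv, rfl⟩, fc_inv_apply' g v⟩

private theorem fc_image_mul (g g' : GL2) (L : Set V2) : (g * g') '' L = g '' (g' '' L) := by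
  ext v
  constructor
  · rintro ⟨u, hu, rfl⟩
    exact ⟨g' u, ⟨u, hu, rfl⟩, rfl⟩
  · rintro ⟨w, ⟨u, hu, rfl⟩, rfl⟩
    exact ⟨u, hu, rfl⟩

private theorem fc_on_K (hN : 0 < N) {x : V2} (hx : In (ON O N) x) : In (KK O) x :=
  ⟨ON_le_KK hN hx.1, ON_le_KK hN hx.2⟩

private theorem fc_O_K {x : V2} (hx : In O x) : In (KK O) x :=
  ⟨coe_mem_KK (⟨x.1, hx.1⟩ : O), coe_mem_KK (⟨x.2, hx.2⟩ : O)⟩

private theorem fc_tau_act (R : Finset O) (Λ : ℂ →ₗ[KK O] KK O) (g : GL2) (s u v : V2) (L : Set V2)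
    (F : Fm O) : tau Λ R s (g u) (g v) (res (g '' L) (act g F)) =
      tau Λ R (g⁻¹ s) u v (res L F) := by
  unfold tau
  have h1 := tt_act R g (g⁻¹ s) u v (res L F)
  rw [fc_inv_apply] at h1
  rw [res_act, h1]

/-- (H2) -/
theorem ww_act (h : Ctx O ω f ε N R Λ) {F : Fm O} (hF : F ∈ MM O ω ε N (GS (ON O N))) {g : GL2}
    (hg : g ∈ GS (ON O N)) {x0 x1 : V2} (h0 : In (ON O N) x0) (h1 : In (ON O N) x1) (n0 : x0 ≠ 0)
    (n1 : x1 ≠ 0) :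
    WW ω N Λ R (g x0) (g x1) (act g F) =
      WW ω N Λ R x0 x1 F + UU ω N Λ R g x1 F - UU ω N Λ R g x0 F := by
  funext p
  have hp := p.2.1
  have hpN := p.2.2
  have hfin := ls_finite h.quad h.N_pos hp hpN
  show ∑ L ∈ LF O N p.1, tau Λ R (sv O ω p.1 L) (g x0) (g x1) (res L (act g F)) =
    ∑ L ∈ LF O N p.1, tau Λ R (sv O ω p.1 L) x0 x1 (res L F) +
      ∑ L ∈ LF O N p.1, tau Λ R (g⁻¹ (sv O ω p.1 (g '' L))) (sv O ω p.1 L) x1 (res L F) -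
      ∑ L ∈ LF O N p.1, tau Λ R (g⁻¹ (sv O ω p.1 (g '' L))) (sv O ω p.1 L) x0 (res L F)
  rw [← sum_image hfin hg (fun L => tau Λ R (sv O ω p.1 L) (g x0) (g x1) (res L (act g F))),
    ← Finset.sum_add_distrib, ← Finset.sum_sub_distrib]
  refine Finset.sum_congr rfl fun L hL => ?_
  have hL' := (mem_LF h.quad h.N_pos hp hpN).1 hL
  obtain ⟨_, _, gK, gn⟩ := sv_good h p hL hg
  obtain ⟨_, sO, sn, _⟩ := sv_spec h.quad h.N_pos hp hpN hL'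
  have hc := tau_coc (u0 := g⁻¹ (sv O ω p.1 (g '' L))) (u1 := sv O ω p.1 L) (u2 := x0) (u3 := x1)
    h (res_mem h hp hpN hL' hF) gK (fc_O_K sO) (fc_on_K h.N_pos h0) (fc_on_K h.N_pos h1) gn sn n0 n1
  show tau Λ R (sv O ω p.1 (g '' L)) (g x0) (g x1) (res (g '' L) (act g F)) = _
  rw [fc_tau_act]
  linear_combination -hc

private theorem fc_sh_mono {k k' : ℕ} {C C' : ℝ} (hk : k ≤ k') (hC : C ≤ C') {p : O} {L : Set V2}
    {a : V2} (ha : Sh O N k C p L a) : Sh O N k' C' p L a := by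
  obtain ⟨h1, h2, h3⟩ := ha
  refine ⟨h1, ?_, h3.trans (mul_le_mul_of_nonneg_right hC (Real.sqrt_nonneg _))⟩
  obtain ⟨j, rfl⟩ := Nat.exists_eq_add_of_le hk
  have hN : (N : ℂ) ^ j ∈ O := O.pow_mem (natCast_mem O N) j
  constructor
  · have e : ((N : ℂ) ^ (k + j) • a).1 = (N : ℂ) ^ j * ((N : ℂ) ^ k • a).1 := by
      simp only [Prod.smul_fst, smul_eq_mul]
      ring
    rw [e]
    exact O.mul_mem hN h2.1
  · have e : ((N : ℂ) ^ (k + j) • a).2 = (N : ℂ) ^ j * ((N : ℂ) ^ k • a).2 := by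
      simp only [Prod.smul_snd, smul_eq_mul]
      ring
    rw [e]
    exact O.mul_mem hN h2.2

/-- the vectors `g⁻¹ s(g L)` are short -/
private theorem fc_short (h : Ctx O ω f ε N R Λ) {g : GL2} (hg : g ∈ GS (ON O N)) :
    ∃ (k : ℕ) (C : ℝ), 0 ≤ C ∧ ∀ (p : O) (_ : Prime p) (_ : ¬ p ∣ (N : O)) (L : Set V2)
      (_ : L ∈ LS O N p), Sh O N k C p L (g⁻¹ (sv O ω p (g '' L))) := by
  obtain ⟨k', C', hC', hs⟩ := sh_act (O := O) h.N_pos ((GS (ON O N)).inv_mem hg) 0 (1 + ‖ω‖)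
    (by positivity)
  refine ⟨k', C', hC', fun p hp hpN L hL => ?_⟩
  have hgL := image_LS (p := p) hg hL
  obtain ⟨s1, s2, _, s4⟩ := sv_spec h.quad h.N_pos hp hpN hgL
  have h1 : Sh O N 0 (1 + ‖ω‖) p (g '' L) (sv O ω p (g '' L)) := by
    refine ⟨s1, ?_, s4⟩
    rw [pow_zero, one_smul]
    exact s2
  have h2 := hs p (g '' L) _ h1
  rwa [fc_image_inv] at h2

/-- the three vectors `(g h)⁻¹ s(g h L)`, `h⁻¹ s(h L)`, `s(L)` are short: `sh_act`, `sv_spec` -/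
theorem sum_short (h : Ctx O ω f ε N R Λ) {F : Fm O} (hF : F ∈ MM O ω ε N (GS (ON O N)))
    {g g' : GL2} (hg : g ∈ GS (ON O N)) (hg' : g' ∈ GS (ON O N)) :
    (fun p : PP O N => ∑ L ∈ LF O N p.1, tau Λ R ((g * g')⁻¹ (sv O ω p.1 ((g * g') '' L)))
      (g'⁻¹ (sv O ω p.1 (g' '' L))) (sv O ω p.1 L) (res L F)) ∈ Nul O N := by
  obtain ⟨k1, C1, hC1, s1⟩ := fc_short h ((GS (ON O N)).mul_mem hg hg')
  obtain ⟨k2, C2, hC2, s2⟩ := fc_short h hg'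
  set k := max k1 k2 with hk
  set C := max (max C1 C2) (1 + ‖ω‖) with hCdef
  have hC : 0 ≤ C := (hC1.trans (le_max_left _ _)).trans (le_max_left _ _)
  obtain ⟨C', hC'⟩ := short h hF k C hC
  refine nul_of_bound h (C := 2 * |C'|) (δ := 1 / 2) (by norm_num) fun p => ?_
  have hp := p.2.1
  have hpN := p.2.2
  have hp1 : 1 ≤ ‖(p.1 : ℂ)‖ := one_le_norm h.quad _ hp.ne_zero
  have hp0 : 0 < ‖(p.1 : ℂ)‖ := lt_of_lt_of_le one_pos hp1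
  have hterm : ∀ L ∈ LF O N p.1, ‖((tau Λ R ((g * g')⁻¹ (sv O ω p.1 ((g * g') '' L)))
      (g'⁻¹ (sv O ω p.1 (g' '' L))) (sv O ω p.1 L) (res L F) : KK O) : ℂ)‖ ≤
        |C'| * ‖(p.1 : ℂ)‖ ^ (-(5 / 2) : ℝ) := by
    intro L hL
    have hL' := (mem_LF h.quad h.N_pos hp hpN).1 hL
    obtain ⟨t1, t2, _, t4⟩ := sv_spec h.quad h.N_pos hp hpN hL'
    have a1 : Sh O N k C p.1 L ((g * g')⁻¹ (sv O ω p.1 ((g * g') '' L))) :=
      fc_sh_mono (le_max_left _ _) ((le_max_left _ _).trans (le_max_left _ _)) (s1 p.1 hp hpN L hL')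
    have a2 : Sh O N k C p.1 L (g'⁻¹ (sv O ω p.1 (g' '' L))) :=
      fc_sh_mono (le_max_right _ _) ((le_max_right _ _).trans (le_max_left _ _))
        (s2 p.1 hp hpN L hL')
    have a3 : Sh O N k C p.1 L (sv O ω p.1 L) := by
      refine fc_sh_mono (Nat.zero_le k) (le_max_right (max C1 C2) (1 + ‖ω‖)) ⟨t1, ?_, t4⟩
      rw [pow_zero, one_smul]
      exact t2
    exact (hC' p.1 hp hpN L hL' _ _ _ a1 a2 a3).trans
      (mul_le_mul_of_nonneg_right (le_abs_self _) (by positivity))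
  have e1 : ((∑ L ∈ LF O N p.1, tau Λ R ((g * g')⁻¹ (sv O ω p.1 ((g * g') '' L)))
      (g'⁻¹ (sv O ω p.1 (g' '' L))) (sv O ω p.1 L) (res L F) : KK O) : ℂ) =
      ∑ L ∈ LF O N p.1, ((tau Λ R ((g * g')⁻¹ (sv O ω p.1 ((g * g') '' L)))
      (g'⁻¹ (sv O ω p.1 (g' '' L))) (sv O ω p.1 L) (res L F) : KK O) : ℂ) := by
    push_cast
    rfl
  show ‖((∑ L ∈ LF O N p.1, tau Λ R ((g * g')⁻¹ (sv O ω p.1 ((g * g') '' L)))
      (g'⁻¹ (sv O ω p.1 (g' '' L))) (sv O ω p.1 L) (res L F) : KK O) : ℂ)‖ ≤ _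
  rw [e1]
  have hcard := lf_card h.quad h.N_pos hp hpN
  have hcard2 : ((LF O N p.1).card : ℝ) ≤ 2 * ‖(p.1 : ℂ)‖ ^ 2 := by
    have : 1 ≤ ‖(p.1 : ℂ)‖ ^ 2 := one_le_pow₀ hp1
    linarith
  calc ‖∑ L ∈ LF O N p.1, ((tau Λ R ((g * g')⁻¹ (sv O ω p.1 ((g * g') '' L)))
      (g'⁻¹ (sv O ω p.1 (g' '' L))) (sv O ω p.1 L) (res L F) : KK O) : ℂ)‖
      ≤ ∑ L ∈ LF O N p.1, |C'| * ‖(p.1 : ℂ)‖ ^ (-(5 / 2) : ℝ) := norm_sum_le_of_le _ hterm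
    _ = (LF O N p.1).card * (|C'| * ‖(p.1 : ℂ)‖ ^ (-(5 / 2) : ℝ)) := by
        rw [Finset.sum_const, nsmul_eq_mul]
    _ ≤ (2 * ‖(p.1 : ℂ)‖ ^ 2) * (|C'| * ‖(p.1 : ℂ)‖ ^ (-(5 / 2) : ℝ)) :=
        mul_le_mul_of_nonneg_right hcard2 (by positivity)
    _ = 2 * |C'| * (‖(p.1 : ℂ)‖ ^ 2 * ‖(p.1 : ℂ)‖ ^ (-(5 / 2) : ℝ)) := by ring
    _ = 2 * |C'| * ‖(p.1 : ℂ)‖ ^ (-(1 / 2) : ℝ) := by
        congr 1
        rw [← Real.rpow_natCast ‖(p.1 : ℂ)‖ 2, ← Real.rpow_add hp0]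
        congr 1
        norm_num

/-- (H3) -/
theorem uu_coc (h : Ctx O ω f ε N R Λ) {F : Fm O} (hF : F ∈ MM O ω ε N (GS (ON O N)))
    {g g' : GL2} (hg : g ∈ GS (ON O N)) (hg' : g' ∈ GS (ON O N)) {x : V2} (hx : In (ON O N) x)
    (nx : x ≠ 0) :
    UU ω N Λ R (g * g') x F - UU ω N Λ R g' x F - UU ω N Λ R g (g' x) (act g' F) ∈ Nul O N := by
  have hs := (Nul O N).neg_mem (sum_short h hF hg hg')
  refine (congrArg (· ∈ Nul O N) (funext fun p => ?_)).mpr hs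
  have hp := p.2.1
  have hpN := p.2.2
  have hfin := ls_finite h.quad h.N_pos hp hpN
  show ∑ L ∈ LF O N p.1, tau Λ R ((g * g')⁻¹ (sv O ω p.1 ((g * g') '' L))) (sv O ω p.1 L) x
        (res L F) -
      ∑ L ∈ LF O N p.1, tau Λ R (g'⁻¹ (sv O ω p.1 (g' '' L))) (sv O ω p.1 L) x (res L F) -
      ∑ L ∈ LF O N p.1, tau Λ R (g⁻¹ (sv O ω p.1 (g '' L))) (sv O ω p.1 L) (g' x)
        (res L (act g' F)) =
      -∑ L ∈ LF O N p.1, tau Λ R ((g * g')⁻¹ (sv O ω p.1 ((g * g') '' L)))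
        (g'⁻¹ (sv O ω p.1 (g' '' L))) (sv O ω p.1 L) (res L F)
  rw [← sum_image hfin hg' (fun L => tau Λ R (g⁻¹ (sv O ω p.1 (g '' L))) (sv O ω p.1 L) (g' x)
        (res L (act g' F))), ← Finset.sum_sub_distrib, ← Finset.sum_sub_distrib,
    ← Finset.sum_neg_distrib]
  refine Finset.sum_congr rfl fun L hL => ?_
  have hL' := (mem_LF h.quad h.N_pos hp hpN).1 hL
  obtain ⟨_, _, aK, an⟩ := sv_good h p hL ((GS (ON O N)).mul_mem hg hg')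
  obtain ⟨_, _, bK, bn⟩ := sv_good h p hL hg'
  obtain ⟨_, sO, sn, _⟩ := sv_spec h.quad h.N_pos hp hpN hL'
  have hc := tau_coc (u0 := (g * g')⁻¹ (sv O ω p.1 ((g * g') '' L)))
    (u1 := g'⁻¹ (sv O ω p.1 (g' '' L))) (u2 := sv O ω p.1 L) (u3 := x)
    h (res_mem h hp hpN hL' hF) aK bK (fc_O_K sO) (fc_on_K h.N_pos hx) an bn sn nx
  have e1 : tau Λ R (g⁻¹ (sv O ω p.1 (g '' (g' '' L)))) (sv O ω p.1 (g' '' L)) (g' x)
      (res (g' '' L) (act g' F)) = tau Λ R ((g * g')⁻¹ (sv O ω p.1 ((g * g') '' L)))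
        (g'⁻¹ (sv O ω p.1 (g' '' L))) x (res L F) := by
    rw [fc_image_mul]
    have h1 := fc_tau_act R Λ g' (g⁻¹ (sv O ω p.1 (g '' (g' '' L))))
      (g'⁻¹ (sv O ω p.1 (g' '' L))) x L F
    rw [fc_inv_apply] at h1
    rw [h1]
    rfl
  show _ - _ - tau Λ R (g⁻¹ (sv O ω p.1 (g '' (g' '' L)))) (sv O ω p.1 (g' '' L)) (g' x)
      (res (g' '' L) (act g' F)) = _
  rw [e1]
  linear_combination -hc

end Pool.Agent.KTD
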