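import Pool.Agent.Lib_helper87.KTD.Defs

set_option autoImplicit false

namespace Pool.Agent.KTD

open Complex Pool.Agent.TCL

theorem gg_lin (u1 u2 u3 v w l : V2) (a b : ℂ) :
    GG u1 u2 u3 (a • v + b • w) l = a * GG u1 u2 u3 v l + b * GG u1 u2 u3 w l := by
  have h : ∀ u : V2, rr u (a • v + b • w) l = a * rr u v l + b * rr u w l := by
    intro u
    unfold rr cr
    simp only [Prod.fst_add, Prod.snd_add, Prod.smul_fst, Prod.smul_snd, smul_eq_mul]
    ring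
  unfold GG
  rw [h u1, h u3]
  ring

theorem gg_zero {u1 u2 u3 v l : V2} (h : cr u1 l = 0 ∨ cr u2 l = 0 ∨ cr u3 l = 0) :
    GG u1 u2 u3 v l = 0 := by
  rcases h with h | h | h
  · simp [GG, rr, ee, h]
  · simp [GG, ee, h]
  · simp [GG, rr, ee, h]

theorem gg_par {u1 u2 u3 v l : V2} (h : cr u1 u2 = 0) : GG u1 u2 u3 v l = 0 := by
  simp [GG, ee, h]

private theorem ga_e13 {u1 u2 u3 l : V2} (h1 : cr u1 l ≠ 0) (h2 : cr u2 l ≠ 0)
    (h3 : cr u3 l ≠ 0) : ee u1 u3 l = ee u1 u2 l + ee u2 u3 l := by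
  have e : cr u1 u3 * cr u2 l = cr u1 u2 * cr u3 l + cr u2 u3 * cr u1 l := by
    unfold cr
    ring
  unfold ee
  rw [div_add_div _ _ (mul_ne_zero h1 h2) (mul_ne_zero h2 h3),
    div_eq_div_iff (mul_ne_zero h1 h3) (mul_ne_zero (mul_ne_zero h1 h2) (mul_ne_zero h2 h3))]
  linear_combination (cr u1 l * cr u2 l * cr u3 l) * e

private theorem ga_r {u1 u2 v l : V2} (h1 : cr u1 l ≠ 0) (h2 : cr u2 l ≠ 0) :
    rr u1 v l - rr u2 v l = cr v l * ee u1 u2 l := by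
  have e : cr u1 v * cr u2 l - cr u1 l * cr u2 v = cr v l * cr u1 u2 := by
    unfold cr
    ring
  unfold rr ee
  rw [div_sub_div _ _ h1 h2, e, mul_div_assoc]

private theorem ga_e21 (u1 u2 l : V2) : ee u2 u1 l = - ee u1 u2 l := by
  unfold ee
  rw [show cr u2 u1 = - cr u1 u2 by unfold cr; ring, mul_comm (cr u2 l), neg_div]

/-- `e_21 = - e_12`, `e_13 = e_12 + e_23`, `r_i - r_j = [v, l] e_ij` (Plücker); if some `[u_i, l]` is
zero use `gg_zero` -/
theorem gg_swap12 (u1 u2 u3 v l : V2) : GG u2 u1 u3 v l = - GG u1 u2 u3 v l := by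
  by_cases h1 : cr u1 l = 0
  · rw [gg_zero (u1 := u2) (u2 := u1) (Or.inr (Or.inl h1)), gg_zero (Or.inl h1), neg_zero]
  by_cases h2 : cr u2 l = 0
  · rw [gg_zero (u1 := u2) (u2 := u1) (Or.inl h2), gg_zero (Or.inr (Or.inl h2)), neg_zero]
  by_cases h3 : cr u3 l = 0
  · rw [gg_zero (u1 := u2) (u2 := u1) (Or.inr (Or.inr h3)), gg_zero (Or.inr (Or.inr h3)), neg_zero]
  have r12 := ga_r (v := v) h1 h2
  have r23 := ga_r (v := v) h2 h3
  unfold GG
  rw [ga_e13 h1 h2 h3, ga_e21 u1 u2 l, map_neg, map_add]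
  linear_combination (starRingEnd ℂ (ee u1 u2 l) * ee u2 u3 l) * r12 -
    (starRingEnd ℂ (ee u1 u2 l) * ee u1 u2 l) * r23

theorem gg_swap23 (u1 u2 u3 v l : V2) : GG u1 u3 u2 v l = - GG u1 u2 u3 v l := by
  by_cases h1 : cr u1 l = 0
  · rw [gg_zero (u2 := u3) (u3 := u2) (Or.inl h1), gg_zero (Or.inl h1), neg_zero]
  by_cases h2 : cr u2 l = 0
  · rw [gg_zero (u2 := u3) (u3 := u2) (Or.inr (Or.inr h2)), gg_zero (Or.inr (Or.inl h2)), neg_zero]
  by_cases h3 : cr u3 l = 0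
  · rw [gg_zero (u2 := u3) (u3 := u2) (Or.inr (Or.inl h3)), gg_zero (Or.inr (Or.inr h3)), neg_zero]
  have r12 := ga_r (v := v) h1 h2
  have r23 := ga_r (v := v) h2 h3
  unfold GG
  rw [ga_e13 h1 h2 h3, ga_e21 u2 u3 l, map_neg, map_add]
  linear_combination (starRingEnd ℂ (ee u2 u3 l) * ee u1 u2 l) * r23 -
    (starRingEnd ℂ (ee u2 u3 l) * ee u2 u3 l) * r12

theorem gg_smul (s : ℂ) (hs : s ≠ 0) (u1 u2 u3 v l : V2) :
    GG (s • u1) u2 u3 v l = GG u1 u2 u3 v l ∧ GG u1 (s • u2) u3 v l = GG u1 u2 u3 v l ∧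
      GG u1 u2 (s • u3) v l = GG u1 u2 u3 v l := by
  have c1 : ∀ u w : V2, cr (s • u) w = s * cr u w := by
    intro u w
    unfold cr
    simp only [Prod.smul_fst, Prod.smul_snd, smul_eq_mul]
    ring
  have c2 : ∀ u w : V2, cr u (s • w) = s * cr u w := by
    intro u w
    unfold cr
    simp only [Prod.smul_fst, Prod.smul_snd, smul_eq_mul]
    ring
  have r1 : ∀ u : V2, rr (s • u) v l = rr u v l := by
    intro u
    unfold rr
    rw [c1, c1, mul_div_mul_left _ _ hs]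
  have e1 : ∀ u w : V2, ee (s • u) w l = ee u w l := by
    intro u w
    unfold ee
    rw [c1, c1, mul_assoc, mul_div_mul_left _ _ hs]
  have e2 : ∀ u w : V2, ee u (s • w) l = ee u w l := by
    intro u w
    unfold ee
    rw [c2, c1, mul_left_comm, mul_div_mul_left _ _ hs]
  unfold GG
  refine ⟨?_, ?_, ?_⟩
  · rw [r1, e1]
  · rw [e1, e2]
  · rw [r1, e2]

end Pool.Agent.KTD
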