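import Pool.Agent.Lib_helper87.KTD.P.GA

set_option autoImplicit false

namespace Pool.Agent.KTD

open Complex Pool.Agent.TCL

private theorem gc_one {t m : ℝ} (ht : 0 < t) (hm : 0 < m) (h : t ^ 5 ≤ m ^ 2) :
    m⁻¹ ≤ t ^ (-(5 / 2) : ℝ) := by
  rw [Real.rpow_neg ht.le]
  have hp : 0 < t ^ (5 / 2 : ℝ) := Real.rpow_pos_of_pos ht _
  refine inv_anti₀ hp ?_
  have h2 : (t ^ (5 / 2 : ℝ)) ^ 2 = t ^ 5 := by
    rw [← Real.rpow_natCast, ← Real.rpow_mul ht.le, ← Real.rpow_natCast]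
    norm_num
  have h3 : (t ^ (5 / 2 : ℝ)) ^ 2 ≤ m ^ 2 := by rw [h2]; exact h
  exact (pow_le_pow_iff_left₀ hp.le hm.le two_ne_zero).1 h3

private theorem gc_two {x y z : ℝ} (hx : 0 < x) (hy : 0 < y) (hz : 0 < z) :
    (x ^ 2 * y ^ 2 * z)⁻¹ ≤ (x * y) ^ (-(5 / 2) : ℝ) + (x * z) ^ (-(5 / 2) : ℝ)
      + (y * z) ^ (-(5 / 2) : ℝ) := by
  have p1 : 0 < (x * y) ^ (-(5 / 2) : ℝ) := Real.rpow_pos_of_pos (by positivity) _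
  have p2 : 0 < (x * z) ^ (-(5 / 2) : ℝ) := Real.rpow_pos_of_pos (by positivity) _
  have p3 : 0 < (y * z) ^ (-(5 / 2) : ℝ) := Real.rpow_pos_of_pos (by positivity) _
  have hm : 0 < x ^ 2 * y ^ 2 * z := by positivity
  by_cases h : x * y ≤ z ^ 2
  · have := gc_one (t := x * y) (by positivity) hm (by
      have e1 : (x * y) ^ 5 = (x ^ 4 * y ^ 4) * (x * y) := by ring
      have e2 : (x ^ 2 * y ^ 2 * z) ^ 2 = (x ^ 4 * y ^ 4) * z ^ 2 := by ring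
      rw [e1, e2]
      exact mul_le_mul_of_nonneg_left h (by positivity))
    linarith
  · push Not at h
    rcases le_total y x with hyx | hxy
    · have hzx : z ≤ x := by
        have h4 : z ^ 2 ≤ x ^ 2 := by nlinarith
        exact (pow_le_pow_iff_left₀ hz.le hx.le two_ne_zero).1 h4
      have h5 : y * z ^ 3 ≤ x * x ^ 3 :=
        mul_le_mul hyx (pow_le_pow_left₀ hz.le hzx 3) (by positivity) hx.le
      have := gc_one (t := y * z) (by positivity) hm (by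
        have e1 : (y * z) ^ 5 = (y ^ 4 * z ^ 2) * (y * z ^ 3) := by ring
        have e2 : (x ^ 2 * y ^ 2 * z) ^ 2 = (y ^ 4 * z ^ 2) * (x * x ^ 3) := by ring
        rw [e1, e2]
        exact mul_le_mul_of_nonneg_left h5 (by positivity))
      linarith
    · have hzy : z ≤ y := by
        have h4 : z ^ 2 ≤ y ^ 2 := by nlinarith
        exact (pow_le_pow_iff_left₀ hz.le hy.le two_ne_zero).1 h4
      have h5 : x * z ^ 3 ≤ y * y ^ 3 :=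
        mul_le_mul hxy (pow_le_pow_left₀ hz.le hzy 3) (by positivity) hy.le
      have := gc_one (t := x * z) (by positivity) hm (by
        have e1 : (x * z) ^ 5 = (x ^ 4 * z ^ 2) * (x * z ^ 3) := by ring
        have e2 : (x ^ 2 * y ^ 2 * z) ^ 2 = (x ^ 4 * z ^ 2) * (y * y ^ 3) := by ring
        rw [e1, e2]
        exact mul_le_mul_of_nonneg_left h5 (by positivity))
      linarith

private theorem gc_cr (u v : V2) : ‖cr u v‖ ≤ 2 * ‖u‖ * ‖v‖ := by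
  unfold cr
  have a1 : ‖u.1‖ ≤ ‖u‖ := norm_fst_le u
  have a2 : ‖u.2‖ ≤ ‖u‖ := norm_snd_le u
  have b1 : ‖v.1‖ ≤ ‖v‖ := norm_fst_le v
  have b2 : ‖v.2‖ ≤ ‖v‖ := norm_snd_le v
  have c1 : ‖u.1 * v.2‖ ≤ ‖u‖ * ‖v‖ := by
    rw [norm_mul]
    exact mul_le_mul a1 b2 (norm_nonneg _) (norm_nonneg _)
  have c2 : ‖u.2 * v.1‖ ≤ ‖u‖ * ‖v‖ := by
    rw [norm_mul]
    exact mul_le_mul a2 b1 (norm_nonneg _) (norm_nonneg _)
  calc ‖u.1 * v.2 - u.2 * v.1‖ ≤ ‖u.1 * v.2‖ + ‖u.2 * v.1‖ := norm_sub_le _ _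
    _ ≤ 2 * ‖u‖ * ‖v‖ := by linarith

/-- `‖GG‖ ≤ c (x² y² z)⁻¹ + c' (x y² z²)⁻¹`, `x, y, z = ‖[u_i, l]‖`; if `x ≤ y ≤ z` are positive then
`x⁻² y⁻² z⁻¹` etc. are `≤ x⁻² y⁻³ ≤ (x y)^(-5/2)` -/
theorem gg_bound (u1 u2 u3 : V2) : ∃ C : ℝ, 0 ≤ C ∧ ∀ v l : V2, ‖GG u1 u2 u3 v l‖ ≤
    C * ‖v‖ * ((‖cr u1 l‖ * ‖cr u2 l‖) ^ (-(5 / 2) : ℝ) + (‖cr u1 l‖ * ‖cr u3 l‖) ^ (-(5 / 2) : ℝ)
      + (‖cr u2 l‖ * ‖cr u3 l‖) ^ (-(5 / 2) : ℝ)) := by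
  refine ⟨‖cr u1 u2‖ * ‖cr u2 u3‖ * (2 * ‖u1‖ + 2 * ‖u3‖), by positivity, fun v l => ?_⟩
  by_cases h0 : cr u1 l = 0 ∨ cr u2 l = 0 ∨ cr u3 l = 0
  · rw [gg_zero h0, norm_zero]
    positivity
  push Not at h0
  obtain ⟨h1, h2, h3⟩ := h0
  set x := ‖cr u1 l‖ with hx
  set y := ‖cr u2 l‖ with hy
  set z := ‖cr u3 l‖ with hz
  have px : 0 < x := norm_pos_iff.2 h1
  have py : 0 < y := norm_pos_iff.2 h2
  have pz : 0 < z := norm_pos_iff.2 h3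
  set S := (x * y) ^ (-(5 / 2) : ℝ) + (x * z) ^ (-(5 / 2) : ℝ) + (y * z) ^ (-(5 / 2) : ℝ) with hS
  have n1 : ‖rr u1 v l * ee u2 u3 l * starRingEnd ℂ (ee u1 u2 l)‖ =
      ‖cr u1 u2‖ * ‖cr u2 u3‖ * ‖cr u1 v‖ * (x ^ 2 * y ^ 2 * z)⁻¹ := by
    unfold rr ee
    rw [norm_mul, norm_mul, RCLike.norm_conj, norm_div, norm_div, norm_div, norm_mul, norm_mul,
      ← hx, ← hy, ← hz]
    field_simp
  have n2 : ‖rr u3 v l * ee u1 u2 l * starRingEnd ℂ (ee u2 u3 l)‖ =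
      ‖cr u1 u2‖ * ‖cr u2 u3‖ * ‖cr u3 v‖ * (z ^ 2 * y ^ 2 * x)⁻¹ := by
    unfold rr ee
    rw [norm_mul, norm_mul, RCLike.norm_conj, norm_div, norm_div, norm_div, norm_mul, norm_mul,
      ← hx, ← hy, ← hz]
    field_simp
  have b1 : (x ^ 2 * y ^ 2 * z)⁻¹ ≤ S := gc_two px py pz
  have b2 : (z ^ 2 * y ^ 2 * x)⁻¹ ≤ S := by
    have := gc_two pz py px
    rw [mul_comm z y, mul_comm z x, mul_comm y x] at this
    rw [hS]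
    linarith
  have k1 := gc_cr u1 v
  have k3 := gc_cr u3 v
  have hSpos : 0 ≤ S := by positivity
  unfold GG
  calc ‖rr u1 v l * ee u2 u3 l * starRingEnd ℂ (ee u1 u2 l)
        - rr u3 v l * ee u1 u2 l * starRingEnd ℂ (ee u2 u3 l)‖
      ≤ ‖cr u1 u2‖ * ‖cr u2 u3‖ * ‖cr u1 v‖ * (x ^ 2 * y ^ 2 * z)⁻¹
        + ‖cr u1 u2‖ * ‖cr u2 u3‖ * ‖cr u3 v‖ * (z ^ 2 * y ^ 2 * x)⁻¹ := by
        rw [← n1, ← n2]; exact norm_sub_le _ _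
    _ ≤ ‖cr u1 u2‖ * ‖cr u2 u3‖ * (2 * ‖u1‖ * ‖v‖) * S
        + ‖cr u1 u2‖ * ‖cr u2 u3‖ * (2 * ‖u3‖ * ‖v‖) * S := by
        gcongr
    _ = ‖cr u1 u2‖ * ‖cr u2 u3‖ * (2 * ‖u1‖ + 2 * ‖u3‖) * ‖v‖ * S := by ring

end Pool.Agent.KTD
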