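import Pool.Agent.Lib_helper87.KTD.P.PF
import Pool.Agent.Lib_helper87.KTD.P.DE

set_option autoImplicit false

namespace Pool.Agent.KTD

open Complex Pool.Agent.TCL

variable {O : Subring ℂ} {ω : ℂ} {f : O} {ε : O → O} {N : ℕ} {R : Finset O} {Λ : ℂ →ₗ[KK O] KK O}

/-- the Galois action on families -/
def gal (c : O) (F : Fm O) : Fm O := fun c' l => F (c' * c) l

theorem gal_add (c : O) (F F' : Fm O) : gal c (F + F') = gal c F + gal c F' := rfl

theorem gal_smul (c : O) (k : KK O) (F : Fm O) : gal c (k • F) = k • gal c F := rfl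

theorem gal_act (c : O) (g : GL2) (F : Fm O) : gal c (act g F) = act g (gal c F) := rfl

theorem gal_res (c : O) (L : Set V2) (F : Fm O) : gal c (res L F) = res L (gal c F) := rfl

private theorem ha_cop {a c n : O} (hc : IsCoprime c n) : IsCoprime (a * c) n ↔ IsCoprime a n :=
  ⟨fun h => h.of_mul_left_left, fun h => h.mul_left hc⟩

private theorem ha_chi (h : Ctx O ω f ε N R Λ) {c : O} (hc : IsCoprime c (N : O)) (x : V2)
    (c' : O) (l : V2) :
    chi O ω ε N x (c' * c) l = chi O ω ε N (((ε c : ℂ) * c) • x) c' l := by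
  classical
  unfold chi
  by_cases h1 : In O l ∧ IsCoprime c' (N : O)
  · have h2 : In O l ∧ IsCoprime (c' * c) (N : O) := ⟨h1.1, (ha_cop hc).2 h1.2⟩
    rw [if_pos h1, if_pos h2]
    have e1 : (ε (c' * c) : ℂ) = (ε c' : ℂ) * (ε c : ℂ) := by
      rw [h.gc.mul]; push_cast; rfl
    have e2 : ∀ y : ℂ, (ε (c' * c) : ℂ) * ((c' * c : O) : ℂ) * y =
        (ε c' : ℂ) * (c' : ℂ) * ((ε c : ℂ) * (c : ℂ) * y) := by
      intro y
      rw [e1]
      push_cast
      ring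
    rw [e2, e2]
    rfl
  · have h2 : ¬ (In O l ∧ IsCoprime (c' * c) (N : O)) := fun h3 => h1 ⟨h3.1, (ha_cop hc).1 h3.2⟩
    rw [if_neg h1, if_neg h2]

theorem gal_chi (h : Ctx O ω f ε N R Λ) {c : O} (hc : IsCoprime c (N : O)) (v x : V2) :
    gal c (ten v (chi O ω ε N x)) = ten v (chi O ω ε N (((ε c : ℂ) * c) • x)) := by
  funext c' l
  show chi O ω ε N x (c' * c) l • v = chi O ω ε N (((ε c : ℂ) * c) • x) c' l • v
  rw [ha_chi h hc]

private theorem ha_pr (h : Ctx O ω f ε N R Λ) {a b l : ℂ} (ha : a - b ∈ O) (hl : l ∈ O) :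
    pr ω a l = pr ω b l := by
  have e : a = (a - b) + b := by ring
  rw [e, pr_add]
  have e2 : pr ω (a - b) l = 1 := pr_mem h.quad ⟨a - b, ha⟩ ⟨l, hl⟩
  rw [e2, one_mul]

private theorem ha_cop_mod {a b n : O} (h : n ∣ a - b) (ha : IsCoprime a n) : IsCoprime b n := by
  obtain ⟨k, hk⟩ := h
  obtain ⟨u, v, huv⟩ := ha
  refine ⟨u, v + u * k, ?_⟩
  have : a = b + n * k := by rw [← hk]; ring
  rw [← huv, this]
  ring

private theorem ha_eps (h : Ctx O ω f ε N R Λ) {c c' : O} (hc : (N : O) ∣ c - c') :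
    ε c = ε c' := by
  obtain ⟨k, hk⟩ := h.f_dvd.trans hc
  have e : c = c' + f * k := by rw [← hk]; ring
  rw [e, h.gc.per]

private theorem ha_chi_mod (h : Ctx O ω f ε N R Λ) {x : V2} (hx : In O ((N : ℂ) • x)) {c c' : O}
    (hc : (N : O) ∣ c - c') (l : V2) : chi O ω ε N x c l = chi O ω ε N x c' l := by
  classical
  have hc' : (N : O) ∣ c' - c := by
    have := (dvd_neg (a := (N : O)) (b := c - c')).2 hc
    rwa [neg_sub] at this
  unfold chi
  by_cases h1 : In O l ∧ IsCoprime c (N : O)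
  · have h2 : In O l ∧ IsCoprime c' (N : O) := ⟨h1.1, ha_cop_mod hc h1.2⟩
    rw [if_pos h1, if_pos h2, ha_eps h hc]
    obtain ⟨k, hk⟩ := hc
    have e3 : (c : ℂ) - (c' : ℂ) = (N : ℂ) * (k : ℂ) := by
      have := congrArg (fun z : O => (z : ℂ)) hk
      push_cast at this
      exact this
    have key : ∀ y : ℂ, (N : ℂ) * y ∈ O →
        (ε c' : ℂ) * (c : ℂ) * y - (ε c' : ℂ) * (c' : ℂ) * y ∈ O := by
      intro y hy
      have e4 : (ε c' : ℂ) * (c : ℂ) * y - (ε c' : ℂ) * (c' : ℂ) * y =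
          (ε c' : ℂ) * ((k : ℂ) * ((N : ℂ) * y)) := by
        have : (ε c' : ℂ) * (c : ℂ) * y - (ε c' : ℂ) * (c' : ℂ) * y =
          (ε c' : ℂ) * ((c : ℂ) - (c' : ℂ)) * y := by ring
        rw [this, e3]; ring
      rw [e4]
      exact O.mul_mem (ε c').2 (O.mul_mem k.2 hy)
    rw [ha_pr h (key x.1 hx.1) h1.1.1, ha_pr h (key x.2 hx.2) h1.1.2]
  · have h2 : ¬ (In O l ∧ IsCoprime c' (N : O)) := fun h3 => h1 ⟨h3.1, ha_cop_mod hc' h3.2⟩
    rw [if_neg h1, if_neg h2]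

/-- the members depend on `c` modulo `N` only -/
theorem MM_mod (h : Ctx O ω f ε N R Λ) {G : Subgroup GL2} {F : Fm O} (hF : F ∈ MM O ω ε N G)
    {c c' : O} (hc : (N : O) ∣ c - c') : F c = F c' := by
  induction hF using Submodule.span_induction with
  | mem F hF =>
    obtain ⟨g, hg, v, x, hv, hx, rfl⟩ := hF
    funext l
    show ((‖dt g‖ : ℂ) ^ 2) • g (chi O ω ε N x c (g⁻¹ l) • v) =
      ((‖dt g‖ : ℂ) ^ 2) • g (chi O ω ε N x c' (g⁻¹ l) • v)
    rw [ha_chi_mod h hx hc]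
  | zero => rfl
  | add F F' _ _ h1 h2 =>
    show F c + F' c = F c' + F' c'
    rw [h1, h2]
  | smul k F _ h1 =>
    show k • F c = k • F c'
    rw [h1]

private theorem ha_In (c : O) (ε : O → O) {x : V2} (hx : In O ((N : ℂ) • x)) :
    In O ((N : ℂ) • (((ε c : ℂ) * c) • x)) := by
  refine ⟨?_, ?_⟩
  · show (N : ℂ) * ((ε c : ℂ) * c * x.1) ∈ O
    have e : (N : ℂ) * ((ε c : ℂ) * c * x.1) = ((ε c : ℂ) * c) * ((N : ℂ) * x.1) := by ring
    rw [e]
    exact O.mul_mem (O.mul_mem (ε c).2 c.2) hx.1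
  · show (N : ℂ) * ((ε c : ℂ) * c * x.2) ∈ O
    have e : (N : ℂ) * ((ε c : ℂ) * c * x.2) = ((ε c : ℂ) * c) * ((N : ℂ) * x.2) := by ring
    rw [e]
    exact O.mul_mem (O.mul_mem (ε c).2 c.2) hx.2

theorem gal_mem (h : Ctx O ω f ε N R Λ) {G : Subgroup GL2} {F : Fm O} (hF : F ∈ MM O ω ε N G)
    {c : O} (hc : IsCoprime c (N : O)) : gal c F ∈ MM O ω ε N G := by
  induction hF using Submodule.span_induction with
  | mem F hF =>
    obtain ⟨g, hg, v, x, hv, hx, rfl⟩ := hF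
    rw [gal_act, gal_chi h hc]
    exact Submodule.subset_span ⟨g, hg, v, _, hv, ha_In c ε hx, rfl⟩
  | zero => exact Submodule.zero_mem _
  | add F F' _ _ h1 h2 =>
    rw [gal_add]
    exact Submodule.add_mem _ h1 h2
  | smul k F _ h1 =>
    rw [gal_smul]
    exact Submodule.smul_mem _ k h1

private theorem ha_not_mem (h : Ctx O ω f ε N R Λ) {c : O} (hc : IsCoprime c (N : O)) {y : ℂ}
    (hy : (N : ℂ) * y ∈ O) (hn : y ∉ O) : (ε c : ℂ) * c * y ∉ O := by
  intro h1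
  apply hn
  have hcf : IsCoprime c f := by
    obtain ⟨k, hk⟩ := h.f_dvd
    rw [hk] at hc
    exact hc.of_mul_right_left
  have hu : IsUnit (ε c) := h.gc.unit c hcf
  have hcop : IsCoprime (ε c * c) (N : O) := by
    obtain ⟨u, v, huv⟩ := hc
    obtain ⟨w, hw⟩ := hu.exists_left_inv
    refine ⟨w * u, v, ?_⟩
    have : w * u * (ε c * c) = (w * ε c) * (u * c) := by ring
    rw [this, hw, one_mul, huv]
  obtain ⟨u, v, huv⟩ := hcop
  have e : y = (u : ℂ) * ((ε c : ℂ) * c * y) + (v : ℂ) * ((N : ℂ) * y) := by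
    have h2 := congrArg (fun z : O => (z : ℂ)) huv
    push_cast at h2
    calc y = 1 * y := (one_mul y).symm
      _ = ((u : ℂ) * ((ε c : ℂ) * c) + (v : ℂ) * (N : ℂ)) * y := by rw [h2]
      _ = _ := by ring
  rw [e]
  exact O.add_mem (O.mul_mem u.2 h1) (O.mul_mem v.2 hy)

private theorem ha_FP (h : Ctx O ω f ε N R Λ) {F : Fs O} (hF : F ∈ FP O ω ε N)
    {c : O} (hc : IsCoprime c (N : O)) : (fun c' l => F (c' * c) l) ∈ FP O ω ε N := by
  induction hF using Submodule.span_induction with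
  | mem F hF =>
    obtain ⟨g, x, hg, hx, hx2, rfl⟩ := hF
    refine Submodule.subset_span ⟨g, ((ε c : ℂ) * c) • x, hg, ha_In c ε hx,
      ha_not_mem h hc hx.2 hx2, ?_⟩
    funext c' l
    exact ha_chi h hc x c' (g⁻¹ l)
  | zero => exact Submodule.zero_mem _
  | add F F' _ _ h1 h2 => exact Submodule.add_mem _ h1 h2
  | smul k F _ h1 => exact Submodule.smul_mem _ k h1

theorem gal_MP (h : Ctx O ω f ε N R Λ) {F : Fm O} (hF : F ∈ MP O ω ε N)
    {c : O} (hc : IsCoprime c (N : O)) : gal c F ∈ MP O ω ε N := by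
  induction hF using Submodule.span_induction with
  | mem F hF =>
    obtain ⟨v, φ, hv, hφ, rfl⟩ := hF
    exact Submodule.subset_span ⟨v, _, hv, ha_FP h hφ hc, rfl⟩
  | zero => exact Submodule.zero_mem _
  | add F F' _ _ h1 h2 =>
    rw [gal_add]
    exact Submodule.add_mem _ h1 h2
  | smul k F _ h1 =>
    rw [gal_smul]
    exact Submodule.smul_mem _ k h1

/-- `c' ↦ c' c` permutes the classes of `R` -/
theorem sum_gal (h : Ctx O ω f ε N R Λ) {M : Type} [AddCommMonoid M] (φ : O → M)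
    (hφ : ∀ c c', (N : O) ∣ c - c' → φ c = φ c') {c : O} (hc : IsCoprime c (N : O)) :
    ∑ a ∈ R, φ (a * c) = ∑ a ∈ R, φ a := by
  classical
  have hex : ∀ a : O, ∃ k : O, a ∈ R → k ∈ R ∧ (N : O) ∣ a * c - k := by
    intro a
    by_cases ha : a ∈ R
    · obtain ⟨k, hk, -⟩ := h.reps (a * c) ((h.cop a ha).mul_left hc)
      exact ⟨k, fun _ => hk⟩
    · exact ⟨0, fun h => absurd h ha⟩
  choose σ hσ using hex
  have hinj : Set.InjOn σ (R : Set O) := by
    intro a ha b hb hab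
    have h1 := (hσ a ha).2
    have h2 := (hσ b hb).2
    rw [← hab] at h2
    have h3 : (N : O) ∣ (a - b) * c := by
      have := dvd_sub h1 h2
      have e : a * c - σ a - (b * c - σ a) = (a - b) * c := by ring
      rwa [e] at this
    have h4 : (N : O) ∣ a - b := hc.symm.dvd_of_dvd_mul_right h3
    exact ((h.reps a (h.cop a ha)).unique ⟨hb, h4⟩ ⟨ha, by simp⟩).symm
  have himg : R.image σ = R := by
    refine Finset.eq_of_subset_of_card_le ?_ ?_
    · intro b hb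
      obtain ⟨a, ha, rfl⟩ := Finset.mem_image.1 hb
      exact (hσ a ha).1
    · rw [Finset.card_image_of_injOn hinj]
  calc ∑ a ∈ R, φ (a * c) = ∑ a ∈ R, φ (σ a) :=
        Finset.sum_congr rfl (fun a ha => hφ _ _ (hσ a ha).2)
    _ = ∑ b ∈ R.image σ, φ b := (Finset.sum_image (fun a ha b hb hab => hinj ha hb hab)).symm
    _ = ∑ a ∈ R, φ a := by rw [himg]

theorem tt_gal (h : Ctx O ω f ε N R Λ) {F : Fm O} (hF : F ∈ MM O ω ε N (GS (KK O)))
    {c : O} (hc : IsCoprime c (N : O)) (u1 u2 u3 : V2) :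
    TT R u1 u2 u3 (gal c F) = TT R u1 u2 u3 F :=
  sum_gal h (fun a => ∑' l : V2, GG u1 u2 u3 (F a l) l)
    (fun a b hab => by rw [MM_mod h hF hab]) hc

private theorem ha_tau (h : Ctx O ω f ε N R Λ) {p : PP O N} {L : Set V2}
    (hL : L ∈ LF O N p.1) {F : Fm O} (hF : F ∈ MM O ω ε N (GS (ON O N)))
    {c : O} (hc : IsCoprime c (N : O)) (u1 u2 u3 : V2) :
    tau Λ R u1 u2 u3 (res L (gal c F)) = tau Λ R u1 u2 u3 (res L F) := by
  have hL' : L ∈ LS O N p.1 := (mem_LF h.quad h.N_pos p.2.1 p.2.2).1 hL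
  unfold tau
  rw [← gal_res, tt_gal h (res_mem h p.2.1 p.2.2 hL' hF) hc]

theorem ww_gal (h : Ctx O ω f ε N R Λ) {F : Fm O} (hF : F ∈ MM O ω ε N (GS (ON O N)))
    {c : O} (hc : IsCoprime c (N : O)) (x0 x1 : V2) :
    WW ω N Λ R x0 x1 (gal c F) = WW ω N Λ R x0 x1 F := by
  funext p
  exact Finset.sum_congr rfl (fun L hL => ha_tau h hL hF hc _ _ _)

theorem uu_gal (h : Ctx O ω f ε N R Λ) {F : Fm O} (hF : F ∈ MM O ω ε N (GS (ON O N)))
    {c : O} (hc : IsCoprime c (N : O)) (g : GL2) (x : V2) :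
    UU ω N Λ R g x (gal c F) = UU ω N Λ R g x F := by
  funext p
  exact Finset.sum_congr rfl (fun L hL => ha_tau h hL hF hc _ _ _)

end Pool.Agent.KTD
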