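import Pool.Agent.Lib_helper87.KTD.P.HA
import Pool.Agent.Lib_helper87.KTD.P.FC

set_option autoImplicit false

namespace Pool.Agent.KTD

open Complex Pool.Agent.TCL

variable {O : Subring ℂ} {ω : ℂ} {f : O} {ε : O → O} {N : ℕ} {R : Finset O} {Λ : ℂ →ₗ[KK O] KK O}

/-- a solution of the vertex equation, invariant under Galois -/
structure VL (ω : ℂ) (ε : O → O) (N : ℕ) (R : Finset O) (Λ : ℂ →ₗ[KK O] KK O)
    (φ : Fm O →ₗ[KK O] HH O N) : Prop where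
  eq : ∀ g, IsB O N g → ∀ F ∈ MP O ω ε N,
    (Nul O N).mkQ (UU ω N Λ R g (0, 1) F) = φ (act g F) - φ F
  gal : ∀ F ∈ MP O ω ε N, ∀ c : O, IsCoprime c (N : O) → φ (gal c F) = φ F

theorem hb_in01 : In (KK O) (0, 1) := ⟨zero_mem _, one_mem _⟩

theorem hb_in01' : In (ON O N) (0, 1) := ⟨zero_mem _, one_mem _⟩

theorem hb_ne01 : ((0, 1) : V2) ≠ 0 := by
  intro h
  have := congrArg Prod.snd h
  simp at this

theorem hb_eq {a b : PP O N → KK O} (h : a - b ∈ Nul O N) :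
    (Nul O N).mkQ a = (Nul O N).mkQ b := by
  rw [← sub_eq_zero, ← map_sub, Submodule.mkQ_apply, Submodule.Quotient.mk_eq_zero]
  exact h

theorem hb_coc (h : Ctx O ω f ε N R Λ) {F : Fm O} (hF : F ∈ MM O ω ε N (GS (ON O N)))
    {g g' : GL2} (hg : g ∈ GS (ON O N)) (hg' : g' ∈ GS (ON O N)) {x : V2} (hx : In (ON O N) x)
    (nx : x ≠ 0) : (Nul O N).mkQ (UU ω N Λ R (g * g') x F) = (Nul O N).mkQ (UU ω N Λ R g' x F) +
      (Nul O N).mkQ (UU ω N Λ R g (g' x) (act g' F)) := by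
  rw [← map_add]
  refine hb_eq ?_
  rw [← sub_sub]
  exact uu_coc h hF hg hg' hx nx

theorem hb_R_ne (h : Ctx O ω f ε N R Λ) : (R.card : KK O) ≠ 0 := by
  obtain ⟨k, ⟨hk, -⟩, -⟩ := h.reps 1 isCoprime_one_left
  have h1 : R.card ≠ 0 := Finset.card_ne_zero.2 ⟨k, hk⟩
  intro h2
  have h3 : ((R.card : KK O) : ℂ) = 0 := by rw [h2]; rfl
  apply h1
  have h4 : (R.card : ℂ) = 0 := by simpa using h3
  exact_mod_cast h4

/-- `gal c` as a linear map -/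
def hb_galL (c : O) : Fm O →ₗ[KK O] Fm O where
  toFun := gal c
  map_add' F F' := gal_add c F F'
  map_smul' k F := gal_smul c k F

theorem hb_gal_gal (c c' : O) (F : Fm O) : gal c (gal c' F) = gal (c * c') F := by
  funext a l
  show F (a * c * c') l = F (a * (c * c')) l
  rw [mul_assoc]

theorem exists_VL (h : Ctx O ω f ε N R Λ) : ∃ φ : Fm O →ₗ[KK O] HH O N, VL ω ε N R Λ φ := by
  obtain ⟨φ, hφ⟩ := vertex h (H := HH O N)
    (U := fun g F => (Nul O N).mkQ (UU ω N Λ R g (0, 1) F))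
    (by
      intro g hg F hF F' hF'
      show (Nul O N).mkQ _ = _
      rw [uu_add h (isB_GS hg) hb_in01 (MP_le h.quad h.N_pos hF) (MP_le h.quad h.N_pos hF'), map_add])
    (by
      intro g hg k F hF
      show (Nul O N).mkQ _ = _
      rw [uu_smul, map_smul])
    (by
      intro g g' hg hg' F hF
      show (Nul O N).mkQ _ = _
      rw [hb_coc h (MP_le h.quad h.N_pos hF) (isB_GS hg) (isB_GS hg') hb_in01' hb_ne01]
      obtain ⟨t, ht, he⟩ := isB_e2 hg'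
      rw [he, uu_scale t ht])
  have hMM : ∀ F ∈ MP O ω ε N, F ∈ MM O ω ε N (GS (ON O N)) := fun F hF => MP_le h.quad h.N_pos hF
  refine ⟨(R.card : KK O)⁻¹ • ∑ c ∈ R, φ ∘ₗ hb_galL c, ⟨?_, ?_⟩⟩
  · intro g hg F hF
    have e1 : ∀ c ∈ R, φ (gal c (act g F)) - φ (gal c F) =
        (Nul O N).mkQ (UU ω N Λ R g (0, 1) F) := by
      intro c hc
      rw [gal_act, ← hφ g hg (gal c F) (gal_MP h hF (h.cop c hc)),
        uu_gal h (hMM F hF) (h.cop c hc)]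
    have e2 : (∑ c ∈ R, φ (gal c (act g F))) - ∑ c ∈ R, φ (gal c F) =
        (R.card : KK O) • (Nul O N).mkQ (UU ω N Λ R g (0, 1) F) := by
      rw [← Finset.sum_sub_distrib, Finset.sum_congr rfl e1, Finset.sum_const,
        Nat.cast_smul_eq_nsmul]
    rw [LinearMap.smul_apply, LinearMap.smul_apply, LinearMap.sum_apply, LinearMap.sum_apply,
      ← smul_sub]
    show _ = (R.card : KK O)⁻¹ • ((∑ c ∈ R, φ (gal c (act g F))) - ∑ c ∈ R, φ (gal c F))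
    rw [e2, smul_smul, inv_mul_cancel₀ (hb_R_ne h), one_smul]
  · intro F hF c hc
    rw [LinearMap.smul_apply, LinearMap.smul_apply, LinearMap.sum_apply, LinearMap.sum_apply]
    congr 1
    show ∑ a ∈ R, φ (gal a (gal c F)) = ∑ a ∈ R, φ (gal a F)
    simp only [hb_gal_gal]
    refine sum_gal h (fun a => φ (gal a F)) ?_ hc
    intro a a' haa
    congr 1
    funext b
    show F (b * a) = F (b * a')
    refine MM_mod h (hMM F hF) ?_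
    rw [← mul_sub]
    exact Dvd.dvd.mul_left haa b

/-- the vertex functions -/
noncomputable def Ph (ω : ℂ) (N : ℕ) (R : Finset O) (Λ : ℂ →ₗ[KK O] KK O)
    (φ : Fm O →ₗ[KK O] HH O N) (g : GL2) (F : Fm O) : HH O N :=
  φ (act g⁻¹ F) + (Nul O N).mkQ (UU ω N Λ R g (0, 1) (act g⁻¹ F))

/-- the corrected edge functions -/
noncomputable def Wh (ω : ℂ) (N : ℕ) (R : Finset O) (Λ : ℂ →ₗ[KK O] KK O)
    (φ : Fm O →ₗ[KK O] HH O N) (g0 g1 : GL2) (F : Fm O) : HH O N :=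
  (Nul O N).mkQ (WW ω N Λ R (g0 (0, 1)) (g1 (0, 1)) F) - Ph ω N R Λ φ g1 F + Ph ω N R Λ φ g0 F

theorem ph_right (h : Ctx O ω f ε N R Λ) {φ : Fm O →ₗ[KK O] HH O N} (hφ : VL ω ε N R Λ φ)
    {g b : GL2} (hg : g ∈ GS (ON O N)) (hb : IsB O N b) {F : Fm O}
    (hF : act g⁻¹ F ∈ MP O ω ε N) : Ph ω N R Λ φ (g * b) F = Ph ω N R Λ φ g F := by
  set m := act g⁻¹ F with hm
  have e1 : act (g * b)⁻¹ F = act b⁻¹ m := by
    rw [mul_inv_rev, act_mul, hm]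
  have hbi : IsB O N b⁻¹ := isB_inv hb
  have hm' : act b⁻¹ m ∈ MP O ω ε N := MP_act h.quad h.N_pos hbi hF
  have e2 : act b (act b⁻¹ m) = m := by
    rw [← act_mul, mul_inv_cancel, act_one]
  unfold Ph
  rw [e1, hb_coc h (MP_le h.quad h.N_pos hm') hg (isB_GS hb) hb_in01' hb_ne01, e2]
  obtain ⟨t, ht, he⟩ := isB_e2 hb
  have e3 := hφ.eq b hb _ hm'
  rw [e2] at e3
  rw [he, uu_scale t ht, e3, ← hm]
  abel

theorem ph_left (h : Ctx O ω f ε N R Λ) {φ : Fm O →ₗ[KK O] HH O N}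
    {k g : GL2} (hk : k ∈ GS (ON O N)) (hg : g ∈ GS (ON O N)) {F : Fm O}
    (hF : F ∈ MM O ω ε N (GS (ON O N))) : Ph ω N R Λ φ (k * g) (act k F) =
      Ph ω N R Λ φ g F + (Nul O N).mkQ (UU ω N Λ R k (g (0, 1)) F) := by
  have e1 : act (k * g)⁻¹ (act k F) = act g⁻¹ F := by
    rw [← act_mul, mul_inv_rev, mul_assoc, inv_mul_cancel, mul_one]
  have hm : act g⁻¹ F ∈ MM O ω ε N (GS (ON O N)) := act_mem (inv_mem hg) hF
  have e2 : act g (act g⁻¹ F) = F := by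
    rw [← act_mul, mul_inv_cancel, act_one]
  unfold Ph
  rw [e1, hb_coc h hm hk hg hb_in01' hb_ne01, e2]
  abel

theorem wh_right (h : Ctx O ω f ε N R Λ) {φ : Fm O →ₗ[KK O] HH O N} (hφ : VL ω ε N R Λ φ)
    {g0 g1 b0 b1 : GL2} (hg0 : g0 ∈ GS (ON O N)) (hg1 : g1 ∈ GS (ON O N)) (hb0 : IsB O N b0)
    (hb1 : IsB O N b1) {F : Fm O} (hF0 : act g0⁻¹ F ∈ MP O ω ε N)
    (hF1 : act g1⁻¹ F ∈ MP O ω ε N) :
    Wh ω N R Λ φ (g0 * b0) (g1 * b1) F = Wh ω N R Λ φ g0 g1 F := by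
  unfold Wh
  rw [ph_right h hφ hg0 hb0 hF0, ph_right h hφ hg1 hb1 hF1]
  obtain ⟨t0, ht0, he0⟩ := isB_e2 hb0
  obtain ⟨t1, ht1, he1⟩ := isB_e2 hb1
  have e0 : (g0 * b0) (0, 1) = t0 • g0 (0, 1) := by
    show g0 (b0 (0, 1)) = _
    rw [he0, map_smul]
  have e1 : (g1 * b1) (0, 1) = t1 • g1 (0, 1) := by
    show g1 (b1 (0, 1)) = _
    rw [he1, map_smul]
  rw [e0, e1, ww_scale t0 t1 ht0 ht1]

theorem hb_e2 {g : GL2} (hg : g ∈ GS (ON O N)) : In (ON O N) (g (0, 1)) ∧ g (0, 1) ≠ 0 := by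
  refine ⟨(hg _ hb_in01').1, ?_⟩
  intro h
  exact hb_ne01 (g.map_eq_zero_iff.1 h)

theorem wh_left (h : Ctx O ω f ε N R Λ) {φ : Fm O →ₗ[KK O] HH O N}
    {k g0 g1 : GL2} (hk : k ∈ GS (ON O N)) (hg0 : g0 ∈ GS (ON O N)) (hg1 : g1 ∈ GS (ON O N))
    {F : Fm O} (hF : F ∈ MM O ω ε N (GS (ON O N))) :
    Wh ω N R Λ φ (k * g0) (k * g1) (act k F) = Wh ω N R Λ φ g0 g1 F := by
  unfold Wh
  rw [ph_left h hk hg0 hF, ph_left h hk hg1 hF]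
  have e := ww_act h hF hk (hb_e2 hg0).1 (hb_e2 hg1).1 (hb_e2 hg0).2 (hb_e2 hg1).2
  show (Nul O N).mkQ (WW ω N Λ R (k (g0 (0, 1))) (k (g1 (0, 1))) (act k F)) - _ + _ = _
  rw [e, map_sub, map_add]
  abel

theorem wh_swap {φ : Fm O →ₗ[KK O] HH O N} (g0 g1 : GL2) (F : Fm O) :
    Wh ω N R Λ φ g1 g0 F = - Wh ω N R Λ φ g0 g1 F := by
  unfold Wh
  rw [ww_swap, map_neg]
  abel

theorem hb_ph_add (h : Ctx O ω f ε N R Λ) {φ : Fm O →ₗ[KK O] HH O N} {g : GL2}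
    (hg : g ∈ GS (ON O N)) {F F' : Fm O}
    (hF : F ∈ MM O ω ε N (GS (ON O N))) (hF' : F' ∈ MM O ω ε N (GS (ON O N))) :
    Ph ω N R Λ φ g (F + F') = Ph ω N R Λ φ g F + Ph ω N R Λ φ g F' := by
  unfold Ph
  rw [act_add, map_add, uu_add h hg hb_in01 (act_mem (inv_mem hg) hF) (act_mem (inv_mem hg) hF'),
    map_add]
  abel

theorem wh_add (h : Ctx O ω f ε N R Λ) {φ : Fm O →ₗ[KK O] HH O N} {g0 g1 : GL2}
    (hg0 : g0 ∈ GS (ON O N)) (hg1 : g1 ∈ GS (ON O N)) {F F' : Fm O}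
    (hF : F ∈ MM O ω ε N (GS (ON O N))) (hF' : F' ∈ MM O ω ε N (GS (ON O N))) :
    Wh ω N R Λ φ g0 g1 (F + F') = Wh ω N R Λ φ g0 g1 F + Wh ω N R Λ φ g0 g1 F' := by
  have k0 := (hb_e2 hg0).1
  have k1 := (hb_e2 hg1).1
  unfold Wh
  rw [hb_ph_add h hg0 hF hF', hb_ph_add h hg1 hF hF', ww_add h
    ⟨ON_le_KK h.N_pos k0.1, ON_le_KK h.N_pos k0.2⟩ ⟨ON_le_KK h.N_pos k1.1, ON_le_KK h.N_pos k1.2⟩
    hF hF', map_add]
  abel

theorem wh_smul {φ : Fm O →ₗ[KK O] HH O N} (g0 g1 : GL2) (k : KK O) (F : Fm O) :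
    Wh ω N R Λ φ g0 g1 (k • F) = k • Wh ω N R Λ φ g0 g1 F := by
  unfold Wh Ph
  rw [ww_smul, act_smul, act_smul, uu_smul, uu_smul]
  simp only [map_smul]
  rw [smul_add, smul_sub, smul_add, smul_add]

theorem wh_gal (h : Ctx O ω f ε N R Λ) {φ : Fm O →ₗ[KK O] HH O N} (hφ : VL ω ε N R Λ φ)
    {g0 g1 : GL2} (hg0 : g0 ∈ GS (ON O N)) (hg1 : g1 ∈ GS (ON O N)) {F : Fm O}
    (hF : F ∈ MM O ω ε N (GS (ON O N))) (hF0 : act g0⁻¹ F ∈ MP O ω ε N)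
    (hF1 : act g1⁻¹ F ∈ MP O ω ε N) {c : O} (hc : IsCoprime c (N : O)) :
    Wh ω N R Λ φ g0 g1 (gal c F) = Wh ω N R Λ φ g0 g1 F := by
  have key : ∀ g : GL2, g ∈ GS (ON O N) → act g⁻¹ F ∈ MP O ω ε N →
      Ph ω N R Λ φ g (gal c F) = Ph ω N R Λ φ g F := by
    intro g hg hg'
    unfold Ph
    rw [← gal_act, hφ.gal _ hg' c hc, uu_gal h (act_mem (inv_mem hg) hF) hc]
  unfold Wh
  rw [key g0 hg0 hF0, key g1 hg1 hF1, ww_gal h hF hc]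

/-- `ww_coc`; the vertex functions cancel -/
theorem wh_sum (h : Ctx O ω f ε N R Λ) {φ : Fm O →ₗ[KK O] HH O N} {g0 g1 g2 : GL2}
    (hg0 : g0 ∈ GS (ON O N)) (hg1 : g1 ∈ GS (ON O N)) (hg2 : g2 ∈ GS (ON O N)) {F : Fm O}
    (hF : F ∈ MM O ω ε N (GS (ON O N))) :
    (Nul O N).mkQ (fun _ => tau Λ R (g0 (0, 1)) (g1 (0, 1)) (g2 (0, 1)) F) =
      Wh ω N R Λ φ g0 g1 F + Wh ω N R Λ φ g1 g2 F + Wh ω N R Λ φ g2 g0 F := by
  have hin : ∀ {g : GL2}, g ∈ GS (ON O N) → In (KK O) (g (0, 1)) := fun hg =>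
    ⟨ON_le_KK h.N_pos (hb_e2 hg).1.1, ON_le_KK h.N_pos (hb_e2 hg).1.2⟩
  have e := hb_eq (ww_coc h hF (hin hg0) (hin hg1) (hin hg2) (hb_e2 hg0).2 (hb_e2 hg1).2
    (hb_e2 hg2).2)
  rw [← e, map_add, map_sub]
  unfold Wh
  rw [ww_swap (g0 (0, 1)) (g2 (0, 1)), map_neg]
  abel

end Pool.Agent.KTD
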