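import Mathlib
import Pool.Agent.Lib_helper87.KTD.Defs
import Pool.Agent.Lib_helper76.TCL.P.QB
import Pool.Agent.Lib_helper76.TCL.P.SO

set_option autoImplicit false

namespace Pool.Agent.KTD

open Complex Pool.Agent.TCL

variable {O : Subring ℂ} {ω : ℂ} {f : O} {ε : O → O} {N : ℕ} {R : Finset O} {Λ : ℂ →ₗ[KK O] KK O}

/-- `ε(c) c` is prime to the divisors of `N` if `c` is prime to `N` -/
theorem hc0_cop (h : Ctx O ω f ε N R Λ) {r r' : O} (hN : (N : O) = r * r') {c : O}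
    (hc : IsCoprime c (N : O)) : IsCoprime (ε c * c) r := by
  have h1 : IsCoprime c r := by
    rw [hN] at hc
    exact hc.of_mul_right_left
  have h2 : IsCoprime c f := by
    obtain ⟨g, hg⟩ := h.f_dvd
    rw [hg] at hc
    exact hc.of_mul_right_left
  exact (isCoprime_mul_unit_left_left (h.gc.unit c h2) c r).2 h1

/-- the character sum -/
theorem hc0_sum (h : Ctx O ω f ε N R Λ) {a : ℂ} {r r' : O} (hr : r ≠ 0) (hN : (N : O) = r * r')
    {S : Finset O} (hS : IsReps r S) {c : O} (hc : IsCoprime c (N : O)) (g : O) :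
    (∀ l : O, starRingEnd ℂ (r : ℂ) * (l : ℂ) = g →
      ∑ k ∈ S, pr ω (ε c * c * ((a + k) / r)) g =
        ((‖(r : ℂ)‖ : ℂ) ^ 2) * pr ω (ε c * c * a) l) ∧
    ((∀ l : O, starRingEnd ℂ (r : ℂ) * (l : ℂ) ≠ g) →
      ∑ k ∈ S, pr ω (ε c * c * ((a + k) / r)) g = 0) := by
  have hr' : (r : ℂ) ≠ 0 := coe_ne_zero hr
  have h1 : ∑ k ∈ S, pr ω (ε c * c * ((a + k) / r)) g =
      ∑ k ∈ S, pr ω ((ε c * c * a + (k : ℂ)) / r) g := by
    have h2 := sum_mul_coprime hS (fun x : O => pr ω ((ε c * c * a + (x : ℂ)) / r) g) (by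
      intro x y
      have e : (ε c * c * a + ((x + r * y : O) : ℂ)) / r = (ε c * c * a + (x : ℂ)) / r + y := by
        push_cast
        field_simp
        ring
      show pr ω ((ε c * c * a + ((x + r * y : O) : ℂ)) / r) g = _
      rw [e, pr_add, pr_mem h.quad, mul_one]) (ε c * c) (hc0_cop h hN hc)
    rw [← h2]
    refine Finset.sum_congr rfl fun k _ => ?_
    congr 1
    push_cast
    ring
  rw [h1]
  constructor
  · intro l hl
    have h3 := orth h.quad hr hS (ε c * c * a) l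
    have h4 : ((cj h.quad r * l : O) : ℂ) = g := by
      push_cast
      rw [coe_cj]
      exact hl
    rw [h4] at h3
    exact h3
  · intro hl
    refine orth_zero h.quad hr hS (ε c * c * a) g ?_
    rintro ⟨l, hl'⟩
    apply hl l
    rw [hl']
    push_cast
    rw [coe_cj]

theorem hc0_dg_inv (s t : ℂˣ) (l : V2) : (dg s t)⁻¹ l = ((s : ℂ)⁻¹ * l.1, (t : ℂ)⁻¹ * l.2) := by
  have h1 : dg s t ((s : ℂ)⁻¹ * l.1, (t : ℂ)⁻¹ * l.2) = l := by
    show ((s : ℂ) • ((s : ℂ)⁻¹ * l.1), (t : ℂ) • ((t : ℂ)⁻¹ * l.2)) = l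
    ext
    · simp
    · simp
  have h2 : (dg s t)⁻¹ (dg s t ((s : ℂ)⁻¹ * l.1, (t : ℂ)⁻¹ * l.2)) =
      ((s : ℂ)⁻¹ * l.1, (t : ℂ)⁻¹ * l.2) := (dg s t).symm_apply_apply _
  rw [h1] at h2
  exact h2

/-- `Σ_k χ_((a+k)/r, b) = |r|² (diag(conj r, 1))_* χ_(a, b)` -/
theorem chi_dist1 (h : Ctx O ω f ε N R Λ) {a b : ℂ} {r r' : O} (hr : r ≠ 0) (hN : (N : O) = r * r')
    (ha : (r' : ℂ) * a ∈ O) {S : Finset O} (hS : IsReps r S) {ru : ℂˣ}
    (hru : (ru : ℂ) = starRingEnd ℂ (r : ℂ)) :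
    ∑ k ∈ S, chi O ω ε N ((a + k) / r, b) =
      fun c l => ((‖(r : ℂ)‖ : ℂ) ^ 2) * pf (dg ru 1) (chi O ω ε N (a, b)) c l := by
  classical
  have hru0 : (ru : ℂ) ≠ 0 := ru.ne_zero
  funext c l
  rw [Finset.sum_apply, Finset.sum_apply]
  show ∑ k ∈ S, chi O ω ε N ((a + k) / r, b) c l =
    ((‖(r : ℂ)‖ : ℂ) ^ 2) * chi O ω ε N (a, b) c ((dg ru 1)⁻¹ l)
  rw [hc0_dg_inv]
  by_cases hc : IsCoprime c (N : O)
  swap
  · simp [chi, hc]
  by_cases hl2 : l.2 ∈ O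
  swap
  · have h1 : ¬ In O l := fun h => hl2 h.2
    have h2 : ¬ In O ((ru : ℂ)⁻¹ * l.1, ((1 : ℂˣ) : ℂ)⁻¹ * l.2) := by
      intro h
      apply hl2
      simpa using h.2
    simp only [chi, h1, h2, false_and, if_false, Finset.sum_const_zero, mul_zero]
  by_cases hl1 : l.1 ∈ O
  swap
  · have h1 : ¬ In O l := fun h => hl1 h.1
    have h2 : ¬ In O ((ru : ℂ)⁻¹ * l.1, ((1 : ℂˣ) : ℂ)⁻¹ * l.2) := by
      intro h'
      apply hl1
      have h3 : (ru : ℂ) * ((ru : ℂ)⁻¹ * l.1) ∈ O := by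
        refine O.mul_mem ?_ h'.1
        rw [hru]
        exact (cj h.quad r).2
      rwa [mul_inv_cancel_left₀ hru0] at h3
    simp only [chi, h1, h2, false_and, if_false, Finset.sum_const_zero, mul_zero]
  have hIn : In O l := ⟨hl1, hl2⟩
  obtain ⟨hs1, hs2⟩ := hc0_sum (a := a) h hr hN hS hc ⟨l.1, hl1⟩
  have hL : ∑ k ∈ S, chi O ω ε N ((a + k) / r, b) c l =
      (∑ k ∈ S, pr ω (ε c * c * ((a + k) / r)) l.1) * pr ω (ε c * c * b) l.2 := by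
    rw [Finset.sum_mul]
    refine Finset.sum_congr rfl fun k _ => ?_
    simp only [chi, hIn, hc, and_self, if_true]
  rw [hL]
  by_cases hl : (ru : ℂ)⁻¹ * l.1 ∈ O
  · have h2 : In O ((ru : ℂ)⁻¹ * l.1, ((1 : ℂˣ) : ℂ)⁻¹ * l.2) := ⟨hl, by simpa using hl2⟩
    have h3 := hs1 ⟨(ru : ℂ)⁻¹ * l.1, hl⟩ (by
      show starRingEnd ℂ (r : ℂ) * ((ru : ℂ)⁻¹ * l.1) = l.1
      rw [← hru, mul_inv_cancel_left₀ hru0])
    have h3' : ∑ k ∈ S, pr ω (ε c * c * ((a + k) / r)) l.1 =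
        ((‖(r : ℂ)‖ : ℂ) ^ 2) * pr ω (ε c * c * a) ((ru : ℂ)⁻¹ * l.1) := h3
    rw [h3']
    simp only [chi, h2, hc, and_self, if_true]
    rw [Units.val_one, inv_one, one_mul]
    ring
  · have h2 : ¬ In O ((ru : ℂ)⁻¹ * l.1, ((1 : ℂˣ) : ℂ)⁻¹ * l.2) := fun h => hl h.1
    have h3 := hs2 (by
      intro m hm
      apply hl
      have hm' : starRingEnd ℂ (r : ℂ) * (m : ℂ) = l.1 := hm
      rw [← hm', ← hru, inv_mul_cancel_left₀ hru0]
      exact m.2)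
    have h3' : ∑ k ∈ S, pr ω (ε c * c * ((a + k) / r)) l.1 = 0 := h3
    rw [h3']
    simp only [chi, h2, false_and, if_false, mul_zero, zero_mul]

theorem chi_dist2 (h : Ctx O ω f ε N R Λ) {a b : ℂ} {r r' : O} (hr : r ≠ 0) (hN : (N : O) = r * r')
    (hb : (r' : ℂ) * b ∈ O) {S : Finset O} (hS : IsReps r S) {ru : ℂˣ}
    (hru : (ru : ℂ) = starRingEnd ℂ (r : ℂ)) :
    ∑ k ∈ S, chi O ω ε N (a, (b + k) / r) =
      fun c l => ((‖(r : ℂ)‖ : ℂ) ^ 2) * pf (dg 1 ru) (chi O ω ε N (a, b)) c l := by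
  classical
  have hru0 : (ru : ℂ) ≠ 0 := ru.ne_zero
  funext c l
  rw [Finset.sum_apply, Finset.sum_apply]
  show ∑ k ∈ S, chi O ω ε N (a, (b + k) / r) c l =
    ((‖(r : ℂ)‖ : ℂ) ^ 2) * chi O ω ε N (a, b) c ((dg 1 ru)⁻¹ l)
  rw [hc0_dg_inv]
  by_cases hc : IsCoprime c (N : O)
  swap
  · simp [chi, hc]
  by_cases hl1 : l.1 ∈ O
  swap
  · have h1 : ¬ In O l := fun h => hl1 h.1
    have h2 : ¬ In O (((1 : ℂˣ) : ℂ)⁻¹ * l.1, (ru : ℂ)⁻¹ * l.2) := by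
      intro h
      apply hl1
      simpa using h.1
    simp only [chi, h1, h2, false_and, if_false, Finset.sum_const_zero, mul_zero]
  by_cases hl2 : l.2 ∈ O
  swap
  · have h1 : ¬ In O l := fun h => hl2 h.2
    have h2 : ¬ In O (((1 : ℂˣ) : ℂ)⁻¹ * l.1, (ru : ℂ)⁻¹ * l.2) := by
      intro h'
      apply hl2
      have h3 : (ru : ℂ) * ((ru : ℂ)⁻¹ * l.2) ∈ O := by
        refine O.mul_mem ?_ h'.2
        rw [hru]
        exact (cj h.quad r).2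
      rwa [mul_inv_cancel_left₀ hru0] at h3
    simp only [chi, h1, h2, false_and, if_false, Finset.sum_const_zero, mul_zero]
  have hIn : In O l := ⟨hl1, hl2⟩
  obtain ⟨hs1, hs2⟩ := hc0_sum (a := b) h hr hN hS hc ⟨l.2, hl2⟩
  have hL : ∑ k ∈ S, chi O ω ε N (a, (b + k) / r) c l =
      pr ω (ε c * c * a) l.1 * (∑ k ∈ S, pr ω (ε c * c * ((b + k) / r)) l.2) := by
    rw [Finset.mul_sum]
    refine Finset.sum_congr rfl fun k _ => ?_
    simp only [chi, hIn, hc, and_self, if_true]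
  rw [hL]
  by_cases hl : (ru : ℂ)⁻¹ * l.2 ∈ O
  · have h2 : In O (((1 : ℂˣ) : ℂ)⁻¹ * l.1, (ru : ℂ)⁻¹ * l.2) := ⟨by simpa using hl1, hl⟩
    have h3 := hs1 ⟨(ru : ℂ)⁻¹ * l.2, hl⟩ (by
      show starRingEnd ℂ (r : ℂ) * ((ru : ℂ)⁻¹ * l.2) = l.2
      rw [← hru, mul_inv_cancel_left₀ hru0])
    have h3' : ∑ k ∈ S, pr ω (ε c * c * ((b + k) / r)) l.2 =
        ((‖(r : ℂ)‖ : ℂ) ^ 2) * pr ω (ε c * c * b) ((ru : ℂ)⁻¹ * l.2) := h3
    rw [h3']
    simp only [chi, h2, hc, and_self, if_true]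
    rw [Units.val_one, inv_one, one_mul]
    ring
  · have h2 : ¬ In O (((1 : ℂˣ) : ℂ)⁻¹ * l.1, (ru : ℂ)⁻¹ * l.2) := fun h => hl h.2
    have h3 := hs2 (by
      intro m hm
      apply hl
      have hm' : starRingEnd ℂ (r : ℂ) * (m : ℂ) = l.2 := hm
      rw [← hm', ← hru, inv_mul_cancel_left₀ hru0]
      exact m.2)
    have h3' : ∑ k ∈ S, pr ω (ε c * c * ((b + k) / r)) l.2 = 0 := h3
    rw [h3']
    simp only [chi, h2, false_and, if_false, mul_zero]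

end Pool.Agent.KTD
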