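import Pool.Agent.Lib_helper87.KTD.P.HB
import Pool.Agent.Lib_helper87.KTD.P.HC0

set_option autoImplicit false

namespace Pool.Agent.KTD

open Complex Pool.Agent.TCL

variable {O : Subring ℂ} {ω : ℂ} {f : O} {ε : O → O} {N : ℕ} {R : Finset O} {Λ : ℂ →ₗ[KK O] KK O}

/-- the exchange of the coordinates -/
def sg : GL2 := LinearEquiv.prodComm ℂ ℂ ℂ

/-- `e1 → e2 → -e1-e2 → e1` -/
def ro : GL2 where
  toFun l := (-l.2, l.1 - l.2)
  invFun l := (l.2 - l.1, -l.1)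
  map_add' a b := by ext <;> simp <;> ring
  map_smul' a b := by ext <;> simp; ring
  left_inv a := by ext <;> simp
  right_inv a := by ext <;> simp

theorem hc_sg (l : V2) : sg l = (l.2, l.1) := rfl

theorem hc_sgi (l : V2) : sg⁻¹ l = (l.2, l.1) := rfl

theorem hc_ro (l : V2) : ro l = (-l.2, l.1 - l.2) := rfl

theorem hc_roi (l : V2) : ro⁻¹ l = (l.2 - l.1, -l.1) := rfl

theorem sg_mem : sg ∈ GS (ON O N) := by
  intro l hl
  rw [hc_sg, hc_sgi]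
  exact ⟨⟨hl.2, hl.1⟩, ⟨hl.2, hl.1⟩⟩

theorem ro_mem : ro ∈ GS (ON O N) := by
  intro l hl
  rw [hc_ro, hc_roi]
  exact ⟨⟨neg_mem hl.2, sub_mem hl.1 hl.2⟩, ⟨sub_mem hl.2 hl.1, neg_mem hl.1⟩⟩

/-- the bidistribution -/
noncomputable def Bf (ω : ℂ) (ε : O → O) (N : ℕ) (R : Finset O) (Λ : ℂ →ₗ[KK O] KK O)
    (φ : Fm O →ₗ[KK O] HH O N) (a b : ℂ) : HH O N :=
  - Wh ω N R Λ φ sg 1 (ten (1, 0) (chi O ω ε N (a, b)))

/-- bidistributions of level `N` -/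
structure BDN (O : Subring ℂ) (f : O) (ε : O → O) (N : ℕ) (H : Type) [AddCommGroup H]
    [Module (KK O) H] (B : ℂ → ℂ → H) : Prop where
  per1 : ∀ a b : ℂ, (N : ℂ) * a ∈ O → (N : ℂ) * b ∈ O → a ∉ O → b ∉ O → ∀ k : O,
    B (a + k) b = B a b
  per2 : ∀ a b : ℂ, (N : ℂ) * a ∈ O → (N : ℂ) * b ∈ O → a ∉ O → b ∉ O → ∀ k : O,
    B a (b + k) = B a b
  dist1 : ∀ a b : ℂ, (N : ℂ) * b ∈ O → a ∉ O → b ∉ O → ∀ r r' : O, r ≠ 0 → (N : O) = r * r' →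
    (r' : ℂ) * a ∈ O → ∀ S : Finset O, IsReps r S →
    ∀ c : KK O, (c : ℂ) * starRingEnd ℂ (r : ℂ) = 1 → ∑ k ∈ S, B ((a + k) / r) b = c • B a b
  dist2 : ∀ a b : ℂ, (N : ℂ) * a ∈ O → a ∉ O → b ∉ O → ∀ r r' : O, r ≠ 0 → (N : O) = r * r' →
    (r' : ℂ) * b ∈ O → ∀ S : Finset O, IsReps r S → ∑ k ∈ S, B a ((b + k) / r) = B a b
  gal : ∀ a b : ℂ, (N : ℂ) * a ∈ O → (N : ℂ) * b ∈ O → a ∉ O → b ∉ O → ∀ c : O,
    IsCoprime c (N : O) → B (ε c * c * a) (ε c * c * b) = B a b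

theorem hc_one_mem {N : ℕ} : (1 : GL2) ∈ GS (ON O N) := one_mem _

theorem hc_ten_act (g : GL2) (v : V2) (F : Fs O) :
    act g (ten v F) = ten (((‖dt g‖ : ℂ) ^ 2) • g v) (pf g F) := by
  rw [act_ten]
  funext c l
  show ((‖dt g‖ : ℂ) ^ 2) • (pf g F c l • g v) = pf g F c l • ((‖dt g‖ : ℂ) ^ 2) • g v
  rw [smul_comm]

theorem hc_dt_sg : dt sg = -1 := by
  unfold dt cr
  rw [hc_sg, hc_sg]
  simp

theorem hc_dt_sgi : dt sg⁻¹ = -1 := by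
  unfold dt cr
  rw [hc_sgi, hc_sgi]
  simp

theorem hc_pf_sg (a b : ℂ) : pf sg (chi O ω ε N (a, b)) = chi O ω ε N (b, a) := by
  funext c l
  show chi O ω ε N (a, b) c (sg⁻¹ l) = _
  rw [hc_sgi]
  have h1 : In O ((l.2, l.1) : V2) ↔ In O l := ⟨fun h => ⟨h.2, h.1⟩, fun h => ⟨h.2, h.1⟩⟩
  unfold chi
  by_cases hl : In O l ∧ IsCoprime c (N : O)
  · rw [if_pos hl, if_pos (show In (O : Set ℂ) ((l.2, l.1) : V2) ∧ IsCoprime c (N : O) from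
      ⟨h1.2 hl.1, hl.2⟩)]
    ring
  · rw [if_neg hl, if_neg (show ¬ (In (O : Set ℂ) ((l.2, l.1) : V2) ∧ IsCoprime c (N : O)) from
      fun h => hl ⟨h1.1 h.1, h.2⟩)]

theorem hc_pf_sgi (a b : ℂ) : pf sg⁻¹ (chi O ω ε N (a, b)) = chi O ω ε N (b, a) := by
  have : sg⁻¹ = sg := rfl
  rw [this, hc_pf_sg]

/-- `ten v χ_x` and its image under `sg⁻¹` are in `MP` if `x.2 ∉ O`, `x.1 ∉ O` -/
theorem ten_MP (h : Ctx O ω f ε N R Λ) {v x : V2} (hv : In (KK O) v) (hx : In O ((N : ℂ) • x))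
    (hx1 : x.1 ∉ O) (hx2 : x.2 ∉ O) : ten v (chi O ω ε N x) ∈ MM O ω ε N (GS (ON O N)) ∧
      act (1 : GL2)⁻¹ (ten v (chi O ω ε N x)) ∈ MP O ω ε N ∧
      act sg⁻¹ (ten v (chi O ω ε N x)) ∈ MP O ω ε N := by
  refine ⟨Submodule.subset_span ⟨1, one_mem _, v, x, hv, hx, (act_one _).symm⟩, ?_, ?_⟩
  · rw [inv_one, act_one]
    exact Submodule.subset_span ⟨v, _, hv, chi_mem hx hx2, rfl⟩
  · rw [hc_ten_act]
    obtain ⟨x1, x2⟩ := x
    rw [hc_pf_sgi, hc_dt_sgi]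
    refine Submodule.subset_span ⟨_, _, ?_, chi_mem (x := (x2, x1)) ⟨hx.2, hx.1⟩ hx1, rfl⟩
    rw [hc_sgi]
    have e : (((‖(-1 : ℂ)‖ : ℝ) : ℂ) ^ 2) • ((v.2, v.1) : V2) = (v.2, v.1) := by simp
    rw [e]
    exact ⟨hv.2, hv.1⟩

theorem hc_in10 : In (KK O) ((1, 0) : V2) := ⟨one_mem _, zero_mem _⟩

theorem hc_diag (h : Ctx O ω f ε N R Λ) {φ : Fm O →ₗ[KK O] HH O N} (hφ : VL ω ε N R Λ φ)
    {s t : ℂˣ} (hs : (s : ℂ) ∈ ON O N) (hs' : ((s⁻¹ : ℂˣ) : ℂ) ∈ ON O N) (ht : (t : ℂ) ∈ ON O N)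
    (ht' : ((t⁻¹ : ℂˣ) : ℂ) ∈ ON O N) {F : Fm O} (hF : F ∈ MM O ω ε N (GS (ON O N)))
    (hF0 : act sg⁻¹ F ∈ MP O ω ε N) (hF1 : act (1 : GL2)⁻¹ F ∈ MP O ω ε N) :
    Wh ω N R Λ φ sg 1 (act (dg s t) F) = Wh ω N R Λ φ sg 1 F := by
  have hk : IsB O N (dg s t) := isB_dg hs hs' ht ht'
  have hk' : IsB O N (dg t s) := isB_dg ht ht' hs hs'
  have e1 : dg s t * sg = sg * dg t s := by
    apply LinearEquiv.ext
    intro l
    rfl
  have e2 := wh_left h (φ := φ) (isB_GS hk) (sg_mem (O := O) (N := N)) (one_mem _) hF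
  have hA : act sg⁻¹ (act (dg s t) F) = act (dg t s) (act sg⁻¹ F) := by
    rw [← act_mul, ← act_mul]
    congr 1
  have hA' : act (1 : GL2)⁻¹ (act (dg s t) F) = act (dg s t) (act (1 : GL2)⁻¹ F) := by
    rw [inv_one, act_one, act_one]
  rw [e1, mul_one] at e2
  rw [← e2]
  have e3 := wh_right h hφ (sg_mem (O := O) (N := N)) (one_mem _) hk' hk
    (F := act (dg s t) F)
    (by rw [hA]; exact MP_act h.quad h.N_pos hk' hF0)
    (by rw [hA']; exact MP_act h.quad h.N_pos hk hF1)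
  rw [one_mul] at e3
  exact e3.symm

theorem hc_ten_sum (v : V2) (S : Finset O) (φ : O → Fs O) :
    ten v (∑ k ∈ S, φ k) = ∑ k ∈ S, ten v (φ k) := by
  funext c l
  rw [Finset.sum_apply, Finset.sum_apply]
  show (∑ k ∈ S, φ k) c l • v = _
  rw [Finset.sum_apply, Finset.sum_apply, Finset.sum_smul]
  rfl

theorem hc_wh_sum (h : Ctx O ω f ε N R Λ) {φ : Fm O →ₗ[KK O] HH O N} {g0 g1 : GL2}
    (hg0 : g0 ∈ GS (ON O N)) (hg1 : g1 ∈ GS (ON O N)) (S : Finset O) (F : O → Fm O)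
    (hF : ∀ k ∈ S, F k ∈ MM O ω ε N (GS (ON O N))) :
    Wh ω N R Λ φ g0 g1 (∑ k ∈ S, F k) = ∑ k ∈ S, Wh ω N R Λ φ g0 g1 (F k) := by
  classical
  induction S using Finset.induction_on with
  | empty =>
    rw [Finset.sum_empty, Finset.sum_empty]
    have := wh_smul (ω := ω) (N := N) (R := R) (Λ := Λ) (φ := φ) g0 g1 (0 : KK O) 0
    rwa [zero_smul, zero_smul] at this
  | insert a S ha ih =>
    rw [Finset.sum_insert ha, Finset.sum_insert ha, wh_add h hg0 hg1 (hF a (by simp)) ?_, ih]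
    · intro k hk
      exact hF k (by simp [hk])
    · exact Submodule.sum_mem _ fun k hk => hF k (by simp [hk])

theorem hc_cN (N : ℕ) : ((N : O) : ℂ) = (N : ℂ) := by simp

/-- `r` and its conjugate are units of `O[1/N]` -/
theorem hc_unit (h : Ctx O ω f ε N R Λ) {r r' : O} (hN : (N : O) = r * r') (hr : r ≠ 0) :
    ∃ ru : ℂˣ, (ru : ℂ) = starRingEnd ℂ (r : ℂ) ∧ (ru : ℂ) ∈ ON O N ∧
      ((ru⁻¹ : ℂˣ) : ℂ) ∈ ON O N := by
  have hr0 : (r : ℂ) ≠ 0 := coe_ne_zero hr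
  have hc0 : starRingEnd ℂ (r : ℂ) ≠ 0 := by simpa using hr0
  refine ⟨Units.mk0 _ hc0, rfl, O_le_ON (conj_mem h.quad r.2), ?_⟩
  refine ⟨1, ?_⟩
  rw [Units.val_inv_eq_inv_val, Units.val_mk0, pow_one]
  have e1 : (N : ℂ) = r * r' := by
    rw [← hc_cN (O := O), hN]
    push_cast
    rfl
  have e2 : (N : ℂ) = starRingEnd ℂ (r : ℂ) * starRingEnd ℂ (r' : ℂ) := by
    have := congrArg (starRingEnd ℂ) e1
    rwa [map_mul, Complex.conj_natCast] at this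
  have e3 : (N : ℂ) * (starRingEnd ℂ (r : ℂ))⁻¹ = starRingEnd ℂ (r' : ℂ) := by
    rw [e2]
    field_simp
  rw [e3]
  exact conj_mem h.quad r'.2

theorem hc_inN {a b : ℂ} (ha : (N : ℂ) * a ∈ O) (hb : (N : ℂ) * b ∈ O) :
    In O ((N : ℂ) • ((a, b) : V2)) := ⟨ha, hb⟩

theorem hc_div_mem {r r' : O} (hN : (N : O) = r * r') (hr : r ≠ 0) {a : ℂ}
    (ha : (r' : ℂ) * a ∈ O) (k : O) : (N : ℂ) * ((a + k) / r) ∈ O := by
  have hr0 : (r : ℂ) ≠ 0 := coe_ne_zero hr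
  have e1 : (N : ℂ) = r * r' := by
    rw [← hc_cN (O := O), hN]
    push_cast
    rfl
  have e2 : (N : ℂ) * ((a + k) / r) = r' * a + r' * k := by
    rw [e1]
    field_simp
  rw [e2]
  exact O.add_mem ha (O.mul_mem r'.2 k.2)

theorem hc_div_not {r : O} (hr : r ≠ 0) {a : ℂ} (ha : a ∉ O) (k : O) : (a + k) / r ∉ O := by
  have hr0 : (r : ℂ) ≠ 0 := coe_ne_zero hr
  intro h
  apply ha
  have e : a = r * ((a + k) / r) - k := by
    field_simp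
    ring
  rw [e]
  exact O.sub_mem (O.mul_mem r.2 h) k.2

theorem hc_mul_N {r r' : O} (hN : (N : O) = r * r') {a : ℂ}
    (ha : (r' : ℂ) * a ∈ O) : (N : ℂ) * a ∈ O := by
  have e1 : (N : ℂ) = r * r' := by
    rw [← hc_cN (O := O), hN]
    push_cast
    rfl
  rw [e1, mul_assoc]
  exact O.mul_mem r.2 ha

/-- `chi_per`; `wh_left` with `k = dg ru 1`, `dg 1 ru`, `k * sg = sg * k'`, `wh_right`; `wh_gal`, `gal_chi` -/
theorem bf_BDN (h : Ctx O ω f ε N R Λ) {φ : Fm O →ₗ[KK O] HH O N} (hφ : VL ω ε N R Λ φ) :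
    BDN O f ε N (HH O N) (Bf ω ε N R Λ φ) := by
  refine ⟨?_, ?_, ?_, ?_, ?_⟩
  · intro a b _ _ _ _ k
    unfold Bf
    have := chi_per (ω := ω) (ε := ε) (N := N) h.quad (a, b) (y := ((k : ℂ), 0))
      ⟨k.2, O.zero_mem⟩
    rw [← this]
    simp
  · intro a b _ _ _ _ k
    unfold Bf
    have := chi_per (ω := ω) (ε := ε) (N := N) h.quad (a, b) (y := (0, (k : ℂ)))
      ⟨O.zero_mem, k.2⟩
    rw [← this]
    simp
  · intro a b hb ha' hb' r r' hr hN ha S hS c hc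
    obtain ⟨ru, hru, hru1, hru2⟩ := hc_unit h hN hr
    have hr0 : (r : ℂ) ≠ 0 := coe_ne_zero hr
    have hmem := fun k : O => ten_MP (ε := ε) h (hc_in10 (O := O)) (hc_inN (hc_div_mem hN hr ha k) hb)
      (hc_div_not hr ha' k) hb'
    have hm0 := ten_MP (ε := ε) h (hc_in10 (O := O)) (hc_inN (hc_mul_N hN ha) hb) ha' hb'
    unfold Bf
    rw [Finset.sum_neg_distrib, ← hc_wh_sum h sg_mem (one_mem _) S _ (fun k _ => (hmem k).1),
      ← hc_ten_sum, chi_dist1 h hr hN ha hS hru]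
    have e1 : ten (1, 0) (fun (e : O) (l : V2) =>
        ((‖(r : ℂ)‖ : ℂ) ^ 2) * pf (dg ru 1) (chi O ω ε N (a, b)) e l) =
        c • act (dg ru 1) (ten (1, 0) (chi O ω ε N (a, b))) := by
      rw [hc_ten_act]
      funext e l
      show (((‖(r : ℂ)‖ : ℂ) ^ 2) * pf (dg ru 1) (chi O ω ε N (a, b)) e l) • ((1, 0) : V2) =
        c • (pf (dg ru 1) (chi O ω ε N (a, b)) e l •
          (((‖dt (dg ru 1)‖ : ℂ) ^ 2) • (dg ru 1) ((1, 0) : V2)))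
      have e2 : (dg ru 1) ((1, 0) : V2) = ((ru : ℂ), 0) := by
        show ((ru : ℂ) * 1, ((1 : ℂˣ) : ℂ) * 0) = _
        simp
      rw [e2, dt_dg, Units.val_one, mul_one, hru, RCLike.norm_conj, Subfield.smul_def]
      refine Prod.ext ?_ ?_
      · simp only [Prod.smul_fst, smul_eq_mul, mul_one]
        linear_combination (-(((‖(r : ℂ)‖ : ℂ) ^ 2) * pf (dg ru 1) (chi O ω ε N (a, b)) e l)) * hc
      · simp
    rw [e1, wh_smul, hc_diag h hφ hru1 hru2 (by simp) (by simp) hm0.1 hm0.2.2 hm0.2.1, smul_neg]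
  · intro a b ha ha' hb' r r' hr hN hb S hS
    obtain ⟨ru, hru, hru1, hru2⟩ := hc_unit h hN hr
    have hr0 : (r : ℂ) ≠ 0 := coe_ne_zero hr
    have hmem := fun k : O => ten_MP (ε := ε) h (hc_in10 (O := O)) (hc_inN ha (hc_div_mem hN hr hb k))
      ha' (hc_div_not hr hb' k)
    have hm0 := ten_MP (ε := ε) h (hc_in10 (O := O)) (hc_inN ha (hc_mul_N hN hb)) ha' hb'
    unfold Bf
    rw [Finset.sum_neg_distrib, ← hc_wh_sum h sg_mem (one_mem _) S _ (fun k _ => (hmem k).1),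
      ← hc_ten_sum, chi_dist2 h hr hN hb hS hru]
    have e1 : ten (1, 0) (fun (e : O) (l : V2) =>
        ((‖(r : ℂ)‖ : ℂ) ^ 2) * pf (dg 1 ru) (chi O ω ε N (a, b)) e l) =
        act (dg 1 ru) (ten (1, 0) (chi O ω ε N (a, b))) := by
      rw [hc_ten_act]
      funext e l
      show (((‖(r : ℂ)‖ : ℂ) ^ 2) * pf (dg 1 ru) (chi O ω ε N (a, b)) e l) • ((1, 0) : V2) =
        (pf (dg 1 ru) (chi O ω ε N (a, b)) e l •
          (((‖dt (dg 1 ru)‖ : ℂ) ^ 2) • (dg 1 ru) ((1, 0) : V2)))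
      have e2 : (dg 1 ru) ((1, 0) : V2) = (1, 0) := by
        show (((1 : ℂˣ) : ℂ) * 1, (ru : ℂ) * 0) = _
        simp
      rw [e2, dt_dg, Units.val_one, one_mul, hru, RCLike.norm_conj]
      refine Prod.ext ?_ ?_
      · simp only [Prod.smul_fst, smul_eq_mul, mul_one]
        ring
      · simp
    rw [e1, hc_diag h hφ (by simp) (by simp) hru1 hru2 hm0.1 hm0.2.2 hm0.2.1]
  · intro a b ha hb ha' hb' c hc
    have hm0 := ten_MP (ε := ε) h (hc_in10 (O := O)) (hc_inN ha hb) ha' hb'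
    unfold Bf
    rw [← wh_gal h hφ sg_mem (one_mem _) hm0.1 hm0.2.2 hm0.2.1 hc, gal_chi h hc]
    simp [mul_assoc]

/-- `wh_left` with `k = sg`, `wh_swap` -/
theorem wh_e2 (h : Ctx O ω f ε N R Λ) {φ : Fm O →ₗ[KK O] HH O N} (hφ : VL ω ε N R Λ φ) {a b : ℂ}
    (ha : (N : ℂ) * a ∈ O) (hb : (N : ℂ) * b ∈ O) :
    Wh ω N R Λ φ sg 1 (ten (0, 1) (chi O ω ε N (a, b))) = Bf ω ε N R Λ φ b a := by
  have hm : ten (0, 1) (chi O ω ε N (a, b)) ∈ MM O ω ε N (GS (ON O N)) :=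
    Submodule.subset_span ⟨1, one_mem _, (0, 1), (a, b), ⟨zero_mem _, one_mem _⟩, hc_inN ha hb,
      (act_one _).symm⟩
  have e1 := wh_left h (φ := φ) (sg_mem (O := O) (N := N)) (sg_mem (O := O) (N := N)) (one_mem _) hm
  have e2 : sg * sg = 1 := by
    apply LinearEquiv.ext
    intro l
    rfl
  have e3 : act sg (ten (0, 1) (chi O ω ε N (a, b))) = ten (1, 0) (chi O ω ε N (b, a)) := by
    rw [hc_ten_act, hc_pf_sg, hc_dt_sg, hc_sg]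
    simp
  rw [e2, mul_one, e3] at e1
  rw [← e1, wh_swap]
  rfl

end Pool.Agent.KTD
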