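import Pool.Agent.Lib_helper87.KTD.P.HC

set_option autoImplicit false

namespace Pool.Agent.KTD

open Complex Pool.Agent.TCL

variable {O : Subring ℂ} {ω : ℂ} {f : O} {ε : O → O} {N : ℕ} {R : Finset O} {Λ : ℂ →ₗ[KK O] KK O}

theorem hd_ten_act (g : GL2) (v : V2) (F : Fs O) :
    act g (ten v F) = ten (((‖dt g‖ : ℂ) ^ 2) • g v) (pf g F) := by
  funext c l
  show ((‖dt g‖ : ℂ) ^ 2) • (g (F c (g⁻¹ l) • v)) = F c (g⁻¹ l) • ((‖dt g‖ : ℂ) ^ 2) • g v
  rw [map_smul, smul_comm]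

theorem hd_roi (l : V2) : ro⁻¹ l = (l.2 - l.1, -l.1) := rfl

theorem hd_dt : dt ro⁻¹ = 1 := by
  show cr (ro⁻¹ (1, 0)) (ro⁻¹ (0, 1)) = 1
  rw [hd_roi, hd_roi]
  simp [cr]

theorem hd_pr_neg (t g : ℂ) : pr ω t (-g) = pr ω (-t) g := by
  have := pr_mul ω t g (-1)
  rw [neg_one_mul, map_neg, map_one, neg_one_mul] at this
  exact this.symm

theorem hd_pr_sub (t g g' : ℂ) : pr ω t (g - g') = pr ω t g * pr ω (-t) g' := by
  rw [← hd_pr_neg]
  unfold pr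
  rw [← Complex.exp_add]
  congr 1
  rw [map_sub, map_neg, sub_eq_add_neg, mul_add, Complex.add_im]
  push_cast
  ring

theorem hd_pf (a b : ℂ) : pf ro⁻¹ (chi O ω ε N (a, b)) = chi O ω ε N (b, -a - b) := by
  funext c l
  show chi O ω ε N (a, b) c (ro⁻¹⁻¹ l) = _
  have e : ro⁻¹⁻¹ l = (-l.2, l.1 - l.2) := rfl
  rw [e]
  have h1 : In O ((-l.2, l.1 - l.2) : V2) ↔ In O l := by
    constructor
    · intro h
      have h2 : l.2 ∈ O := by
        have := O.neg_mem h.1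
        simpa using this
      refine ⟨?_, h2⟩
      have := O.add_mem (show l.1 - l.2 ∈ O from h.2) h2
      simpa using this
    · intro h
      exact ⟨O.neg_mem h.2, O.sub_mem h.1 h.2⟩
  unfold chi
  by_cases hl : In O l ∧ IsCoprime c (N : O)
  · rw [if_pos hl, if_pos (show In (O : Set ℂ) ((-l.2, l.1 - l.2) : V2) ∧ IsCoprime c (N : O) from
      ⟨h1.2 hl.1, hl.2⟩)]
    show pr ω (ε c * c * a) (-l.2) * pr ω (ε c * c * b) (l.1 - l.2) =
      pr ω (ε c * c * b) l.1 * pr ω (ε c * c * (-a - b)) l.2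
    rw [hd_pr_sub, hd_pr_neg]
    have e2 : (ε c * c * (-a - b) : ℂ) = -(ε c * c * a) + -(ε c * c * b) := by ring
    rw [e2, pr_add]
    ring
  · rw [if_neg hl, if_neg (show ¬ (In (O : Set ℂ) ((-l.2, l.1 - l.2) : V2) ∧
      IsCoprime c (N : O)) from fun h => hl ⟨h1.1 h.1, h.2⟩)]

/-- `act ro⁻¹ (ten (-w, v) χ_(a, b)) = ten (v + w, w) χ_(b, -a-b)` -/
theorem ro_ten (h : Ctx O ω f ε N R Λ) (v w a b : ℂ) :
    act ro⁻¹ (ten (-w, v) (chi O ω ε N (a, b))) =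
      ten (v + w, w) (chi O ω ε N (b, -a - b)) := by
  rw [hd_ten_act, hd_pf, hd_dt, hd_roi]
  simp

/-- the value on a combination of `e1` and `e2` -/
theorem hd_val (h : Ctx O ω f ε N R Λ) {φ : Fm O →ₗ[KK O] HH O N} (hφ : VL ω ε N R Λ φ)
    {a b : ℂ} (ha : (N : ℂ) * a ∈ O) (hb : (N : ℂ) * b ∈ O) (ha' : a ∉ O) (hb' : b ∉ O)
    (v w : KK O) :
    Wh ω N R Λ φ sg 1 (ten ((w : ℂ), (v : ℂ)) (chi O ω ε N (a, b))) =
      -(w • Bf ω ε N R Λ φ a b) + v • Bf ω ε N R Λ φ b a := by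
  have hx : In O ((N : ℂ) • ((a, b) : V2)) := ⟨ha, hb⟩
  have h10 : In (KK O) ((1, 0) : V2) := ⟨one_mem _, zero_mem _⟩
  have h01 : In (KK O) ((0, 1) : V2) := ⟨zero_mem _, one_mem _⟩
  have m1 := (ten_MP h h10 hx ha' hb').1
  have m2 := (ten_MP h h01 hx ha' hb').1
  have e : ten ((w : ℂ), (v : ℂ)) (chi O ω ε N (a, b)) =
      w • ten (1, 0) (chi O ω ε N (a, b)) + v • ten (0, 1) (chi O ω ε N (a, b)) := by
    funext c l
    show chi O ω ε N (a, b) c l • ((w : ℂ), (v : ℂ)) =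
      (w : ℂ) • (chi O ω ε N (a, b) c l • ((1 : ℂ), (0 : ℂ))) +
        (v : ℂ) • (chi O ω ε N (a, b) c l • ((0 : ℂ), (1 : ℂ)))
    ext
    · simp [mul_comm]
    · simp [mul_comm]
  rw [e, wh_add h sg_mem (one_mem _) (Submodule.smul_mem _ _ m1) (Submodule.smul_mem _ _ m2),
    wh_smul, wh_smul, wh_e2 h hφ ha hb]
  unfold Bf
  rw [smul_neg, smul_neg, neg_neg]

theorem hd_lower {g : GL2} (hg : g ∈ GS (ON O N)) (h : (g (0, 1)).1 = 0) : IsB O N g :=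
  isB_of_e2 hg h

/-- the edges `(e2, e3)` and `(e3, e1)` are the images of `(e1, e2)` under `ro`, `ro²`:
`Wh 1 ro F = Wh sg 1 (act ro⁻¹ F)` since `ro * sg` is lower triangular, etc. -/
theorem tau_dl (h : Ctx O ω f ε N R Λ) {φ : Fm O →ₗ[KK O] HH O N} (hφ : VL ω ε N R Λ φ)
    {x y z : ℂ} (hx : (N : ℂ) * x ∈ O) (hy : (N : ℂ) * y ∈ O) (hz : (N : ℂ) * z ∈ O)
    (h1 : z - y ∉ O) (h2 : x - z ∉ O) (h3 : y - x ∉ O) (v w : KK O) :
    (Nul O N).mkQ (fun _ => tau Λ R (1, 0) (0, 1) (-1, -1)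
      (ten (-(w : ℂ), (v : ℂ)) (chi O ω ε N (z - y, x - z)))) =
      dl (Bf ω ε N R Λ φ) x y z v w := by
  -- the coordinates
  have na : (N : ℂ) * (z - y) ∈ O := by rw [mul_sub]; exact O.sub_mem hz hy
  have nb : (N : ℂ) * (x - z) ∈ O := by rw [mul_sub]; exact O.sub_mem hx hz
  have nc : (N : ℂ) * (y - x) ∈ O := by rw [mul_sub]; exact O.sub_mem hy hx
  -- the three families
  set F0 : Fm O := ten (-(w : ℂ), (v : ℂ)) (chi O ω ε N (z - y, x - z)) with hF0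
  set F1 : Fm O := ten ((v : ℂ) + w, (w : ℂ)) (chi O ω ε N (x - z, y - x)) with hF1
  set F2 : Fm O := ten (-(v : ℂ), -(v : ℂ) - w) (chi O ω ε N (y - x, z - y)) with hF2
  have r0 : act ro⁻¹ F0 = F1 := by
    have ea : -(z - y) - (x - z) = y - x := by ring
    rw [hF0, ro_ten h, hF1, ea]
  have r1 : act ro⁻¹ F1 = F2 := by
    have e := ro_ten h (w : ℂ) (-((v : ℂ) + w)) (x - z) (y - x)
    have ea : -(x - z) - (y - x) = z - y := by ring
    have eb : (w : ℂ) + -((v : ℂ) + w) = -v := by ring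
    have ec : -((v : ℂ) + w) = -(v : ℂ) - w := by ring
    rw [neg_neg, ea, eb, ec] at e
    rw [hF1, hF2]
    exact e
  have k0 : In (KK O) ((-(w : ℂ), (v : ℂ)) : V2) := ⟨neg_mem w.2, v.2⟩
  have k1 : In (KK O) (((v : ℂ) + w, (w : ℂ)) : V2) := ⟨add_mem v.2 w.2, w.2⟩
  have k2 : In (KK O) ((-(v : ℂ), -(v : ℂ) - w) : V2) := ⟨neg_mem v.2, sub_mem (neg_mem v.2) w.2⟩
  have x0 : In O ((N : ℂ) • ((z - y, x - z) : V2)) := ⟨na, nb⟩
  have x1 : In O ((N : ℂ) • ((x - z, y - x) : V2)) := ⟨nb, nc⟩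
  have x2 : In O ((N : ℂ) • ((y - x, z - y) : V2)) := ⟨nc, na⟩
  obtain ⟨m0, p0, q0⟩ := ten_MP h k0 x0 h1 h2
  obtain ⟨m1, p1, q1⟩ := ten_MP h k1 x1 h2 h3
  obtain ⟨m2, p2, q2⟩ := ten_MP h k2 x2 h3 h1
  rw [← hF0] at m0 p0 q0
  rw [← hF1] at m1 p1 q1
  rw [← hF2] at m2 p2 q2
  -- the sum over the edges
  have s := wh_sum h (φ := φ) (sg_mem (O := O) (N := N)) (one_mem _) (ro_mem (O := O) (N := N)) m0
  have c0 : sg (0, 1) = ((1, 0) : V2) := rfl
  have c1 : (1 : GL2) (0, 1) = ((0, 1) : V2) := rfl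
  have c2 : ro (0, 1) = ((-1, -1) : V2) := by
    show ((-1 : ℂ), (0 : ℂ) - 1) = (-1, -1)
    rw [zero_sub]
  rw [c0, c1, c2] at s
  rw [s]
  have rm : ro ∈ GS (ON O N) := ro_mem
  have rim : ro⁻¹ ∈ GS (ON O N) := inv_mem rm
  have sm : sg ∈ GS (ON O N) := sg_mem
  -- the second edge
  have e1 : Wh ω N R Λ φ 1 ro F0 = Wh ω N R Λ φ sg 1 F1 := by
    have w1 := wh_left h (φ := φ) rim (one_mem _) rm m0
    rw [r0, mul_one, inv_mul_cancel] at w1
    rw [← w1]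
    have hb : IsB O N (sg * ro⁻¹) := by
      apply hd_lower (mul_mem sm rim)
      show (sg (ro⁻¹ (0, 1))).1 = 0
      rw [hd_roi]
      show -(0 : ℂ) = 0
      simp
    have w2 := wh_right h hφ sm (one_mem _) hb isB_one (F := F1) q1 p1
    have ss : sg * (sg * ro⁻¹) = ro⁻¹ := by
      rw [← mul_assoc]
      have : sg * sg = 1 := by
        apply LinearEquiv.ext
        intro l
        rfl
      rw [this, one_mul]
    rw [ss, one_mul] at w2
    exact w2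
  -- the third edge
  have e2 : Wh ω N R Λ φ ro sg F0 = Wh ω N R Λ φ sg 1 F2 := by
    have w1 := wh_left h (φ := φ) rim rm sm m0
    rw [r0, inv_mul_cancel] at w1
    have w1' := wh_left h (φ := φ) rim (one_mem _) (mul_mem rim sm) m1
    rw [r1, mul_one, ← mul_assoc] at w1'
    rw [← w1, ← w1']
    have hb0 : IsB O N (sg * ro⁻¹) := by
      apply hd_lower (mul_mem sm rim)
      show (sg (ro⁻¹ (0, 1))).1 = 0
      rw [hd_roi]
      show -(0 : ℂ) = 0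
      simp
    have hb1 : IsB O N (ro⁻¹ * ro⁻¹ * sg) := by
      apply hd_lower (mul_mem (mul_mem rim rim) sm)
      show (ro⁻¹ (ro⁻¹ (sg (0, 1)))).1 = 0
      have : sg (0, 1) = ((1, 0) : V2) := rfl
      rw [this, hd_roi, hd_roi]
      show -(1 : ℂ) - (0 - 1) = 0
      ring
    have w2 := wh_right h hφ sm (one_mem _) hb0 hb1 (F := F2) q2 p2
    have ss : sg * (sg * ro⁻¹) = ro⁻¹ := by
      rw [← mul_assoc]
      have : sg * sg = 1 := by
        apply LinearEquiv.ext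
        intro l
        rfl
      rw [this, one_mul]
    rw [ss, one_mul] at w2
    exact w2
  rw [e1, e2]
  have v0 := hd_val h hφ na nb h1 h2 v (-w)
  have v1 := hd_val h hφ nb nc h2 h3 w (v + w)
  have v2 := hd_val h hφ nc na h3 h1 (-v - w) (-v)
  push_cast at v0 v1 v2
  rw [← hF0] at v0
  rw [← hF1] at v1
  rw [← hF2] at v2
  rw [v0, v1, v2]
  unfold dl
  module

end Pool.Agent.KTD
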