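import Pool.Agent.Lib_helper87.KTD.P.HD
import Pool.Agent.Lib_helper87.KTD.P.IA
import Pool.Agent.Lib_helper76.TCL.P.SD

set_option autoImplicit false

namespace Pool.Agent.KTD

open Complex Pool.Agent.TCL

variable {O : Subring ℂ} {ω : ℂ} {f : O} {ε : O → O} {N : ℕ} {R : Finset O} {Λ : ℂ →ₗ[KK O] KK O}

theorem ib_pr (a b X Y Z : ℂ) : pr ω X a * pr ω Y b * pr ω Z (-(a + b)) =
    pr ω (Z - Y) (-b) * pr ω (X - Z) a := by
  unfold pr
  rw [← Complex.exp_add, ← Complex.exp_add, ← Complex.exp_add]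
  congr 1
  have e : (X * starRingEnd ℂ a).im + (Y * starRingEnd ℂ b).im +
      (Z * starRingEnd ℂ (-(a + b))).im =
      ((Z - Y) * starRingEnd ℂ (-b)).im + ((X - Z) * starRingEnd ℂ a).im := by
    rw [← Complex.add_im, ← Complex.add_im, ← Complex.add_im]
    congr 1
    rw [map_neg, map_neg, map_add]
    ring
  have e2 : (((X * starRingEnd ℂ a).im / ω.im : ℝ) : ℂ) + (((Y * starRingEnd ℂ b).im / ω.im : ℝ) : ℂ)
      + (((Z * starRingEnd ℂ (-(a + b))).im / ω.im : ℝ) : ℂ) =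
      ((((Z - Y) * starRingEnd ℂ (-b)).im / ω.im : ℝ) : ℂ) +
        ((((X - Z) * starRingEnd ℂ a).im / ω.im : ℝ) : ℂ) := by
    rw [← Complex.ofReal_add, ← Complex.ofReal_add, ← Complex.ofReal_add, ← add_div, ← add_div,
      ← add_div, e]
  rw [← mul_add, ← mul_add, ← mul_add, e2]

theorem ib_norm (z : ℂ) : ((‖z‖ : ℝ) : ℂ) ^ 2 = z * starRingEnd ℂ z := by
  rw [Complex.mul_conj, Complex.normSq_eq_norm_sq]
  push_cast
  ring

theorem ib_gg (a b X v w : ℂ) :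
    GG (1, 0) (0, 1) (-1, -1) (X • (-w, v)) (-b, a) =
      X * (w * starRingEnd ℂ a - v * starRingEnd ℂ b) / (‖a‖ * ‖b‖ * ‖a + b‖ : ℂ) ^ 2 := by
  have e : ((‖a‖ : ℝ) * (‖b‖ : ℝ) * (‖a + b‖ : ℝ) : ℂ) ^ 2 =
      a * starRingEnd ℂ a * (b * starRingEnd ℂ b) * ((a + b) * starRingEnd ℂ (a + b)) := by
    rw [mul_pow, mul_pow, ib_norm, ib_norm, ib_norm]
  rw [e]
  have c1 : cr (1, 0) (-b, a) = a := by simp [cr]
  have c2 : cr (0, 1) (-b, a) = b := by simp [cr]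
  have c3 : cr (-1, -1) (-b, a) = -(a + b) := by simp [cr]; ring
  have d1 : cr (1, 0) (X • (-w, v)) = X * v := by simp [cr]
  have d3 : cr (-1, -1) (X • (-w, v)) = -(X * (v + w)) := by simp [cr]; ring
  have f1 : cr (0, 1) (-1, -1) = 1 := by simp [cr]
  have f2 : cr (1, 0) (0, 1) = 1 := by simp [cr]
  unfold GG rr ee
  rw [c1, c2, c3, d1, d3, f1, f2]
  by_cases ha : a = 0
  · subst ha; simp
  by_cases hb : b = 0
  · subst hb; simp
  by_cases hab : a + b = 0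
  · rw [hab]; simp
  have ha' : starRingEnd ℂ a ≠ 0 := by rw [Ne, map_eq_zero]; exact ha
  have hb' : starRingEnd ℂ b ≠ 0 := by rw [Ne, map_eq_zero]; exact hb
  have hab' : starRingEnd ℂ (a + b) ≠ 0 := by rw [Ne, map_eq_zero]; exact hab
  have hn : -(a + b) ≠ 0 := neg_ne_zero.2 hab
  rw [map_div₀, map_div₀, map_one, map_mul, map_mul, map_neg]
  field_simp
  rw [map_add]
  ring

/-- `(l1, l2) = ([e1, l], [e2, l]) = (l.2, -l.1)` -/
theorem ks_tt (h : Ctx O ω f ε N R Λ) (x y z v w : ℂ) :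
    ∑ c ∈ R, KS O ω (ε c * c * x) (ε c * c * y) (ε c * c * z) v w =
      TT R (1, 0) (0, 1) (-1, -1) (ten (-w, v) (chi O ω ε N (z - y, x - z))) := by
  unfold TT
  refine Finset.sum_congr rfl fun c hc => ?_
  have hcN := h.cop c hc
  set g : O × O → V2 := fun l => (-(l.2 : ℂ), (l.1 : ℂ)) with hg
  have hinj : Function.Injective g := by
    intro l l' hl
    have h1 : -(l.2 : ℂ) = -(l'.2 : ℂ) := congrArg Prod.fst hl
    have h2 : (l.1 : ℂ) = (l'.1 : ℂ) := congrArg Prod.snd hl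
    exact Prod.ext (Subtype.ext h2) (Subtype.ext (neg_injective h1))
  have hsup : Function.support (fun l : V2 => GG (1, 0) (0, 1) (-1, -1)
      (ten (-w, v) (chi O ω ε N (z - y, x - z)) c l) l) ⊆ Set.range g := by
    intro l hl
    by_contra hn
    apply hl
    have h0 : chi O ω ε N (z - y, x - z) c l = 0 := by
      unfold chi
      rw [if_neg]
      rintro ⟨h1, -⟩
      exact hn ⟨(⟨l.2, h1.2⟩, ⟨-l.1, O.neg_mem h1.1⟩), by simp [hg]⟩
    show GG (1, 0) (0, 1) (-1, -1) (chi O ω ε N (z - y, x - z) c l • (-w, v)) l = 0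
    rw [h0, zero_smul]
    unfold GG rr cr
    simp
  rw [← hinj.tsum_eq hsup]
  unfold KS
  refine tsum_congr fun l => ?_
  have e1 : ten (-w, v) (chi O ω ε N (z - y, x - z)) c (g l) =
      (pr ω (ε c * c * (z - y)) (-(l.2 : ℂ)) * pr ω (ε c * c * (x - z)) (l.1 : ℂ)) • (-w, v) := by
    show chi O ω ε N (z - y, x - z) c (g l) • (-w, v) = _
    unfold chi
    rw [if_pos]
    exact ⟨⟨O.neg_mem l.2.2, l.1.2⟩, hcN⟩
  rw [e1]
  show _ = GG (1, 0) (0, 1) (-1, -1) _ (-(l.2 : ℂ), (l.1 : ℂ))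
  rw [ib_gg]
  have e2 := ib_pr (ω := ω) (l.1 : ℂ) (l.2 : ℂ) (ε c * c * x) (ε c * c * y) (ε c * c * z)
  rw [← mul_sub, ← mul_sub] at e2
  rw [← e2]

theorem ks_per (hO : Quad O ω) (x y z v w : ℂ) (a b c : O) :
    KS O ω (x + a) (y + b) (z + c) v w = KS O ω x y z v w := by
  unfold KS
  refine tsum_congr fun l => ?_
  have e : (-(l.1 + l.2 : ℂ)) = ((-(l.1 + l.2) : O) : ℂ) := by push_cast; rfl
  rw [e, pr_add, pr_add, pr_add, pr_mem hO, pr_mem hO, pr_mem hO]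
  simp only [mul_one]

/-- `LE ≠ 0` is not needed: if all `K`-linear functionals which kill `L` kill `t` then `t` is in the line of
`L` -/
theorem functional {O : Subring ℂ} {L t : ℂ}
    (ht : ∀ Λ : ℂ →ₗ[KK O] KK O, Λ L = 0 → Λ t = 0) : ∃ ρ : KK O, t = ρ * L := by
  by_contra hn
  have hx : t ∉ Submodule.span (KK O) {L} := by
    intro h
    obtain ⟨ρ, hρ⟩ := Submodule.mem_span_singleton.1 h
    exact hn ⟨ρ, hρ.symm⟩
  obtain ⟨Λ, h1, h2⟩ := Submodule.exists_dual_map_eq_bot_of_notMem hx inferInstance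
  apply h1
  apply ht
  have : Λ L ∈ (Submodule.span (KK O) {L}).map Λ :=
    Submodule.mem_map_of_mem (Submodule.mem_span_singleton_self L)
  rw [h2] at this
  exact (Submodule.mem_bot _).1 this

theorem ib_card {M : O} {S : Finset O} (hS : IsReps M S) :
    open Classical in (((S.filter (fun c => IsCoprime c M)).card : ℕ) : ℚ) ≠ 0 := by
  classical
  obtain ⟨k, ⟨hk, d, hd⟩, -⟩ := hS 1
  have : k ∈ S.filter (fun c => IsCoprime c M) := by
    refine Finset.mem_filter.2 ⟨hk, ?_⟩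
    have e : k = 1 + M * (-d) := by linear_combination -hd
    rw [e]
    exact isCoprime_one_left.add_mul_left_left _
  have h0 : (S.filter (fun c => IsCoprime c M)).card ≠ 0 := Finset.card_ne_zero_of_mem this
  exact_mod_cast h0

/-- the traces modulo `M` and modulo `M'` are rational multiples of each other (`avg_lift`) -/
theorem trace_lift (hO : Quad O ω) (hP : IsPrincipalIdealRing O) (hε : GC O f ε) {M M' : O}
    (hf : f ∣ M) (hM' : M' ≠ 0) (hd : M ∣ M') {S S' : Finset O} (hS : IsReps M S)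
    (hS' : IsReps M' S') {n : ℕ} (x y z : Fin n → ℂ) (v w : Fin n → ℂ)
    (hx : ∀ i, (M : ℂ) * x i ∈ O) (hy : ∀ i, (M : ℂ) * y i ∈ O) (hz : ∀ i, (M : ℂ) * z i ∈ O) :
    open Classical in ∃ q : ℚ, q ≠ 0 ∧
      ∑ c ∈ S.filter (fun c => IsCoprime c M), ∑ i,
        KS O ω (ε c * c * x i) (ε c * c * y i) (ε c * c * z i) (v i) (w i) =
      q * ∑ c ∈ S'.filter (fun c => IsCoprime c M'), ∑ i,
        KS O ω (ε c * c * x i) (ε c * c * y i) (ε c * c * z i) (v i) (w i) := by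
  classical
  set F : O → ℂ := fun c => ∑ i,
    KS O ω (ε c * c * x i) (ε c * c * y i) (ε c * c * z i) (v i) (w i) with hF
  have hper : ∀ a b : O, F (a + M * b) = F a := by
    intro a b
    simp only [hF]
    refine Finset.sum_congr rfl fun i _ => ?_
    obtain ⟨d, hd'⟩ := hf
    have e1 : ε (a + M * b) = ε a := by
      rw [hd', mul_assoc]
      exact hε.per _ _
    have key : ∀ t : ℂ, (M : ℂ) * t ∈ O → ∃ k : O,
        ((ε (a + M * b) : O) : ℂ) * ((a + M * b : O) : ℂ) * t = (ε a : ℂ) * a * t + k := by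
      intro t ht
      refine ⟨ε a * b * ⟨_, ht⟩, ?_⟩
      rw [e1]
      push_cast
      ring
    obtain ⟨k1, h1⟩ := key _ (hx i)
    obtain ⟨k2, h2⟩ := key _ (hy i)
    obtain ⟨k3, h3⟩ := key _ (hz i)
    rw [h1, h2, h3, ks_per hO]
  have h := avg_lift hP hM' hd hS hS' F hper
  have c1 := ib_card hS
  have c2 := ib_card hS'
  refine ⟨((S.filter (fun c => IsCoprime c M)).card : ℚ) /
    ((S'.filter (fun c => IsCoprime c M')).card : ℚ), div_ne_zero c1 c2, ?_⟩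
  have c2' : (((S'.filter (fun c => IsCoprime c M')).card : ℕ) : ℂ) ≠ 0 := by exact_mod_cast c2
  push_cast
  rw [div_mul_eq_mul_div, eq_div_iff c2']
  rw [← h]
  ring

theorem fin_tau_zero (h : Ctx O ω f ε N R Λ) {n : ℕ}
    (x y z : Fin n → ℂ) (v w : Fin n → KK O) (hx : ∀ i, (N : ℂ) * x i ∈ O)
    (hy : ∀ i, (N : ℂ) * y i ∈ O) (hz : ∀ i, (N : ℂ) * z i ∈ O) (h1 : ∀ i, z i - y i ∉ O)
    (h2 : ∀ i, x i - z i ∉ O) (h3 : ∀ i, y i - x i ∉ O)
    (hB : ∀ (H : Type) [AddCommGroup H] [Module (KK O) H] (B : ℂ → ℂ → H),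
      BDN O f ε N H B → ∑ i, dl B (x i) (y i) (z i) (v i) (w i) = 0) :
    Λ (∑ i, TT R (1, 0) (0, 1) (-1, -1)
      (ten (-(w i : ℂ), (v i : ℂ)) (chi O ω ε N (z i - y i, x i - z i)))) = 0 := by
  obtain ⟨φ, hφ⟩ := exists_VL h
  have e1 := hB (HH O N) (Bf ω ε N R Λ φ) (bf_BDN h hφ)
  have e2 : (Nul O N).mkQ (fun _ => Λ (∑ i, TT R (1, 0) (0, 1) (-1, -1)
      (ten (-(w i : ℂ), (v i : ℂ)) (chi O ω ε N (z i - y i, x i - z i))))) = 0 := by
    rw [← e1]
    have e3 : (fun _ : PP O N => Λ (∑ i, TT R (1, 0) (0, 1) (-1, -1)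
      (ten (-(w i : ℂ), (v i : ℂ)) (chi O ω ε N (z i - y i, x i - z i))))) =
      ∑ i, fun _ : PP O N => tau Λ R (1, 0) (0, 1) (-1, -1)
      (ten (-(w i : ℂ), (v i : ℂ)) (chi O ω ε N (z i - y i, x i - z i))) := by
      funext p
      rw [Finset.sum_apply, map_sum]
      rfl
    rw [e3, map_sum]
    exact Finset.sum_congr rfl fun i _ =>
      tau_dl h hφ (hx i) (hy i) (hz i) (h1 i) (h2 i) (h3 i) (v i) (w i)
  rw [Submodule.mkQ_apply, Submodule.Quotient.mk_eq_zero] at e2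
  exact nul_const h e2

theorem fin_natCast (N : ℕ) : ((N : O) : ℂ) = (N : ℂ) := by simp

/-- the theorem -/
theorem main (hO : Quad O ω) (hP : IsPrincipalIdealRing O) (hf : f ≠ 0) (hε : GC O f ε) {n : ℕ}
    (x y z : Fin n → ℂ) (v w : Fin n → KK O) (hx : ∀ i, x i ∈ KK O) (hy : ∀ i, y i ∈ KK O)
    (hz : ∀ i, z i ∈ KK O) (h1 : ∀ i, z i - y i ∉ O) (h2 : ∀ i, x i - z i ∉ O)
    (h3 : ∀ i, y i - x i ∉ O)
    (hB : ∀ B : ℂ → ℂ → KK O, BD O f ε (KK O) B → ∑ i, dl B (x i) (y i) (z i) (v i) (w i) = 0)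
    (M : O) (S : Finset O) (hfM : f ∣ M) (hM : M ≠ 0) (hS : IsReps M S)
    (hMx : ∀ i, (M : ℂ) * x i ∈ O) (hMy : ∀ i, (M : ℂ) * y i ∈ O)
    (hMz : ∀ i, (M : ℂ) * z i ∈ O) :
    open Classical in ∃ ρ : KK O, ∑ c ∈ S.filter (fun c => IsCoprime c M), ∑ i,
        KS O ω (ε c * c * x i) (ε c * c * y i) (ε c * c * z i) (v i) (w i) = ρ * LE O ε := by
  classical
  obtain ⟨N0, hN0, hMN0⟩ := ql_norm_nat hO M hM
  obtain ⟨N, hN, hNN, hrel⟩ := rel_level hO hP hf hε x y z v w hx hy hz h1 h2 h3 hB N0 hN0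
  have hMN : M ∣ (N : O) := by
    obtain ⟨d, hd⟩ := hNN
    refine ⟨cj hO M * (d : O), ?_⟩
    apply Subtype.ext
    rw [hd]
    push_cast
    rw [coe_cj, ← hMN0]
    ring
  have hNO : (N : O) ≠ 0 := by
    intro h
    have := congrArg (Subtype.val) h
    rw [fin_natCast] at this
    have h0 : (N : ℂ) = 0 := this
    exact hN.ne' (by exact_mod_cast h0)
  have hmul : ∀ t : ℂ, (M : ℂ) * t ∈ O → (N : ℂ) * t ∈ O := by
    intro t ht
    obtain ⟨d, hd⟩ := hMN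
    have hd' : (N : ℂ) = M * d := by
      rw [← fin_natCast (O := O), hd]
      push_cast
      rfl
    rw [hd', mul_comm (M : ℂ), mul_assoc]
    exact O.mul_mem d.2 ht
  obtain ⟨S', hS'⟩ := exists_reps hO (N : O) hNO
  obtain ⟨q, hq, hlift⟩ := trace_lift hO hP hε hfM hNO hMN hS hS' x y z (fun i => v i)
    (fun i => w i) hMx hMy hMz
  set R := S'.filter (fun c => IsCoprime c (N : O)) with hR
  have hctx : ∀ Λ : ℂ →ₗ[KK O] KK O, Λ (LE O ε) = 0 → Ctx O ω f ε N R Λ := by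
    intro Λ hΛ
    refine ⟨hO, hP, hf, hε, hN, hfM.trans hMN, ?_, ?_, hΛ⟩
    · intro a ha
      obtain ⟨k, ⟨hk, hak⟩, huniq⟩ := hS' a
      refine ⟨k, ⟨?_, hak⟩, fun k' hk' => huniq k' ⟨(Finset.mem_filter.1 hk'.1).1, hk'.2⟩⟩
      refine Finset.mem_filter.2 ⟨hk, ?_⟩
      obtain ⟨d, hd⟩ := hak
      have e : k = a + (N : O) * (-d) := by linear_combination -hd
      rw [e]
      exact ha.add_mul_left_left _
    · intro a ha
      exact (Finset.mem_filter.1 ha).2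
  set t : ℂ := ∑ c ∈ R, ∑ i, KS O ω (ε c * c * x i) (ε c * c * y i) (ε c * c * z i) (v i) (w i)
    with ht
  obtain ⟨ρ, hρ⟩ : ∃ ρ : KK O, t = ρ * LE O ε := by
    refine functional fun Λ hΛ => ?_
    have h := hctx Λ hΛ
    have e := fin_tau_zero h x y z v w (fun i => hmul _ (hMx i)) (fun i => hmul _ (hMy i))
      (fun i => hmul _ (hMz i)) h1 h2 h3 hrel
    rw [← e, ht, Finset.sum_comm]
    congr 1
    exact Finset.sum_congr rfl fun i _ => ks_tt h _ _ _ _ _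
  have hqK : (q : ℂ) ∈ KK O := SubfieldClass.ratCast_mem _ _
  refine ⟨⟨q, hqK⟩ * ρ, ?_⟩
  rw [hlift, hρ]
  push_cast
  ring

end Pool.Agent.KTD
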