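import Pool.Agent.Lib_helper87.KTD.Defs
import Pool.Agent.Lib_helper76.TCL.P.FIN

set_option autoImplicit false

namespace Pool.Agent.KTD

open Complex Pool.Agent.TCL

variable {O : Subring ℂ} {ω : ℂ} {f : O} {ε : O → O} {N : ℕ} {R : Finset O} {Λ : ℂ →ₗ[KK O] KK O}

private theorem la_cop {x k n : O} (h : IsCoprime x n) (hd : n ∣ x - k) : IsCoprime k n := by
  obtain ⟨y, hy⟩ := hd
  have e : k = x + n * (-y) := by
    rw [mul_neg, ← hy]
    ring
  rw [e]
  exact IsCoprime.add_mul_left_left h (-y)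

private theorem la_SS_zero (hO : Quad O ω) (z : O) : SS O ω (z : ℂ) = 0 := by
  have h0 : SS O ω (0 : ℂ) = 0 := by
    have h1 := SS_unit hO (-1 : O) isUnit_one.neg (0 : ℂ)
    have h2 : starRingEnd ℂ (((-1 : O)) : ℂ) = -1 := by
      push_cast
      simp
    rw [h2, mul_zero] at h1
    linear_combination (1 / 2 : ℂ) * h1
  have h3 := SS_per hO 0 z
  rw [zero_add] at h3
  rw [h3, h0]

private theorem la_fin (hO : Quad O ω) (hP : IsPrincipalIdealRing O) (hf : f ≠ 0)
    (hε : GC O f ε) : ∃ (q : ℂ → KK O) (κ : KK O), κ ≠ 0 ∧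
      ∀ (M : O) (R : Finset O) (t : ℂ), f ∣ M → M ≠ 0 → IsReps M R → t ∉ O →
        (M : ℂ) * t ∈ O → (κ : ℂ) * AV O ω ε M R t = q t * LE O ε := by
  have h1 := (FIN_main hO hP hf hε).2
  obtain ⟨q, h2⟩ := h1
  obtain ⟨κ, h3⟩ := h2
  exact ⟨q, κ, h3.2.2.2.1.1, h3.2.2.1⟩

/-- Is `ξ ∈ O` then `SS = 0` (`SS_unit` with `u = -1` and `SS_per`); else `FIN_main`: a set of
representatives modulo `N` whose part prime to `N` is `R`: `exists_reps`, replace; or compare the sums
over `R` and over `R'.filter` (the summand depends on `c` modulo `N`: `orbit_per`) -/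
theorem av_line (h : Ctx O ω f ε N R Λ) {ξ : ℂ} (hξ : (N : ℂ) * ξ ∈ O) :
    ∃ ρ : KK O, ∑ c ∈ R, SS O ω (ε c * c * ξ) = ρ * LE O ε := by
  classical
  have hNc : (N : ℂ) ≠ 0 := by exact_mod_cast h.N_pos.ne'
  have hcast : (((N : ℕ) : O) : ℂ) = (N : ℂ) := by norm_cast
  have hN0 : (N : O) ≠ 0 := by
    intro h0
    apply hNc
    rw [← hcast, h0]
    rfl
  by_cases hto : ξ ∈ O
  · refine ⟨0, ?_⟩
    have : ((0 : KK O) : ℂ) = 0 := rfl
    rw [this, zero_mul]
    refine Finset.sum_eq_zero (fun c _ => ?_)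
    have e : (ε c : ℂ) * (c : ℂ) * ξ = ((ε c * c * (⟨ξ, hto⟩ : O) : O) : ℂ) := by
      push_cast
      ring
    rw [e]
    exact la_SS_zero h.quad _
  · obtain ⟨R', hR'⟩ := exists_reps h.quad (N : O) hN0
    obtain ⟨q, κ, hκ, hq3⟩ := la_fin h.quad h.pid h.f_ne h.gc
    set R2 : Finset O := R ∪ R'.filter (fun k => ¬ IsCoprime k (N : O)) with hR2
    have hreps : IsReps (N : O) R2 := by
      intro x
      by_cases hx : IsCoprime x (N : O)
      · obtain ⟨k, ⟨hk1, hk2⟩, hku⟩ := h.reps x hx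
        refine ⟨k, ⟨Finset.mem_union_left _ hk1, hk2⟩, ?_⟩
        rintro y ⟨hy1, hy2⟩
        rcases Finset.mem_union.1 hy1 with h1 | h1
        · exact hku y ⟨h1, hy2⟩
        · exact absurd (la_cop hx hy2) (Finset.mem_filter.1 h1).2
      · obtain ⟨k, ⟨hk1, hk2⟩, hku⟩ := hR' x
        have hback : ∀ y : O, (N : O) ∣ x - y → ¬ IsCoprime y (N : O) := by
          intro y hy hyc
          apply hx
          refine la_cop hyc ?_
          obtain ⟨z, hz⟩ := hy
          refine ⟨-z, ?_⟩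
          rw [mul_neg, ← hz]
          ring
        refine ⟨k, ⟨Finset.mem_union_right _ (Finset.mem_filter.2 ⟨hk1, hback k hk2⟩), hk2⟩, ?_⟩
        rintro y ⟨hy1, hy2⟩
        rcases Finset.mem_union.1 hy1 with h1 | h1
        · exact absurd (h.cop y h1) (hback y hy2)
        · exact hku y ⟨(Finset.mem_filter.1 h1).1, hy2⟩
    have hfil : R2.filter (fun a => IsCoprime a (N : O)) = R := by
      ext a
      rw [Finset.mem_filter, hR2, Finset.mem_union, Finset.mem_filter]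
      constructor
      · rintro ⟨h1 | h1, h2⟩
        · exact h1
        · exact absurd h2 h1.2
      · intro h1
        exact ⟨Or.inl h1, h.cop a h1⟩
    have hMt : (((N : ℕ) : O) : ℂ) * ξ ∈ O := by
      rw [hcast]
      exact hξ
    have h3 := hq3 (N : O) R2 ξ h.f_dvd hN0 hreps hto hMt
    unfold AV at h3
    rw [hfil] at h3
    have hκc : (κ : ℂ) ≠ 0 := by
      intro h0
      apply hκ
      exact Subtype.ext h0
    have hcard : (R.card : ℂ) ≠ 0 := by
      obtain ⟨k, ⟨hk1, _⟩, _⟩ := h.reps 1 isCoprime_one_left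
      have : 0 < R.card := Finset.card_pos.2 ⟨k, hk1⟩
      exact_mod_cast this.ne'
    refine ⟨((R.card : KK O)) * κ⁻¹ * q ξ, ?_⟩
    have e : (((R.card : KK O) * κ⁻¹ * q ξ : KK O) : ℂ) = (R.card : ℂ) * (κ : ℂ)⁻¹ * (q ξ : ℂ) := by
      push_cast
      rfl
    rw [e, mul_assoc, ← h3]
    generalize (∑ a ∈ R, SS O ω (↑(ε a) * ↑a * ξ)) = X
    field_simp

end Pool.Agent.KTD
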