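import Pool.Agent.Lib_helper87.KTD.P.GB
import Pool.Agent.Lib_helper87.KTD.P.GA
import Pool.Agent.Lib_helper87.KTD.P.LA

set_option autoImplicit false

namespace Pool.Agent.KTD

open Complex Pool.Agent.TCL

variable {O : Subring ℂ} {ω : ℂ} {f : O} {ε : O → O} {N : ℕ} {R : Finset O} {Λ : ℂ →ₗ[KK O] KK O}

/-- the fractional ideal `{t : t y ∈ O²}` is principal (`y ∈ K²` has a denominator) -/
theorem frac_ideal (h : Ctx O ω f ε N R Λ) {y : V2} (hy : In (KK O) y) (hy0 : y ≠ 0) :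
    ∃ α ∈ KK O, α ≠ 0 ∧ ∀ t : ℂ, In O (t • y) ↔ ∃ m : O, t = α * m := by
  haveI := h.pid
  obtain ⟨a1, b1, hb1, e1⟩ := (mem_KK y.1).1 hy.1
  obtain ⟨a2, b2, hb2, e2⟩ := (mem_KK y.2).1 hy.2
  have hb1' : (b1 : ℂ) ≠ 0 := by exact_mod_cast hb1
  have hb2' : (b2 : ℂ) ≠ 0 := by exact_mod_cast hb2
  -- the common denominator is `b1 * b2`
  obtain ⟨g, hg⟩ := (IsPrincipalIdealRing.principal
    (Ideal.span ({a1 * b2, a2 * b1} : Set O))).principal
  have hg' : Ideal.span ({a1 * b2, a2 * b1} : Set O) = Ideal.span {g} := hg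
  have m1 : a1 * b2 ∈ Ideal.span ({g} : Set O) := by
    rw [← hg']; exact Ideal.subset_span (by simp)
  have m2 : a2 * b1 ∈ Ideal.span ({g} : Set O) := by
    rw [← hg']; exact Ideal.subset_span (by simp)
  rw [Ideal.mem_span_singleton] at m1 m2
  obtain ⟨c1, hc1⟩ := m1
  obtain ⟨c2, hc2⟩ := m2
  have m3 : g ∈ Ideal.span ({a1 * b2, a2 * b1} : Set O) := by
    rw [hg']; exact Ideal.mem_span_singleton_self g
  obtain ⟨r1, r2, hr⟩ := Ideal.mem_span_pair.1 m3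
  have hg0 : g ≠ 0 := by
    rintro rfl
    rw [zero_mul] at hc1 hc2
    have z1 : a1 = 0 := (mul_eq_zero.1 hc1).resolve_right hb2
    have z2 : a2 = 0 := (mul_eq_zero.1 hc2).resolve_right hb1
    apply hy0
    ext
    · rw [e1, z1]; simp
    · rw [e2, z2]; simp
  have hg0' : (g : ℂ) ≠ 0 := by exact_mod_cast hg0
  have hy1 : y.1 = (g : ℂ) * c1 / (b1 * b2) := by
    have : ((a1 * b2 : O) : ℂ) = ((g * c1 : O) : ℂ) := by rw [hc1]
    push_cast at this
    rw [e1, ← this]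
    field_simp
  have hy2 : y.2 = (g : ℂ) * c2 / (b1 * b2) := by
    have : ((a2 * b1 : O) : ℂ) = ((g * c2 : O) : ℂ) := by rw [hc2]
    push_cast at this
    rw [e2, ← this]
    field_simp
  have hrr : (r1 : ℂ) * c1 + r2 * c2 = 1 := by
    have : ((r1 * (a1 * b2) + r2 * (a2 * b1) : O) : ℂ) = ((g : O) : ℂ) := by rw [hr]
    rw [hc1, hc2] at this
    push_cast at this
    have h2 : (g : ℂ) * ((r1 : ℂ) * c1 + r2 * c2) = g * 1 := by rw [mul_one]; linear_combination this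
    exact mul_left_cancel₀ hg0' h2
  refine ⟨(b1 * b2 : ℂ) / g, ?_, div_ne_zero (mul_ne_zero hb1' hb2') hg0', ?_⟩
  · exact div_mem (mul_mem (coe_mem_KK b1) (coe_mem_KK b2)) (coe_mem_KK g)
  · intro t
    constructor
    · rintro ⟨h1, h2⟩
      have h1' : t * y.1 ∈ O := h1
      have h2' : t * y.2 ∈ O := h2
      refine ⟨r1 * ⟨_, h1'⟩ + r2 * ⟨_, h2'⟩, ?_⟩
      push_cast
      rw [hy1, hy2]
      have e : (b1 * b2 : ℂ) / g * (r1 * (t * (g * c1 / (b1 * b2))) + r2 * (t * (g * c2 / (b1 * b2))))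
          = t * ((r1 : ℂ) * c1 + r2 * c2) := by
        field_simp
      rw [e, hrr, mul_one]
    · rintro ⟨m, rfl⟩
      constructor
      · show (b1 * b2 : ℂ) / g * m * y.1 ∈ O
        rw [hy1]
        have e : (b1 * b2 : ℂ) / g * m * (g * c1 / (b1 * b2)) = ((m * c1 : O) : ℂ) := by
          push_cast
          field_simp
        rw [e]
        exact (m * c1).2
      · show (b1 * b2 : ℂ) / g * m * y.2 ∈ O
        rw [hy2]
        have e : (b1 * b2 : ℂ) / g * m * (g * c2 / (b1 * b2)) = ((m * c2 : O) : ℂ) := by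
          push_cast
          field_simp
        rw [e]
        exact (m * c2).2

private theorem lb_pr_mul (ω a t g : ℂ) : pr ω t (a * g) = pr ω (t * starRingEnd ℂ a) g := by
  rw [mul_comm t, pr_mul, Complex.conj_conj]

private theorem lb_cr_mem {u v : V2} (hu : In (KK O) u) (hv : In (KK O) v) : cr u v ∈ KK O :=
  sub_mem (mul_mem hu.1 hv.2) (mul_mem hu.2 hv.1)

private theorem lb_ee_mem {u w l : V2} (hu : In (KK O) u) (hw : In (KK O) w) (hl : In (KK O) l) :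
    ee u w l ∈ KK O :=
  div_mem (lb_cr_mem hu hw) (mul_mem (lb_cr_mem hu hl) (lb_cr_mem hw hl))

private theorem lb_rr_mem {u w l : V2} (hu : In (KK O) u) (hw : In (KK O) w) (hl : In (KK O) l) :
    rr u w l ∈ KK O :=
  div_mem (lb_cr_mem hu hw) (lb_cr_mem hu hl)

private theorem lb_gg_mem (hO : Quad O ω) {u1 u2 u3 v l : V2} (h1 : In (KK O) u1)
    (h2 : In (KK O) u2) (h3 : In (KK O) u3) (hv : In (KK O) v) (hl : In (KK O) l) :
    GG u1 u2 u3 v l ∈ KK O :=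
  sub_mem (mul_mem (mul_mem (lb_rr_mem h1 hv hl) (lb_ee_mem h2 h3 hl))
    (conj_mem_KK hO (lb_ee_mem h1 h2 hl)))
    (mul_mem (mul_mem (lb_rr_mem h3 hv hl) (lb_ee_mem h1 h2 hl))
      (conj_mem_KK hO (lb_ee_mem h2 h3 hl)))

private theorem lb_norm_sq_mem (hO : Quad O ω) {z : ℂ} (hz : z ∈ KK O) :
    ((‖z‖ : ℂ) ^ 2) ∈ KK O := by
  have e : ((‖z‖ : ℂ) ^ 2) = z * starRingEnd ℂ z := by
    rw [qa_mul_conj]; push_cast; rfl
  rw [e]
  exact mul_mem hz (conj_mem_KK hO hz)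

/-- put `y = g⁻¹ u0`, `t = α m`: the sum over `t` is `GG u1 u2 u3 (g v) u0 conj(α)/|α|⁶ |dt g|²` times
`SS (ψ(c) ξ)`, `ξ = conj(α y.1) x.1 + conj(α y.2) x.2`; then `av_line` -/
theorem line_gen (h : Ctx O ω f ε N R Λ) {g : GL2} (hg : g ∈ GS (KK O)) {v x : V2}
    (hv : In (KK O) v) (hx : In O ((N : ℂ) • x)) {u0 u1 u2 u3 : V2} (h0 : In (KK O) u0)
    (h1 : In (KK O) u1) (h2 : In (KK O) u2) (h3 : In (KK O) u3) (hu0 : u0 ≠ 0) :
    ∃ ρ : KK O, ∑ c ∈ R, ∑' t : ℂ,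
      GG u1 u2 u3 (act g (ten v (chi O ω ε N x)) c (t • u0)) (t • u0) = ρ * LE O ε := by
  classical
  have hO := h.quad
  set y : V2 := g⁻¹ u0 with hy
  have hyK : In (KK O) y := (hg u0 h0).2
  have hgy : g y = u0 := by
    rw [hy]; exact g.apply_symm_apply u0
  have hy0 : y ≠ 0 := by
    intro h0'
    rw [h0', map_zero] at hgy
    exact hu0 hgy.symm
  obtain ⟨α, hαK, hα0, hα⟩ := frac_ideal h hyK hy0
  have hdt : dt g ∈ KK O := by
    have i1 : In (KK O) ((1, 0) : V2) := ⟨one_mem _, zero_mem _⟩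
    have i2 : In (KK O) ((0, 1) : V2) := ⟨zero_mem _, one_mem _⟩
    exact lb_cr_mem (hg _ i1).1 (hg _ i2).1
  have hαy : In O (α • y) := (hα α).2 ⟨1, by simp⟩
  set ξ : ℂ := x.1 * starRingEnd ℂ (α * y.1) + x.2 * starRingEnd ℂ (α * y.2) with hξ
  have hNξ : (N : ℂ) * ξ ∈ O := by
    have a1 : (N : ℂ) * x.1 ∈ O := hx.1
    have a2 : (N : ℂ) * x.2 ∈ O := hx.2
    have b1 : α * y.1 ∈ O := hαy.1
    have b2 : α * y.2 ∈ O := hαy.2
    have c1 : starRingEnd ℂ (α * y.1) ∈ O := (cj hO ⟨_, b1⟩).2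
    have c2 : starRingEnd ℂ (α * y.2) ∈ O := (cj hO ⟨_, b2⟩).2
    have e : (N : ℂ) * ξ = (N : ℂ) * x.1 * starRingEnd ℂ (α * y.1)
        + (N : ℂ) * x.2 * starRingEnd ℂ (α * y.2) := by rw [hξ]; ring
    rw [e]
    exact O.add_mem (O.mul_mem a1 c1) (O.mul_mem a2 c2)
  obtain ⟨ρ0, hρ0⟩ := av_line h hNξ
  set A : ℂ := (‖dt g‖ : ℂ) ^ 2 * GG u1 u2 u3 (g v) u0 * (starRingEnd ℂ α / (‖α‖ : ℂ) ^ 6) with hA
  have hAK : A ∈ KK O := by
    refine mul_mem (mul_mem (lb_norm_sq_mem hO hdt)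
      (lb_gg_mem hO h1 h2 h3 (hg v hv).1 h0)) (div_mem (conj_mem_KK hO hαK) ?_)
    have e : (‖α‖ : ℂ) ^ 6 = ((‖α‖ : ℂ) ^ 2) ^ 3 := by ring
    rw [e]
    exact pow_mem (lb_norm_sq_mem hO hαK) 3
  have key : ∀ c ∈ R, ∑' t : ℂ, GG u1 u2 u3 (act g (ten v (chi O ω ε N x)) c (t • u0)) (t • u0)
      = A * SS O ω (ε c * c * ξ) := by
    intro c hc
    have hinj : Function.Injective (fun m : O => α * (m : ℂ)) := by
      intro m m' hm
      have := mul_left_cancel₀ hα0 hm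
      exact_mod_cast this
    have hterm : ∀ t : ℂ, GG u1 u2 u3 (act g (ten v (chi O ω ε N x)) c (t • u0)) (t • u0)
        = (‖dt g‖ : ℂ) ^ 2 * chi O ω ε N x c (t • y) * GG u1 u2 u3 (g v) (t • u0) := by
      intro t
      have e1 : g⁻¹ (t • u0) = t • y := by rw [map_smul]
      have e2 : act g (ten v (chi O ω ε N x)) c (t • u0)
          = ((‖dt g‖ : ℂ) ^ 2 * chi O ω ε N x c (t • y)) • (g v) + (0 : ℂ) • (0 : V2) := by
        show ((‖dt g‖ : ℂ) ^ 2) • g (chi O ω ε N x c (g⁻¹ (t • u0)) • v) = _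
        rw [e1, map_smul, smul_smul, smul_zero, add_zero]
      rw [e2, gg_lin, zero_mul, add_zero]
    have hsup : Function.support (fun t : ℂ =>
        GG u1 u2 u3 (act g (ten v (chi O ω ε N x)) c (t • u0)) (t • u0)) ⊆
        Set.range (fun m : O => α * (m : ℂ)) := by
      intro t ht
      rw [Function.mem_support, hterm] at ht
      have hc0 : chi O ω ε N x c (t • y) ≠ 0 := by
        intro h0'
        apply ht
        rw [h0']; ring
      have hin : In O (t • y) := by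
        by_contra hn
        apply hc0
        unfold chi
        rw [if_neg]
        exact fun hh => hn hh.1
      obtain ⟨m, hm⟩ := (hα t).1 hin
      exact ⟨m, hm.symm⟩
    rw [← hinj.tsum_eq hsup]
    rw [SS, ← tsum_mul_left]
    refine tsum_congr (fun m => ?_)
    rw [hterm]
    by_cases hm : (m : ℂ) = 0
    · have z1 : GG u1 u2 u3 (g v) ((α * (m : ℂ)) • u0) = 0 := by
        apply gg_zero
        left
        rw [hm, mul_zero, zero_smul]
        simp [cr]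
      rw [z1, hm]
      simp
    · rw [gg_line _ (mul_ne_zero hα0 hm)]
      have hin : In O ((α * (m : ℂ)) • y) := (hα _).2 ⟨m, rfl⟩
      have hchi : chi O ω ε N x c ((α * (m : ℂ)) • y) = pr ω (ε c * c * ξ) m := by
        unfold chi
        rw [if_pos ⟨hin, h.cop c hc⟩]
        have q1 : ((α * (m : ℂ)) • y).1 = (α * y.1) * m := by
          show α * (m : ℂ) * y.1 = _; ring
        have q2 : ((α * (m : ℂ)) • y).2 = (α * y.2) * m := by
          show α * (m : ℂ) * y.2 = _; ring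
        rw [q1, q2, lb_pr_mul, lb_pr_mul, ← pr_add]
        congr 1
        rw [hξ]; ring
      rw [hchi, hA]
      have hαn : (‖α‖ : ℂ) ≠ 0 := by
        exact_mod_cast (norm_ne_zero_iff.2 hα0)
      have hmn : (‖(m : ℂ)‖ : ℂ) ≠ 0 := by
        exact_mod_cast (norm_ne_zero_iff.2 hm)
      rw [map_mul, norm_mul]
      push_cast
      field_simp
  refine ⟨⟨A, hAK⟩ * ρ0, ?_⟩
  rw [Finset.sum_congr rfl key, ← Finset.mul_sum, hρ0]
  push_cast
  ring

end Pool.Agent.KTD
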