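import Pool.Agent.Lib_helper87.KTD.P.LB
import Pool.Agent.Lib_helper87.KTD.P.TA

set_option autoImplicit false

namespace Pool.Agent.KTD

open Complex Pool.Agent.TCL

variable {O : Subring ℂ} {ω : ℂ} {f : O} {ε : O → O} {N : ℕ} {R : Finset O} {Λ : ℂ →ₗ[KK O] KK O}

private theorem lc_ne {u v : V2} (h : cr u v ≠ 0) : u ≠ 0 ∧ v ≠ 0 := by
  constructor
  · rintro rfl
    exact h (by simp [cr])
  · rintro rfl
    exact h (by simp [cr])

private theorem lc_par {u l : V2} (hu : u ≠ 0) (h : cr u l = 0) : ∃ t : ℂ, t • u = l := by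
  by_cases hl : l = 0
  · exact ⟨0, by simp [hl]⟩
  · obtain ⟨s, -, hs⟩ := par_smul hu hl h
    exact ⟨s, hs.symm⟩

private theorem lc_inj {u : V2} (hu : u ≠ 0) : Function.Injective (fun t : ℂ => t • u) :=
  smul_left_injective ℂ hu

/-- two different lines -/
private theorem lc_two {u v l : V2} (h : cr u v ≠ 0) (h1 : cr u l = 0) (h2 : cr v l = 0) :
    l = 0 := by
  obtain ⟨t, rfl⟩ := lc_par (lc_ne h).1 h1
  have e : cr v (t • u) = - (t * cr u v) := by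
    simp only [cr, Prod.smul_fst, Prod.smul_snd, smul_eq_mul]
    ring
  rw [e] at h2
  have h3 : t = 0 := by
    rcases mul_eq_zero.1 (neg_eq_zero.1 h2) with h4 | h4
    · exact h4
    · exact absurd h4 h
  rw [h3, zero_smul]

open Classical in
/-- the sum over a line -/
private theorem lc_line {u : V2} (hu : u ≠ 0) (H : V2 → ℂ) :
    ∑' l : V2, Set.indicator {l | cr u l = 0} H l = ∑' t : ℂ, H (t • u) := by
  have h1 : Function.support (Set.indicator {l | cr u l = 0} H) ⊆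
      Set.range (fun t : ℂ => t • u) := by
    intro l hl
    have h2 : l ∈ {l | cr u l = 0} := by
      by_contra h3
      exact hl (Set.indicator_of_notMem h3 _)
    exact lc_par hu h2
  rw [← (lc_inj hu).tsum_eq h1]
  refine tsum_congr fun t => ?_
  apply Set.indicator_of_mem
  show cr u (t • u) = 0
  simp only [cr, Prod.smul_fst, Prod.smul_snd, smul_eq_mul]
  ring

private theorem lc_cr0 (u : V2) : cr u 0 = 0 := by simp [cr]

/-- pairwise independent cusps: pointwise the alternating sum is the sum of the terms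
`[l ∈ ℂ u_j] (-1)^j GG (..^u_j..)` (`gg_coc` off the lines, `gg_zero`, `l = 0`) -/
theorem coc_lines (h : Ctx O ω f ε N R Λ) {F : Fm O} (hF : F ∈ MM O ω ε N (GS (KK O)))
    {u0 u1 u2 u3 : V2} (h0 : In (KK O) u0) (h1 : In (KK O) u1) (h2 : In (KK O) u2)
    (h3 : In (KK O) u3) (h01 : cr u0 u1 ≠ 0) (h02 : cr u0 u2 ≠ 0) (h03 : cr u0 u3 ≠ 0)
    (h12 : cr u1 u2 ≠ 0) (h13 : cr u1 u3 ≠ 0) (h23 : cr u2 u3 ≠ 0) :
    TT R u1 u2 u3 F - TT R u0 u2 u3 F + TT R u0 u1 u3 F - TT R u0 u1 u2 F =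
      ∑ c ∈ R, ∑' t : ℂ, GG u1 u2 u3 (F c (t • u0)) (t • u0)
      - ∑ c ∈ R, ∑' t : ℂ, GG u0 u2 u3 (F c (t • u1)) (t • u1)
      + ∑ c ∈ R, ∑' t : ℂ, GG u0 u1 u3 (F c (t • u2)) (t • u2)
      - ∑ c ∈ R, ∑' t : ℂ, GG u0 u1 u2 (F c (t • u3)) (t • u3) := by
  classical
  have hN : Nice F := nice_MM h.quad hF
  unfold TT
  rw [← Finset.sum_sub_distrib, ← Finset.sum_add_distrib, ← Finset.sum_sub_distrib,
    ← Finset.sum_sub_distrib, ← Finset.sum_add_distrib, ← Finset.sum_sub_distrib]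
  refine Finset.sum_congr rfl fun c _ => ?_
  have s0 := gg_summable h.quad h1 h2 h3 hN c
  have s1 := gg_summable h.quad h0 h2 h3 hN c
  have s2 := gg_summable h.quad h0 h1 h3 hN c
  have s3 := gg_summable h.quad h0 h1 h2 hN c
  rw [← lc_line (lc_ne h01).1 (fun l => GG u1 u2 u3 (F c l) l),
    ← lc_line (lc_ne h12).1 (fun l => GG u0 u2 u3 (F c l) l),
    ← lc_line (lc_ne h23).1 (fun l => GG u0 u1 u3 (F c l) l),
    ← lc_line (lc_ne h03).2 (fun l => GG u0 u1 u2 (F c l) l)]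
  have i0 := s0.indicator {l | cr u0 l = 0}
  have i1 := s1.indicator {l | cr u1 l = 0}
  have i2 := s2.indicator {l | cr u2 l = 0}
  have i3 := s3.indicator {l | cr u3 l = 0}
  rw [← s0.tsum_sub s1, ← (s0.sub s1).tsum_add s2, ← ((s0.sub s1).add s2).tsum_sub s3,
    ← i0.tsum_sub i1, ← (i0.sub i1).tsum_add i2, ← ((i0.sub i1).add i2).tsum_sub i3]
  refine tsum_congr fun l => ?_
  by_cases hl : l = 0
  · subst hl
    simp only [Set.indicator_apply, Set.mem_ofPred_eq, lc_cr0, if_true]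
  · simp only [Set.indicator_apply, Set.mem_ofPred_eq]
    by_cases c0 : cr u0 l = 0
    · have c1 : cr u1 l ≠ 0 := fun e => hl (lc_two h01 c0 e)
      have c2 : cr u2 l ≠ 0 := fun e => hl (lc_two h02 c0 e)
      have c3 : cr u3 l ≠ 0 := fun e => hl (lc_two h03 c0 e)
      rw [gg_zero (u1 := u0) (u2 := u2) (u3 := u3) (Or.inl c0),
        gg_zero (u1 := u0) (u2 := u1) (u3 := u3) (Or.inl c0),
        gg_zero (u1 := u0) (u2 := u1) (u3 := u2) (Or.inl c0)]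
      simp [c0, c1, c2, c3]
    by_cases c1 : cr u1 l = 0
    · have c2 : cr u2 l ≠ 0 := fun e => hl (lc_two h12 c1 e)
      have c3 : cr u3 l ≠ 0 := fun e => hl (lc_two h13 c1 e)
      rw [gg_zero (u1 := u1) (u2 := u2) (u3 := u3) (Or.inl c1),
        gg_zero (u1 := u0) (u2 := u1) (u3 := u3) (Or.inr (Or.inl c1)),
        gg_zero (u1 := u0) (u2 := u1) (u3 := u2) (Or.inr (Or.inl c1))]
      simp [c0, c1, c2, c3]
    by_cases c2 : cr u2 l = 0
    · have c3 : cr u3 l ≠ 0 := fun e => hl (lc_two h23 c2 e)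
      rw [gg_zero (u1 := u1) (u2 := u2) (u3 := u3) (Or.inr (Or.inl c2)),
        gg_zero (u1 := u0) (u2 := u2) (u3 := u3) (Or.inr (Or.inl c2)),
        gg_zero (u1 := u0) (u2 := u1) (u3 := u2) (Or.inr (Or.inr c2))]
      simp [c0, c1, c2, c3]
    by_cases c3 : cr u3 l = 0
    · rw [gg_zero (u1 := u1) (u2 := u2) (u3 := u3) (Or.inr (Or.inr c3)),
        gg_zero (u1 := u0) (u2 := u2) (u3 := u3) (Or.inr (Or.inr c3)),
        gg_zero (u1 := u0) (u2 := u1) (u3 := u3) (Or.inr (Or.inr c3))]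
      simp [c0, c1, c2, c3]
    rw [gg_coc c0 c1 c2 c3]
    simp [c0, c1, c2, c3]

private theorem lc_smul (k : KK O) (u1 u2 u3 v l : V2) :
    GG u1 u2 u3 (k • v) l = (k : ℂ) * GG u1 u2 u3 v l := by
  have e := gg_lin u1 u2 u3 v 0 l (k : ℂ) 0
  rw [zero_mul, add_zero, smul_zero, add_zero] at e
  exact e

private theorem lc_add (u1 u2 u3 v w l : V2) :
    GG u1 u2 u3 (v + w) l = GG u1 u2 u3 v l + GG u1 u2 u3 w l := by
  have e := gg_lin u1 u2 u3 v w l 1 1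
  rw [one_smul, one_smul, one_mul, one_mul] at e
  exact e

private theorem lc_gen (h : Ctx O ω f ε N R Λ) {F : Fm O} (hF : F ∈ MM O ω ε N (GS (KK O)))
    {u0 u1 u2 u3 : V2} (h0 : In (KK O) u0) (h1 : In (KK O) u1) (h2 : In (KK O) u2)
    (h3 : In (KK O) u3) (n0 : u0 ≠ 0) :
    ∃ ρ : KK O, ∑ c ∈ R, ∑' t : ℂ, GG u1 u2 u3 (F c (t • u0)) (t • u0) = ρ * LE O ε := by
  induction hF using Submodule.span_induction with
  | mem G hG =>
    obtain ⟨g, hg, v, x, hv, hx, rfl⟩ := hG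
    exact line_gen h hg hv hx h0 h1 h2 h3 n0
  | zero =>
    refine ⟨0, ?_⟩
    have e : ∀ t : ℂ, GG u1 u2 u3 (0 : V2) (t • u0) = 0 := by
      intro t
      have e1 := gg_lin u1 u2 u3 0 0 (t • u0) 0 0
      rw [smul_zero, add_zero] at e1
      rw [e1]
      ring
    have e2 : ∀ c : O, ∑' t : ℂ, GG u1 u2 u3 ((0 : Fm O) c (t • u0)) (t • u0) = 0 := by
      intro c
      have e3 : ∀ t : ℂ, GG u1 u2 u3 ((0 : Fm O) c (t • u0)) (t • u0) = 0 := fun t => e t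
      simp only [e3, tsum_zero]
    rw [Finset.sum_congr rfl fun c _ => e2 c]
    simp
  | add G G' hG hG' iG iG' =>
    obtain ⟨a, ha⟩ := iG
    obtain ⟨b, hb⟩ := iG'
    refine ⟨a + b, ?_⟩
    have e : ∀ c : O, ∑' t : ℂ, GG u1 u2 u3 ((G + G') c (t • u0)) (t • u0) =
        ∑' t : ℂ, GG u1 u2 u3 (G c (t • u0)) (t • u0) +
          ∑' t : ℂ, GG u1 u2 u3 (G' c (t • u0)) (t • u0) := by
      intro c
      have s1 := (gg_summable h.quad h1 h2 h3 (nice_MM h.quad hG) c).comp_injective (lc_inj n0)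
      have s2 := (gg_summable h.quad h1 h2 h3 (nice_MM h.quad hG') c).comp_injective (lc_inj n0)
      refine Eq.trans (tsum_congr fun t => ?_) (s1.tsum_add s2)
      exact lc_add _ _ _ _ _ _
    simp only [e]
    rw [Finset.sum_add_distrib, ha, hb]
    push_cast
    ring
  | smul k G hG iG =>
    obtain ⟨a, ha⟩ := iG
    refine ⟨k * a, ?_⟩
    have e : ∀ c : O, ∑' t : ℂ, GG u1 u2 u3 ((k • G) c (t • u0)) (t • u0) =
        (k : ℂ) * ∑' t : ℂ, GG u1 u2 u3 (G c (t • u0)) (t • u0) := by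
      intro c
      rw [← tsum_mul_left]
      refine tsum_congr fun t => ?_
      exact lc_smul _ _ _ _ _ _
    simp only [e]
    rw [← Finset.mul_sum, ha]
    push_cast
    ring

/-- `coc_lines`, `line_gen` and span induction; if two cusps are proportional the alternating sum is
zero by `tt_par`, `tt_swap`, `tt_us`, `par_smul` -/
theorem tt_coc (h : Ctx O ω f ε N R Λ) {F : Fm O} (hF : F ∈ MM O ω ε N (GS (KK O)))
    {u0 u1 u2 u3 : V2} (h0 : In (KK O) u0) (h1 : In (KK O) u1) (h2 : In (KK O) u2)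
    (h3 : In (KK O) u3) (n0 : u0 ≠ 0) (n1 : u1 ≠ 0) (n2 : u2 ≠ 0) (n3 : u3 ≠ 0) :
    ∃ ρ : KK O, TT R u1 u2 u3 F - TT R u0 u2 u3 F + TT R u0 u1 u3 F - TT R u0 u1 u2 F
      = ρ * LE O ε := by
  -- sums with two proportional cusps
  have p12 : ∀ {a b c : V2}, cr a b = 0 → TT R a b c F = 0 := fun e => tt_par R F e
  have p13 : ∀ {a b c : V2}, cr a c = 0 → TT R a b c F = 0 := by
    intro a b c e
    have e1 := (tt_swap R a b c F).2
    have e2 : TT R a c b F = 0 := p12 e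
    rw [e2] at e1
    exact neg_eq_zero.1 e1.symm
  have p23 : ∀ {a b c : V2}, cr b c = 0 → TT R a b c F = 0 := by
    intro a b c e
    have e1 := (tt_swap R a b c F).1
    have e2 : TT R b a c F = 0 := p13 e
    rw [e2] at e1
    exact neg_eq_zero.1 e1.symm
  by_cases h01 : cr u0 u1 = 0
  · obtain ⟨s, hs, rfl⟩ := par_smul n0 n1 h01
    refine ⟨0, ?_⟩
    rw [(tt_us R s hs u0 u2 u3 F).1, p12 h01, p12 h01]
    simp
  by_cases h02 : cr u0 u2 = 0
  · obtain ⟨s, hs, rfl⟩ := par_smul n0 n2 h02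
    refine ⟨0, ?_⟩
    rw [(tt_us R s hs u1 u0 u3 F).2.1, p12 h02, p13 h02, (tt_swap R u0 u1 u3 F).1]
    simp
  by_cases h03 : cr u0 u3 = 0
  · obtain ⟨s, hs, rfl⟩ := par_smul n0 n3 h03
    refine ⟨0, ?_⟩
    rw [(tt_us R s hs u1 u2 u0 F).2.2, p13 h03, p13 h03, (tt_swap R u1 u0 u2 F).2,
      (tt_swap R u0 u1 u2 F).1]
    simp
  by_cases h12 : cr u1 u2 = 0
  · obtain ⟨s, hs, rfl⟩ := par_smul n1 n2 h12
    refine ⟨0, ?_⟩
    rw [(tt_us R s hs u0 u1 u3 F).2.1, p12 h12, p23 h12]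
    simp
  by_cases h13 : cr u1 u3 = 0
  · obtain ⟨s, hs, rfl⟩ := par_smul n1 n3 h13
    refine ⟨0, ?_⟩
    rw [(tt_us R s hs u0 u2 u1 F).2.2, p13 h13, p23 h13, (tt_swap R u0 u1 u2 F).2]
    simp
  by_cases h23 : cr u2 u3 = 0
  · obtain ⟨s, hs, rfl⟩ := par_smul n2 n3 h23
    refine ⟨0, ?_⟩
    rw [(tt_us R s hs u0 u1 u2 F).2.2, p23 h23, p23 h23]
    simp
  obtain ⟨a0, e0⟩ := lc_gen h hF h0 h1 h2 h3 n0
  obtain ⟨a1, e1⟩ := lc_gen h hF h1 h0 h2 h3 n1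
  obtain ⟨a2, e2⟩ := lc_gen h hF h2 h0 h1 h3 n2
  obtain ⟨a3, e3⟩ := lc_gen h hF h3 h0 h1 h2 n3
  refine ⟨a0 - a1 + a2 - a3, ?_⟩
  rw [coc_lines h hF h0 h1 h2 h3 h01 h02 h03 h12 h13 h23, e0, e1, e2, e3]
  push_cast
  ring

theorem tau_coc (h : Ctx O ω f ε N R Λ) {F : Fm O} (hF : F ∈ MM O ω ε N (GS (KK O)))
    {u0 u1 u2 u3 : V2} (h0 : In (KK O) u0) (h1 : In (KK O) u1) (h2 : In (KK O) u2)
    (h3 : In (KK O) u3) (n0 : u0 ≠ 0) (n1 : u1 ≠ 0) (n2 : u2 ≠ 0) (n3 : u3 ≠ 0) :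
    tau Λ R u1 u2 u3 F - tau Λ R u0 u2 u3 F + tau Λ R u0 u1 u3 F - tau Λ R u0 u1 u2 F
      = 0 := by
  obtain ⟨ρ, e⟩ := tt_coc h hF h0 h1 h2 h3 n0 n1 n2 n3
  unfold tau
  rw [← map_sub, ← map_add, ← map_sub, e]
  have e2 : (ρ : ℂ) * LE O ε = ρ • LE O ε := rfl
  rw [e2, map_smul, h.Λ_LE, smul_zero]

end Pool.Agent.KTD
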