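import Pool.Agent.Lib_helper87.KTD.P.DA
import Pool.Agent.Lib_helper87.KTD.P.GB

set_option autoImplicit false

namespace Pool.Agent.KTD

open Complex Pool.Agent.TCL

variable {O : Subring ℂ} {N : ℕ}

private theorem pa_un_apply (n : ℂ) (l : V2) : un n l = (l.1, l.2 + n * l.1) := rfl

private theorem pa_dg_apply (s t : ℂˣ) (l : V2) : dg s t l = ((s : ℂ) * l.1, (t : ℂ) * l.2) := rfl

theorem un_mul (n m : ℂ) : un n * un m = un (n + m) := by
  apply LinearEquiv.ext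
  intro l
  rw [LinearEquiv.mul_apply, pa_un_apply, pa_un_apply, pa_un_apply]
  ext
  · rfl
  · show l.2 + m * l.1 + n * l.1 = l.2 + (n + m) * l.1
    ring

theorem un_zero : un 0 = 1 := by
  apply LinearEquiv.ext
  intro l
  rw [pa_un_apply]
  ext
  · rfl
  · show l.2 + 0 * l.1 = l.2
    ring

theorem un_pow (n : ℂ) (k : ℕ) : un n ^ k = un (k * n) := by
  induction k with
  | zero => rw [pow_zero, Nat.cast_zero, zero_mul, un_zero]
  | succ k ih =>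
    rw [pow_succ, ih, un_mul]
    congr 1
    push_cast
    ring

theorem dg_mul (s t s' t' : ℂˣ) : dg s t * dg s' t' = dg (s * s') (t * t') := by
  apply LinearEquiv.ext
  intro l
  rw [LinearEquiv.mul_apply, pa_dg_apply, pa_dg_apply, pa_dg_apply]
  ext
  · show (s : ℂ) * ((s' : ℂ) * l.1) = ((s * s' : ℂˣ) : ℂ) * l.1
    push_cast
    ring
  · show (t : ℂ) * ((t' : ℂ) * l.2) = ((t * t' : ℂˣ) : ℂ) * l.2
    push_cast
    ring

theorem dg_un (s t : ℂˣ) (n : ℂ) : dg s t * un n = un (t * n / s) * dg s t := by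
  have hs : (s : ℂ) ≠ 0 := s.ne_zero
  apply LinearEquiv.ext
  intro l
  rw [LinearEquiv.mul_apply, LinearEquiv.mul_apply, pa_dg_apply, pa_un_apply, pa_un_apply,
    pa_dg_apply]
  ext
  · rfl
  · show (t : ℂ) * (l.2 + n * l.1) = (t : ℂ) * l.2 + (t : ℂ) * n / s * (s * l.1)
    field_simp

theorem dt_un (n : ℂ) : dt (un n) = 1 := by
  show cr (un n (1, 0)) (un n (0, 1)) = 1
  rw [pa_un_apply, pa_un_apply]
  show (1 : ℂ) * (1 + n * 0) - (0 + n * 1) * 0 = 1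
  ring

theorem dt_dg (s t : ℂˣ) : dt (dg s t) = s * t := by
  show cr (dg s t (1, 0)) (dg s t (0, 1)) = s * t
  rw [pa_dg_apply, pa_dg_apply]
  show ((s : ℂ) * 1) * ((t : ℂ) * 1) - ((t : ℂ) * 0) * ((s : ℂ) * 0) = s * t
  ring

theorem isB_one : IsB O N 1 := by
  refine ⟨1, 1, 0, ?_, ?_, ?_, ?_, (ON O N).zero_mem, ?_⟩
  · exact (ON O N).one_mem
  · rw [inv_one]; exact (ON O N).one_mem
  · exact (ON O N).one_mem
  · rw [inv_one]; exact (ON O N).one_mem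
  · rw [un_zero, one_mul]
    apply LinearEquiv.ext
    intro l
    rw [pa_dg_apply]
    ext
    · show l.1 = ((1 : ℂˣ) : ℂ) * l.1
      simp
    · show l.2 = ((1 : ℂˣ) : ℂ) * l.2
      simp

theorem isB_mul {g g' : GL2} (h : IsB O N g) (h' : IsB O N g') : IsB O N (g * g') := by
  obtain ⟨s, t, n, h1, h2, h3, h4, h5, rfl⟩ := h
  obtain ⟨s', t', n', h1', h2', h3', h4', h5', rfl⟩ := h'
  refine ⟨s * s', t * t', n + t * n' / s, ?_, ?_, ?_, ?_, ?_, ?_⟩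
  · rw [Units.val_mul]; exact (ON O N).mul_mem h1 h1'
  · rw [mul_inv, Units.val_mul]; exact (ON O N).mul_mem h2 h2'
  · rw [Units.val_mul]; exact (ON O N).mul_mem h3 h3'
  · rw [mul_inv, Units.val_mul]; exact (ON O N).mul_mem h4 h4'
  · refine (ON O N).add_mem h5 ?_
    rw [div_eq_mul_inv, ← Units.val_inv_eq_inv_val]
    exact (ON O N).mul_mem ((ON O N).mul_mem h3 h5') h2
  · rw [← dg_mul, ← un_mul, mul_assoc (un n) (dg s t), ← mul_assoc (dg s t) (un n'), dg_un,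
      mul_assoc (un n), mul_assoc (un (t * n' / s))]

theorem isB_un {n : ℂ} (h : n ∈ ON O N) : IsB O N (un n) := by
  obtain ⟨s, t, m, h1, h2, h3, h4, h5, h6⟩ := (isB_one : IsB O N 1)
  have e1 : dg (1 : ℂˣ) 1 = 1 := by
    apply LinearEquiv.ext
    intro l
    rw [pa_dg_apply]
    ext
    · show ((1 : ℂˣ) : ℂ) * l.1 = l.1
      simp
    · show ((1 : ℂˣ) : ℂ) * l.2 = l.2
      simp
  refine ⟨1, 1, n, ?_, ?_, ?_, ?_, h, ?_⟩
  · exact (ON O N).one_mem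
  · rw [inv_one]; exact (ON O N).one_mem
  · exact (ON O N).one_mem
  · rw [inv_one]; exact (ON O N).one_mem
  · rw [e1, mul_one]

theorem isB_dg {s t : ℂˣ} (h1 : (s : ℂ) ∈ ON O N) (h2 : ((s⁻¹ : ℂˣ) : ℂ) ∈ ON O N)
    (h3 : (t : ℂ) ∈ ON O N) (h4 : ((t⁻¹ : ℂˣ) : ℂ) ∈ ON O N) : IsB O N (dg s t) :=
  ⟨s, t, 0, h1, h2, h3, h4, (ON O N).zero_mem, by rw [un_zero, one_mul]⟩

theorem isB_inv {g : GL2} (h : IsB O N g) : IsB O N g⁻¹ := by
  obtain ⟨s, t, n, h1, h2, h3, h4, h5, rfl⟩ := h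
  have e1 : dg (1 : ℂˣ) 1 = 1 := by
    apply LinearEquiv.ext
    intro l
    rw [pa_dg_apply]
    ext
    · show ((1 : ℂˣ) : ℂ) * l.1 = l.1
      simp
    · show ((1 : ℂˣ) : ℂ) * l.2 = l.2
      simp
  have e2 : (dg s t)⁻¹ = dg s⁻¹ t⁻¹ := by
    apply inv_eq_of_mul_eq_one_right
    rw [dg_mul, mul_inv_cancel, mul_inv_cancel, e1]
  have e3 : (un n)⁻¹ = un (-n) := by
    apply inv_eq_of_mul_eq_one_right
    rw [un_mul, add_neg_cancel, un_zero]
  rw [mul_inv_rev, e2, e3]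
  refine isB_mul (isB_dg h2 ?_ h4 ?_) (isB_un ((ON O N).neg_mem h5))
  · rw [inv_inv]; exact h1
  · rw [inv_inv]; exact h3

private theorem pa_In {g : GL2} (h : IsB O N g) {l : V2} (hl : In (ON O N) l) :
    In (ON O N) (g l) := by
  obtain ⟨s, t, n, h1, h2, h3, h4, h5, rfl⟩ := h
  rw [LinearEquiv.mul_apply, pa_dg_apply, pa_un_apply]
  refine ⟨(ON O N).mul_mem h1 hl.1, ?_⟩
  exact (ON O N).add_mem ((ON O N).mul_mem h3 hl.2)
    ((ON O N).mul_mem h5 ((ON O N).mul_mem h1 hl.1))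

theorem isB_GS {g : GL2} (h : IsB O N g) : g ∈ GS (ON O N) := by
  intro l hl
  exact ⟨pa_In h hl, pa_In (isB_inv h) hl⟩

theorem isB_e2 {g : GL2} (h : IsB O N g) : ∃ t : ℂ, t ≠ 0 ∧ g (0, 1) = t • ((0, 1) : V2) := by
  obtain ⟨s, t, n, h1, h2, h3, h4, h5, rfl⟩ := h
  refine ⟨t, t.ne_zero, ?_⟩
  rw [LinearEquiv.mul_apply, pa_dg_apply, pa_un_apply]
  ext
  · show (s : ℂ) * 0 = (t : ℂ) * 0
    ring
  · show (t : ℂ) * 1 + n * ((s : ℂ) * 0) = (t : ℂ) * 1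
    ring

/-- an element of `GL_2(O[1/N])` which fixes the cusp `e2` is lower triangular -/
theorem isB_of_e2 {g : GL2} (hg : g ∈ GS (ON O N)) (h : (g (0, 1)).1 = 0) : IsB O N g := by
  have z0 : (0 : ℂ) ∈ ON O N := (ON O N).zero_mem
  have z1 : (1 : ℂ) ∈ ON O N := (ON O N).one_mem
  have hA := hg ((1, 0) : V2) ⟨z1, z0⟩
  have hB := hg ((0, 1) : V2) ⟨z0, z1⟩
  -- the coordinates
  have lin : ∀ (q : GL2) (l : V2), q l = l.1 • q (1, 0) + l.2 • q (0, 1) := by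
    intro q l
    rw [← map_smul, ← map_smul, ← map_add]
    congr 1
    ext
    · show l.1 = l.1 * 1 + l.2 * 0
      ring
    · show l.2 = l.1 * 0 + l.2 * 1
      ring
  set a := (g (1, 0)).1 with ha
  set b := (g (1, 0)).2 with hb
  set d := (g (0, 1)).2 with hd
  have gl : ∀ l : V2, g l = (l.1 * a, l.1 * b + l.2 * d) := by
    intro l
    rw [lin g l]
    ext
    · show l.1 * (g (1, 0)).1 + l.2 * (g (0, 1)).1 = l.1 * a
      rw [h]
      ring
    · rfl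
  -- the inverse
  have k1 : g (g⁻¹ (1, 0)) = (1, 0) := by
    rw [← LinearEquiv.mul_apply, mul_inv_cancel]; rfl
  have k2 : g (g⁻¹ (0, 1)) = (0, 1) := by
    rw [← LinearEquiv.mul_apply, mul_inv_cancel]; rfl
  rw [gl] at k1 k2
  have k11 : (g⁻¹ (1, 0)).1 * a = 1 := congrArg Prod.fst k1
  have k21 : (g⁻¹ (0, 1)).1 * a = 0 := congrArg Prod.fst k2
  have k22 : (g⁻¹ (0, 1)).1 * b + (g⁻¹ (0, 1)).2 * d = 1 := congrArg Prod.snd k2
  have ane : a ≠ 0 := by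
    intro h0
    rw [h0, mul_zero] at k11
    exact zero_ne_one k11
  have k0 : (g⁻¹ (0, 1)).1 = 0 := by
    rcases mul_eq_zero.mp k21 with h1 | h1
    · exact h1
    · exact absurd h1 ane
  rw [k0, zero_mul, zero_add] at k22
  have dne : d ≠ 0 := by
    intro h0
    rw [h0, mul_zero] at k22
    exact zero_ne_one k22
  have ai : a⁻¹ = (g⁻¹ (1, 0)).1 := (eq_inv_of_mul_eq_one_left k11).symm
  have di : d⁻¹ = (g⁻¹ (0, 1)).2 := (eq_inv_of_mul_eq_one_left k22).symm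
  have ha' : a⁻¹ ∈ ON O N := by rw [ai]; exact hA.2.1
  have hd' : d⁻¹ ∈ ON O N := by rw [di]; exact hB.2.2
  refine ⟨Units.mk0 a ane, Units.mk0 d dne, b * a⁻¹, hA.1.1, ?_, hB.1.2, ?_,
    (ON O N).mul_mem hA.1.2 ha', ?_⟩
  · rw [Units.val_inv_eq_inv_val]; exact ha'
  · rw [Units.val_inv_eq_inv_val]; exact hd'
  · apply LinearEquiv.ext
    intro l
    rw [LinearEquiv.mul_apply, pa_dg_apply, pa_un_apply, gl l]
    ext
    · show l.1 * a = a * l.1
      ring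
    · show l.1 * b + l.2 * d = d * l.2 + b * a⁻¹ * (a * l.1)
      field_simp
      ring

end Pool.Agent.KTD
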