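import Pool.Agent.Lib_helper87.KTD.P.PA
import Pool.Agent.Lib_helper87.KTD.P.DD
import Pool.Agent.Lib_helper76.TCL.P.SB
import Pool.Agent.Lib_helper76.TCL.P.QK

set_option autoImplicit false

namespace Pool.Agent.KTD

open Complex Pool.Agent.TCL

variable {O : Subring ℂ} {ω : ℂ} {f : O} {ε : O → O} {N : ℕ} {R : Finset O} {Λ : ℂ →ₗ[KK O] KK O}

theorem pf_mul (g g' : GL2) (F : Fs O) : pf (g * g') F = pf g (pf g' F) := by
  funext c l
  show F c ((g * g')⁻¹ l) = F c (g'⁻¹ (g⁻¹ l))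
  rw [mul_inv_rev]
  rfl

theorem pf_one (F : Fs O) : pf 1 F = F := by
  funext c l
  show F c ((1 : GL2)⁻¹ l) = F c l
  rw [inv_one]
  rfl

theorem pf_add (g : GL2) (F F' : Fs O) : pf g (F + F') = pf g F + pf g F' := rfl

theorem pf_smul (g : GL2) (k : KK O) (F : Fs O) : pf g (k • F) = k • pf g F := rfl

theorem pf_mem {g : GL2} (hg : IsB O N g) {F : Fs O} (hF : F ∈ FP O ω ε N) :
    pf g F ∈ FP O ω ε N := by
  unfold FP at hF ⊢
  induction hF using Submodule.span_induction with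
  | mem F hF =>
    obtain ⟨g', x, hg', hx, hx2, rfl⟩ := hF
    rw [← pf_mul]
    exact Submodule.subset_span ⟨g * g', x, isB_mul hg hg', hx, hx2, rfl⟩
  | zero => exact Submodule.zero_mem _
  | add F F' _ _ h1 h2 =>
    rw [pf_add]
    exact Submodule.add_mem _ h1 h2
  | smul k F _ h1 =>
    rw [pf_smul]
    exact Submodule.smul_mem _ _ h1

theorem chi_mem {x : V2} (hx : In O ((N : ℂ) • x)) (hx2 : x.2 ∉ O) :
    chi O ω ε N x ∈ FP O ω ε N :=
  Submodule.subset_span ⟨1, x, isB_one, hx, hx2, (pf_one _).symm⟩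

theorem act_ten (g : GL2) (v : V2) (F : Fs O) :
    act g (ten v F) = fun c l => ((‖dt g‖ : ℂ) ^ 2) • ten (g v) (pf g F) c l := by
  funext c l
  show ((‖dt g‖ : ℂ) ^ 2) • g (F c (g⁻¹ l) • v) = ((‖dt g‖ : ℂ) ^ 2) • (F c (g⁻¹ l) • g v)
  rw [map_smul]

theorem pb_pr_add_right (ω t s g : ℂ) : pr ω t (s + g) = pr ω t s * pr ω t g := by
  have h : ∀ a b : ℂ, pr ω a b = starRingEnd ℂ (pr ω b a) := fun a b => (pr_conj' ω b a).symm
  rw [h t (s + g), pr_add, map_mul, ← h, ← h]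

theorem pb_pr_one (hO : Quad O ω) (a b z l : ℂ) (ha : a ∈ O) (hb : b ∈ O) (hz : z ∈ O)
    (hl : l ∈ O) : pr ω (a * b * z) l = 1 := by
  have h1 := pr_mem hO ⟨a * b * z, O.mul_mem (O.mul_mem ha hb) hz⟩ ⟨l, hl⟩
  exact h1

theorem chi_per (hO : Quad O ω) (x : V2) {y : V2} (hy : In O y) :
    chi O ω ε N (x + y) = chi O ω ε N x := by
  classical
  funext c l
  unfold chi
  by_cases h : In O l ∧ IsCoprime c (N : O)
  · rw [if_pos h, if_pos h]
    obtain ⟨⟨hl1, hl2⟩, _⟩ := h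
    obtain ⟨hy1, hy2⟩ := hy
    have e1 : pr ω (ε c * c * y.1) l.1 = 1 := pb_pr_one hO _ _ _ _ (ε c).2 c.2 hy1 hl1
    have e2 : pr ω (ε c * c * y.2) l.2 = 1 := pb_pr_one hO _ _ _ _ (ε c).2 c.2 hy2 hl2
    rw [Prod.fst_add, Prod.snd_add, mul_add, mul_add, pr_add, pr_add, e1, e2, mul_one, mul_one]
  · rw [if_neg h, if_neg h]

theorem pb_un_inv (n : ℂ) (l : V2) : (un n)⁻¹ l = (l.1, l.2 - n * l.1) := rfl

theorem chi_un (hO : Quad O ω) (n : O) (x : V2) :
    pf (un n) (chi O ω ε N x) = chi O ω ε N (x.1 - starRingEnd ℂ n * x.2, x.2) := by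
  classical
  funext c l
  show chi O ω ε N x c ((un n)⁻¹ l) = _
  rw [pb_un_inv]
  unfold chi
  have hin : In O ((l.1, l.2 - n * l.1) : V2) ↔ In O l := by
    constructor
    · rintro ⟨h1, h2⟩
      refine ⟨h1, ?_⟩
      have h3 := O.add_mem h2 (O.mul_mem n.2 h1)
      have h4 : l.2 - n * l.1 + (n : ℂ) * l.1 = l.2 := by ring
      show l.2 ∈ O
      rw [← h4]
      exact h3
    · rintro ⟨h1, h2⟩
      exact ⟨h1, O.sub_mem h2 (O.mul_mem n.2 h1)⟩
  by_cases h : In O l ∧ IsCoprime c (N : O)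
  · rw [if_pos ⟨hin.2 h.1, h.2⟩, if_pos h]
    show pr ω (ε c * c * x.1) l.1 * pr ω (ε c * c * x.2) (l.2 - n * l.1) =
      pr ω (ε c * c * (x.1 - starRingEnd ℂ n * x.2)) l.1 * pr ω (ε c * c * x.2) l.2
    have e1 : l.2 - n * l.1 = l.2 + starRingEnd ℂ (-starRingEnd ℂ (n : ℂ)) * l.1 := by
      rw [map_neg, Complex.conj_conj]
      ring
    have e2 : (ε c : ℂ) * c * (x.1 - starRingEnd ℂ n * x.2) =
        ε c * c * x.1 + -starRingEnd ℂ (n : ℂ) * (ε c * c * x.2) := by ring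
    rw [e1, pb_pr_add_right, e2, pr_add, ← pr_mul]
    ring
  · rw [if_neg h, if_neg fun h' => h ⟨hin.1 h'.1, h'.2⟩]

theorem pb_ten_add (v : V2) (F F' : Fs O) : ten v (F + F') = ten v F + ten v F' := by
  funext c l
  show (F c l + F' c l) • v = F c l • v + F' c l • v
  rw [add_smul]

theorem pb_ten_smul (v : V2) (k : KK O) (F : Fs O) : ten v (k • F) = k • ten v F := by
  funext c l
  show ((k : ℂ) * F c l) • v = (k : ℂ) • F c l • v
  rw [mul_smul]

theorem pb_ten_zero (v : V2) : ten v (0 : Fs O) = 0 := by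
  funext c l
  show (0 : ℂ) • v = 0
  rw [zero_smul]

theorem pb_norm (hO : Quad O ω) {z : ℂ} (hz : z ∈ KK O) : ((‖z‖ : ℂ) ^ 2) ∈ KK O := by
  rw [← Complex.mul_conj']
  exact mul_mem hz (conj_mem_KK hO hz)

theorem pb_apply (hN : 0 < N) {g : GL2} (hg : IsB O N g) {v : V2} (hv : In (KK O) v) :
    In (KK O) (g v) := by
  obtain ⟨s, t, n, hs, _, ht, _, hn, rfl⟩ := hg
  exact ⟨mul_mem (ON_le_KK hN hs) hv.1, add_mem (mul_mem (ON_le_KK hN ht) hv.2)
    (mul_mem (ON_le_KK hN hn) (mul_mem (ON_le_KK hN hs) hv.1))⟩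

theorem pb_dt (hN : 0 < N) {g : GL2} (hg : IsB O N g) : dt g ∈ KK O := by
  obtain ⟨s, t, n, hs, _, ht, _, hn, rfl⟩ := hg
  rw [dt_mul, dt_un, dt_dg, one_mul]
  exact mul_mem (ON_le_KK hN hs) (ON_le_KK hN ht)

theorem pb_act_ten (g : GL2) (v : V2) (F : Fs O) :
    act g (ten v F) = ten (((‖dt g‖ : ℂ) ^ 2) • g v) (pf g F) := by
  rw [act_ten]
  funext c l
  show ((‖dt g‖ : ℂ) ^ 2) • (pf g F c l • g v) = pf g F c l • (((‖dt g‖ : ℂ) ^ 2) • g v)
  rw [smul_comm]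

theorem pb_in_smul {k : ℂ} (hk : k ∈ KK O) {v : V2} (hv : In (KK O) v) : In (KK O) (k • v) :=
  ⟨mul_mem hk hv.1, mul_mem hk hv.2⟩

/-- `MP` is in `MM (GS (ON O N))` and stable under lower triangular elements -/
theorem MP_le (hO : Quad O ω) (hN : 0 < N) : MP O ω ε N ≤ MM O ω ε N (GS (ON O N)) := by
  unfold MP
  rw [Submodule.span_le]
  rintro _ ⟨v, F, hv, hF, rfl⟩
  unfold FP at hF
  show ten v F ∈ MM O ω ε N (GS (ON O N))
  induction hF using Submodule.span_induction with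
  | mem F hF =>
    obtain ⟨g, x, hg, hx, _, rfl⟩ := hF
    have hd : dt g ≠ 0 := dt_ne_zero g
    have hn : ((‖dt g‖ : ℂ) ^ 2) ≠ 0 := pow_ne_zero _ (by exact_mod_cast norm_ne_zero_iff.2 hd)
    refine Submodule.subset_span ⟨g, isB_GS hg, (((‖dt g‖ : ℂ) ^ 2)⁻¹) • g⁻¹ v, x,
      pb_in_smul (inv_mem (pb_norm hO (pb_dt hN hg))) (pb_apply hN (isB_inv hg) hv), hx, ?_⟩
    rw [pb_act_ten, map_smul, smul_smul, mul_inv_cancel₀ hn, one_smul]
    congr 1
    show v = (g * g⁻¹) v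
    rw [mul_inv_cancel]
    rfl
  | zero =>
    rw [pb_ten_zero]
    exact Submodule.zero_mem _
  | add F F' _ _ h1 h2 =>
    rw [pb_ten_add]
    exact Submodule.add_mem _ h1 h2
  | smul k F _ h1 =>
    rw [pb_ten_smul]
    exact Submodule.smul_mem _ _ h1

theorem MP_act (hO : Quad O ω) (hN : 0 < N) {g : GL2} (hg : IsB O N g) {F : Fm O}
    (hF : F ∈ MP O ω ε N) : act g F ∈ MP O ω ε N := by
  unfold MP at hF ⊢
  induction hF using Submodule.span_induction with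
  | mem F hF =>
    obtain ⟨v, f, hv, hf, rfl⟩ := hF
    rw [pb_act_ten]
    exact Submodule.subset_span ⟨_, _, pb_in_smul (pb_norm hO (pb_dt hN hg)) (pb_apply hN hg hv),
      pf_mem hg hf, rfl⟩
  | zero =>
    have h : act g (0 : Fm O) = 0 := by
      have := act_smul g (0 : KK O) (0 : Fm O)
      rwa [zero_smul, zero_smul] at this
    rw [h]
    exact Submodule.zero_mem _
  | add F F' _ _ h1 h2 =>
    rw [act_add]
    exact Submodule.add_mem _ h1 h2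
  | smul k F _ h1 =>
    rw [act_smul]
    exact Submodule.smul_mem _ _ h1

end Pool.Agent.KTD
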