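import Pool.Agent.Lib_helper87.KTD.P.PB
import Pool.Agent.Lib_helper76.TCL.P.QA
import Pool.Agent.Lib_helper76.TCL.P.QB
import Pool.Agent.Lib_helper76.TCL.P.SO

set_option autoImplicit false

namespace Pool.Agent.KTD

open Complex Pool.Agent.TCL

variable {O : Subring ℂ} {ω : ℂ} {f : O} {ε : O → O} {N : ℕ} {R : Finset O} {Λ : ℂ →ₗ[KK O] KK O}

/-- the ideal `{l : conj(b) l ∈ O}` is principal, contains `N` and not `1` -/
theorem s1_exists (h : Ctx O ω f ε N R Λ) {b : ℂ} (hb : (N : ℂ) * b ∈ O) (hb' : b ∉ O) :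
    ∃ s : O, s ≠ 0 ∧ ¬ IsUnit s ∧ s ∣ (N : O) ∧ ∀ l : O, starRingEnd ℂ b * l ∈ O ↔ s ∣ l := by
  let I : Ideal O :=
    { carrier := {l : O | starRingEnd ℂ b * l ∈ O}
      add_mem' := by
        intro x y hx hy
        show starRingEnd ℂ b * ((x + y : O) : ℂ) ∈ O
        push_cast
        rw [mul_add]
        exact O.add_mem hx hy
      zero_mem' := by
        show starRingEnd ℂ b * ((0 : O) : ℂ) ∈ O
        push_cast
        rw [mul_zero]
        exact O.zero_mem
      smul_mem' := by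
        intro c x hx
        show starRingEnd ℂ b * ((c * x : O) : ℂ) ∈ O
        push_cast
        have e : starRingEnd ℂ b * ((c : ℂ) * x) = (c : ℂ) * (starRingEnd ℂ b * x) := by ring
        rw [e]
        exact O.mul_mem c.2 hx }
  have hI : ∀ l : O, l ∈ I ↔ starRingEnd ℂ b * l ∈ O := fun l => Iff.rfl
  have := h.pid
  obtain ⟨s, hs⟩ := (IsPrincipalIdealRing.principal I).principal
  have hs' : ∀ l : O, starRingEnd ℂ b * l ∈ O ↔ s ∣ l := by
    intro l
    rw [← hI, hs]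
    exact Ideal.mem_span_singleton
  have hN : s ∣ (N : O) := by
    rw [← hs']
    have e := conj_mem h.quad hb
    rw [map_mul, map_natCast] at e
    push_cast
    rw [mul_comm]
    exact e
  have hN0 : (N : O) ≠ 0 := by
    intro h0
    have := congrArg (Subtype.val : O → ℂ) h0
    push_cast at this
    have hp := h.N_pos
    have : N = 0 := by exact_mod_cast this
    omega
  refine ⟨s, ?_, ?_, hN, hs'⟩
  · rintro rfl
    exact hN0 (zero_dvd_iff.1 hN)
  · intro hu
    apply hb'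
    have h1 := (hs' 1).2 hu.dvd
    push_cast at h1
    rw [mul_one] at h1
    have h2 := conj_mem h.quad h1
    rwa [Complex.conj_conj] at h2

/-- a nonunit divisor of `N` is a unit of `O[1/N]` of absolute value `> 1` -/
theorem s1_unit (h : Ctx O ω f ε N R Λ) {s : O} (hs : s ≠ 0) (hsu : ¬ IsUnit s)
    (hsN : s ∣ (N : O)) : ∃ su : ℂˣ, (su : ℂ) = s ∧ (su : ℂ) ∈ ON O N ∧
      ((su⁻¹ : ℂˣ) : ℂ) ∈ ON O N ∧ 1 < ‖(su : ℂ)‖ := by
  have hsC : (s : ℂ) ≠ 0 := coe_ne_zero hs
  refine ⟨Units.mk0 (s : ℂ) hsC, rfl, ⟨0, by simpa using s.2⟩, ?_, ?_⟩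
  · obtain ⟨t, ht⟩ := hsN
    refine ⟨1, ?_⟩
    have e : (N : ℂ) = s * t := by
      have := congrArg (Subtype.val : O → ℂ) ht
      push_cast at this
      exact this
    rw [pow_one, e, Units.val_inv_eq_inv_val, Units.val_mk0]
    have : (s : ℂ) * t * (s : ℂ)⁻¹ = t := by field_simp
    rw [this]
    exact t.2
  · show 1 < ‖(s : ℂ)‖
    obtain ⟨n, hn⟩ := norm_sq_nat h.quad s
    have hpos : 0 < ‖(s : ℂ)‖ := norm_pos_iff.2 hsC
    by_contra hle
    push Not at hle
    apply hsu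
    have h1 : (n : ℝ) ≤ 1 := by
      rw [← hn]
      nlinarith
    have h2 : (0 : ℝ) < n := by
      rw [← hn]
      positivity
    have h3 : n = 1 := by
      have h4 : n ≤ 1 := by exact_mod_cast h1
      have h5 : 0 < n := by exact_mod_cast h2
      omega
    rw [h3] at hn
    refine IsUnit.of_mul_eq_one (cj h.quad s) (Subtype.ext ?_)
    push_cast
    rw [coe_cj, Complex.mul_conj, Complex.normSq_eq_norm_sq, hn]
    simp

/-- `ψ(c) y ∈ O` if and only if `y ∈ O`, for `c` prime to `N`, `N y ∈ O` -/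
theorem pc_psi (h : Ctx O ω f ε N R Λ) {c : O} (hc : IsCoprime c (N : O)) {y : ℂ}
    (hy : (N : ℂ) * y ∈ O) : (ε c : ℂ) * c * y ∈ O ↔ y ∈ O := by
  constructor
  · intro h1
    have hcf : IsCoprime c f := hc.of_isCoprime_of_dvd_right h.f_dvd
    obtain ⟨e, he⟩ := (h.gc.unit c hcf).exists_left_inv
    obtain ⟨a, b, hab⟩ := hc
    have heC : (e : ℂ) * (ε c : ℂ) = 1 := by exact_mod_cast congrArg (Subtype.val : O → ℂ) he
    have habC : (a : ℂ) * c + b * N = 1 := by exact_mod_cast congrArg (Subtype.val : O → ℂ) hab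
    have e1 : y = (a : ℂ) * e * ((ε c : ℂ) * c * y) + b * (N * y) := by
      linear_combination (-y) * habC - (a : ℂ) * c * y * heC
    rw [e1]
    exact O.add_mem (O.mul_mem (O.mul_mem a.2 e.2) h1) (O.mul_mem b.2 hy)
  · intro h1
    exact O.mul_mem (O.mul_mem (ε c).2 c.2) h1

open Classical in
/-- the character sum -/
theorem pc_sum (h : Ctx O ω f ε N R Λ) {x : ℂ} (hx : (N : ℂ) * x ∈ O) {s : O}
    (hs : ∀ l : O, starRingEnd ℂ x * l ∈ O ↔ s ∣ l)
    {S : Finset O} (hS : IsReps (N : O) S) {c : O} (hc : IsCoprime c (N : O)) (g : O) :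
    ∑ n ∈ S, pr ω (ε c * c * x) (-((n : ℂ) * g)) = if s ∣ g then (S.card : ℂ) else 0 := by
  have hO := h.quad
  set t : ℂ := (ε c : ℂ) * c * x with ht
  set y : ℂ := starRingEnd ℂ t * g with hy
  -- `pr ω t (n g) = pr ω y' n` with `y' = t conj g`
  have hsw : ∀ n : O, pr ω t (-((n : ℂ) * g)) = pr ω (-(starRingEnd ℂ y)) n := by
    intro n
    unfold pr
    congr 3
    rw [hy]
    simp only [map_neg, map_mul, Complex.conj_conj]
    congr 2
    ring
  have hNx : (N : ℂ) * (x * starRingEnd ℂ (g : ℂ)) ∈ O := by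
    rw [← mul_assoc]
    exact O.mul_mem hx (conj_mem hO g.2)
  have hyt : starRingEnd ℂ y = (ε c : ℂ) * c * (x * starRingEnd ℂ (g : ℂ)) := by
    rw [hy, ht]
    simp only [map_mul, Complex.conj_conj]
    ring
  have hiff : starRingEnd ℂ y ∈ O ↔ s ∣ g := by
    rw [hyt, pc_psi h hc hNx, ← hs]
    constructor
    · intro h1
      have := conj_mem hO h1
      simpa using this
    · intro h1
      have := conj_mem hO h1
      simpa using this
  simp only [hsw]
  split_ifs with hsg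
  · have h1 : ∀ n ∈ S, pr ω (-(starRingEnd ℂ y)) (n : ℂ) = 1 := by
      intro n _
      exact pr_mem hO (-(⟨_, hiff.2 hsg⟩ : O)) n
    rw [Finset.sum_congr rfl h1]
    simp
  · -- a nontrivial character
    have hswap : ∀ n : ℂ, pr ω (-(starRingEnd ℂ y)) n = starRingEnd ℂ (pr ω n (-(starRingEnd ℂ y))) :=
      fun n => (pr_conj' ω n _).symm
    have hper : ∀ a b : O, pr ω ((a + (N : O) * b : O) : ℂ) (-(starRingEnd ℂ y)) =
        pr ω (a : ℂ) (-(starRingEnd ℂ y)) := by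
      intro a b
      push_cast
      rw [pr_add]
      have e1 : pr ω ((N : ℂ) * b) (-(starRingEnd ℂ y)) = 1 := by
        rw [pr_mul]
        have e2 : starRingEnd ℂ (N : ℂ) * -(starRingEnd ℂ y) =
            ((-(⟨(ε c : ℂ) * c * (N * (x * starRingEnd ℂ (g : ℂ))),
              O.mul_mem (O.mul_mem (ε c).2 c.2) hNx⟩ : O) : O) : ℂ) := by
          rw [hyt]
          simp only [map_natCast]
          push_cast
          ring
        rw [e2]
        exact pr_mem hO b _
      rw [e1, mul_one]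
    have hex : ∃ k0 : O, pr ω (k0 : ℂ) (-(starRingEnd ℂ y)) ≠ 1 := by
      by_contra hcon
      push Not at hcon
      apply hsg
      rw [← hiff]
      have hmem : -(starRingEnd ℂ y) ∈ O := by
        refine so_mem hO _ ?_ ?_
        · simpa using hcon 1
        · exact hcon ⟨ω, quad_omega hO⟩
      have := O.neg_mem hmem
      rwa [neg_neg] at this
    obtain ⟨k0, hk0⟩ := hex
    have h3 := sum_shift hS (fun k : O => pr ω (k : ℂ) (-(starRingEnd ℂ y))) hper k0
    have h4 : ∑ k ∈ S, pr ω ((k + k0 : O) : ℂ) (-(starRingEnd ℂ y)) =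
        pr ω (k0 : ℂ) (-(starRingEnd ℂ y)) * ∑ k ∈ S, pr ω (k : ℂ) (-(starRingEnd ℂ y)) := by
      rw [Finset.mul_sum]
      refine Finset.sum_congr rfl fun k _ => ?_
      push_cast
      rw [pr_add, mul_comm]
    have h5 : (pr ω (k0 : ℂ) (-(starRingEnd ℂ y)) - 1) *
        ∑ k ∈ S, pr ω (k : ℂ) (-(starRingEnd ℂ y)) = 0 := by
      rw [sub_mul, one_mul, ← h4, sub_eq_zero]
      exact h3
    have h6 : ∑ k ∈ S, pr ω (k : ℂ) (-(starRingEnd ℂ y)) = 0 := by
      rcases mul_eq_zero.1 h5 with h6 | h6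
      · exact absurd (sub_eq_zero.1 h6) hk0
      · exact h6
    have h7 := congrArg (starRingEnd ℂ) h6
    rw [map_sum, map_zero] at h7
    rw [← h7]
    refine Finset.sum_congr rfl fun n _ => ?_
    exact hswap n

/-- orthogonality: the sum over `n` modulo `N` of `⟨ψ(c) b, n l⟩⁻¹` is zero or the number of terms;
`ψ(c) b conj(l) ∈ O` if and only if `b conj(l) ∈ O`, `c` prime to `N` -/
theorem key (h : Ctx O ω f ε N R Λ) {x : V2} (hx : In O ((N : ℂ) • x)) {s : O} (hs0 : s ≠ 0)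
    (hs : ∀ l : O, starRingEnd ℂ x.2 * l ∈ O ↔ s ∣ l) {su : ℂˣ} (hsu : (su : ℂ) = s)
    {S : Finset O} (hS : IsReps (N : O) S) :
    ∑ n ∈ S, pf (un n) (chi O ω ε N x) =
      (S.card : KK O) • pf (dg su 1) (chi O ω ε N (starRingEnd ℂ s * x.1, x.2)) := by
  classical
  have hO := h.quad
  have hsC : (s : ℂ) ≠ 0 := coe_ne_zero hs0
  funext c l
  rw [Finset.sum_apply, Finset.sum_apply]
  have hL : ∀ n : ℂ, (un n)⁻¹ l = (l.1, l.2 - n * l.1) := fun n => rfl
  have hRr : (dg su 1)⁻¹ l = ((s : ℂ)⁻¹ * l.1, l.2) := by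
    have e1 : (dg su 1)⁻¹ l = (((su⁻¹ : ℂˣ) : ℂ) * l.1, ((1⁻¹ : ℂˣ) : ℂ) * l.2) := rfl
    rw [e1, Units.val_inv_eq_inv_val, hsu]
    simp
  have hR2 : ((S.card : KK O) • pf (dg su 1) (chi O ω ε N (starRingEnd ℂ s * x.1, x.2))) c l =
      (S.card : ℂ) * chi O ω ε N (starRingEnd ℂ s * x.1, x.2) c ((s : ℂ)⁻¹ * l.1, l.2) := by
    show (((S.card : KK O) : KK O) : ℂ) * _ = _
    push_cast
    congr 1
    show chi O ω ε N (starRingEnd ℂ s * x.1, x.2) c ((dg su 1)⁻¹ l) = _
    rw [hRr]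
  rw [hR2]
  have hLn : ∀ n ∈ S, pf (un (n : ℂ)) (chi O ω ε N x) c l =
      if In O l ∧ IsCoprime c (N : O) then
        (pr ω (ε c * c * x.1) l.1 * pr ω (ε c * c * x.2) l.2) *
          pr ω (ε c * c * x.2) (-((n : ℂ) * l.1)) else 0 := by
    intro n _
    show chi O ω ε N x c ((un (n : ℂ))⁻¹ l) = _
    rw [hL]
    unfold chi
    have e1 : In O (l.1, l.2 - (n : ℂ) * l.1) ↔ In O l := by
      unfold In
      constructor
      · rintro ⟨g1, g2⟩
        refine ⟨g1, ?_⟩
        have := O.add_mem g2 (O.mul_mem n.2 g1)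
        simpa using this
      · rintro ⟨g1, g2⟩
        exact ⟨g1, O.sub_mem g2 (O.mul_mem n.2 g1)⟩
    rw [e1]
    split_ifs with hcond
    · -- additivity in the second variable
      have e5 : pr ω (ε c * c * x.2) (l.2 - (n : ℂ) * l.1) =
          pr ω (ε c * c * x.2) l.2 * pr ω (ε c * c * x.2) (-((n : ℂ) * l.1)) := by
        rw [sub_eq_add_neg, ← pr_conj' ω (l.2 + -((n : ℂ) * l.1)), pr_add, map_mul, pr_conj',
          pr_conj']
      show pr ω (ε c * c * x.1) l.1 * pr ω (ε c * c * x.2) (l.2 - (n : ℂ) * l.1) = _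
      rw [e5]
      ring
    · rfl
  rw [Finset.sum_congr rfl hLn]
  by_cases hcond : In O l ∧ IsCoprime c (N : O)
  · simp only [if_pos hcond]
    rw [← Finset.mul_sum]
    obtain ⟨⟨g1, g2⟩, hc⟩ := hcond
    have hx2 : (N : ℂ) * x.2 ∈ O := hx.2
    have hsum := pc_sum h hx2 hs hS hc ⟨l.1, g1⟩
    have e0 : ((⟨l.1, g1⟩ : O) : ℂ) = l.1 := rfl
    rw [e0] at hsum
    rw [hsum]
    unfold chi
    have e3 : In O ((s : ℂ)⁻¹ * l.1, l.2) ↔ s ∣ (⟨l.1, g1⟩ : O) := by
      unfold In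
      constructor
      · rintro ⟨g3, _⟩
        refine ⟨⟨_, g3⟩, Subtype.ext ?_⟩
        push_cast
        field_simp
      · rintro ⟨k, hk⟩
        refine ⟨?_, g2⟩
        have e4 : l.1 = s * k := by
          have := congrArg (Subtype.val : O → ℂ) hk
          push_cast at this
          exact this
        show (s : ℂ)⁻¹ * l.1 ∈ O
        rw [e4]
        have e5 : (s : ℂ)⁻¹ * (s * k) = k := by field_simp
        rw [e5]
        exact k.2
    simp only [e3]
    by_cases hsl : s ∣ (⟨l.1, g1⟩ : O)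
    · rw [if_pos hsl, if_pos ⟨hsl, hc⟩]
      have e6 : pr ω (ε c * c * (starRingEnd ℂ (s : ℂ) * x.1)) ((s : ℂ)⁻¹ * l.1) =
          pr ω (ε c * c * x.1) l.1 := by
        have e7 : (ε c : ℂ) * c * (starRingEnd ℂ (s : ℂ) * x.1) =
            starRingEnd ℂ (s : ℂ) * ((ε c : ℂ) * c * x.1) := by ring
        rw [e7, pr_mul, Complex.conj_conj]
        congr 1
        field_simp
      rw [e6]
      ring
    · rw [if_neg hsl, if_neg (fun hh => hsl hh.1), mul_zero, mul_zero]
  · simp only [if_neg hcond, Finset.sum_const_zero]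
    unfold chi
    rw [if_neg, mul_zero]
    rintro ⟨⟨g3, g2⟩, hc⟩
    apply hcond
    refine ⟨⟨?_, g2⟩, hc⟩
    have e4 : l.1 = s * ((s : ℂ)⁻¹ * l.1) := by field_simp
    rw [e4]
    exact O.mul_mem s.2 g3

end Pool.Agent.KTD
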