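import Pool.Agent.Lib_helper87.KTD.P.PC
import Pool.Agent.Lib_helper87.KTD.P.AL
import Pool.Agent.Lib_helper76.TCL.P.QK

set_option autoImplicit false

namespace Pool.Agent.KTD

open Complex Pool.Agent.TCL

variable {O : Subring ℂ} {ω : ℂ} {f : O} {ε : O → O} {N : ℕ} {R : Finset O} {Λ : ℂ →ₗ[KK O] KK O}

/-- an element of `O` in `K` -/
def kk (a : O) : KK O := ⟨a, coe_mem_KK a⟩

private theorem pd_kk_ne (hO : Quad O ω) :
    kk (⟨ω, quad_omega hO⟩ : O) - kk (cj hO ⟨ω, quad_omega hO⟩) ≠ 0 := by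
  intro h
  have h2 := congrArg (fun z : KK O => (z : ℂ)) h
  have h3 : ω - starRingEnd ℂ ω = 0 := h2
  have h4 : (ω - starRingEnd ℂ ω).im = 0 := by rw [h3]; simp
  simp at h4
  exact (ne_of_gt hO.im_pos) h4

/-- additive functions on `O` with values in a `K`-vector space: `α(x + y ω) = x α(1) + y α(ω)`, and `x, y`
are `K`-linear in `a, conj(a)` -/
theorem add_decomp (hO : Quad O ω) {H : Type} [AddCommGroup H] [Module (KK O) H] (α : O → H)
    (hα : ∀ a b, α (a + b) = α a + α b) :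
    ∃ h1 h2 : H, ∀ a : O, α a = kk a • h1 + kk (cj hO a) • h2 := by
  set w : O := ⟨ω, quad_omega hO⟩ with hw
  have hD : kk w - kk (cj hO w) ≠ 0 := pd_kk_ne hO
  set α' : O →+ H := AddMonoidHom.mk' α hα with hα'
  refine ⟨(kk w - kk (cj hO w))⁻¹ • (α w - kk (cj hO w) • α 1),
    (kk w - kk (cj hO w))⁻¹ • (kk w • α 1 - α w), fun a => ?_⟩
  obtain ⟨x, y, hxy⟩ := (hO.mem (a : ℂ)).1 a.2
  have ha : a = x • (1 : O) + y • w := by
    apply Subtype.ext
    push_cast
    rw [hxy]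
    simp [hw]
  have h1 : α a = (x : KK O) • α 1 + (y : KK O) • α w := by
    have e : α' a = x • α' 1 + y • α' w := by
      rw [ha, map_add, map_zsmul, map_zsmul]
    rw [Int.cast_smul_eq_zsmul, Int.cast_smul_eq_zsmul]
    exact e
  have h2 : kk a = (x : KK O) + (y : KK O) * kk w := by
    apply Subtype.ext
    show (a : ℂ) = _
    rw [hxy]
    push_cast
    rfl
  have h3 : kk (cj hO a) = (x : KK O) + (y : KK O) * kk (cj hO w) := by
    apply Subtype.ext
    show starRingEnd ℂ (a : ℂ) = _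
    rw [hxy]
    push_cast
    rw [map_add, map_mul, map_intCast, map_intCast]
    rfl
  rw [h1, h2, h3]
  match_scalars
  · field_simp
    ring
  · field_simp
    ring

theorem add_unique (hO : Quad O ω) {H : Type} [AddCommGroup H] [Module (KK O) H] {h1 h2 k1 k2 : H}
    (hh : ∀ a : O, kk a • h1 + kk (cj hO a) • h2 = kk a • k1 + kk (cj hO a) • k2) :
    h1 = k1 ∧ h2 = k2 := by
  set w : O := ⟨ω, quad_omega hO⟩ with hw
  have hD : kk w - kk (cj hO w) ≠ 0 := pd_kk_ne hO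
  have e1 := hh 1
  have e2 := hh w
  have k1' : kk (1 : O) = 1 := rfl
  have k2' : kk (cj hO (1 : O)) = 1 := by
    apply Subtype.ext
    show starRingEnd ℂ (((1 : O) : ℂ)) = _
    simp
  rw [k1', k2', one_smul, one_smul, one_smul, one_smul] at e1
  have e3 : (kk w - kk (cj hO w)) • (h1 - k1) = 0 := by
    have : (kk w - kk (cj hO w)) • (h1 - k1) = (kk w • h1 + kk (cj hO w) • h2)
        - (kk w • k1 + kk (cj hO w) • k2) - kk (cj hO w) • ((h1 + h2) - (k1 + k2)) := by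
      module
    rw [this, e1, e2]
    simp
  have e4 : h1 = k1 := by
    rcases smul_eq_zero.1 e3 with h | h
    · exact absurd h hD
    · exact sub_eq_zero.1 h
  refine ⟨e4, ?_⟩
  rw [e4] at e1
  exact add_left_cancel e1

/-- a weight: a character of the lower triangular group, trivial on unipotents, large on `diag(s, 1)` -/
structure Wt (O : Subring ℂ) (N : ℕ) (om : GL2 → KK O) : Prop where
  mul : ∀ g g', IsB O N g → IsB O N g' → om (g * g') = om g * om g'
  un : ∀ n ∈ ON O N, om (un n) = 1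
  big : ∀ s : ℂˣ, (s : ℂ) ∈ ON O N → ((s⁻¹ : ℂˣ) : ℂ) ∈ ON O N → 1 < ‖(s : ℂ)‖ →
    ‖(s : ℂ)‖ < ‖((om (dg s 1) : KK O) : ℂ)‖

/-- cocycles of weight `om` on `FP` -/
structure Co (O : Subring ℂ) (ω : ℂ) (ε : O → O) (N : ℕ) (om : GL2 → KK O) (H : Type)
    [AddCommGroup H] [Module (KK O) H] (U : GL2 → Fs O → H) : Prop where
  add : ∀ g, IsB O N g → ∀ F ∈ FP O ω ε N, ∀ F' ∈ FP O ω ε N, U g (F + F') = U g F + U g F'
  smul : ∀ g, IsB O N g → ∀ (k : KK O), ∀ F ∈ FP O ω ε N, U g (k • F) = k • U g F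
  co : ∀ g g', IsB O N g → IsB O N g' → ∀ F ∈ FP O ω ε N,
    U (g * g') F = U g' F + U g (om g' • pf g' F)

private theorem pd_sum {om : GL2 → KK O} {H : Type} [AddCommGroup H] [Module (KK O) H]
    {U : GL2 → Fs O → H} (hU : Co O ω ε N om H U) {g : GL2} (hg : IsB O N g) (S : Finset O)
    (F : O → Fs O) (hF : ∀ k ∈ S, F k ∈ FP O ω ε N) :
    U g (∑ k ∈ S, F k) = ∑ k ∈ S, U g (F k) := by
  classical
  induction S using Finset.induction_on with
  | empty =>
    have h := hU.smul g hg 0 0 (Submodule.zero_mem _)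
    rw [zero_smul, zero_smul] at h
    simpa using h
  | insert a S ha ih =>
    rw [Finset.sum_insert ha, Finset.sum_insert ha, hU.add g hg _ (hF a (Finset.mem_insert_self a S)) _
      (Submodule.sum_mem _ (fun k hk => hF k (Finset.mem_insert_of_mem hk))),
      ih (fun k hk => hF k (Finset.mem_insert_of_mem hk))]

private theorem pd_O_ON (a : O) : (a : ℂ) ∈ ON O N := ⟨0, by simp⟩

private theorem pd_nat_ON (n : O) : ((N : ℂ) * (n : ℂ)) ∈ ON O N := by
  have : ((N : ℂ) * (n : ℂ)) = (((N : O) * n : O) : ℂ) := by push_cast; rfl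
  rw [this]; exact pd_O_ON _

/-- `U (un n)`, `U (un m)` commute -/
private theorem pd_shift {om : GL2 → KK O} (hom : Wt O N om) {H : Type} [AddCommGroup H]
    [Module (KK O) H] {U : GL2 → Fs O → H} (hU : Co O ω ε N om H U) {F : Fs O}
    (hF : F ∈ FP O ω ε N) {n m : ℂ} (hn : n ∈ ON O N) (hm : m ∈ ON O N) (hfix : pf (un n) F = F) :
    U (un n) (pf (un m) F) = U (un n) F := by
  have e1 := hU.co (un n) (un m) (isB_un hn) (isB_un hm) F hF
  have e2 := hU.co (un m) (un n) (isB_un hm) (isB_un hn) F hF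
  rw [hom.un _ hm, one_smul] at e1
  rw [hom.un _ hn, one_smul, hfix] at e2
  have e3 : un n * un m = un m * un n := by
    rw [un_mul, un_mul, add_comm]
  rw [e3, e2] at e1
  have e4 : U (un m) F + U (un n) (pf (un m) F) = U (un m) F + U (un n) F := by
    rw [← e1, add_comm]
  exact add_left_cancel e4

private theorem pd_add {om : GL2 → KK O} (hom : Wt O N om) {H : Type} [AddCommGroup H]
    [Module (KK O) H] {U : GL2 → Fs O → H} (hU : Co O ω ε N om H U) {F : Fs O}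
    (hF : F ∈ FP O ω ε N) {n m : ℂ} (hn : n ∈ ON O N) (hm : m ∈ ON O N) (hfix : pf (un m) F = F) :
    U (un (n + m)) F = U (un n) F + U (un m) F := by
  have e1 := hU.co (un n) (un m) (isB_un hn) (isB_un hm) F hF
  rw [hom.un _ hm, one_smul, hfix, un_mul] at e1
  rw [e1, add_comm]

private theorem pd_fix (hO : Quad O ω) {x : V2} (hx : In O ((N : ℂ) • x)) (n : O) :
    pf (un (N * n)) (chi O ω ε N x) = chi O ω ε N x := by
  have e0 : ((N : ℂ) * (n : ℂ)) = (((N : O) * n : O) : ℂ) := by push_cast; rfl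
  rw [e0, chi_un hO]
  have e1 : ((x.1 - starRingEnd ℂ ((((N : O) * n : O) : ℂ)) * x.2, x.2) : V2)
      = x + (-(starRingEnd ℂ (n : ℂ) * ((N : ℂ) * x.2)), 0) := by
    ext
    · push_cast
      simp only [map_mul, map_natCast, Prod.fst_add]
      ring
    · simp
  rw [e1]
  apply chi_per hO
  refine ⟨O.neg_mem (O.mul_mem (conj_mem hO n.2) hx.2), O.zero_mem⟩

/-- the functional equation -/
private theorem pd_fe (h : Ctx O ω f ε N R Λ) {om : GL2 → KK O} (hom : Wt O N om) {H : Type}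
    [AddCommGroup H] [Module (KK O) H] {U : GL2 → Fs O → H} (hU : Co O ω ε N om H U) {x : V2}
    (hx : In O ((N : ℂ) • x)) (hx2 : x.2 ∉ O) {s : O} (hs0 : s ≠ 0)
    (hs : ∀ l : O, starRingEnd ℂ x.2 * l ∈ O ↔ s ∣ l) {su : ℂˣ} (hsu : (su : ℂ) = s)
    (hsO : (su : ℂ) ∈ ON O N) (hsO' : ((su⁻¹ : ℂˣ) : ℂ) ∈ ON O N) (n : O) :
    om (dg su 1) • U (un (N * n)) (chi O ω ε N x)
      = U (un (N * ((s * n : O) : ℂ))) (chi O ω ε N (starRingEnd ℂ s * x.1, x.2)) := by
  have hO := h.quad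
  obtain ⟨S, hS⟩ := exists_reps hO (N : O) (by exact_mod_cast h.N_pos.ne')
  have hx' : In O ((N : ℂ) • ((starRingEnd ℂ s * x.1, x.2) : V2)) := by
    refine ⟨?_, hx.2⟩
    have e : ((N : ℂ) • ((starRingEnd ℂ s * x.1, x.2) : V2)).1
        = starRingEnd ℂ s * ((N : ℂ) * x.1) := by
      show (N : ℂ) * (starRingEnd ℂ s * x.1) = _
      ring
    rw [e]
    exact O.mul_mem (conj_mem hO s.2) hx.1
  have hF := chi_mem (ε := ε) (ω := ω) hx hx2
  have hF' := chi_mem (ε := ε) (ω := ω) hx' hx2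
  have hdg : IsB O N (dg su 1) := isB_dg hsO hsO' (one_mem _) (by simp)
  have hNn := pd_nat_ON (N := N) n
  have hNsn := pd_nat_ON (N := N) (s * n)
  have hcard : (S.card : KK O) ≠ 0 := by
    obtain ⟨k, hk, -⟩ := hS 0
    have : 0 < S.card := Finset.card_pos.2 ⟨k, hk.1⟩
    exact_mod_cast this.ne'
  -- the average
  have a1 : U (un (N * n)) (∑ k ∈ S, pf (un k) (chi O ω ε N x))
      = (S.card : KK O) • U (un (N * n)) (chi O ω ε N x) := by
    rw [pd_sum hU (isB_un hNn) S (fun k => pf (un k) (chi O ω ε N x))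
      (fun k _ => pf_mem (isB_un (pd_O_ON k)) hF)]
    rw [Finset.sum_congr rfl (fun k _ => pd_shift hom hU hF hNn (pd_O_ON k) (pd_fix hO hx n)),
      Finset.sum_const, ← Nat.cast_smul_eq_nsmul (KK O)]
  rw [key h hx hs0 hs hsu hS, hU.smul _ (isB_un hNn) _ _ (pf_mem hdg hF')] at a1
  have a2 : U (un (N * n)) (pf (dg su 1) (chi O ω ε N (starRingEnd ℂ s * x.1, x.2)))
      = U (un (N * n)) (chi O ω ε N x) := smul_right_injective H hcard a1
  -- the two forms of `un (N n) * dg s 1`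
  have b1 := hU.co (un (N * n)) (dg su 1) (isB_un hNn) hdg _ hF'
  rw [hU.smul _ (isB_un hNn) _ _ (pf_mem hdg hF'), a2] at b1
  have b2 := hU.co (dg su 1) (un (N * ((s * n : O) : ℂ))) hdg (isB_un hNsn) _ hF'
  rw [hom.un _ hNsn, one_smul, pd_fix hO hx'] at b2
  have b3 : un (N * n) * dg su 1 = dg su 1 * un (N * ((s * n : O) : ℂ)) := by
    rw [dg_un]
    congr 2
    push_cast
    rw [hsu]
    have : (s : ℂ) ≠ 0 := by exact_mod_cast hs0
    field_simp
  rw [b3, b2] at b1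
  have b4 : U (dg su 1) (chi O ω ε N (starRingEnd ℂ s * x.1, x.2))
      + U (un (N * ((s * n : O) : ℂ))) (chi O ω ε N (starRingEnd ℂ s * x.1, x.2))
      = U (dg su 1) (chi O ω ε N (starRingEnd ℂ s * x.1, x.2))
        + om (dg su 1) • U (un (N * n)) (chi O ω ε N x) := by
    rw [← b1, add_comm]
  exact (add_left_cancel b4).symm

private theorem pd_pow_ne {κ : KK O} (hκ : ‖(κ : ℂ)‖ < 1) (m : ℕ) (hm : 0 < m) : κ ^ m ≠ 1 := by
  intro h
  have h2 := congrArg (fun z : KK O => ‖(z : ℂ)‖) h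
  have h3 : ‖(κ : ℂ)‖ ^ m = 1 := by
    rw [← norm_pow]
    have e : ((κ ^ m : KK O) : ℂ) = (κ : ℂ) ^ m := by push_cast; rfl
    rw [← e]
    simpa using h2
  have := pow_lt_one₀ (norm_nonneg _) hκ hm.ne'
  linarith

/-- Smoothness. For fixed `b = x.2` the function `n ↦ U (un (N n)) χ_(a, b)` is additive,
`= kk n • h1 a + kk (conj n) • h2 a`. It does not change if `χ_(a, b)` is replaced by `pf (un m) χ_(a, b)`,
`m ∈ O`; with `key` and `un n * dg s 1 = dg s 1 * un (s n)`: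
`h1 a = (s / om (dg s 1)) h1 (conj(s) a)`, `h2 a = (conj(s) / om (dg s 1)) h2 (conj(s) a)`; `lem_P` on the
finite set of the `k` in representatives modulo `N`, `a = k / N` (`chi_per`). -/
theorem smooth (h : Ctx O ω f ε N R Λ) {om : GL2 → KK O} (hom : Wt O N om) {H : Type}
    [AddCommGroup H] [Module (KK O) H] {U : GL2 → Fs O → H} (hU : Co O ω ε N om H U) {x : V2}
    (hx : In O ((N : ℂ) • x)) (hx2 : x.2 ∉ O) (n : O) :
    U (un (N * n)) (chi O ω ε N x) = 0 := by
  classical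
  have hO := h.quad
  have hN0 : (N : ℂ) ≠ 0 := by exact_mod_cast h.N_pos.ne'
  obtain ⟨S, hS⟩ := exists_reps hO (N : O) (by exact_mod_cast h.N_pos.ne')
  obtain ⟨s, hs0, hsu0, hsN, hs⟩ := s1_exists h (b := x.2) hx.2 hx2
  obtain ⟨su, hsu, hsO, hsO', hs1⟩ := s1_unit h hs0 hsu0 hsN
  have hbig := hom.big su hsO hsO' hs1
  have hb : ∀ a : O, In O ((N : ℂ) • (((a : ℂ) / N, x.2) : V2)) := by
    intro a
    refine ⟨?_, hx.2⟩
    have e : ((N : ℂ) • (((a : ℂ) / N, x.2) : V2)).1 = a := by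
      show (N : ℂ) * ((a : ℂ) / N) = a
      field_simp
    rw [e]; exact a.2
  -- decomposition
  have hdec : ∀ a : O, ∃ h1 h2 : H, ∀ m : O,
      U (un (N * m)) (chi O ω ε N ((a : ℂ) / N, x.2)) = kk m • h1 + kk (cj hO m) • h2 := by
    intro a
    apply add_decomp hO (fun m : O => U (un (N * m)) (chi O ω ε N ((a : ℂ) / N, x.2)))
    intro m m'
    have e : ((N : ℂ) * ((m + m' : O) : ℂ)) = (N : ℂ) * m + (N : ℂ) * m' := by push_cast; ring
    show U (un (N * ((m + m' : O) : ℂ))) _ = _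
    rw [e]
    exact pd_add hom hU (chi_mem (hb a) hx2) (pd_nat_ON m) (pd_nat_ON m') (pd_fix hO (hb a) m')
  choose h1 h2 hh using hdec
  -- representatives
  have hrep : ∀ a : O, ∃ k : {k // k ∈ S}, (N : O) ∣ a - k.1 := by
    intro a
    obtain ⟨k, hk, -⟩ := hS a
    exact ⟨⟨k, hk.1⟩, hk.2⟩
  choose rep hrep' using hrep
  have hper : ∀ a a' : O, (N : O) ∣ a - a' →
      chi O ω ε N ((a : ℂ) / N, x.2) = chi O ω ε N ((a' : ℂ) / N, x.2) := by
    rintro a a' ⟨c, hc⟩
    have e : (((a : ℂ) / N, x.2) : V2) = ((a' : ℂ) / N, x.2) + ((c : ℂ), 0) := by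
      ext
      · show (a : ℂ) / N = (a' : ℂ) / N + c
        have : ((a - a' : O) : ℂ) = (((N : O) * c : O) : ℂ) := by rw [hc]
        push_cast at this
        field_simp
        linear_combination this
      · simp
    rw [e]
    exact chi_per hO _ ⟨c.2, O.zero_mem⟩
  have huniq : ∀ a a' : O, (N : O) ∣ a - a' → h1 a = h1 a' ∧ h2 a = h2 a' := by
    intro a a' haa
    apply add_unique hO
    intro m
    rw [← hh, ← hh, hper a a' haa]
  have hωs : ((om (dg su 1) : KK O) : ℂ) ≠ 0 := by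
    intro h0
    rw [h0, norm_zero] at hbig
    have := norm_nonneg (su : ℂ)
    linarith
  have hω' : om (dg su 1) ≠ 0 := by
    intro h0; exact hωs (by rw [h0]; rfl)
  -- functional equations
  have hfe : ∀ a : O, om (dg su 1) • h1 a = kk s • h1 (cj hO s * a) ∧
      om (dg su 1) • h2 a = kk (cj hO s) • h2 (cj hO s * a) := by
    intro a
    apply add_unique hO
    intro m
    have e1 := pd_fe h hom hU (hb a) hx2 hs0 hs hsu hsO hsO' m
    have e2 : ((starRingEnd ℂ (s : ℂ) * (((a : ℂ) / N, x.2) : V2).1, x.2) : V2)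
        = (((cj hO s * a : O) : ℂ) / N, x.2) := by
      ext
      · show starRingEnd ℂ (s : ℂ) * ((a : ℂ) / N) = ((cj hO s * a : O) : ℂ) / N
        push_cast
        rw [coe_cj]
        ring
      · rfl
    have e3 : (((a : ℂ) / N, x.2) : V2).2 = x.2 := rfl
    rw [e3, e2] at e1
    rw [hh, hh] at e1
    have k1 : kk (s * m) = kk s * kk m := Subtype.ext (by simp [kk])
    have k2 : kk (cj hO (s * m)) = kk (cj hO s) * kk (cj hO m) := by
      rw [cj_mul]; exact Subtype.ext (by simp [kk])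
    rw [k1, k2, smul_add, smul_smul, smul_smul] at e1
    rw [smul_smul, smul_smul, smul_smul, smul_smul, mul_comm (kk m), mul_comm (kk (cj hO m)), e1,
      mul_comm (kk m), mul_comm (kk (cj hO m))]
  have hκ : ∀ t : O, ‖(t : ℂ)‖ = ‖(su : ℂ)‖ →
      ‖(((om (dg su 1))⁻¹ * kk t : KK O) : ℂ)‖ < 1 := by
    intro t ht
    have e : (((om (dg su 1))⁻¹ * kk t : KK O) : ℂ) = ((om (dg su 1) : KK O) : ℂ)⁻¹ * t := by
      push_cast
      rfl
    rw [e, norm_mul, norm_inv, ht]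
    have hpos : 0 < ‖((om (dg su 1) : KK O) : ℂ)‖ := norm_pos_iff.2 hωs
    rw [inv_mul_lt_iff₀ hpos, mul_one]
    exact hbig
  have hn1 : ‖((s : O) : ℂ)‖ = ‖(su : ℂ)‖ := by rw [hsu]
  have hn2 : ‖((cj hO s : O) : ℂ)‖ = ‖(su : ℂ)‖ := by
    rw [coe_cj, RCLike.norm_conj, hsu]
  have z1 : ∀ k : {k // k ∈ S}, h1 k.1 = 0 := by
    intro k
    refine lem_P (X := {k // k ∈ S}) (fun k => rep (cj hO s * k.1)) ((om (dg su 1))⁻¹ * kk s)
      (fun m hm => pd_pow_ne (hκ s hn1) m hm) (fun k => h1 k.1) (fun k => ?_) k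
    have e := (hfe k.1).1
    have e' := (huniq _ _ (hrep' (cj hO s * k.1))).1
    rw [mul_smul, ← e', ← e, smul_smul, inv_mul_cancel₀ hω', one_smul]
  have z2 : ∀ k : {k // k ∈ S}, h2 k.1 = 0 := by
    intro k
    refine lem_P (X := {k // k ∈ S}) (fun k => rep (cj hO s * k.1))
      ((om (dg su 1))⁻¹ * kk (cj hO s))
      (fun m hm => pd_pow_ne (hκ (cj hO s) hn2) m hm) (fun k => h2 k.1) (fun k => ?_) k
    have e := (hfe k.1).2
    have e' := (huniq _ _ (hrep' (cj hO s * k.1))).2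
    rw [mul_smul, ← e', ← e, smul_smul, inv_mul_cancel₀ hω', one_smul]
  -- the end
  set a : O := ⟨(N : ℂ) * x.1, hx.1⟩ with ha
  have hxa : x = ((a : ℂ) / N, x.2) := by
    ext
    · show x.1 = (N : ℂ) * x.1 / N
      field_simp
    · rfl
  have e1 : chi O ω ε N x = chi O ω ε N ((((rep a).1 : O) : ℂ) / N, x.2) := by
    conv_lhs => rw [hxa]
    exact hper _ _ (hrep' a)
  rw [e1, hh, z1, z2, smul_zero, smul_zero, add_zero]

end Pool.Agent.KTD
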