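import Pool.Agent.Lib_helper87.KTD.P.PD

set_option autoImplicit false

namespace Pool.Agent.KTD

open Complex Pool.Agent.TCL

variable {O : Subring ℂ} {ω : ℂ} {f : O} {ε : O → O} {N : ℕ} {R : Finset O} {Λ : ℂ →ₗ[KK O] KK O}

/-- the span of the `n f - f` -/
noncomputable def IN (O : Subring ℂ) (ω : ℂ) (ε : O → O) (N : ℕ) : Submodule (KK O) (Fs O) :=
  Submodule.span (KK O) {F | ∃ n ∈ ON O N, ∃ F' ∈ FP O ω ε N, F = pf (un n) F' - F'}

private theorem pe_in {n : ℂ} (hn : n ∈ ON O N) {F : Fs O} (hF : F ∈ FP O ω ε N) :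
    pf (un n) F - F ∈ IN O ω ε N := Submodule.subset_span ⟨n, hn, F, hF, rfl⟩

private theorem pe_sub (g : GL2) (F F' : Fs O) : pf g (F - F') = pf g F - pf g F' := rfl

private theorem pe_dg_un {s t : ℂˣ} {n : ℂ} : un n * dg s t = dg s t * un (s * n / t) := by
  rw [dg_un]
  congr 2
  have hs : (s : ℂ) ≠ 0 := s.ne_zero
  have ht : (t : ℂ) ≠ 0 := t.ne_zero
  field_simp

/-- `IN` is stable under lower triangular elements -/
private theorem pe_stable {g : GL2} (hg : IsB O N g) {F : Fs O} (hF : F ∈ IN O ω ε N) :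
    pf g F ∈ IN O ω ε N := by
  obtain ⟨s, t, m, hs, hs', ht, ht', hm, rfl⟩ := hg
  induction hF using Submodule.span_induction with
  | mem F hF =>
    obtain ⟨n, hn, F', hF', rfl⟩ := hF
    have hg : IsB O N (un m * dg s t) := ⟨s, t, m, hs, hs', ht, ht', hm, rfl⟩
    have hn' : (t : ℂ) * n / s ∈ ON O N := by
      rw [div_eq_mul_inv, ← Units.val_inv_eq_inv_val]
      exact (ON O N).mul_mem ((ON O N).mul_mem ht hn) hs'
    have e : (un m * dg s t) * un n = un (t * n / s) * (un m * dg s t) := by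
      rw [mul_assoc, dg_un, ← mul_assoc, ← mul_assoc, un_mul, un_mul, add_comm]
    rw [pe_sub, ← pf_mul, e, pf_mul]
    exact pe_in hn' (pf_mem hg hF')
  | zero =>
    have : pf (un m * dg s t) (0 : Fs O) = 0 := rfl
    rw [this]; exact Submodule.zero_mem _
  | add F F' _ _ h1 h2 =>
    rw [pf_add]; exact Submodule.add_mem _ h1 h2
  | smul k F _ h1 =>
    rw [pf_smul]; exact Submodule.smul_mem _ k h1

private theorem pe_dg {s : ℂˣ} (hs : (s : ℂ) ∈ ON O N) (hs' : ((s⁻¹ : ℂˣ) : ℂ) ∈ ON O N) :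
    IsB O N (dg s 1) :=
  isB_dg hs hs' (by simpa using (ON O N).one_mem) (by simpa using (ON O N).one_mem)

private theorem pe_dg_one : dg 1 1 = 1 := by
  apply LinearEquiv.ext
  intro x
  show ((1 : ℂˣ) • x.1, (1 : ℂˣ) • x.2) = x
  rw [one_smul, one_smul]

private theorem pe_pow {s : ℂˣ} (hs : (s : ℂ) ∈ ON O N) (k : ℕ) : ((s ^ k : ℂˣ) : ℂ) ∈ ON O N := by
  rw [Units.val_pow_eq_pow_val]; exact (ON O N).pow_mem hs k

private theorem pe_pow' {s : ℂˣ} (hs : ((s⁻¹ : ℂˣ) : ℂ) ∈ ON O N) (k : ℕ) :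
    (((s ^ k)⁻¹ : ℂˣ) : ℂ) ∈ ON O N := by
  rw [← inv_pow, Units.val_pow_eq_pow_val]; exact (ON O N).pow_mem hs k

/-- one step: `χ_(a, b) = pf (dg s 1) χ_(conj(s) a, b)` modulo `IN` -/
private theorem pe_step (h : Ctx O ω f ε N R Λ) {x : V2} (hx : In O ((N : ℂ) • x)) (hx2 : x.2 ∉ O)
    {s : O} (hs0 : s ≠ 0) (hs : ∀ l : O, starRingEnd ℂ x.2 * l ∈ O ↔ s ∣ l) {su : ℂˣ}
    (hsu : (su : ℂ) = s) :
    chi O ω ε N x - pf (dg su 1) (chi O ω ε N (starRingEnd ℂ s * x.1, x.2)) ∈ IN O ω ε N := by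
  have hN0 : (N : O) ≠ 0 := by
    have := h.N_pos
    exact_mod_cast this.ne'
  obtain ⟨S, hS⟩ := exists_reps h.quad (N : O) hN0
  have hk := key h hx hs0 hs hsu hS
  have hSne : (S.card : KK O) ≠ 0 := by
    have : 0 < S.card := by
      rw [Finset.card_pos]
      obtain ⟨k, hk, -⟩ := hS 0
      exact ⟨k, hk.1⟩
    exact_mod_cast this.ne'
  have h1 : (S.card : KK O) • chi O ω ε N x -
      (S.card : KK O) • pf (dg su 1) (chi O ω ε N (starRingEnd ℂ s * x.1, x.2)) ∈ IN O ω ε N := by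
    rw [← hk]
    have : (S.card : KK O) • chi O ω ε N x - ∑ n ∈ S, pf (un n) (chi O ω ε N x) =
        - ∑ n ∈ S, (pf (un n) (chi O ω ε N x) - chi O ω ε N x) := by
      rw [Finset.sum_sub_distrib, Finset.sum_const, Nat.cast_smul_eq_nsmul]
      abel
    rw [this]
    exact Submodule.neg_mem _ (Submodule.sum_mem _ fun n _ =>
      pe_in (O_le_ON n.2) (chi_mem hx hx2))
  rw [← smul_sub] at h1
  have := Submodule.smul_mem _ ((S.card : KK O)⁻¹) h1
  rwa [smul_smul, inv_mul_cancel₀ hSne, one_smul] at this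

/-- Modulo `IN`: `χ_(a, b) = pf (dg s 1) χ_(conj(s) a, b)` (`key`); the powers of `conj s` are eventually
periodic modulo `N`: `conj(s)^(j+k) a = conj(s)^j a` modulo `O`. So `pf (dg (s^k) 1) χ = χ` modulo `IN` for
`χ = χ_(conj(s)^j a, b)`, hence for `χ_(a, b)` (`dg` elements commute). -/
theorem eigen (h : Ctx O ω f ε N R Λ) {x : V2} (hx : In O ((N : ℂ) • x)) (hx2 : x.2 ∉ O) :
    ∃ s : ℂˣ, (s : ℂ) ∈ ON O N ∧ ((s⁻¹ : ℂˣ) : ℂ) ∈ ON O N ∧ 1 < ‖(s : ℂ)‖ ∧
      pf (dg s 1) (chi O ω ε N x) - chi O ω ε N x ∈ IN O ω ε N := by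
  have hO := h.quad
  have hxN1 : (N : ℂ) * x.1 ∈ O := hx.1
  have hxN2 : (N : ℂ) * x.2 ∈ O := hx.2
  obtain ⟨s, hs0, hsu, hsN, hs⟩ := s1_exists h hxN2 hx2
  obtain ⟨su, hsuv, hsu1, hsu2, hsu3⟩ := s1_unit h hs0 hsu hsN
  have hN0 : (N : O) ≠ 0 := by
    have := h.N_pos
    exact_mod_cast this.ne'
  have hN0' : (N : ℂ) ≠ 0 := by
    have := h.N_pos
    exact_mod_cast this.ne'
  -- the sequence
  let a : ℕ → ℂ := fun j => starRingEnd ℂ (s : ℂ) ^ j * x.1
  have haN : ∀ j, (N : ℂ) * a j ∈ O := by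
    intro j
    have e : (N : ℂ) * a j = ((cj hO s : O) : ℂ) ^ j * ((N : ℂ) * x.1) := by
      rw [coe_cj]; simp only [a]; ring
    rw [e]
    exact O.mul_mem (O.pow_mem (cj hO s).2 j) hxN1
  have hIn : ∀ j, In O ((N : ℂ) • ((a j, x.2) : V2)) := fun j => ⟨haN j, hxN2⟩
  have hstep : ∀ j, chi O ω ε N (a j, x.2) - pf (dg su 1) (chi O ω ε N (a (j + 1), x.2)) ∈
      IN O ω ε N := by
    intro j
    have h1 := pe_step h (x := (a j, x.2)) (hIn j) hx2 hs0 hs hsuv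
    have e : starRingEnd ℂ (s : ℂ) * a j = a (j + 1) := by
      simp only [a]; ring
    rw [← e]
    exact h1
  have hiter : ∀ j m, chi O ω ε N (a j, x.2) - pf (dg (su ^ m) 1) (chi O ω ε N (a (j + m), x.2)) ∈
      IN O ω ε N := by
    intro j m
    induction m with
    | zero =>
      rw [pow_zero, pe_dg_one, pf_one, add_zero, sub_self]
      exact Submodule.zero_mem _
    | succ m ih =>
      have h1 := pe_stable (pe_dg (pe_pow hsu1 m) (pe_pow' hsu2 m)) (hstep (j + m))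
      rw [pe_sub, ← pf_mul, dg_mul, one_mul, ← pow_succ, add_assoc] at h1
      have h2 := Submodule.add_mem _ ih h1
      rw [sub_add_sub_cancel] at h2
      exact h2
  -- pigeonhole
  obtain ⟨S, hS⟩ := exists_reps hO (N : O) hN0
  have hr : ∀ j : ℕ, ∃ k : S, (N : O) ∣ (⟨(N : ℂ) * a j, haN j⟩ : O) - (k : O) := by
    intro j
    obtain ⟨k, hk, -⟩ := hS ⟨(N : ℂ) * a j, haN j⟩
    exact ⟨⟨k, hk.1⟩, hk.2⟩
  choose r hr using hr
  obtain ⟨i, j, hij, hrij⟩ := Finite.exists_ne_map_eq_of_infinite r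
  wlog hlt : i < j generalizing i j
  · exact this j i hij.symm hrij.symm (lt_of_le_of_ne (not_lt.mp hlt) hij.symm)
  obtain ⟨k, rfl⟩ := Nat.exists_eq_add_of_lt hlt
  set m := k + 1 with hm
  have hper : chi O ω ε N (a (i + m), x.2) = chi O ω ε N (a i, x.2) := by
    obtain ⟨y1, hy1⟩ := hr i
    obtain ⟨y2, hy2⟩ := hr (i + k + 1)
    rw [← hrij] at hy2
    have e1 : (N : ℂ) * a i - ((r i : O) : ℂ) = N * (y1 : ℂ) := by
      have := congrArg (fun z : O => (z : ℂ)) hy1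
      simpa using this
    have e2 : (N : ℂ) * a (i + k + 1) - ((r i : O) : ℂ) = N * (y2 : ℂ) := by
      have := congrArg (fun z : O => (z : ℂ)) hy2
      simpa using this
    have e3 : a (i + m) = a i + ((y2 - y1 : O) : ℂ) := by
      have : (N : ℂ) * a (i + m) = (N : ℂ) * (a i + ((y2 - y1 : O) : ℂ)) := by
        rw [hm, ← add_assoc]
        push_cast
        linear_combination e2 - e1
      exact mul_left_cancel₀ hN0' this
    rw [e3]
    have := chi_per (ε := ε) (N := N) hO ((a i, x.2) : V2) (y := (((y2 - y1 : O) : ℂ), 0))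
      ⟨(y2 - y1 : O).2, O.zero_mem⟩
    rw [← this]
    congr 1
    ext <;> simp
  refine ⟨su ^ m, pe_pow hsu1 m, pe_pow' hsu2 m, ?_, ?_⟩
  · rw [Units.val_pow_eq_pow_val, norm_pow]
    exact one_lt_pow₀ hsu3 (by omega)
  · -- χ_0 ≡ dg^i χ_i, χ_i ≡ dg^m χ_i
    have hx0 : chi O ω ε N (a 0, x.2) = chi O ω ε N x := by
      simp [a]
    have A1 := hiter 0 i
    rw [zero_add, hx0] at A1
    have A2 := hiter i m
    rw [hper] at A2
    have A3 := pe_stable (pe_dg (pe_pow hsu1 i) (pe_pow' hsu2 i)) A2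
    have A4 := pe_stable (pe_dg (pe_pow hsu1 m) (pe_pow' hsu2 m)) A1
    rw [pe_sub, ← pf_mul, dg_mul] at A3 A4
    rw [mul_comm (su ^ m) (su ^ i)] at A4
    have e : pf (dg (su ^ m) 1) (chi O ω ε N x) - chi O ω ε N x =
        (pf (dg (su ^ m) 1) (chi O ω ε N x) - pf (dg (su ^ i * su ^ m) (1 * 1))
          (chi O ω ε N (a i, x.2))) -
        (pf (dg (su ^ i) 1) (chi O ω ε N (a i, x.2)) - pf (dg (su ^ i * su ^ m) (1 * 1))
          (chi O ω ε N (a i, x.2))) -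
        (chi O ω ε N x - pf (dg (su ^ i) 1) (chi O ω ε N (a i, x.2))) := by abel
    rw [e]
    exact Submodule.sub_mem _ (Submodule.sub_mem _ A4 A3) A1

/-- the lower triangular group -/
private def peB (O : Subring ℂ) (N : ℕ) : Subgroup GL2 where
  carrier := {g | IsB O N g}
  mul_mem' := isB_mul
  one_mem' := isB_one
  inv_mem' := isB_inv

private theorem pe_om_one {om : GL2 → KK O} (hom : Wt O N om) : om 1 = 1 := by
  have := hom.un 0 (ON O N).zero_mem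
  rwa [un_zero] at this

private theorem pe_om_ne {om : GL2 → KK O} (hom : Wt O N om) {g : GL2} (hg : IsB O N g) :
    om g ≠ 0 := by
  intro h0
  have := hom.mul g g⁻¹ hg (isB_inv hg)
  rw [mul_inv_cancel, pe_om_one hom, h0, zero_mul] at this
  exact one_ne_zero this

/-- the action on `FP` in weight `om` -/
private noncomputable def peA (ω : ℂ) (ε : O → O) {om : GL2 → KK O} (hom : Wt O N om) :
    peB O N →* Module.End (KK O) (FP O ω ε N) where
  toFun g :=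
    { toFun := fun F => ⟨om g • pf (g : GL2) (F : Fs O),
        Submodule.smul_mem _ _ (pf_mem g.2 F.2)⟩
      map_add' := fun F F' => Subtype.ext (by
        show om g • pf (g : GL2) ((F : Fs O) + (F' : Fs O)) = om g • pf (g : GL2) (F : Fs O) +
          om g • pf (g : GL2) (F' : Fs O)
        rw [pf_add, smul_add])
      map_smul' := fun k F => Subtype.ext (by
        show om g • pf (g : GL2) (k • (F : Fs O)) = k • (om g • pf (g : GL2) (F : Fs O))
        rw [pf_smul, smul_comm]) }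
  map_one' := by
    apply LinearMap.ext
    intro F
    apply Subtype.ext
    show om 1 • pf 1 (F : Fs O) = F
    rw [pe_om_one hom, pf_one, one_smul]
  map_mul' g g' := by
    apply LinearMap.ext
    intro F
    apply Subtype.ext
    show om ((g : GL2) * g') • pf ((g : GL2) * g') (F : Fs O) =
      om g • pf (g : GL2) (om g' • pf (g' : GL2) (F : Fs O))
    rw [hom.mul _ _ g.2 g'.2, pf_mul, pf_smul, smul_smul]

/-- the cocycle on `FP` -/
private noncomputable def peU {om : GL2 → KK O} {H : Type}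
    [AddCommGroup H] [Module (KK O) H] {U : GL2 → Fs O → H} (hU : Co O ω ε N om H U)
    (g : peB O N) : FP O ω ε N →ₗ[KK O] H where
  toFun F := U g F
  map_add' F F' := hU.add g g.2 F F.2 F' F'.2
  map_smul' k F := hU.smul g g.2 k F F.2

/-- the unipotent subgroup -/
private def peN (O : Subring ℂ) (N : ℕ) : Subgroup (peB O N) where
  carrier := {g | ∃ n ∈ ON O N, (g : GL2) = un n}
  mul_mem' := by
    rintro a b ⟨n, hn, ha⟩ ⟨m, hm, hb⟩
    exact ⟨n + m, (ON O N).add_mem hn hm, by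
      show (a : GL2) * b = _
      rw [ha, hb, un_mul]⟩
  one_mem' := ⟨0, (ON O N).zero_mem, un_zero.symm⟩
  inv_mem' := by
    rintro a ⟨n, hn, ha⟩
    refine ⟨-n, (ON O N).neg_mem hn, ?_⟩
    show (a : GL2)⁻¹ = _
    rw [ha]
    apply inv_eq_of_mul_eq_one_right
    rw [un_mul, add_neg_cancel, un_zero]

/-- the torus -/
private def peT (O : Subring ℂ) (N : ℕ) : Subgroup (peB O N) where
  carrier := {g | ∃ s t : ℂˣ, (s : ℂ) ∈ ON O N ∧ ((s⁻¹ : ℂˣ) : ℂ) ∈ ON O N ∧ (t : ℂ) ∈ ON O N ∧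
    ((t⁻¹ : ℂˣ) : ℂ) ∈ ON O N ∧ (g : GL2) = dg s t}
  mul_mem' := by
    rintro a b ⟨s, t, h1, h2, h3, h4, ha⟩ ⟨s', t', h1', h2', h3', h4', hb⟩
    refine ⟨s * s', t * t', ?_, ?_, ?_, ?_, ?_⟩
    · rw [Units.val_mul]; exact (ON O N).mul_mem h1 h1'
    · rw [mul_inv, Units.val_mul]; exact (ON O N).mul_mem h2 h2'
    · rw [Units.val_mul]; exact (ON O N).mul_mem h3 h3'
    · rw [mul_inv, Units.val_mul]; exact (ON O N).mul_mem h4 h4'
    · show (a : GL2) * b = _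
      rw [ha, hb, dg_mul]
  one_mem' := by
    refine ⟨1, 1, ?_, ?_, ?_, ?_, pe_dg_one.symm⟩ <;> simpa using (ON O N).one_mem
  inv_mem' := by
    rintro a ⟨s, t, h1, h2, h3, h4, ha⟩
    refine ⟨s⁻¹, t⁻¹, h2, by rwa [inv_inv], h4, by rwa [inv_inv], ?_⟩
    show (a : GL2)⁻¹ = _
    rw [ha]
    apply inv_eq_of_mul_eq_one_right
    rw [dg_mul, mul_inv_cancel, mul_inv_cancel, pe_dg_one]

/-- membership in `IN`, seen in `FP` -/
private theorem pe_span {om : GL2 → KK O} (hom : Wt O N om) {F : Fs O}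
    (hF : F ∈ IN O ω ε N) : ∃ h : F ∈ FP O ω ε N, (⟨F, h⟩ : FP O ω ε N) ∈
      Submodule.span (KK O) {x | ∃ n ∈ peN O N, ∃ w, x = peA ω ε hom n w - w} := by
  induction hF using Submodule.span_induction with
  | mem F hF =>
    obtain ⟨n, hn, F', hF', rfl⟩ := hF
    have hb : IsB O N (un n) := isB_un hn
    refine ⟨Submodule.sub_mem _ (pf_mem hb hF') hF', Submodule.subset_span
      ⟨⟨un n, hb⟩, ⟨n, hn, rfl⟩, ⟨F', hF'⟩, Subtype.ext ?_⟩⟩
    show pf (un n) F' - F' = om (un n) • pf (un n) F' - F'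
    rw [hom.un n hn, one_smul]
  | zero => exact ⟨Submodule.zero_mem _, Submodule.zero_mem _⟩
  | add F F' _ _ h1 h2 =>
    obtain ⟨a1, b1⟩ := h1
    obtain ⟨a2, b2⟩ := h2
    exact ⟨Submodule.add_mem _ a1 a2, Submodule.add_mem _ b1 b2⟩
  | smul k F _ h1 =>
    obtain ⟨a1, b1⟩ := h1
    exact ⟨Submodule.smul_mem _ k a1, Submodule.smul_mem _ k b1⟩

/-- smoothness at all generators -/
private theorem pe_h1 (h : Ctx O ω f ε N R Λ) {om : GL2 → KK O} (hom : Wt O N om) {H : Type}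
    [AddCommGroup H] [Module (KK O) H] {U : GL2 → Fs O → H} (hU : Co O ω ε N om H U)
    {g : GL2} (hg : IsB O N g) {x : V2} (hx : In O ((N : ℂ) • x)) (hx2 : x.2 ∉ O) {y : ℂ}
    (hy : y ∈ ON O N) : ∃ k : ℕ, 0 < k ∧ pf (un (k * y)) (pf g (chi O ω ε N x)) =
      pf g (chi O ω ε N x) ∧ U (un (k * y)) (pf g (chi O ω ε N x)) = 0 := by
  have hg' := hg
  obtain ⟨s, t, m, hs, hs', ht, ht', hm, hgv⟩ := hg
  have hsyt : (s : ℂ) * y / t ∈ ON O N := by
    rw [div_eq_mul_inv, ← Units.val_inv_eq_inv_val]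
    exact (ON O N).mul_mem ((ON O N).mul_mem hs hy) ht'
  obtain ⟨j, hj⟩ := hsyt
  refine ⟨N ^ (j + 1), pow_pos h.N_pos _, ?_⟩
  set n0 : O := ⟨(N : ℂ) ^ j * ((s : ℂ) * y / t), hj⟩ with hn0
  have hcomm : un (((N ^ (j + 1) : ℕ) : ℂ) * y) * g = g * un ((N : ℂ) * n0) := by
    rw [hgv, ← mul_assoc, un_mul, add_comm, ← un_mul, mul_assoc, pe_dg_un, ← mul_assoc]
    congr 2
    rw [hn0]
    push_cast
    ring
  have hNn : (N : ℂ) * n0 ∈ ON O N := (ON O N).mul_mem (natCast_mem _ N) (O_le_ON n0.2)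
  have hky : ((N ^ (j + 1) : ℕ) : ℂ) * y ∈ ON O N := (ON O N).mul_mem (natCast_mem _ _) hy
  have hchi : pf (un ((N : ℂ) * n0)) (chi O ω ε N x) = chi O ω ε N x := by
    have e := chi_un (ε := ε) (N := N) h.quad ((N : O) * n0) x
    have e0 : (((N : O) * n0 : O) : ℂ) = (N : ℂ) * n0 := by push_cast; rfl
    rw [e0] at e
    rw [e]
    have hy : In O ((-(starRingEnd ℂ ((N : ℂ) * n0) * x.2), (0 : ℂ)) : V2) := by
      refine ⟨?_, O.zero_mem⟩
      apply O.neg_mem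
      have e1 : starRingEnd ℂ ((N : ℂ) * n0) * x.2 = ((cj h.quad n0 : O) : ℂ) * ((N : ℂ) * x.2) := by
        rw [coe_cj]; simp only [map_mul, map_natCast]; ring
      rw [e1]
      exact O.mul_mem (cj h.quad n0).2 hx.2
    rw [← chi_per (ε := ε) (N := N) h.quad x hy]
    congr 1
    ext <;> simp [sub_eq_add_neg]
  have hpf : pf (un (((N ^ (j + 1) : ℕ) : ℂ) * y)) (pf g (chi O ω ε N x)) =
      pf g (chi O ω ε N x) := by
    rw [← pf_mul, hcomm, pf_mul, hchi]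
  refine ⟨hpf, ?_⟩
  have hcF := chi_mem (ω := ω) (ε := ε) hx hx2
  have e1 := hU.co g (un ((N : ℂ) * n0)) hg' (isB_un hNn) _ hcF
  rw [hom.un _ hNn, one_smul, hchi, smooth h hom hU hx hx2 n0, zero_add] at e1
  have e2 := hU.co (un (((N ^ (j + 1) : ℕ) : ℂ) * y)) g (isB_un hky) hg' _ hcF
  rw [hcomm, e1] at e2
  have e3 : U (un (((N ^ (j + 1) : ℕ) : ℂ) * y)) (om g • pf g (chi O ω ε N x)) = 0 := by
    have := e2
    nth_rewrite 1 [← add_zero (U g (chi O ω ε N x))] at this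
    exact (add_left_cancel this).symm
  rw [hU.smul _ (isB_un hky) _ _ (pf_mem hg' hcF)] at e3
  exact (smul_eq_zero.mp e3).resolve_left (pe_om_ne hom hg')

/-- the eigenvalue condition at all generators -/
private theorem pe_h2 (h : Ctx O ω f ε N R Λ)
    {g : GL2} (hg : IsB O N g) {x : V2} (hx : In O ((N : ℂ) • x)) (hx2 : x.2 ∉ O) :
    ∃ s : ℂˣ, (s : ℂ) ∈ ON O N ∧ ((s⁻¹ : ℂˣ) : ℂ) ∈ ON O N ∧ 1 < ‖(s : ℂ)‖ ∧
      pf (dg s 1) (pf g (chi O ω ε N x)) - pf g (chi O ω ε N x) ∈ IN O ω ε N := by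
  obtain ⟨s, hs, hs', hs1, he⟩ := eigen h hx hx2
  refine ⟨s, hs, hs', hs1, ?_⟩
  have hg' := hg
  obtain ⟨s', t', m, h1, h2, h3, h4, hm, hgv⟩ := hg
  have hcF := chi_mem (ω := ω) (ε := ε) hx hx2
  have hd : IsB O N (dg s' t') := isB_dg h1 h2 h3 h4
  have hms : m / s ∈ ON O N := by
    rw [div_eq_mul_inv, ← Units.val_inv_eq_inv_val]
    exact (ON O N).mul_mem hm hs'
  have e1 : dg s 1 * g = un (m / s) * (dg s' t' * dg s 1) := by
    rw [hgv, ← mul_assoc, dg_un, mul_assoc, dg_mul, dg_mul, mul_comm s s', mul_comm t' 1]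
    simp
  have hmem : pf (dg s' t') (pf (dg s 1) (chi O ω ε N x)) ∈ FP O ω ε N :=
    pf_mem hd (pf_mem (pe_dg hs hs') hcF)
  have A1 := pe_in hms hmem
  have A2 := pe_stable hd he
  rw [pe_sub] at A2
  have A3 := pe_in hm (pf_mem hd hcF)
  have e2 : pf (dg s 1) (pf g (chi O ω ε N x)) - pf g (chi O ω ε N x) =
      (pf (un (m / s)) (pf (dg s' t') (pf (dg s 1) (chi O ω ε N x))) -
        pf (dg s' t') (pf (dg s 1) (chi O ω ε N x))) +
      (pf (dg s' t') (pf (dg s 1) (chi O ω ε N x)) - pf (dg s' t') (chi O ω ε N x)) -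
      (pf (un m) (pf (dg s' t') (chi O ω ε N x)) - pf (dg s' t') (chi O ω ε N x)) := by
    rw [← pf_mul (dg s 1) g, e1, hgv, pf_mul (un (m / s)), pf_mul (dg s' t'), pf_mul (un m)]
    abel
  rw [e2]
  exact Submodule.sub_mem _ (Submodule.add_mem _ A1 A2) A3

/-- Vertex lemma in weight `om`: `al_main` for the group of the lower triangular elements, `V = FP`,
`A g F = om g • pf g F`, `S` = the generators `pf g χ_x` of `FP`, `g = un n * dg s t`. (h1): `smooth`, conjugated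
by `g`, and `n^k` = `un (k n)` with `k = N^j`; (h2): `eigen`, `c = om (dg s 1)`, `‖c‖ > 1`, conjugated by
`dg s t`. Extend `φ` from `FP` to all functions (`LinearMap.exists_extend`). -/
theorem v1 (h : Ctx O ω f ε N R Λ) {om : GL2 → KK O} (hom : Wt O N om) {H : Type}
    [AddCommGroup H] [Module (KK O) H] {U : GL2 → Fs O → H} (hU : Co O ω ε N om H U) :
    ∃ φ : Fs O →ₗ[KK O] H, ∀ g, IsB O N g → ∀ F ∈ FP O ω ε N,
      U g F = φ (om g • pf g F) - φ F := by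
  classical
  have hN : ∀ a ∈ peN O N, ∀ b ∈ peN O N, a * b = b * a := by
    rintro a ⟨n, hn, ha⟩ b ⟨m, hm, hb⟩
    apply Subtype.ext
    show (a : GL2) * b = (b : GL2) * a
    rw [ha, hb, un_mul, un_mul, add_comm]
  have hT : ∀ a ∈ peT O N, ∀ b ∈ peT O N, a * b = b * a := by
    rintro a ⟨s, t, -, -, -, -, ha⟩ b ⟨s', t', -, -, -, -, hb⟩
    apply Subtype.ext
    show (a : GL2) * b = (b : GL2) * a
    rw [ha, hb, dg_mul, dg_mul, mul_comm s, mul_comm t]
  have hTN : ∀ t ∈ peT O N, ∀ n ∈ peN O N, t * n * t⁻¹ ∈ peN O N := by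
    rintro a ⟨s, t, h1, h2, h3, h4, ha⟩ b ⟨n, hn, hb⟩
    refine ⟨t * n / s, ?_, ?_⟩
    · rw [div_eq_mul_inv, ← Units.val_inv_eq_inv_val]
      exact (ON O N).mul_mem ((ON O N).mul_mem h3 hn) h2
    · show (a : GL2) * b * (a : GL2)⁻¹ = _
      rw [ha, hb, dg_un, mul_assoc, mul_inv_cancel, mul_one]
  have hB : ∀ g : peB O N, ∃ n ∈ peN O N, ∃ t ∈ peT O N, g = n * t := by
    rintro ⟨g, s, t, n, h1, h2, h3, h4, h5, rfl⟩
    exact ⟨⟨un n, isB_un h5⟩, ⟨n, h5, rfl⟩, ⟨dg s t, isB_dg h1 h2 h3 h4⟩,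
      ⟨s, t, h1, h2, h3, h4, rfl⟩, Subtype.ext rfl⟩
  set G : Set (Fs O) := {f | ∃ (g : GL2) (x : V2), IsB O N g ∧ In O ((N : ℂ) • x) ∧ x.2 ∉ O ∧
    f = pf g (chi O ω ε N x)} with hG
  have hspan : Submodule.span (KK O) {v : FP O ω ε N | (v : Fs O) ∈ G} = ⊤ :=
    Submodule.span_setOf_mem_eq_top
  obtain ⟨φ, hφ⟩ := al_main (peA ω ε hom) (peU hU)
    (fun g g' v => hU.co g g' g.2 g'.2 v v.2) (peN O N) (peT O N) hN hT hTN hB
    {v : FP O ω ε N | (v : Fs O) ∈ G} hspan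
    (by
      rintro ⟨v, hv'⟩ ⟨g, x, hg, hx, hx2, hv⟩ n ⟨y, hy, hn⟩
      have hv : v = pf g (chi O ω ε N x) := hv
      obtain ⟨k, hk, e1, e2⟩ := pe_h1 h hom hU hg hx hx2 hy
      have hnk : ((n ^ k : peB O N) : GL2) = un (k * y) := by
        rw [Subgroup.coe_pow, hn, un_pow]
      have hky : (k : ℂ) * y ∈ ON O N := (ON O N).mul_mem (natCast_mem _ _) hy
      refine ⟨k, hk, Subtype.ext ?_, ?_⟩
      · show om ((n ^ k : peB O N) : GL2) • pf ((n ^ k : peB O N) : GL2) v = v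
        rw [hnk, hom.un _ hky, one_smul, hv, e1]
      · show U ((n ^ k : peB O N) : GL2) v = 0
        rw [hnk, hv, e2])
    (by
      rintro ⟨v, hv'⟩ ⟨g, x, hg, hx, hx2, hv⟩
      have hv : v = pf g (chi O ω ε N x) := hv
      obtain ⟨s, hs, hs', hs1, he⟩ := pe_h2 h hg hx hx2
      have hd : IsB O N (dg s 1) := pe_dg hs hs'
      refine ⟨⟨dg s 1, hd⟩, ⟨s, 1, hs, hs', by simpa using (ON O N).one_mem,
        by simpa using (ON O N).one_mem, rfl⟩, om (dg s 1), ?_, ?_⟩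
      · intro h1
        have := hom.big s hs hs' hs1
        rw [h1] at this
        simp at this
        exact absurd hs1 (not_lt.mpr this.le)
      · have h2 := Submodule.smul_mem _ (om (dg s 1)) he
        obtain ⟨a1, b1⟩ := pe_span hom h2
        convert b1 using 1
        apply Subtype.ext
        show om (dg s 1) • pf (dg s 1) v - om (dg s 1) • v =
          om (dg s 1) • (pf (dg s 1) (pf g (chi O ω ε N x)) - pf g (chi O ω ε N x))
        rw [smul_sub, ← hv])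
  obtain ⟨ψ, hψ⟩ := LinearMap.exists_extend φ
  refine ⟨ψ, fun g hg F hF => ?_⟩
  have e := hφ ⟨g, hg⟩ ⟨F, hF⟩
  have e1 : ∀ v : FP O ω ε N, ψ (v : Fs O) = φ v := fun v => by
    rw [← hψ]; rfl
  have e2 := e1 ⟨F, hF⟩
  have e3 := e1 ((peA ω ε hom ⟨g, hg⟩) ⟨F, hF⟩)
  rw [← e2, ← e3] at e
  exact e

end Pool.Agent.KTD
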