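import Pool.Agent.Lib_helper87.KTD.P.PE

set_option autoImplicit false

namespace Pool.Agent.KTD

open Complex Pool.Agent.TCL

variable {O : Subring ℂ} {ω : ℂ} {f : O} {ε : O → O} {N : ℕ} {R : Finset O} {Λ : ℂ →ₗ[KK O] KK O}

/-- the components of a family of vector fields -/
def cf1 {O : Subring ℂ} : Fm O →ₗ[KK O] Fs O where
  toFun F c l := (F c l).1
  map_add' F F' := rfl
  map_smul' k F := rfl

def cf2 {O : Subring ℂ} : Fm O →ₗ[KK O] Fs O where
  toFun F c l := (F c l).2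
  map_add' F F' := rfl
  map_smul' k F := rfl

theorem pff_dec (F : Fm O) : F = ten (1, 0) (cf1 F) + ten (0, 1) (cf2 F) := by
  funext c l
  show F c l = (F c l).1 • ((1 : ℂ), (0 : ℂ)) + (F c l).2 • ((0 : ℂ), (1 : ℂ))
  ext <;> simp

theorem pff_smul (v : V2) (f : Fs O) (z : KK O) (w : V2) (hw : ∀ t : ℂ, t • v = (t * z) • w) :
    ten v f = ten w (z • f) := by
  funext c l
  show f c l • v = ((z : ℂ) * f c l) • w
  rw [hw, mul_comm]

theorem pff_MP {F : Fm O} (hF : F ∈ MP O ω ε N) : cf1 F ∈ FP O ω ε N ∧ cf2 F ∈ FP O ω ε N := by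
  induction hF using Submodule.span_induction with
  | mem x hx =>
    obtain ⟨v, f, hv, hf, rfl⟩ := hx
    constructor
    · have : cf1 (ten v f) = (⟨v.1, hv.1⟩ : KK O) • f := by
        funext c l
        show f c l * v.1 = v.1 * f c l
        rw [mul_comm]
      rw [this]
      exact Submodule.smul_mem _ _ hf
    · have : cf2 (ten v f) = (⟨v.2, hv.2⟩ : KK O) • f := by
        funext c l
        show f c l * v.2 = v.2 * f c l
        rw [mul_comm]
      rw [this]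
      exact Submodule.smul_mem _ _ hf
  | zero => exact ⟨by rw [map_zero]; exact zero_mem _, by rw [map_zero]; exact zero_mem _⟩
  | add x y _ _ hx hy =>
    exact ⟨by rw [map_add]; exact add_mem hx.1 hy.1, by rw [map_add]; exact add_mem hx.2 hy.2⟩
  | smul k x _ hx =>
    exact ⟨by rw [map_smul]; exact Submodule.smul_mem _ _ hx.1,
      by rw [map_smul]; exact Submodule.smul_mem _ _ hx.2⟩

theorem pff_ten1 {f : Fs O} (hf : f ∈ FP O ω ε N) : ten (1, 0) f ∈ MP O ω ε N :=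
  Submodule.subset_span ⟨(1, 0), f, ⟨one_mem _, zero_mem _⟩, hf, rfl⟩

theorem pff_ten2 {f : Fs O} (hf : f ∈ FP O ω ε N) : ten (0, 1) f ∈ MP O ω ε N :=
  Submodule.subset_span ⟨(0, 1), f, ⟨zero_mem _, one_mem _⟩, hf, rfl⟩

open Classical in
/-- the element `z` of `K` -/
noncomputable def pfz (O : Subring ℂ) (z : ℂ) : KK O := if h : z ∈ KK O then ⟨z, h⟩ else 0

theorem pfz_eq {z : ℂ} (hz : z ∈ KK O) : ((pfz O z : KK O) : ℂ) = z := by
  unfold pfz
  rw [dif_pos hz]

/-- the entries of a lower triangular element -/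
theorem pff_ent (hN : 0 < N) {g : GL2} (hg : IsB O N g) :
    ∃ s t n : ℂ, s ∈ KK O ∧ t ∈ KK O ∧ n ∈ KK O ∧ dt g = s * t ∧
      ∀ l : V2, g l = (s * l.1, t * l.2 + n * l.1) := by
  obtain ⟨s, t, n, hs, hs', ht, ht', hn, rfl⟩ := hg
  refine ⟨s, t, n * s, ON_le_KK hN hs, ON_le_KK hN ht, mul_mem (ON_le_KK hN hn) (ON_le_KK hN hs),
    ?_, ?_⟩
  · rw [dt_mul, dt_un, dt_dg, one_mul]
  · intro l
    show ((s : ℂ) * l.1, (t : ℂ) * l.2 + n * ((s : ℂ) * l.1)) = _
    rw [mul_assoc]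

theorem pff_norm (hO : Quad O ω) {z : ℂ} (hz : z ∈ KK O) : ((‖z‖ : ℝ) : ℂ) ^ 2 ∈ KK O := by
  have hn : ((‖z‖ : ℝ) : ℂ) ^ 2 = z * starRingEnd ℂ z := by
    rw [Complex.mul_conj, Complex.normSq_eq_norm_sq]
    push_cast
    ring
  rw [hn]
  exact mul_mem hz (conj_mem_KK hO hz)

/-- the two weights -/
noncomputable def om1 (O : Subring ℂ) (g : GL2) : KK O :=
  pfz O (((‖dt g‖ : ℝ) : ℂ) ^ 2 * (g (1, 0)).1)

noncomputable def om2 (O : Subring ℂ) (g : GL2) : KK O :=
  pfz O (((‖dt g‖ : ℝ) : ℂ) ^ 2 * (g (0, 1)).2)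

theorem pff_om (hO : Quad O ω) (hN : 0 < N) {g : GL2} (hg : IsB O N g) :
    ∃ s t n : ℂ, s ∈ KK O ∧ t ∈ KK O ∧ n ∈ KK O ∧ dt g = s * t ∧
      (∀ l : V2, g l = (s * l.1, t * l.2 + n * l.1)) ∧
      ((om1 O g : KK O) : ℂ) = ((‖dt g‖ : ℝ) : ℂ) ^ 2 * s ∧
      ((om2 O g : KK O) : ℂ) = ((‖dt g‖ : ℝ) : ℂ) ^ 2 * t := by
  obtain ⟨s, t, n, hs, ht, hn, hd, hl⟩ := pff_ent hN hg
  have hdK : dt g ∈ KK O := by rw [hd]; exact mul_mem hs ht
  have e1 : (g (1, 0)).1 = s := by rw [hl]; simp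
  have e2 : (g (0, 1)).2 = t := by rw [hl]; simp
  refine ⟨s, t, n, hs, ht, hn, hd, hl, ?_, ?_⟩
  · unfold om1
    rw [e1]
    exact pfz_eq (mul_mem (pff_norm hO hdK) hs)
  · unfold om2
    rw [e2]
    exact pfz_eq (mul_mem (pff_norm hO hdK) ht)

theorem pff_ext (hO : Quad O ω) (hN : 0 < N) {g g' : GL2} (hg : IsB O N g) (hg' : IsB O N g') :
    om1 O (g * g') = om1 O g * om1 O g' ∧ om2 O (g * g') = om2 O g * om2 O g' := by
  obtain ⟨s, t, n, hs, ht, hn, hd, hl, h1, h2⟩ := pff_om hO hN hg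
  obtain ⟨s', t', n', hs', ht', hn', hd', hl', h1', h2'⟩ := pff_om hO hN hg'
  obtain ⟨s2, t2, n2, hs2, ht2, hn2, hd2, hl2, h12, h22⟩ := pff_om hO hN (isB_mul hg hg')
  have es : s2 = s * s' := by
    have : (g * g') (1, 0) = g (g' (1, 0)) := rfl
    rw [hl2, hl', hl] at this
    have := congrArg Prod.fst this
    simpa using this
  have et : t2 = t * t' := by
    have : (g * g') (0, 1) = g (g' (0, 1)) := rfl
    rw [hl2, hl', hl] at this
    have := congrArg Prod.snd this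
    simpa using this
  have ed : ((‖dt (g * g')‖ : ℝ) : ℂ) = (‖dt g‖ : ℝ) * (‖dt g'‖ : ℝ) := by
    rw [dt_mul, norm_mul]
    push_cast
    ring
  constructor
  · apply Subtype.ext
    show ((om1 O (g * g') : KK O) : ℂ) = ((om1 O g : KK O) : ℂ) * ((om1 O g' : KK O) : ℂ)
    rw [h12, h1, h1', es, ed]
    ring
  · apply Subtype.ext
    show ((om2 O (g * g') : KK O) : ℂ) = ((om2 O g : KK O) : ℂ) * ((om2 O g' : KK O) : ℂ)
    rw [h22, h2, h2', et, ed]
    ring

theorem pff_big {x : ℝ} (hx : 1 < x) : x < x ^ 2 ∧ x < x ^ 3 := by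
  constructor <;> nlinarith [mul_pos (sub_pos.2 hx) (sub_pos.2 hx)]

theorem pff_wt1 (hO : Quad O ω) (hN : 0 < N) : Wt O N (om1 O) := by
  refine ⟨fun g g' hg hg' => (pff_ext hO hN hg hg').1, ?_, ?_⟩
  · intro n hn
    apply Subtype.ext
    unfold om1
    have e : ((‖dt (un n)‖ : ℝ) : ℂ) ^ 2 * ((un n) (1, 0)).1 = 1 := by
      rw [dt_un]
      show (((‖(1 : ℂ)‖ : ℝ) : ℂ)) ^ 2 * (1 : ℂ) = 1
      simp
    rw [e]
    exact pfz_eq (one_mem _)
  · intro s hs hs' h1
    obtain ⟨s', t, n, hs1, ht, hn, hd, hl, h1', h2'⟩ := pff_om hO hN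
      (isB_dg hs hs' (N := N) (by simpa using (ON O N).one_mem) (by simpa using (ON O N).one_mem)
        (t := 1))
    have es : s' = s := by
      have : (dg s 1) (1, 0) = ((s : ℂ) * 1, (1 : ℂ) * 0) := rfl
      rw [hl] at this
      have := congrArg Prod.fst this
      simpa using this
    rw [h1', es, norm_mul, norm_pow, dt_dg]
    simp only [Units.val_one, mul_one, Complex.norm_real, norm_norm]
    have := (pff_big h1).2
    calc ‖(s : ℂ)‖ < ‖(s : ℂ)‖ ^ 3 := this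
      _ = ‖(s : ℂ)‖ ^ 2 * ‖(s : ℂ)‖ := by ring

theorem pff_wt2 (hO : Quad O ω) (hN : 0 < N) : Wt O N (om2 O) := by
  refine ⟨fun g g' hg hg' => (pff_ext hO hN hg hg').2, ?_, ?_⟩
  · intro n hn
    apply Subtype.ext
    unfold om2
    have e : ((‖dt (un n)‖ : ℝ) : ℂ) ^ 2 * ((un n) (0, 1)).2 = 1 := by
      rw [dt_un]
      show (((‖(1 : ℂ)‖ : ℝ) : ℂ)) ^ 2 * ((1 : ℂ) + n * 0) = 1
      simp
    rw [e]
    exact pfz_eq (one_mem _)
  · intro s hs hs' h1
    obtain ⟨s', t, n, hs1, ht, hn, hd, hl, h1', h2'⟩ := pff_om hO hN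
      (isB_dg hs hs' (N := N) (by simpa using (ON O N).one_mem) (by simpa using (ON O N).one_mem)
        (t := 1))
    have es : t = 1 := by
      have : (dg s 1) (0, 1) = ((s : ℂ) * 0, (1 : ℂ) * 1) := rfl
      rw [hl] at this
      have := congrArg Prod.snd this
      simpa using this
    rw [h2', es, norm_mul, norm_pow, dt_dg]
    simp only [Units.val_one, mul_one, Complex.norm_real, norm_norm, norm_one]
    exact (pff_big h1).1

/-- the action on the components -/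
theorem pff_act2 (hO : Quad O ω) (hN : 0 < N) {g : GL2} (hg : IsB O N g) (f : Fs O) :
    act g (ten (0, 1) f) = ten (0, 1) (om2 O g • pf g f) := by
  obtain ⟨s, t, n, hs, ht, hn, hd, hl, h1, h2⟩ := pff_om hO hN hg
  funext c l
  show ((‖dt g‖ : ℂ) ^ 2) • (g (f c (g⁻¹ l) • ((0 : ℂ), (1 : ℂ)))) =
    (((om2 O g : KK O) : ℂ) * f c (g⁻¹ l)) • ((0 : ℂ), (1 : ℂ))
  rw [map_smul, hl, h2]
  ext
  · simp
  · simp
    ring

theorem pff_c1 (hO : Quad O ω) (hN : 0 < N) {g : GL2} (hg : IsB O N g) (F : Fm O) :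
    cf1 (act g F) = om1 O g • pf g (cf1 F) := by
  obtain ⟨s, t, n, hs, ht, hn, hd, hl, h1, h2⟩ := pff_om hO hN hg
  funext c l
  show (((‖dt g‖ : ℂ) ^ 2) • (g (F c (g⁻¹ l)))).1 = ((om1 O g : KK O) : ℂ) * (F c (g⁻¹ l)).1
  rw [hl, h1]
  show ((‖dt g‖ : ℂ) ^ 2) * (s * (F c (g⁻¹ l)).1) = _
  ring

/-- Vertex lemma. `MP = FP ⊗ e1 + FP ⊗ e2`. First `v1` for `F ↦ U g (ten (0, 1) F)`, weight
`‖dt g‖² (g (0, 1)).2`; let `φ2` be the result, `U' g m = U g m - φ2 (second component of act g m) +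
φ2 (second component of m)`; then `U'` is zero on `FP ⊗ e2`, and `F ↦ U' g (ten (1, 0) F)` has weight
`‖dt g‖² (g (1, 0)).1`: `v1` again. -/
theorem vertex (h : Ctx O ω f ε N R Λ) {H : Type} [AddCommGroup H] [Module (KK O) H]
    {U : GL2 → Fm O → H}
    (hadd : ∀ g, IsB O N g → ∀ F ∈ MP O ω ε N, ∀ F' ∈ MP O ω ε N, U g (F + F') = U g F + U g F')
    (hsmul : ∀ g, IsB O N g → ∀ (k : KK O), ∀ F ∈ MP O ω ε N, U g (k • F) = k • U g F)
    (hco : ∀ g g', IsB O N g → IsB O N g' → ∀ F ∈ MP O ω ε N,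
      U (g * g') F = U g' F + U g (act g' F)) :
    ∃ φ : Fm O →ₗ[KK O] H, ∀ g, IsB O N g → ∀ F ∈ MP O ω ε N, U g F = φ (act g F) - φ F := by
  have hO := h.quad
  have hN := h.N_pos
  have t_add : ∀ (v : V2) (f f' : Fs O), ten v (f + f') = ten v f + ten v f' := by
    intro v f f'
    funext c l
    exact add_smul _ _ _
  have t_smul : ∀ (v : V2) (k : KK O) (f : Fs O), ten v (k • f) = k • ten v f := by
    intro v k f
    funext c l
    show ((k : ℂ) * f c l) • v = (k : ℂ) • (f c l • v)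
    rw [mul_smul]
  have hAM : ∀ g, IsB O N g → ∀ F ∈ MP O ω ε N, act g F ∈ MP O ω ε N := fun g hg F hF =>
    MP_act hO hN hg hF
  -- first step
  obtain ⟨φ2, hφ2⟩ := v1 h (pff_wt2 hO hN) (U := fun g f => U g (ten (0, 1) f))
    ⟨fun g hg F hF F' hF' => by
        show U g (ten (0, 1) (F + F')) = _
        rw [t_add]
        exact hadd g hg _ (pff_ten2 hF) _ (pff_ten2 hF'),
      fun g hg k F hF => by
        show U g (ten (0, 1) (k • F)) = _
        rw [t_smul]
        exact hsmul g hg k _ (pff_ten2 hF),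
      fun g g' hg hg' F hF => by
        show U (g * g') (ten (0, 1) F) = U g' (ten (0, 1) F) + U g (ten (0, 1) (om2 O g' • pf g' F))
        rw [← pff_act2 hO hN hg']
        exact hco g g' hg hg' _ (pff_ten2 hF)⟩
  -- the corrected cocycle
  set U' : GL2 → Fm O → H := fun g F => U g F - φ2 (cf2 (act g F)) + φ2 (cf2 F) with hU'
  have uadd : ∀ g, IsB O N g → ∀ F ∈ MP O ω ε N, ∀ F' ∈ MP O ω ε N,
      U' g (F + F') = U' g F + U' g F' := by
    intro g hg F hF F' hF'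
    simp only [hU']
    rw [hadd g hg F hF F' hF', act_add, map_add, map_add, map_add, map_add]
    abel
  have usmul : ∀ g, IsB O N g → ∀ (k : KK O), ∀ F ∈ MP O ω ε N, U' g (k • F) = k • U' g F := by
    intro g hg k F hF
    simp only [hU']
    rw [hsmul g hg k F hF, act_smul, map_smul, map_smul, map_smul, map_smul, smul_add, smul_sub]
  have uco : ∀ g g', IsB O N g → IsB O N g' → ∀ F ∈ MP O ω ε N,
      U' (g * g') F = U' g' F + U' g (act g' F) := by
    intro g g' hg hg' F hF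
    simp only [hU']
    rw [hco g g' hg hg' F hF, act_mul]
    abel
  have u2 : ∀ g, IsB O N g → ∀ f ∈ FP O ω ε N, U' g (ten (0, 1) f) = 0 := by
    intro g hg f hf
    simp only [hU']
    have e1 : cf2 (act g (ten (0, 1) f)) = om2 O g • pf g f := by
      rw [pff_act2 hO hN hg]
      funext c l
      show (om2 O g • pf g f) c l * 1 = _
      rw [mul_one]
    have e2 : cf2 (ten (0, 1) f) = f := by
      funext c l
      show f c l * 1 = _
      rw [mul_one]
    have := hφ2 g hg f hf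
    rw [this, e1, e2]
    abel
  -- the value of `U'` depends on the first component only
  have u1 : ∀ g, IsB O N g → ∀ F ∈ MP O ω ε N, U' g F = U' g (ten (1, 0) (cf1 F)) := by
    intro g hg F hF
    conv_lhs => rw [pff_dec F]
    rw [uadd g hg _ (pff_ten1 (pff_MP hF).1) _ (pff_ten2 (pff_MP hF).2), u2 g hg _ (pff_MP hF).2,
      add_zero]
  -- second step
  obtain ⟨φ1, hφ1⟩ := v1 h (pff_wt1 hO hN) (U := fun g f => U' g (ten (1, 0) f))
    ⟨fun g hg F hF F' hF' => by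
        show U' g (ten (1, 0) (F + F')) = _
        rw [t_add]
        exact uadd g hg _ (pff_ten1 hF) _ (pff_ten1 hF'),
      fun g hg k F hF => by
        show U' g (ten (1, 0) (k • F)) = _
        rw [t_smul]
        exact usmul g hg k _ (pff_ten1 hF),
      fun g g' hg hg' F hF => by
        show U' (g * g') (ten (1, 0) F) =
          U' g' (ten (1, 0) F) + U' g (ten (1, 0) (om1 O g' • pf g' F))
        rw [uco g g' hg hg' _ (pff_ten1 hF), u1 g hg _ (hAM g' hg' _ (pff_ten1 hF)),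
          pff_c1 hO hN hg']
        have e : cf1 (ten (1, 0) F) = F := by
          funext c l
          show F c l * 1 = _
          rw [mul_one]
        rw [e]⟩
  refine ⟨φ1.comp cf1 + φ2.comp cf2, ?_⟩
  intro g hg F hF
  have e1 := u1 g hg F hF
  have e2 := hφ1 g hg (cf1 F) (pff_MP hF).1
  rw [e2] at e1
  simp only [hU'] at e1
  simp only [LinearMap.add_apply, LinearMap.comp_apply]
  rw [pff_c1 hO hN hg]
  have : U g F = (φ1 (om1 O g • pf g (cf1 F)) - φ1 (cf1 F)) + φ2 (cf2 (act g F)) - φ2 (cf2 F) := by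
    rw [← e1]
    abel
  rw [this]
  abel

end Pool.Agent.KTD
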