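import Pool.Agent.Lib_helper87.KTD.P.IB
import Pool.Agent.Lib_helper87.KTD.St
import Pool.Agent.Lib_helper76.TCL.P.QC
import Pool.Agent.Lib_helper76.TCL.P.FIN

set_option autoImplicit false

namespace Pool.Agent.KTD

open Complex Pool.Agent.TCL

variable {O : Subring ℂ} {ω : ℂ} {f : O} {ε : O → O} {N : ℕ}

theorem re_pr {u : O} (hc : starRingEnd ℂ (u : ℂ) * (u : ℂ) = 1) (t g : ℂ) :
    pr ω (u * starRingEnd ℂ t) (u * starRingEnd ℂ g) = starRingEnd ℂ (pr ω t g) := by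
  rw [pr_mul, ← mul_assoc, hc, one_mul, pr_conj]

theorem ks_conj (hO : Quad O ω) {u : O} (hu : IsUnit u) (x y z v w : ℂ) :
    starRingEnd ℂ (KS O ω x y z v w) =
      u * KS O ω (u * starRingEnd ℂ x) (u * starRingEnd ℂ y) (u * starRingEnd ℂ z)
        (starRingEnd ℂ v) (starRingEnd ℂ w) := by
  obtain ⟨u', hu'⟩ := hu.exists_right_inv
  have hu'' : u' * u = 1 := by rw [mul_comm]; exact hu'
  have hn : ‖(u : ℂ)‖ = 1 := (isUnit_iff_norm hO u).1 hu
  have huc := unit_mul_conj hO u hu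
  have hc : starRingEnd ℂ (u : ℂ) * (u : ℂ) = 1 := by rw [mul_comm]; exact huc
  let e1 : O ≃ O := ⟨fun g => u * cj hO g, fun g => cj hO (u' * g), fun g => by
    show cj hO (u' * (u * cj hO g)) = g
    rw [← mul_assoc, hu'', one_mul, cj_cj], fun g => by
    show u * cj hO (cj hO (u' * g)) = g
    rw [cj_cj, ← mul_assoc, hu', one_mul]⟩
  unfold KS
  rw [Complex.conj_tsum, ← (Equiv.prodCongr e1 e1).tsum_eq (fun l : O × O =>
    pr ω (u * starRingEnd ℂ x) l.1 * pr ω (u * starRingEnd ℂ y) l.2 *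
      pr ω (u * starRingEnd ℂ z) (-(l.1 + l.2 : ℂ)) *
      (starRingEnd ℂ w * starRingEnd ℂ (l.1 : ℂ) - starRingEnd ℂ v * starRingEnd ℂ (l.2 : ℂ)) /
      (‖(l.1 : ℂ)‖ * ‖(l.2 : ℂ)‖ * ‖(l.1 : ℂ) + l.2‖ : ℂ) ^ 2), ← tsum_mul_left]
  refine tsum_congr fun l => ?_
  have c1 : ∀ g : O, ((e1 g : O) : ℂ) = u * starRingEnd ℂ (g : ℂ) := fun g => by
    show ((u * cj hO g : O) : ℂ) = _
    push_cast
    rw [coe_cj]
  show _ = (u : ℂ) * (pr ω (u * starRingEnd ℂ x) ((e1 l.1 : O) : ℂ) *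
    pr ω (u * starRingEnd ℂ y) ((e1 l.2 : O) : ℂ) *
    pr ω (u * starRingEnd ℂ z) (-(((e1 l.1 : O) : ℂ) + ((e1 l.2 : O) : ℂ))) *
    (starRingEnd ℂ w * starRingEnd ℂ ((e1 l.1 : O) : ℂ) -
      starRingEnd ℂ v * starRingEnd ℂ ((e1 l.2 : O) : ℂ)) /
    (‖((e1 l.1 : O) : ℂ)‖ * ‖((e1 l.2 : O) : ℂ)‖ * ‖((e1 l.1 : O) : ℂ) + ((e1 l.2 : O) : ℂ)‖ : ℂ) ^ 2)
  rw [c1, c1]
  have c2 : -((u : ℂ) * starRingEnd ℂ (l.1 : ℂ) + (u : ℂ) * starRingEnd ℂ (l.2 : ℂ)) =
      u * starRingEnd ℂ (-((l.1 : ℂ) + l.2)) := by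
    rw [map_neg, map_add]
    ring
  have c3 : (u : ℂ) * starRingEnd ℂ (l.1 : ℂ) + (u : ℂ) * starRingEnd ℂ (l.2 : ℂ) =
      u * starRingEnd ℂ ((l.1 : ℂ) + l.2) := by
    rw [map_add]
    ring
  rw [c2, c3, re_pr hc, re_pr hc, re_pr hc]
  simp only [norm_mul, hn, one_mul, RCLike.norm_conj]
  rw [map_div₀, map_mul, map_mul, map_mul, map_sub, map_mul, map_mul, map_pow, map_mul, map_mul,
    Complex.conj_ofReal, Complex.conj_ofReal, Complex.conj_ofReal]
  simp only [map_mul, Complex.conj_conj]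
  rw [← mul_div_assoc]
  congr 1
  linear_combination (-(starRingEnd ℂ (pr ω x l.1) * starRingEnd ℂ (pr ω y l.2) *
    starRingEnd ℂ (pr ω z (-((l.1 : ℂ) + l.2)))) *
    (starRingEnd ℂ w * (l.1 : ℂ) - starRingEnd ℂ v * (l.2 : ℂ))) * huc

/-- the trace of an invariant combination -/
theorem tr_conj (hO : Quad O ω) (hε : GC O f ε) (hfN : f ∣ (N : O)) {S : Finset O}
    (hS : IsReps (N : O) S) {n : ℕ} {x y z : Fin n → ℂ} {v w : Fin n → KK O}
    (hx : ∀ i, (N : ℂ) * x i ∈ O) (hy : ∀ i, (N : ℂ) * y i ∈ O) (hz : ∀ i, (N : ℂ) * z i ∈ O)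
    {u : O} (hu : IsUnit u) (hc : CInv O u n x y z v w) :
    starRingEnd ℂ (TR O ω ε (N : O) S n x y z v w) = u * TR O ω ε (N : O) S n x y z v w := by
  classical
  obtain ⟨σ, hσ⟩ := hc
  have hNc : ((N : O) : ℂ) = (N : ℂ) := by simp
  set G : O → ℂ := fun c => ∑ i,
    KS O ω (ε c * c * x i) (ε c * c * y i) (ε c * c * z i) (v i) (w i) with hG
  set F : O → ℂ := fun c => if IsCoprime c (N : O) then G c else 0 with hF
  have hper : ∀ a b : O, F (a + (N : O) * b) = F a := by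
    intro a b
    have hcop : IsCoprime (a + (N : O) * b) (N : O) ↔ IsCoprime a (N : O) :=
      IsCoprime.add_mul_left_left_iff
    simp only [hF]
    rw [if_congr hcop rfl rfl]
    congr 1
    simp only [hG]
    refine Finset.sum_congr rfl fun i _ => ?_
    obtain ⟨d, hd'⟩ := hfN
    have e1 : ε (a + (N : O) * b) = ε a := by
      rw [hd', mul_assoc]
      exact hε.per _ _
    have key : ∀ t : ℂ, (N : ℂ) * t ∈ O → ∃ k : O,
        ((ε (a + (N : O) * b) : O) : ℂ) * ((a + (N : O) * b : O) : ℂ) * t = (ε a : ℂ) * a * t + k := by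
      intro t ht
      refine ⟨ε a * b * ⟨_, ht⟩, ?_⟩
      rw [e1]
      push_cast
      ring
    obtain ⟨k1, h1⟩ := key _ (hx i)
    obtain ⟨k2, h2⟩ := key _ (hy i)
    obtain ⟨k3, h3⟩ := key _ (hz i)
    rw [h1, h2, h3, ks_per hO]
  have hT : TR O ω ε (N : O) S n x y z v w = ∑ c ∈ S, F c := by
    unfold TR
    rw [Finset.sum_filter]
  have hR' : IsReps (cj hO (N : O)) S := by
    rw [cj_nat]; exact hS
  have e2 := sum_conj_reps hO hS hR' F hper
  have hconj : ∀ c : O, starRingEnd ℂ (F c) = u * F (cj hO c) := by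
    intro c
    have hcop : IsCoprime (cj hO c) (N : O) ↔ IsCoprime c (N : O) := by
      constructor
      · intro h
        have := cj_isCoprime hO h
        rwa [cj_cj, cj_nat] at this
      · intro h
        have := cj_isCoprime hO h
        rwa [cj_nat] at this
    simp only [hF]
    rw [if_congr hcop rfl rfl]
    split_ifs
    · simp only [hG]
      rw [map_sum, Finset.mul_sum, ← Equiv.sum_comp σ (fun i => (u : ℂ) *
        KS O ω (ε (cj hO c) * (cj hO c : O) * x i) (ε (cj hO c) * (cj hO c : O) * y i)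
          (ε (cj hO c) * (cj hO c : O) * z i) (v i) (w i))]
      refine Finset.sum_congr rfl fun i _ => ?_
      obtain ⟨h1, h2, h3, h4, h5⟩ := hσ i
      rw [ks_conj hO hu, h4, h5]
      have key : ∀ t s : ℂ, (u : ℂ) * starRingEnd ℂ t - s ∈ O → ∃ k : O,
          (u : ℂ) * starRingEnd ℂ ((ε c : ℂ) * c * t) =
            (ε (cj hO c) : ℂ) * ((cj hO c : O) : ℂ) * s + k := by
        intro t s hts
        refine ⟨ε (cj hO c) * cj hO c * ⟨_, hts⟩, ?_⟩
        push_cast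
        rw [eps_cj hO hε, coe_cj, coe_cj, map_mul, map_mul]
        ring
      obtain ⟨k1, g1⟩ := key _ _ h1
      obtain ⟨k2, g2⟩ := key _ _ h2
      obtain ⟨k3, g3⟩ := key _ _ h3
      rw [g1, g2, g3, ks_per hO]
    · rw [map_zero, mul_zero]
  rw [hT, map_sum, Finset.sum_congr rfl (fun c _ => hconj c), ← Finset.mul_sum, e2]

theorem re_nat (hO : Quad O ω) {M : O} (hM : M ≠ 0) : ∃ N : ℕ, 0 < N ∧ M ∣ (N : O) := by
  obtain ⟨N0, hN0, hMN0⟩ := ql_norm_nat hO M hM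
  refine ⟨N0, hN0, cj hO M, ?_⟩
  apply Subtype.ext
  push_cast
  rw [coe_cj, ← hMN0]

/-- the two statements on closed combinations -/
theorem main2 (hO : Quad O ω) (hP : IsPrincipalIdealRing O) (hf : f ≠ 0) (hε : GC O f ε)
    {n : ℕ} {x y z : Fin n → ℂ} {v w : Fin n → KK O} (hx : Cfg O n x y z)
    (hB : Closed O f ε n x y z v w) {M : O} {S : Finset O} (hfM : f ∣ M) (hM : M ≠ 0)
    (hS : IsReps M S) (hMx : ∀ i, (M : ℂ) * x i ∈ O ∧ (M : ℂ) * y i ∈ O ∧ (M : ℂ) * z i ∈ O) :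
    (∃ ρ : KK O, TR O ω ε M S n x y z v w = ρ * LE O ε) ∧
      ∀ u : O, IsUnit u → CInv O u n x y z v w → ∀ δ : KK O, δ ≠ 0 →
        starRingEnd ℂ (δ : ℂ) = u * δ → ∃ r : ℚ, TR O ω ε M S n x y z v w = r * δ * LE O ε := by
  classical
  refine ⟨main hO hP hf hε x y z v w hx.x_mem hx.y_mem hx.z_mem hx.zy hx.xz hx.yx hB M S hfM hM hS
    (fun i => (hMx i).1) (fun i => (hMx i).2.1) (fun i => (hMx i).2.2), ?_⟩
  intro u hu hc δ hδ hδu
  obtain ⟨N, hN, hMN⟩ := re_nat hO hM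
  have hNc : ((N : O) : ℂ) = (N : ℂ) := by simp
  have hNO : (N : O) ≠ 0 := by
    intro h
    have := congrArg (Subtype.val) h
    rw [hNc] at this
    have h0 : (N : ℂ) = 0 := this
    exact hN.ne' (by exact_mod_cast h0)
  have hmul : ∀ t : ℂ, (M : ℂ) * t ∈ O → (N : ℂ) * t ∈ O := by
    intro t ht
    obtain ⟨d, hd⟩ := hMN
    have hd' : (N : ℂ) = M * d := by
      rw [← hNc, hd]
      push_cast
      rfl
    rw [hd', mul_comm (M : ℂ), mul_assoc]
    exact O.mul_mem d.2 ht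
  obtain ⟨S', hS'⟩ := exists_reps hO (N : O) hNO
  obtain ⟨q, hq, hlift⟩ := trace_lift hO hP hε hfM hNO hMN hS hS' x y z (fun i => v i)
    (fun i => w i) (fun i => (hMx i).1) (fun i => (hMx i).2.1) (fun i => (hMx i).2.2)
  have h1 : TR O ω ε M S n x y z v w = q * TR O ω ε (N : O) S' n x y z v w := hlift
  obtain ⟨ρ, hρ⟩ := main hO hP hf hε x y z v w hx.x_mem hx.y_mem hx.z_mem hx.zy hx.xz hx.yx hB
    (N : O) S' (hfM.trans hMN) hNO hS' (fun i => by rw [hNc]; exact hmul _ (hMx i).1)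
    (fun i => by rw [hNc]; exact hmul _ (hMx i).2.1) (fun i => by rw [hNc]; exact hmul _ (hMx i).2.2)
  have h2 : TR O ω ε (N : O) S' n x y z v w = ρ * LE O ε := hρ
  have h3 := tr_conj hO hε (hfM.trans hMN) hS' (fun i => hmul _ (hMx i).1)
    (fun i => hmul _ (hMx i).2.1) (fun i => hmul _ (hMx i).2.2) hu hc
  have hL := LE_ne_zero hO hP hf hε
  have hδ' : (δ : ℂ) ≠ 0 := by
    intro h; exact hδ (Subtype.ext h)
  have hu0 : (u : ℂ) ≠ 0 := coe_ne_zero hu.ne_zero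
  have h4 : starRingEnd ℂ (ρ : ℂ) = u * ρ := by
    rw [h2, map_mul, LE_conj hO hε] at h3
    have : starRingEnd ℂ (ρ : ℂ) * LE O ε = (u * ρ) * LE O ε := by rw [h3]; ring
    exact mul_right_cancel₀ hL this
  have h5 : starRingEnd ℂ (((ρ / δ : KK O)) : ℂ) = ((ρ / δ : KK O) : ℂ) := by
    push_cast
    rw [map_div₀, h4, hδu]
    field_simp
  obtain ⟨r, hr⟩ := real_mem_KK hO (ρ / δ : KK O).2 h5
  refine ⟨q * r, ?_⟩
  have h6 : (ρ : ℂ) = r * δ := by
    have : ((ρ / δ : KK O) : ℂ) = (ρ : ℂ) / δ := by push_cast; rfl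
    rw [← hr, this]
    field_simp
  rw [h1, h2, h6]
  push_cast
  ring

end Pool.Agent.KTD
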