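import Pool.Agent.Lib_helper87.KTD.Defs
import Pool.Agent.Lib_helper76.TCL.P.QA
import Pool.Agent.Lib_helper76.TCL.P.QL

set_option autoImplicit false

namespace Pool.Agent.KTD

open Complex Pool.Agent.TCL

/-- `EisensteinSeries.summable_one_div_norm_rpow`, `EisensteinSeries.r_mul_max_le` -/
theorem summable_O {O : Subring ℂ} {ω : ℂ} (hO : Quad O ω) :
    Summable (fun a : O => ‖(a : ℂ)‖ ^ (-(5 / 2) : ℝ)) := by
  have hs : Summable (fun x : Fin 2 → ℤ => ‖(x 0 : ℂ) * ω + (x 1 : ℂ)‖ ^ (-(5 / 2) : ℝ)) := by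
    have h := (EisensteinSeries.summable_one_div_norm_rpow
      (show (2 : ℝ) < 5 / 2 by norm_num)).mul_left
      ((EisensteinSeries.r (⟨ω, hO.im_pos⟩ : UpperHalfPlane)) ^ (-(5 / 2) : ℝ))
    refine h.of_nonneg_of_le (fun x => by positivity) fun x => ?_
    exact EisensteinSeries.summand_bound (⟨ω, hO.im_pos⟩ : UpperHalfPlane)
      (show (0 : ℝ) ≤ 5 / 2 by norm_num) x
  have hex : ∀ g : O, ∃ x : Fin 2 → ℤ, (g : ℂ) = (x 0 : ℂ) * ω + (x 1 : ℂ) := by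
    intro g
    obtain ⟨a, b, hab⟩ := (hO.mem _).1 g.2
    refine ⟨![b, a], ?_⟩
    rw [hab]
    simp only [Matrix.cons_val_zero, Matrix.cons_val_one]
    ring
  choose F hF using hex
  have hinj : Function.Injective F := by
    intro g g' h
    apply Subtype.ext
    rw [hF g, hF g', h]
  refine (hs.comp_injective hinj).congr fun g => ?_
  simp only [Function.comp_apply]
  rw [← hF g]

/-- `[u1, l], [u2, l] ∈ D'⁻¹ O`, and `l ↦ ([u1, l], [u2, l])` is injective -/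
theorem summable_pair {O : Subring ℂ} {ω : ℂ} (hO : Quad O ω) {u1 u2 : V2} (h1 : In (KK O) u1)
    (h2 : In (KK O) u2) (h12 : cr u1 u2 ≠ 0) {D : ℕ} (hD : 0 < D) :
    Summable (fun l : V2 => Set.indicator {l : V2 | In O ((D : ℂ) • l)}
      (fun l => (‖cr u1 l‖ * ‖cr u2 l‖) ^ (-(5 / 2) : ℝ)) l) := by
  obtain ⟨n1, hn1, e1⟩ := nat_denom hO h1.1
  obtain ⟨n2, hn2, e2⟩ := nat_denom hO h1.2
  obtain ⟨n3, hn3, e3⟩ := nat_denom hO h2.1
  obtain ⟨n4, hn4, e4⟩ := nat_denom hO h2.2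
  have hN : ∀ k : ℕ, (k : ℂ) ∈ O := fun k => natCast_mem O k
  set M : ℕ := n1 * n2 * n3 * n4 with hM
  have hMpos : 0 < M := by positivity
  have f1 : (M : ℂ) * u1.1 ∈ O := by
    have : (M : ℂ) * u1.1 = ((n2 * n3 * n4 : ℕ) : ℂ) * ((n1 : ℂ) * u1.1) := by
      rw [hM]; push_cast; ring
    rw [this]
    exact O.mul_mem (hN _) e1
  have f2 : (M : ℂ) * u1.2 ∈ O := by
    have : (M : ℂ) * u1.2 = ((n1 * n3 * n4 : ℕ) : ℂ) * ((n2 : ℂ) * u1.2) := by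
      rw [hM]; push_cast; ring
    rw [this]
    exact O.mul_mem (hN _) e2
  have f3 : (M : ℂ) * u2.1 ∈ O := by
    have : (M : ℂ) * u2.1 = ((n1 * n2 * n4 : ℕ) : ℂ) * ((n3 : ℂ) * u2.1) := by
      rw [hM]; push_cast; ring
    rw [this]
    exact O.mul_mem (hN _) e3
  have f4 : (M : ℂ) * u2.2 ∈ O := by
    have : (M : ℂ) * u2.2 = ((n1 * n2 * n3 : ℕ) : ℂ) * ((n4 : ℂ) * u2.2) := by
      rw [hM]; push_cast; ring
    rw [this]
    exact O.mul_mem (hN _) e4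
  have g1 : ∀ l : V2, In O ((D : ℂ) • l) → ((M * D : ℕ) : ℂ) * cr u1 l ∈ O := by
    intro l hl
    have : ((M * D : ℕ) : ℂ) * cr u1 l =
        ((M : ℂ) * u1.1) * ((D : ℂ) • l).2 - ((M : ℂ) * u1.2) * ((D : ℂ) • l).1 := by
      simp only [cr, Prod.smul_fst, Prod.smul_snd, smul_eq_mul]
      push_cast
      ring
    rw [this]
    exact O.sub_mem (O.mul_mem f1 hl.2) (O.mul_mem f2 hl.1)
  have g2 : ∀ l : V2, In O ((D : ℂ) • l) → ((M * D : ℕ) : ℂ) * cr u2 l ∈ O := by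
    intro l hl
    have : ((M * D : ℕ) : ℂ) * cr u2 l =
        ((M : ℂ) * u2.1) * ((D : ℂ) • l).2 - ((M : ℂ) * u2.2) * ((D : ℂ) • l).1 := by
      simp only [cr, Prod.smul_fst, Prod.smul_snd, smul_eq_mul]
      push_cast
      ring
    rw [this]
    exact O.sub_mem (O.mul_mem f3 hl.2) (O.mul_mem f4 hl.1)
  have hP : Summable (fun p : O × O => ‖(p.1 : ℂ)‖ ^ (-(5 / 2) : ℝ) * ‖(p.2 : ℂ)‖ ^ (-(5 / 2) : ℝ)) :=
    (summable_O hO).mul_of_nonneg (summable_O hO) (fun a => by positivity) (fun a => by positivity)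
  have hMD : ((M * D : ℕ) : ℂ) ≠ 0 := by
    have : 0 < M * D := Nat.mul_pos hMpos hD
    exact_mod_cast this.ne'
  have hMDr : (0 : ℝ) < ‖((M * D : ℕ) : ℂ)‖ := norm_pos_iff.2 hMD
  let Φ : {l : V2 | In O ((D : ℂ) • l)} → O × O := fun l =>
    (⟨((M * D : ℕ) : ℂ) * cr u1 l.1, g1 l.1 l.2⟩, ⟨((M * D : ℕ) : ℂ) * cr u2 l.1, g2 l.1 l.2⟩)
  have hinj : Function.Injective Φ := by
    intro l l' h
    have q1 : ((M * D : ℕ) : ℂ) * cr u1 l.1 = ((M * D : ℕ) : ℂ) * cr u1 l'.1 :=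
      congrArg (fun p : O × O => (p.1 : ℂ)) h
    have q2 : ((M * D : ℕ) : ℂ) * cr u2 l.1 = ((M * D : ℕ) : ℂ) * cr u2 l'.1 :=
      congrArg (fun p : O × O => (p.2 : ℂ)) h
    have r1 := mul_left_cancel₀ hMD q1
    have r2 := mul_left_cancel₀ hMD q2
    have s1 : cr u1 u2 * l.1.1 = cr u1 u2 * l'.1.1 := by
      have t : ∀ m : V2, cr u1 u2 * m.1 = cr u1 m * u2.1 - cr u2 m * u1.1 := by
        intro m; simp only [cr]; ring
      rw [t, t, r1, r2]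
    have s2 : cr u1 u2 * l.1.2 = cr u1 u2 * l'.1.2 := by
      have t : ∀ m : V2, cr u1 u2 * m.2 = cr u1 m * u2.2 - cr u2 m * u1.2 := by
        intro m; simp only [cr]; ring
      rw [t, t, r1, r2]
    exact Subtype.ext (Prod.ext (mul_left_cancel₀ h12 s1) (mul_left_cancel₀ h12 s2))
  have hS : Summable (fun l : {l : V2 | In O ((D : ℂ) • l)} =>
      (‖cr u1 l.1‖ * ‖cr u2 l.1‖) ^ (-(5 / 2) : ℝ)) := by
    have h := (hP.comp_injective hinj).mul_left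
      ((‖((M * D : ℕ) : ℂ)‖ ^ (-(5 / 2) : ℝ) * ‖((M * D : ℕ) : ℂ)‖ ^ (-(5 / 2) : ℝ))⁻¹)
    refine h.congr fun l => ?_
    have hpos : (0 : ℝ) < ‖((M * D : ℕ) : ℂ)‖ ^ (-(5 / 2) : ℝ) := Real.rpow_pos_of_pos hMDr _
    simp only [Function.comp_apply, Φ]
    rw [norm_mul, norm_mul, Real.mul_rpow (norm_nonneg _) (norm_nonneg _),
      Real.mul_rpow (norm_nonneg _) (norm_nonneg _), Real.mul_rpow (norm_nonneg _) (norm_nonneg _)]
    field_simp
  exact (summable_subtype_iff_indicator).1 hS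

end Pool.Agent.KTD
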