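import Pool.Agent.Lib_helper87.KTD.P.GA
import Pool.Agent.Lib_helper87.KTD.P.GB
import Pool.Agent.Lib_helper87.KTD.P.GC
import Pool.Agent.Lib_helper87.KTD.P.SA
import Pool.Agent.Lib_helper76.TCL.P.QL
import Pool.Agent.Lib_helper76.TCL.P.SB

set_option autoImplicit false

namespace Pool.Agent.KTD

open Complex Pool.Agent.TCL

/-- bounded, with support in `D⁻¹ O²` -/
def Nice {O : Subring ℂ} (F : Fm O) : Prop :=
  ∃ (C : ℝ) (D : ℕ), 0 < D ∧ ∀ c l, ‖F c l‖ ≤ C ∧ (F c l ≠ 0 → In O ((D : ℂ) • l))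

private theorem sb_gg_vzero (u1 u2 u3 l : V2) : GG u1 u2 u3 0 l = 0 := by
  have h := gg_lin u1 u2 u3 0 0 l 0 0
  simpa using h

private theorem sb_zero_sum {u1 u2 u3 : V2} (h : cr u1 u2 = 0 ∨ cr u1 u3 = 0 ∨ cr u2 u3 = 0)
    (v l : V2) : GG u1 u2 u3 v l = 0 := by
  rcases h with h | h | h
  · exact gg_par h
  · have h1 := gg_swap23 u1 u2 u3 v l
    rw [gg_par h] at h1
    linear_combination h1
  · have h1 := gg_swap12 u1 u2 u3 v l
    have h2 := gg_swap23 u2 u1 u3 v l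
    rw [gg_par h] at h2
    linear_combination h1 - h2

theorem gg_summable {O : Subring ℂ} {ω : ℂ} (hO : Quad O ω) {u1 u2 u3 : V2} (h1 : In (KK O) u1)
    (h2 : In (KK O) u2) (h3 : In (KK O) u3) {F : Fm O} (hF : Nice F) (c : O) :
    Summable (fun l : V2 => GG u1 u2 u3 (F c l) l) := by
  by_cases hz : cr u1 u2 = 0 ∨ cr u1 u3 = 0 ∨ cr u2 u3 = 0
  · have h0 : (fun l : V2 => GG u1 u2 u3 (F c l) l) = fun _ => 0 := by
      funext l
      exact sb_zero_sum hz _ _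
    rw [h0]
    exact summable_zero
  push Not at hz
  obtain ⟨h12, h13, h23⟩ := hz
  obtain ⟨C, D, hD, hF⟩ := hF
  obtain ⟨B, hB, hG⟩ := gg_bound u1 u2 u3
  have s12 := summable_pair hO h1 h2 h12 hD
  have s13 := summable_pair hO h1 h3 h13 hD
  have s23 := summable_pair hO h2 h3 h23 hD
  have hs := ((s12.add s13).add s23).mul_left (B * C)
  refine Summable.of_norm_bounded hs (fun l => ?_)
  by_cases hl : F c l = 0
  · rw [hl, sb_gg_vzero, norm_zero]
    have hC : 0 ≤ C := le_trans (norm_nonneg _) (hF c l).1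
    have hp : ∀ u v : V2, 0 ≤ Set.indicator {l : V2 | In O ((D : ℂ) • l)}
        (fun l => (‖cr u l‖ * ‖cr v l‖) ^ (-(5 / 2) : ℝ)) l := by
      intro u v
      refine Set.indicator_nonneg (fun l _ => ?_) l
      exact Real.rpow_nonneg (by positivity) _
    have := hp u1 u2
    have := hp u1 u3
    have := hp u2 u3
    positivity
  · have hm : l ∈ {l : V2 | In O ((D : ℂ) • l)} := (hF c l).2 hl
    rw [Set.indicator_of_mem hm, Set.indicator_of_mem hm, Set.indicator_of_mem hm]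
    refine (hG (F c l) l).trans ?_
    have hp : ∀ u v : V2, 0 ≤ (‖cr u l‖ * ‖cr v l‖) ^ (-(5 / 2) : ℝ) := fun u v =>
      Real.rpow_nonneg (by positivity) _
    have h0 := hp u1 u2
    have h0' := hp u1 u3
    have h0'' := hp u2 u3
    exact mul_le_mul_of_nonneg_right (mul_le_mul_of_nonneg_left (hF c l).1 hB) (by positivity)

private theorem sb_nice_zero {O : Subring ℂ} : Nice (0 : Fm O) := by
  refine ⟨0, 1, one_pos, fun c l => ⟨?_, fun h => ?_⟩⟩
  · simp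
  · exact absurd rfl h

private theorem sb_in_add {O : Subring ℂ} {v w : V2} (hv : In O v) (hw : In O w) : In O (v + w) :=
  ⟨O.add_mem hv.1 hw.1, O.add_mem hv.2 hw.2⟩

private theorem sb_in_nat {O : Subring ℂ} {v : V2} (n : ℕ) (hv : In O v) : In O ((n : ℂ) • v) :=
  ⟨O.mul_mem (natCast_mem O n) hv.1, O.mul_mem (natCast_mem O n) hv.2⟩

private theorem sb_nice_add {O : Subring ℂ} {F G : Fm O} (hF : Nice F) (hG : Nice G) :
    Nice (F + G) := by
  obtain ⟨C, D, hD, hF⟩ := hF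
  obtain ⟨C', D', hD', hG⟩ := hG
  refine ⟨C + C', D * D', Nat.mul_pos hD hD', fun c l => ⟨?_, fun h => ?_⟩⟩
  · exact (norm_add_le _ _).trans (add_le_add (hF c l).1 (hG c l).1)
  · have h' : F c l ≠ 0 ∨ G c l ≠ 0 := by
      by_contra hc
      push Not at hc
      apply h
      show F c l + G c l = 0
      rw [hc.1, hc.2, add_zero]
    rcases h' with h' | h'
    · have := sb_in_nat D' ((hF c l).2 h')
      rw [smul_smul] at this
      rw [Nat.cast_mul, mul_comm]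
      exact this
    · have := sb_in_nat D ((hG c l).2 h')
      rw [smul_smul] at this
      rw [Nat.cast_mul]
      exact this

private theorem sb_nice_smul {O : Subring ℂ} (a : KK O) {F : Fm O} (hF : Nice F) :
    Nice (a • F) := by
  obtain ⟨C, D, hD, hF⟩ := hF
  have e : ∀ c l, (a • F) c l = (a : ℂ) • F c l := fun c l => rfl
  refine ⟨‖(a : ℂ)‖ * C, D, hD, fun c l => ⟨?_, fun h => ?_⟩⟩
  · rw [e, norm_smul]
    exact mul_le_mul_of_nonneg_left (hF c l).1 (norm_nonneg _)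
  · refine (hF c l).2 (fun h0 => h ?_)
    rw [e, h0, smul_zero]

private theorem sb_chi_norm {O : Subring ℂ} (ω : ℂ) (ε : O → O) (N : ℕ) (x : V2) (c : O) (l : V2) :
    ‖chi O ω ε N x c l‖ ≤ 1 := by
  unfold chi
  split_ifs
  · rw [norm_mul, norm_pr, norm_pr, one_mul]
  · simp

private theorem sb_chi_supp {O : Subring ℂ} (ω : ℂ) (ε : O → O) (N : ℕ) (x : V2) (c : O) (l : V2)
    (h : chi O ω ε N x c l ≠ 0) : In O l := by
  unfold chi at h
  split_ifs at h with h'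
  · exact h'.1
  · exact absurd rfl h

private theorem sb_nice_gen {O : Subring ℂ} {ω : ℂ} (hO : Quad O ω) (ε : O → O) (N : ℕ)
    (g : GL2) (hg : g ∈ GS (KK O)) (v x : V2) : Nice (act g (ten v (chi O ω ε N x))) := by
  have k1 : In (KK O) ((1, 0) : V2) := ⟨(KK O).one_mem, (KK O).zero_mem⟩
  have k2 : In (KK O) ((0, 1) : V2) := ⟨(KK O).zero_mem, (KK O).one_mem⟩
  have g1 := (hg _ k1).1
  have g2 := (hg _ k2).1
  obtain ⟨a, ha, ha'⟩ := nat_denom hO g1.1
  obtain ⟨b, hb, hb'⟩ := nat_denom hO g1.2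
  obtain ⟨d, hd, hd'⟩ := nat_denom hO g2.1
  obtain ⟨e, he, he'⟩ := nat_denom hO g2.2
  have hc : ∀ k : ℕ, (k : ℂ) ∈ O := fun k => natCast_mem O k
  refine ⟨‖((‖dt g‖ : ℂ) ^ 2)‖ * ‖g v‖, a * b * d * e, by positivity, fun c l => ⟨?_, fun h => ?_⟩⟩
  · show ‖((‖dt g‖ : ℂ) ^ 2) • g (chi O ω ε N x c (g⁻¹ l) • v)‖ ≤ _
    rw [map_smul, norm_smul, norm_smul]
    refine mul_le_mul_of_nonneg_left ?_ (norm_nonneg _)
    calc ‖chi O ω ε N x c (g⁻¹ l)‖ * ‖g v‖ ≤ 1 * ‖g v‖ :=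
          mul_le_mul_of_nonneg_right (sb_chi_norm ω ε N x c _) (norm_nonneg _)
      _ = ‖g v‖ := one_mul _
  · have hl : In O (g⁻¹ l) := by
      refine sb_chi_supp ω ε N x c _ (fun h0 => h ?_)
      show ((‖dt g‖ : ℂ) ^ 2) • g (chi O ω ε N x c (g⁻¹ l) • v) = 0
      rw [h0, zero_smul, map_zero, smul_zero]
    have e0 : l = (g⁻¹ l).1 • g (1, 0) + (g⁻¹ l).2 • g (0, 1) := by
      rw [← map_smul, ← map_smul, ← map_add]
      have : (g⁻¹ l).1 • ((1, 0) : V2) + (g⁻¹ l).2 • ((0, 1) : V2) = g⁻¹ l := by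
        ext <;> simp
      rw [this]
      exact (LinearEquiv.apply_symm_apply g l).symm
    rw [e0, smul_add, smul_smul, smul_smul]
    refine sb_in_add ⟨?_, ?_⟩ ⟨?_, ?_⟩
    · show ((a * b * d * e : ℕ) : ℂ) * (g⁻¹ l).1 * (g (1, 0)).1 ∈ (O : Set ℂ)
      have e1 : ((a * b * d * e : ℕ) : ℂ) * (g⁻¹ l).1 * (g (1, 0)).1
          = ((b : ℂ) * d * e * (g⁻¹ l).1) * ((a : ℂ) * (g (1, 0)).1) := by
        push_cast
        ring
      rw [e1]
      exact O.mul_mem (O.mul_mem (O.mul_mem (O.mul_mem (hc b) (hc d)) (hc e)) hl.1) ha'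
    · show ((a * b * d * e : ℕ) : ℂ) * (g⁻¹ l).1 * (g (1, 0)).2 ∈ (O : Set ℂ)
      have e1 : ((a * b * d * e : ℕ) : ℂ) * (g⁻¹ l).1 * (g (1, 0)).2
          = ((a : ℂ) * d * e * (g⁻¹ l).1) * ((b : ℂ) * (g (1, 0)).2) := by
        push_cast
        ring
      rw [e1]
      exact O.mul_mem (O.mul_mem (O.mul_mem (O.mul_mem (hc a) (hc d)) (hc e)) hl.1) hb'
    · show ((a * b * d * e : ℕ) : ℂ) * (g⁻¹ l).2 * (g (0, 1)).1 ∈ (O : Set ℂ)
      have e1 : ((a * b * d * e : ℕ) : ℂ) * (g⁻¹ l).2 * (g (0, 1)).1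
          = ((a : ℂ) * b * e * (g⁻¹ l).2) * ((d : ℂ) * (g (0, 1)).1) := by
        push_cast
        ring
      rw [e1]
      exact O.mul_mem (O.mul_mem (O.mul_mem (O.mul_mem (hc a) (hc b)) (hc e)) hl.2) hd'
    · show ((a * b * d * e : ℕ) : ℂ) * (g⁻¹ l).2 * (g (0, 1)).2 ∈ (O : Set ℂ)
      have e1 : ((a * b * d * e : ℕ) : ℂ) * (g⁻¹ l).2 * (g (0, 1)).2
          = ((a : ℂ) * b * d * (g⁻¹ l).2) * ((e : ℂ) * (g (0, 1)).2) := by
        push_cast
        ring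
      rw [e1]
      exact O.mul_mem (O.mul_mem (O.mul_mem (O.mul_mem (hc a) (hc b)) (hc d)) hl.2) he'

theorem nice_MM {O : Subring ℂ} {ω : ℂ} (hO : Quad O ω) {ε : O → O} {N : ℕ}
    {F : Fm O} (hF : F ∈ MM O ω ε N (GS (KK O))) : Nice F := by
  unfold MM at hF
  induction hF using Submodule.span_induction with
  | mem F h =>
    obtain ⟨g, hg, v, x, -, -, rfl⟩ := h
    exact sb_nice_gen hO ε N g hg v x
  | zero => exact sb_nice_zero
  | add F G _ _ hF hG => exact sb_nice_add hF hG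
  | smul a F _ hF => exact sb_nice_smul a hF

end Pool.Agent.KTD
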