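import Pool.Agent.Lib_helper87.KTD.Defs
import Pool.Agent.Lib_helper76.TCL.P.QK

set_option autoImplicit false

namespace Pool.Agent.KTD

open Complex Pool.Agent.TCL

/-- the cobracket of the symbol `[d1, d2; W]`, the value of the triple series on the cusps `e1, e2, -e1-e2` and
the field `W ⊗ χ_(d1, d2)`: `x = d2`, `y = -d1`, `z = 0`, `v = W2`, `w = -W1` -/
noncomputable def dlV {O : Subring ℂ} {H : Type} [AddCommGroup H] [Module (KK O) H] (B : ℂ → ℂ → H)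
    (d1 d2 : ℂ) (W1 W2 : KK O) : H :=
  dl B d2 (-d1) 0 W2 (-W1)

/-- `B(-a, b) = - B(a, b)`, `B(a, -b) = B(a, b)` (`dist1`, `dist2` with `r = -1`, representatives `{0}`) -/
theorem bd_neg {O : Subring ℂ} {f : O} {ε : O → O} {H : Type} [AddCommGroup H] [Module (KK O) H]
    {B : ℂ → ℂ → H} (hB : BD O f ε H B) {a b : ℂ} (ha : a ∈ KK O) (hb : b ∈ KK O) (ha' : a ∉ O)
    (hb' : b ∉ O) : B (-a) b = - B a b ∧ B a (-b) = B a b := by
  have hR : IsReps (-1 : O) ({0} : Finset O) := by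
    intro x
    refine ⟨0, ⟨by simp, ?_⟩, ?_⟩
    · exact ⟨-x, by ring⟩
    · rintro y ⟨hy, -⟩
      simpa using hy
  have h1 := hB.dist1 a ha b hb ha' hb' (-1) (by simp) {0} hR (-1) (by push_cast; simp)
  have h2 := hB.dist2 a ha b hb ha' hb' (-1) (by simp) {0} hR
  rw [Finset.sum_singleton] at h1 h2
  constructor
  · have e : (a + ((0 : O) : ℂ)) / ((-1 : O) : ℂ) = -a := by push_cast; ring
    rw [e] at h1
    rw [h1, neg_one_smul]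
  · have e : (b + ((0 : O) : ℂ)) / ((-1 : O) : ℂ) = -b := by push_cast; ring
    rw [e] at h2
    exact h2

private theorem dlV_eq {O : Subring ℂ} {H : Type} [AddCommGroup H] [Module (KK O) H] (B : ℂ → ℂ → H)
    (d1 d2 d3 : ℂ) (h : d3 = -d1 - d2) (W1 W2 : KK O) :
    dlV B d1 d2 W1 W2 = W2 • B d2 d1 - W1 • B d1 d2 + (W1 - W2) • B d2 d3 - W1 • B d3 d2
      + W2 • B d3 d1 + (W1 - W2) • B d1 d3 := by
  unfold dlV dl
  subst h
  have e1 : d2 - 0 = d2 := by ring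
  have e2 : (0 : ℂ) - -d1 = d1 := by ring
  have e3 : -d1 - d2 = -d1 - d2 := rfl
  rw [e1, e2]
  module

private theorem nO {O : Subring ℂ} {a : ℂ} (h : a ∉ O) (k : O) : (a + k) / 2 ∉ O := by
  intro h1
  apply h
  have : a = 2 * ((a + k) / 2) - k := by ring
  rw [this]
  exact O.sub_mem (O.mul_mem (ofNat_mem O 2) h1) k.2

private theorem mK {O : Subring ℂ} {a : ℂ} (h : a ∈ KK O) (k : O) : (a + k) / 2 ∈ KK O := by
  have h2 : (2 : ℂ) ∈ KK O := ofNat_mem (KK O) 2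
  exact (KK O).div_mem ((KK O).add_mem h (coe_mem_KK k)) h2

/-- The cobracket of the four term combination is zero. Each of the four sums has three edges; with
`E(a, b; W) = - W1 B(a, b) + W2 B(b, a)` the cobracket of `[d1, d2; W]` is
`E(d1, d2; W) + E(d2, d3; ρ W) + E(d3, d1; ρ² W)`, `d3 = -d1-d2`, `ρ W = (W2 - W1, -W1)`. The edges cancel in pairs, by
`dist1` (factor `1/2`), `dist2`, `bd_neg`; e.g. the sum over `k` of `E(-x2, (x1+x2+k)/2; (V1-V2, 2 V1))` is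
`(V1-V2) B(x2, x1+x2) + V1 B(x1+x2, x2) = E(x2, -x1-x2; ρ V)`. -/
theorem four_term {O : Subring ℂ} {f : O} {ε : O → O} {H : Type} [AddCommGroup H]
    [Module (KK O) H] {B : ℂ → ℂ → H} (hB : BD O f ε H B) {x1 x2 : ℂ} (h1 : x1 ∈ KK O)
    (h2 : x2 ∈ KK O) (n1 : x1 ∉ O) (n2 : x2 ∉ O) (n3 : x1 + x2 ∉ O) (n4 : x1 - x2 ∉ O)
    (V1 V2 : KK O) {S : Finset O} (hS : IsReps (2 : O) S) :
    ∑ k ∈ S, dlV B (-x2) ((x1 + x2 + k) / 2) (V1 - V2) (2 * V1)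
      + ∑ k ∈ S, dlV B x1 ((-x1 - x2 + k) / 2) (V2 - V1) (2 * V2)
      + dlV B x1 (-x2) V1 (-V2) + dlV B x1 x2 (-V1) (-V2) = 0 := by
  have h3 : x1 + x2 ∈ KK O := (KK O).add_mem h1 h2
  have h4 : x1 - x2 ∈ KK O := (KK O).sub_mem h1 h2
  have c2 : ((1 / 2 : KK O) : ℂ) * starRingEnd ℂ ((2 : O) : ℂ) = 1 := by
    have e1 : ((2 : O) : ℂ) = 2 := rfl
    have e2 : ((2 : KK O) : ℂ) = 2 := rfl
    push_cast
    rw [e1, e2, Complex.conj_ofNat]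
    norm_num
  have t2 : ((2 : O) : ℂ) = 2 := rfl
  have z2 : (2 : O) ≠ 0 := by
    intro h
    have := congrArg (fun z : O => (z : ℂ)) h
    simp at this
  -- distribution
  have D1 : ∀ a ∈ KK O, ∀ b ∈ KK O, a ∉ O → b ∉ O →
      ∑ k ∈ S, B ((a + k) / 2) b = (1 / 2 : KK O) • B a b := by
    intro a ha b hb ha' hb'
    have := hB.dist1 a ha b hb ha' hb' 2 z2 S hS (1 / 2) c2
    rw [t2] at this
    exact this
  have D2 : ∀ a ∈ KK O, ∀ b ∈ KK O, a ∉ O → b ∉ O →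
      ∑ k ∈ S, B a ((b + k) / 2) = B a b := by
    intro a ha b hb ha' hb'
    have := hB.dist2 a ha b hb ha' hb' 2 z2 S hS
    rw [t2] at this
    exact this
  have N1 : ∀ a ∈ KK O, ∀ b ∈ KK O, a ∉ O → b ∉ O → B (-a) b = - B a b :=
    fun a ha b hb ha' hb' => (bd_neg hB ha hb ha' hb').1
  have N2 : ∀ a ∈ KK O, ∀ b ∈ KK O, a ∉ O → b ∉ O → B a (-b) = B a b :=
    fun a ha b hb ha' hb' => (bd_neg hB ha hb ha' hb').2
  have ng : ∀ a : ℂ, a ∉ O → -a ∉ O := fun a ha h => ha (by simpa using O.neg_mem h)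
  have kg : ∀ a : ℂ, a ∈ KK O → -a ∈ KK O := fun a ha => (KK O).neg_mem ha
  -- the terms of the two sums
  have E1 : ∀ k : O, dlV B (-x2) ((x1 + x2 + k) / 2) (V1 - V2) (2 * V1) =
      (2 * V1) • B ((x1 + x2 + k) / 2) x2 + (V1 - V2) • B x2 ((x1 + x2 + k) / 2)
        - (V1 + V2) • B ((x1 + x2 + k) / 2) ((x1 - x2 + k) / 2)
        + (V1 - V2) • B ((x1 - x2 + k) / 2) ((x1 + x2 + k) / 2)
        - (2 * V1) • B ((x1 - x2 + k) / 2) x2 + (V1 + V2) • B x2 ((x1 - x2 + k) / 2) := by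
    intro k
    have ka := mK h3 k
    have kb := mK h4 k
    have na := nO n3 k
    have nb := nO n4 k
    rw [dlV_eq B (-x2) ((x1 + x2 + k) / 2) (-((x1 - x2 + k) / 2)) (by ring)]
    rw [N2 _ ka _ h2 na n2, N1 _ h2 _ ka n2 na, N2 _ ka _ kb na nb, N1 _ kb _ ka nb na,
      N1 _ kb _ (kg _ h2) nb (ng _ n2), N2 _ kb _ h2 nb n2, N1 _ h2 _ (kg _ kb) n2 (ng _ nb),
      N2 _ h2 _ kb n2 nb]
    module
  have E2 : ∀ k : O, dlV B x1 ((-x1 - x2 + k) / 2) (V2 - V1) (2 * V2) =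
      -((2 * V2) • B ((x1 + x2 + k) / 2) x1) + (V1 - V2) • B x1 ((x1 + x2 + k) / 2)
        + (V1 + V2) • B ((x1 + x2 + k) / 2) ((x1 - x2 + k) / 2)
        - (V1 - V2) • B ((x1 - x2 + k) / 2) ((x1 + x2 + k) / 2)
        - (2 * V2) • B ((x1 - x2 + k) / 2) x1 - (V1 + V2) • B x1 ((x1 - x2 + k) / 2) := by
    intro k
    have ka := mK h3 k
    have kb := mK h4 k
    have na := nO n3 k
    have nb := nO n4 k
    have e : (-x1 - x2 + k) / 2 = -((x1 + x2 + k) / 2) + (k : ℂ) := by ring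
    have P1 : ∀ b ∈ KK O, b ∉ O → B ((-x1 - x2 + k) / 2) b = - B ((x1 + x2 + k) / 2) b := by
      intro b hb hb'
      rw [e, hB.per1 _ (kg _ ka) b hb (ng _ na) hb', N1 _ ka b hb na hb']
    have P2 : ∀ b ∈ KK O, b ∉ O → B b ((-x1 - x2 + k) / 2) = B b ((x1 + x2 + k) / 2) := by
      intro b hb hb'
      rw [e, hB.per2 b hb _ (kg _ ka) hb' (ng _ na), N2 b hb _ ka hb' na]
    rw [dlV_eq B x1 ((-x1 - x2 + k) / 2) (-((x1 - x2 + k) / 2)) (by ring)]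
    rw [P1 _ h1 n1, P2 _ h1 n1, P1 _ (kg _ kb) (ng _ nb), P2 _ (kg _ kb) (ng _ nb),
      N2 _ ka _ kb na nb, N1 _ kb _ ka nb na, N1 _ kb _ h1 nb n1, N2 _ h1 _ kb n1 nb]
    module
  have T3 : dlV B x1 (-x2) V1 (-V2) = V2 • B x2 x1 + V2 • B (x1 - x2) x1 - V1 • B x1 x2
      + V1 • B (x1 - x2) x2 + (V1 + V2) • B x1 (x1 - x2) - (V1 + V2) • B x2 (x1 - x2) := by
    rw [dlV_eq B x1 (-x2) (-(x1 - x2)) (by ring)]
    rw [N1 _ h2 _ h1 n2 n1, N2 _ h1 _ h2 n1 n2, N1 _ h2 _ (kg _ h4) n2 (ng _ n4), N2 _ h2 _ h4 n2 n4,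
      N1 _ h4 _ (kg _ h2) n4 (ng _ n2), N2 _ h4 _ h2 n4 n2, N1 _ h4 _ h1 n4 n1, N2 _ h1 _ h4 n1 n4]
    module
  have T4 : dlV B x1 x2 (-V1) (-V2) = -(V2 • B x2 x1) + V2 • B (x1 + x2) x1 + V1 • B x1 x2
      - V1 • B (x1 + x2) x2 + (V2 - V1) • B x1 (x1 + x2) + (V2 - V1) • B x2 (x1 + x2) := by
    rw [dlV_eq B x1 x2 (-(x1 + x2)) (by ring)]
    rw [N2 _ h2 _ h3 n2 n3, N1 _ h3 _ h2 n3 n2, N1 _ h3 _ h1 n3 n1, N2 _ h1 _ h3 n1 n3]
    module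
  have F1 := D1 _ h3 _ h2 n3 n2
  have F2 := D2 _ h2 _ h3 n2 n3
  have F3 := D1 _ h4 _ h2 n4 n2
  have F4 := D2 _ h2 _ h4 n2 n4
  have F5 := D1 _ h3 _ h1 n3 n1
  have F6 := D2 _ h1 _ h3 n1 n3
  have F7 := D1 _ h4 _ h1 n4 n1
  have F8 := D2 _ h1 _ h4 n1 n4
  rw [Finset.sum_congr rfl (fun k _ => E1 k), Finset.sum_congr rfl (fun k _ => E2 k), T3, T4]
  simp only [Finset.sum_add_distrib, Finset.sum_sub_distrib, ← Finset.smul_sum, Finset.sum_neg_distrib]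
  rw [F1, F2, F3, F4, F5, F6, F7, F8]
  simp only [smul_smul]
  have q1 : (2 * V1) * (1 / 2 : KK O) = V1 := by
    have : (2 : KK O) ≠ 0 := two_ne_zero
    field_simp
  have q2 : (2 * V2) * (1 / 2 : KK O) = V2 := by
    have : (2 : KK O) ≠ 0 := two_ne_zero
    field_simp
  rw [q1, q2]
  module

end Pool.Agent.KTD
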