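import Pool.Agent.Lib_helper87.KTD.P.TA
import Pool.Agent.Lib_helper87.KTD.P.DD
import Pool.Agent.Lib_helper87.KTD.P.PB
import Pool.Agent.Lib_helper87.KTD.P.HC0
import Pool.Agent.Lib_helper76.TCL.P.QB

set_option autoImplicit false

namespace Pool.Agent.KTD

open Complex Pool.Agent.TCL

variable {O : Subring ℂ} {ω : ℂ} {f : O} {ε : O → O} {N : ℕ} {R : Finset O} {Λ : ℂ →ₗ[KK O] KK O}

private theorem pr_norm (ω t g : ℂ) : ‖pr ω t g‖ = 1 := by
  unfold pr
  have e : 2 * Real.pi * I * (((t * starRingEnd ℂ g).im / ω.im : ℝ) : ℂ) =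
      ((2 * Real.pi * ((t * starRingEnd ℂ g).im / ω.im) : ℝ) : ℂ) * I := by
    push_cast
    ring
  rw [e, Complex.norm_exp_ofReal_mul_I]

private theorem nice_chi (v x : V2) : Nice (ten v (chi O ω ε N x)) := by
  refine ⟨‖v‖, 1, one_pos, fun c l => ⟨?_, ?_⟩⟩
  · unfold ten chi
    split_ifs with h
    · rw [norm_smul, norm_mul, pr_norm, pr_norm]
      simp
    · simp
  · intro h
    unfold ten chi at h
    split_ifs at h with h1
    · simpa using h1.1
    · simp at h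

private theorem tt_sum (hO : Quad O ω) (R : Finset O) {u1 u2 u3 : V2} (h1 : In (KK O) u1)
    (h2 : In (KK O) u2) (h3 : In (KK O) u3) (v : V2) (S : Finset O) (x : O → V2) :
    ∑ k ∈ S, TT R u1 u2 u3 (ten v (chi O ω ε N (x k))) =
      TT R u1 u2 u3 (∑ k ∈ S, ten v (chi O ω ε N (x k))) ∧
      Nice (∑ k ∈ S, ten v (chi O ω ε N (x k))) := by
  classical
  induction S using Finset.induction_on with
  | empty =>
    constructor
    · simp only [Finset.sum_empty]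
      have := tt_smul (O := O) R u1 u2 u3 0 0
      simpa using this.symm
    · refine ⟨0, 1, one_pos, fun c l => ⟨by simp, by simp⟩⟩
  | insert a S ha ih =>
    rw [Finset.sum_insert ha, Finset.sum_insert ha]
    exact ⟨by rw [ih.1, tt_add hO R h1 h2 h3 (nice_chi _ _) ih.2], nice_add (nice_chi _ _) ih.2⟩

private theorem act_chi (g : GL2) (x y v : V2) (hin : ∀ l, In O (g⁻¹ l) ↔ In O l)
    (hp : ∀ l : V2, x.1 * starRingEnd ℂ (g⁻¹ l).1 + x.2 * starRingEnd ℂ (g⁻¹ l).2 =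
      y.1 * starRingEnd ℂ l.1 + y.2 * starRingEnd ℂ l.2) (hdt : ‖dt g‖ = 1) :
    act g (ten v (chi O ω ε N x)) = ten (g v) (chi O ω ε N y) := by
  classical
  rw [act_ten]
  funext c l
  rw [hdt]
  simp only [ten, pf]
  have hc : chi O ω ε N x c (g⁻¹ l) = chi O ω ε N y c l := by
    unfold chi
    by_cases h : In O l ∧ IsCoprime c (N : O)
    · rw [if_pos h, if_pos ⟨(hin l).2 h.1, h.2⟩]
      unfold pr
      rw [← Complex.exp_add, ← Complex.exp_add]
      congr 1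
      rw [← mul_add, ← mul_add]
      congr 1
      rw [← Complex.ofReal_add, ← Complex.ofReal_add]
      congr 1
      rw [← add_div, ← add_div, ← Complex.add_im, ← Complex.add_im]
      congr 2
      linear_combination ((ε c : ℂ) * c) * hp l
    · rw [if_neg h, if_neg (fun h' => h ⟨(hin l).1 h'.1, h'.2⟩)]
  rw [hc]
  simp

/-- `chi_dist2` with `r = 2`, `act_ten`, `tt_act` for `dg 1 2`, `tt_us` -/
theorem half_sum (h : Ctx O ω f ε N R Λ) {r' : O} (hN : (N : O) = 2 * r') {a b : ℂ}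
    (ha : (N : ℂ) * a ∈ O) (hb : (r' : ℂ) * b ∈ O) {S : Finset O} (hS : IsReps (2 : O) S)
    (W1 W2 : KK O) :
    ∑ k ∈ S, TT R (1, 0) (0, 1) (-1, -1) (ten ((W1 : ℂ), (W2 : ℂ)) (chi O ω ε N (a, (b + k) / 2))) =
      TT R (1, 0) (0, 1) (2, 1) (ten ((W1 : ℂ), (W2 : ℂ) / 2) (chi O ω ε N (a, b))) := by
  have hO := h.quad
  have z2 : (2 : O) ≠ 0 := by
    intro h
    have := congrArg (fun z : O => (z : ℂ)) h
    simp at this
  have t2 : ((2 : O) : ℂ) = 2 := rfl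
  set ru : ℂˣ := Units.mk0 2 two_ne_zero with hru'
  have hru : (ru : ℂ) = starRingEnd ℂ ((2 : O) : ℂ) := by
    rw [t2, Complex.conj_ofNat]; rfl
  have i1 : In (KK O) ((1, 0) : V2) := ⟨(KK O).one_mem, (KK O).zero_mem⟩
  have i2 : In (KK O) ((0, 1) : V2) := ⟨(KK O).zero_mem, (KK O).one_mem⟩
  have i3 : In (KK O) ((-1, -1) : V2) := ⟨(KK O).neg_mem (KK O).one_mem, (KK O).neg_mem (KK O).one_mem⟩
  rw [(tt_sum hO R i1 i2 i3 ((W1 : ℂ), (W2 : ℂ)) S (fun k => (a, (b + k) / 2))).1]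
  have hd := chi_dist2 h z2 hN (a := a) hb hS hru
  rw [t2] at hd
  set g : GL2 := dg 1 ru with hg
  have hgl : ∀ l : V2, g l = (l.1, 2 * l.2) := by
    intro l
    show (((1 : ℂˣ) • l.1, ru • l.2) : V2) = _
    rw [Units.smul_def, Units.smul_def, hru']
    simp
  have e1 : ∑ k ∈ S, ten ((W1 : ℂ), (W2 : ℂ)) (chi O ω ε N (a, (b + k) / 2)) =
      act g (ten ((W1 : ℂ), (W2 : ℂ) / 2) (chi O ω ε N (a, b))) := by
    rw [act_ten]
    funext c l
    have hcl := congrFun (congrFun hd c) l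
    have : (∑ k ∈ S, ten ((W1 : ℂ), (W2 : ℂ)) (chi O ω ε N (a, (b + k) / 2))) c l =
        ((∑ k ∈ S, chi O ω ε N (a, (b + k) / 2)) c l) • ((W1 : ℂ), (W2 : ℂ)) := by
      simp only [Finset.sum_apply, Finset.sum_smul, ten]
    rw [this, hcl]
    have hdt : dt g = 2 := by
      simp [dt, cr, hgl]
    have hgv : g ((W1 : ℂ), (W2 : ℂ) / 2) = ((W1 : ℂ), (W2 : ℂ)) := by
      rw [hgl]
      ext
      · simp
      · show 2 * ((W2 : ℂ) / 2) = W2
        ring
    rw [hdt, hgv]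
    simp only [ten, smul_smul]
  rw [e1]
  have e2 := tt_act R g (1, 0) (0, 1) (2, 1) (ten ((W1 : ℂ), (W2 : ℂ) / 2) (chi O ω ε N (a, b)))
  have g1 : g (1, 0) = ((1, 0) : V2) := by
    rw [hgl]; simp
  have g2 : g (0, 1) = (2 : ℂ) • ((0, 1) : V2) := by
    rw [hgl]; simp
  have g3 : g (2, 1) = (-2 : ℂ) • ((-1, -1) : V2) := by
    rw [hgl]; ext <;> simp
  rw [g1, g2, g3, (tt_us R 2 two_ne_zero _ _ _ _).2.1, (tt_us R (-2) (by norm_num) _ _ _ _).2.2] at e2
  exact e2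

/-- `tt_act` for `g l = (l.2, l.2 - l.1)`: `g W' = V`, `pf g χ_(-x2, x1+x2) = χ_(x1, x2)` -/
theorem tri1 (h : Ctx O ω f ε N R Λ) (x1 x2 V1 V2 : ℂ) :
    TT R (1, 0) (0, 1) (2, 1) (ten (V1 - V2, V1) (chi O ω ε N (-x2, x1 + x2))) =
      TT R (0, 1) (1, 1) (1, -1) (ten (V1, V2) (chi O ω ε N (x1, x2))) := by
  let g : GL2 :=
    { toFun := fun l => (l.2, l.2 - l.1)
      invFun := fun l => (l.1 - l.2, l.1)
      map_add' := fun a b => by ext <;> simp; ring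
      map_smul' := fun a b => by ext <;> simp; ring
      left_inv := fun a => by ext <;> simp
      right_inv := fun a => by ext <;> simp }
  have hi : ∀ l, g⁻¹ l = (l.1 - l.2, l.1) := fun l => rfl
  have e := act_chi (O := O) (ω := ω) (ε := ε) (N := N) g (-x2, x1 + x2) (x1, x2) (V1 - V2, V1)
    (fun l => by
      rw [hi]
      constructor
      · rintro ⟨a1, a2⟩
        refine ⟨a2, ?_⟩
        have := O.sub_mem a2 a1
        simpa using this
      · rintro ⟨a1, a2⟩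
        exact ⟨O.sub_mem a1 a2, a1⟩)
    (fun l => by rw [hi]; simp only [map_sub]; ring)
    (by
      have : dt g = 1 := by
        show (g (1, 0)).1 * (g (0, 1)).2 - (g (1, 0)).2 * (g (0, 1)).1 = 1
        show (0 : ℂ) * (1 - 0) - (0 - 1) * 1 = 1
        ring
      rw [this]; simp)
  have e2 := tt_act R g (1, 0) (0, 1) (2, 1) (ten (V1 - V2, V1) (chi O ω ε N (-x2, x1 + x2)))
  have g0 : g (V1 - V2, V1) = ((V1, V2) : ℂ × ℂ) := by
    show ((V1, V1 - (V1 - V2)) : ℂ × ℂ) = (V1, V2)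
    ext <;> simp
  have g1 : g (1, 0) = (-1 : ℂ) • ((0, 1) : ℂ × ℂ) := by
    show ((0, 0 - 1) : ℂ × ℂ) = _
    ext <;> simp
  have g2 : g (0, 1) = ((1, 1) : ℂ × ℂ) := by
    show ((1, 1 - 0) : ℂ × ℂ) = _
    ext <;> simp
  have g3 : g (2, 1) = ((1, -1) : ℂ × ℂ) := by
    show ((1, 1 - 2) : ℂ × ℂ) = _
    ext <;> norm_num
  rw [e, g0, g1, g2, g3, (tt_us R (-1) (by norm_num) _ _ _ _).1] at e2
  exact e2.symm

/-- `tt_act` for `g l = (l.1 - l.2, -l.2)` -/
theorem tri2 (h : Ctx O ω f ε N R Λ) (x1 x2 V1 V2 : ℂ) :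
    TT R (1, 0) (0, 1) (2, 1) (ten (V2 - V1, V2) (chi O ω ε N (x1, -x1 - x2))) =
      - TT R (1, 0) (1, 1) (1, -1) (ten (V1, V2) (chi O ω ε N (x1, x2))) := by
  let g : GL2 :=
    { toFun := fun l => (l.1 - l.2, -l.2)
      invFun := fun l => (l.1 - l.2, -l.2)
      map_add' := fun a b => by ext <;> simp <;> ring
      map_smul' := fun a b => by ext <;> simp; ring
      left_inv := fun a => by ext <;> simp
      right_inv := fun a => by ext <;> simp }
  have hi : ∀ l, g⁻¹ l = (l.1 - l.2, -l.2) := fun l => rfl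
  have e := act_chi (O := O) (ω := ω) (ε := ε) (N := N) g (x1, -x1 - x2) (x1, x2) (V2 - V1, V2)
    (fun l => by
      rw [hi]
      constructor
      · rintro ⟨a1, a2⟩
        refine ⟨?_, ?_⟩
        · have := O.sub_mem a1 a2
          simpa using this
        · have := O.neg_mem a2
          simpa using this
      · rintro ⟨a1, a2⟩
        exact ⟨O.sub_mem a1 a2, O.neg_mem a2⟩)
    (fun l => by rw [hi]; simp only [map_sub, map_neg]; ring)
    (by
      have : dt g = -1 := by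
        show (g (1, 0)).1 * (g (0, 1)).2 - (g (1, 0)).2 * (g (0, 1)).1 = -1
        show ((1 : ℂ) - 0) * (-1) - (-0) * (0 - 1) = -1
        ring
      rw [this]; simp)
  have e2 := tt_act R g (1, 0) (0, 1) (2, 1) (ten (V2 - V1, V2) (chi O ω ε N (x1, -x1 - x2)))
  have g0 : g (V2 - V1, V2) = ((-V1, -V2) : ℂ × ℂ) := by
    show ((V2 - V1 - V2, -V2) : ℂ × ℂ) = _
    ext <;> simp
  have g1 : g (1, 0) = ((1, 0) : ℂ × ℂ) := by
    show ((1 - 0, -0) : ℂ × ℂ) = _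
    ext <;> simp
  have g2 : g (0, 1) = (-1 : ℂ) • ((1, 1) : ℂ × ℂ) := by
    show ((0 - 1, -1) : ℂ × ℂ) = _
    ext <;> simp
  have g3 : g (2, 1) = ((1, -1) : ℂ × ℂ) := by
    show ((2 - 1, -1) : ℂ × ℂ) = _
    ext <;> norm_num
  have e3 : ten ((-V1, -V2) : ℂ × ℂ) (chi O ω ε N (x1, x2)) =
      (-1 : KK O) • ten ((V1, V2) : ℂ × ℂ) (chi O ω ε N (x1, x2)) := by
    funext c l
    show chi O ω ε N (x1, x2) c l • ((-V1, -V2) : ℂ × ℂ) =
      (-1 : KK O) • (chi O ω ε N (x1, x2) c l • ((V1, V2) : ℂ × ℂ))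
    ext <;> simp
  rw [e, g0, g1, g2, g3, (tt_us R (-1) (by norm_num) _ _ _ _).2.1, e3, tt_smul] at e2
  rw [← e2]
  simp

/-- `tt_act` for `dg 1 (-1)` -/
theorem tri3 (h : Ctx O ω f ε N R Λ) (x1 x2 V1 V2 : ℂ) :
    TT R (1, 0) (0, 1) (-1, -1) (ten (V1, -V2) (chi O ω ε N (x1, -x2))) =
      TT R (1, 0) (0, 1) (1, -1) (ten (V1, V2) (chi O ω ε N (x1, x2))) := by
  let g : GL2 :=
    { toFun := fun l => (l.1, -l.2)
      invFun := fun l => (l.1, -l.2)
      map_add' := fun a b => by ext <;> simp; ring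
      map_smul' := fun a b => by ext <;> simp
      left_inv := fun a => by ext <;> simp
      right_inv := fun a => by ext <;> simp }
  have hi : ∀ l, g⁻¹ l = (l.1, -l.2) := fun l => rfl
  have e := act_chi (O := O) (ω := ω) (ε := ε) (N := N) g (x1, -x2) (x1, x2) (V1, -V2)
    (fun l => by
      rw [hi]
      constructor
      · rintro ⟨a1, a2⟩
        refine ⟨a1, ?_⟩
        have := O.neg_mem a2
        simpa using this
      · rintro ⟨a1, a2⟩
        exact ⟨a1, O.neg_mem a2⟩)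
    (fun l => by rw [hi]; simp only [map_neg]; ring)
    (by
      have : dt g = -1 := by
        show (g (1, 0)).1 * (g (0, 1)).2 - (g (1, 0)).2 * (g (0, 1)).1 = -1
        show (1 : ℂ) * (-1) - (-0) * 0 = -1
        ring
      rw [this]; simp)
  have e2 := tt_act R g (1, 0) (0, 1) (-1, -1) (ten (V1, -V2) (chi O ω ε N (x1, -x2)))
  have g0 : g (V1, -V2) = ((V1, V2) : ℂ × ℂ) := by
    show ((V1, -(-V2)) : ℂ × ℂ) = _
    ext <;> simp
  have g1 : g (1, 0) = ((1, 0) : ℂ × ℂ) := by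
    show ((1, -0) : ℂ × ℂ) = _
    ext <;> simp
  have g2 : g (0, 1) = (-1 : ℂ) • ((0, 1) : ℂ × ℂ) := by
    show ((0, -1) : ℂ × ℂ) = _
    ext <;> simp
  have g3 : g (-1, -1) = (-1 : ℂ) • ((1, -1) : ℂ × ℂ) := by
    show ((-1, -(-1)) : ℂ × ℂ) = _
    ext <;> norm_num
  rw [e, g0, g1, g2, g3, (tt_us R (-1) (by norm_num) _ _ _ _).2.1,
    (tt_us R (-1) (by norm_num) _ _ _ _).2.2] at e2
  exact e2.symm

theorem tri4 (x1 x2 V1 V2 : ℂ) :
    TT R (1, 0) (0, 1) (-1, -1) (ten (-V1, -V2) (chi O ω ε N (x1, x2))) =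
      - TT R (1, 0) (0, 1) (1, 1) (ten (V1, V2) (chi O ω ε N (x1, x2))) := by
  have e3 : ten ((-V1, -V2) : ℂ × ℂ) (chi O ω ε N (x1, x2)) =
      (-1 : KK O) • ten ((V1, V2) : ℂ × ℂ) (chi O ω ε N (x1, x2)) := by
    funext c l
    show chi O ω ε N (x1, x2) c l • ((-V1, -V2) : ℂ × ℂ) =
      (-1 : KK O) • (chi O ω ε N (x1, x2) c l • ((V1, V2) : ℂ × ℂ))
    ext <;> simp
  have e4 : ((-1, -1) : ℂ × ℂ) = (-1 : ℂ) • ((1, 1) : ℂ × ℂ) := by
    ext <;> simp
  rw [e3, e4, tt_smul, (tt_us R (-1) (by norm_num) _ _ _ _).2.2]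
  simp

end Pool.Agent.KTD
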