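import Pool.Agent.Lib_helper87.KTD.P.LC
import Pool.Agent.Lib_helper76.TCL.P.SB

set_option autoImplicit false

namespace Pool.Agent.KTD

open Complex Pool.Agent.TCL

variable {O : Subring ℂ} {ω : ℂ} {f : O} {ε : O → O} {N : ℕ} {R : Finset O} {Λ : ℂ →ₗ[KK O] KK O}

private theorem xc_pr_mul (ω a t g : ℂ) : pr ω t (a * g) = pr ω (t * starRingEnd ℂ a) g := by
  rw [mul_comm t, pr_mul, Complex.conj_conj]

/-- one line: `u0` has a coordinate `1` and coordinates in `O`, so `t u0 ∈ O²` if and only if `t ∈ O`; `gg_line`,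
`pr_mul`; `ξ = conj(u0.1) x.1 + conj(u0.2) x.2` -/
theorem line_explicit (h : Ctx O ω f ε N R Λ) {u0 : V2} (hu : In O u0) (hu1 : u0.1 = 1 ∨ u0.2 = 1)
    (u1 u2 u3 V x : V2) :
    ∑ c ∈ R, ∑' t : ℂ, GG u1 u2 u3 (ten V (chi O ω ε N x) c (t • u0)) (t • u0) =
      GG u1 u2 u3 V u0 *
        ∑ c ∈ R, SS O ω (ε c * c * (starRingEnd ℂ u0.1 * x.1 + starRingEnd ℂ u0.2 * x.2)) := by
  classical
  have hterm : ∀ (c : O) (t : ℂ), GG u1 u2 u3 (ten V (chi O ω ε N x) c (t • u0)) (t • u0)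
      = chi O ω ε N x c (t • u0) * GG u1 u2 u3 V (t • u0) := by
    intro c t
    have e2 : ten V (chi O ω ε N x) c (t • u0)
        = (chi O ω ε N x c (t • u0)) • V + (0 : ℂ) • (0 : V2) := by
      rw [smul_zero, add_zero]
      rfl
    rw [e2, gg_lin, zero_mul, add_zero]
  have key : ∀ c ∈ R, ∑' t : ℂ, GG u1 u2 u3 (ten V (chi O ω ε N x) c (t • u0)) (t • u0)
      = GG u1 u2 u3 V u0 *
        SS O ω (ε c * c * (starRingEnd ℂ u0.1 * x.1 + starRingEnd ℂ u0.2 * x.2)) := by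
    intro c hc
    have hinj : Function.Injective (fun m : O => (m : ℂ)) := Subtype.coe_injective
    have hsup : Function.support (fun t : ℂ =>
        GG u1 u2 u3 (ten V (chi O ω ε N x) c (t • u0)) (t • u0)) ⊆
        Set.range (fun m : O => (m : ℂ)) := by
      intro t ht
      rw [Function.mem_support, hterm] at ht
      have hc0 : chi O ω ε N x c (t • u0) ≠ 0 := by
        intro h0'
        apply ht
        rw [h0']; ring
      have hin : In O (t • u0) := by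
        by_contra hn
        apply hc0
        unfold chi
        rw [if_neg]
        exact fun hh => hn hh.1
      have ht' : t ∈ O := by
        rcases hu1 with h1 | h1
        · have := hin.1
          have e : (t • u0).1 = t * u0.1 := rfl
          rw [e, h1, mul_one] at this
          exact this
        · have := hin.2
          have e : (t • u0).2 = t * u0.2 := rfl
          rw [e, h1, mul_one] at this
          exact this
      exact ⟨⟨t, ht'⟩, rfl⟩
    rw [← hinj.tsum_eq hsup]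
    rw [SS, ← tsum_mul_left]
    refine tsum_congr (fun m => ?_)
    rw [hterm]
    by_cases hm : (m : ℂ) = 0
    · have z1 : GG u1 u2 u3 V ((m : ℂ) • u0) = 0 := by
        apply gg_zero
        left
        rw [hm, zero_smul]
        simp [cr]
      rw [z1, hm]
      simp
    · rw [gg_line _ hm]
      have hin : In O ((m : ℂ) • u0) := ⟨O.mul_mem m.2 hu.1, O.mul_mem m.2 hu.2⟩
      have hchi : chi O ω ε N x c ((m : ℂ) • u0) =
          pr ω (ε c * c * (starRingEnd ℂ u0.1 * x.1 + starRingEnd ℂ u0.2 * x.2)) m := by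
        unfold chi
        rw [if_pos ⟨hin, h.cop c hc⟩]
        have q1 : ((m : ℂ) • u0).1 = u0.1 * m := by
          show (m : ℂ) * u0.1 = _; ring
        have q2 : ((m : ℂ) • u0).2 = u0.2 * m := by
          show (m : ℂ) * u0.2 = _; ring
        rw [q1, q2, xc_pr_mul, xc_pr_mul, ← pr_add]
        congr 1
        ring
      rw [hchi]
      ring
  rw [Finset.sum_congr rfl key, ← Finset.mul_sum]

private theorem xc_mem {V x : V2} (hV : In (KK O) V) (hx : In O ((N : ℂ) • x)) :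
    ten V (chi O ω ε N x) ∈ MM O ω ε N (GS (KK O)) := by
  refine Submodule.subset_span ⟨1, Subgroup.one_mem _, V, x, hV, hx, ?_⟩
  funext c l
  show _ = ((‖dt 1‖ : ℂ) ^ 2) • ((1 : GL2) (ten V (chi O ω ε N x) c ((1 : GL2)⁻¹ l)))
  rw [dt_one, inv_one]
  simp

/-- `coc_lines` for `e1, e2, (1, 1), (1, -1)`, `line_explicit`, and the four values of `GG` -/
theorem four_value (h : Ctx O ω f ε N R Λ) {V1 V2 x1 x2 : ℂ} (hV1 : V1 ∈ KK O) (hV2 : V2 ∈ KK O)
    (hx1 : (N : ℂ) * x1 ∈ O) (hx2 : (N : ℂ) * x2 ∈ O) :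
    TT R (0, 1) (1, 1) (1, -1) (ten (V1, V2) (chi O ω ε N (x1, x2)))
      - TT R (1, 0) (1, 1) (1, -1) (ten (V1, V2) (chi O ω ε N (x1, x2)))
      + TT R (1, 0) (0, 1) (1, -1) (ten (V1, V2) (chi O ω ε N (x1, x2)))
      - TT R (1, 0) (0, 1) (1, 1) (ten (V1, V2) (chi O ω ε N (x1, x2))) =
    2 * V2 * ∑ c ∈ R, SS O ω (ε c * c * x1) - 2 * V1 * ∑ c ∈ R, SS O ω (ε c * c * x2)
      + (V1 - V2) / 4 * ∑ c ∈ R, SS O ω (ε c * c * (x1 + x2))
      - (V1 + V2) / 4 * ∑ c ∈ R, SS O ω (ε c * c * (x1 - x2)) := by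
  have hF : ten (V1, V2) (chi O ω ε N (x1, x2)) ∈ MM O ω ε N (GS (KK O)) :=
    xc_mem ⟨hV1, hV2⟩ ⟨hx1, hx2⟩
  have k0 : In (KK O) ((1, 0) : ℂ × ℂ) := ⟨one_mem _, zero_mem _⟩
  have k1 : In (KK O) ((0, 1) : ℂ × ℂ) := ⟨zero_mem _, one_mem _⟩
  have k2 : In (KK O) ((1, 1) : ℂ × ℂ) := ⟨one_mem _, one_mem _⟩
  have k3 : In (KK O) ((1, -1) : ℂ × ℂ) := ⟨one_mem _, neg_mem (one_mem _)⟩
  have o0 : In O ((1, 0) : ℂ × ℂ) := ⟨one_mem _, zero_mem _⟩
  have o1 : In O ((0, 1) : ℂ × ℂ) := ⟨zero_mem _, one_mem _⟩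
  have o2 : In O ((1, 1) : ℂ × ℂ) := ⟨one_mem _, one_mem _⟩
  have o3 : In O ((1, -1) : ℂ × ℂ) := ⟨one_mem _, neg_mem (one_mem _)⟩
  rw [coc_lines h hF k0 k1 k2 k3 (by norm_num [cr]) (by norm_num [cr]) (by norm_num [cr])
    (by norm_num [cr]) (by norm_num [cr]) (by norm_num [cr])]
  rw [line_explicit h o0 (Or.inl rfl), line_explicit h o1 (Or.inr rfl),
    line_explicit h o2 (Or.inl rfl), line_explicit h o3 (Or.inl rfl)]
  have c2 : starRingEnd ℂ (2 : ℂ) = 2 := map_ofNat (starRingEnd ℂ) 2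
  have g0 : GG (0, 1) (1, 1) (1, -1) (V1, V2) (1, 0) = 2 * V2 := by
    simp only [GG, rr, ee, cr]
    norm_num [c2]
    try ring
  have g1 : GG (1, 0) (1, 1) (1, -1) (V1, V2) (0, 1) = 2 * V1 := by
    simp only [GG, rr, ee, cr]
    norm_num [c2]
    try ring
  have g2 : GG (1, 0) (0, 1) (1, -1) (V1, V2) (1, 1) = (V1 - V2) / 4 := by
    simp only [GG, rr, ee, cr]
    norm_num [c2]
    try ring
  have g3 : GG (1, 0) (0, 1) (1, 1) (V1, V2) (1, -1) = (V1 + V2) / 4 := by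
    simp only [GG, rr, ee, cr]
    norm_num [c2]
    try ring
  rw [g0, g1, g2, g3]
  simp only [map_one, map_zero, map_neg, one_mul, zero_mul, add_zero, zero_add, neg_mul]
  simp only [← sub_eq_add_neg]

end Pool.Agent.KTD
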