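import Pool.Agent.Lib_helper76.TCL.P.FIN

set_option autoImplicit false

namespace Pool.Agent.KTD

open Complex Pool.Agent.TCL

theorem xd_eps1 {O : Subring ℂ} {f : O} {ε : O → O} (hε : GC O f ε) : ε 1 = 1 := by
  have := hε.inv 1 isUnit_one
  rwa [mul_one] at this

/-- `ε(1) = 1` and `ε(-1) = -1` (`inv`), so `f` is not a unit (`per`) -/
theorem f_not_unit {O : Subring ℂ} {f : O} {ε : O → O} (hε : GC O f ε) : ¬ IsUnit f := by
  intro hf
  obtain ⟨g, hg⟩ := hf.exists_right_inv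
  have h1 := xd_eps1 hε
  have h2 : ε (-1) = -1 := by
    have := hε.inv (-1) isUnit_one.neg
    have h3 : ε (-1) * -1 = 1 := this
    linear_combination -h3
  have h3 : ε (1 + f * (g * (-2))) = ε 1 := hε.per 1 _
  have e : (1 : O) + f * (g * (-2)) = -1 := by
    linear_combination (-2) * hg
  rw [e, h1, h2] at h3
  have h4 : ((-1 : O) : ℂ) = ((1 : O) : ℂ) := congrArg Subtype.val h3
  have h5 : (-1 : ℂ) = 1 := h4
  norm_num at h5

/-- Let `q` be the normalized system. `q(t / u) = u q(t)` for units `u`; `q(ε(p) p / f) = 1` (`gal`), so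
`q(p / f) = ε(p)`. For a prime `p` prime to `f` all `q(1/f + a/p)`, `a` prime to `p`, are equal to one value `q'` (`gal`
with `c ≡ 1` modulo `f`, `c ≡ a` modulo `p`: then `ε(c) = 1`), and the distribution relation
`∑_(k mod p) q(1/f + k/p) = q(p/f) / (p conj(p)²)` gives `(|p|² - 1) |q'| ≤ 2`, `|p|² ≥ 3`. -/
theorem q_ne {O : Subring ℂ} {ω : ℂ} (hO : Quad O ω) (hP : IsPrincipalIdealRing O) {f : O}
    (hf : f ≠ 0) {ε : O → O} (hε : GC O f ε) {q : ℂ → KK O} (hq : Sys O f ε (KK O) q)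
    (hq1 : q (1 / (f : ℂ)) = 1) {p : O} (hp : Prime p) (hpf : IsCoprime p f)
    (hp3 : 3 ≤ ‖(p : ℂ)‖ ^ 2) :
    (2 : ℂ) * (q (1 / (f : ℂ)) : ℂ) - (1 / 4) * (q (1 / (f : ℂ) + 1 / (p : ℂ)) : ℂ)
      - (1 / 4) * (q (1 / (f : ℂ) - 1 / (p : ℂ)) : ℂ) ≠ 0 := by
  classical
  have hf0 : (f : ℂ) ≠ 0 := coe_ne_zero hf
  have hp0 : (p : ℂ) ≠ 0 := coe_ne_zero hp.ne_zero
  have hfu := f_not_unit hε
  have hfK : (1 : ℂ) / (f : ℂ) ∈ KK O := div_mem (one_mem _) (coe_mem_KK _)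
  have hpK : (1 : ℂ) / (p : ℂ) ∈ KK O := div_mem (one_mem _) (coe_mem_KK _)
  -- points
  have hnO : ∀ a : O, (1 : ℂ) / (f : ℂ) + (a : ℂ) / (p : ℂ) ∉ O := by
    intro a h
    apply hfu
    have e : f * (⟨_, h⟩ * p - a) = p := by
      apply Subtype.ext
      show (f : ℂ) * (((1 : ℂ) / (f : ℂ) + (a : ℂ) / (p : ℂ)) * p - a) = p
      field_simp
      ring
    exact hpf.symm.isUnit_of_dvd ⟨_, e.symm⟩
  have hK : ∀ a : O, (1 : ℂ) / (f : ℂ) + (a : ℂ) / (p : ℂ) ∈ KK O := fun a =>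
    add_mem hfK (div_mem (coe_mem_KK _) (coe_mem_KK _))
  -- all `a` prime to `p` give the same value
  have hgal : ∀ a : O, IsCoprime a p →
      q ((1 : ℂ) / (f : ℂ) + (a : ℂ) / (p : ℂ)) = q ((1 : ℂ) / (f : ℂ) + 1 / (p : ℂ)) := by
    intro a ha
    obtain ⟨s, t, hst⟩ := hpf
    -- `s p + t f = 1`; `c = s p + a t f`
    set c : O := s * p + a * (t * f) with hc
    have c1 : c = 1 + f * (t * (a - 1)) := by
      rw [hc]; linear_combination hst
    have c2 : c = a + p * (s * (1 - a)) := by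
      rw [hc]; linear_combination a * hst
    have hcf : IsCoprime c f := by
      rw [c1]; exact isCoprime_one_left.add_mul_left_left _
    have hcp : IsCoprime c p := by
      rw [c2]; exact ha.add_mul_left_left _
    have hεc : ε c = 1 := by
      rw [c1, hε.per, xd_eps1 hε]
    have hcop : IsCoprime c ((f * p) * f) := (hcf.mul_right hcp).mul_right hcf
    have h1 := hK 1
    have h2 := hnO 1
    have e1 : ((1 : O) : ℂ) = 1 := rfl
    rw [e1] at h1 h2
    have h3 := hq.gal _ h1 h2 (f * p) c (mul_ne_zero hf hp.ne_zero) (by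
      have : ((f * p : O) : ℂ) * (1 / (f : ℂ) + 1 / (p : ℂ)) = ((p + f : O) : ℂ) := by
        push_cast
        field_simp
      rw [this]; exact (p + f : O).2) hcop
    rw [← h3, hεc]
    have e2 : ((1 : O) : ℂ) * (c : ℂ) * (1 / (f : ℂ) + 1 / (p : ℂ)) =
        (1 / (f : ℂ) + (a : ℂ) / (p : ℂ)) + ((t * (a - 1) + s * (1 - a) : O) : ℂ) := by
      have c1' : (c : ℂ) = 1 + f * (t * (a - 1)) := by
        have := congrArg Subtype.val c1
        push_cast at this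
        exact this
      have c2' : (c : ℂ) = a + p * (s * (1 - a)) := by
        have := congrArg Subtype.val c2
        push_cast at this
        exact this
      rw [e1, one_mul, mul_add]
      have g1 : (c : ℂ) * (1 / (f : ℂ)) = 1 / f + t * (a - 1) := by
        rw [c1']; field_simp
      have g2 : (c : ℂ) * (1 / (p : ℂ)) = a / p + s * (1 - a) := by
        rw [c2']; field_simp
      rw [g1, g2]
      push_cast
      ring
    rw [e2, hq.per _ (hK a)]
  -- the value at `p / f`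
  have hεp : IsUnit (ε p) := hε.unit p hpf
  have hval : q ((p : ℂ) / (f : ℂ)) = ⟨(ε p : ℂ), coe_mem_KK _⟩ := by
    have h1 := hq.gal _ hfK (by
      have := hnO 0
      have e : (1 : ℂ) / (f : ℂ) + ((0 : O) : ℂ) / (p : ℂ) = 1 / (f : ℂ) := by simp
      rwa [e] at this) f p hf (by
        have : (f : ℂ) * (1 / (f : ℂ)) = ((1 : O) : ℂ) := by
          show (f : ℂ) * (1 / (f : ℂ)) = 1
          field_simp
        rw [this]; exact (1 : O).2) (hpf.mul_right hpf)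
    rw [hq1] at h1
    -- `q (t / u) = u q t`
    set t : ℂ := (ε p : ℂ) * p * (1 / (f : ℂ)) with ht
    have htK : t ∈ KK O := mul_mem (mul_mem (coe_mem_KK _) (coe_mem_KK _)) hfK
    have htO : t ∉ O := by
      intro h
      apply hfu
      have e : f * ⟨_, h⟩ = ε p * p := by
        apply Subtype.ext
        show (f : ℂ) * t = (ε p : ℂ) * p
        rw [ht]; field_simp
      have h2 : f ∣ ε p * p := ⟨_, e.symm⟩
      have h3 : f ∣ p := (IsUnit.dvd_mul_left hεp).1 h2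
      exact hpf.symm.isUnit_of_dvd h3
    have huc := unit_mul_conj hO _ hεp
    have h2 := hq.dist t htK htO (ε p) hεp.ne_zero {0} (isReps_unit hεp) ⟨(ε p : ℂ), coe_mem_KK _⟩ (by
      show (ε p : ℂ) * ((ε p : ℂ) * starRingEnd ℂ (ε p : ℂ) ^ 2) = 1
      linear_combination ((ε p : ℂ) * starRingEnd ℂ (ε p : ℂ) + 1) * huc)
    rw [Finset.sum_singleton, h1, smul_eq_mul, mul_one] at h2
    rw [← h2]
    congr 1
    have : (ε p : ℂ) ≠ 0 := coe_ne_zero hεp.ne_zero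
    rw [ht]
    show (p : ℂ) / (f : ℂ) = ((ε p : ℂ) * p * (1 / (f : ℂ)) + ((0 : O) : ℂ)) / (ε p : ℂ)
    have e0 : ((0 : O) : ℂ) = 0 := rfl
    rw [e0, add_zero]
    field_simp
  -- distribution
  obtain ⟨S, hS⟩ := exists_reps hO p hp.ne_zero
  have hcK : (1 : ℂ) / ((p : ℂ) * starRingEnd ℂ (p : ℂ) ^ 2) ∈ KK O :=
    div_mem (one_mem _) (mul_mem (coe_mem_KK _) (pow_mem (conj_mem_KK hO (coe_mem_KK _)) 2))
  have hcp0 : starRingEnd ℂ (p : ℂ) ≠ 0 := by rw [Ne, map_eq_zero]; exact hp0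
  have hpfO : (p : ℂ) / (f : ℂ) ∉ O := by
    intro h
    apply hfu
    have e : f * ⟨_, h⟩ = p := by
      apply Subtype.ext
      show (f : ℂ) * ((p : ℂ) / f) = p
      field_simp
    exact hpf.symm.isUnit_of_dvd ⟨_, e.symm⟩
  have hd := hq.dist ((p : ℂ) / (f : ℂ)) (div_mem (coe_mem_KK _) (coe_mem_KK _)) hpfO p hp.ne_zero S
    hS ⟨_, hcK⟩ (by
      show (1 : ℂ) / ((p : ℂ) * starRingEnd ℂ (p : ℂ) ^ 2) * ((p : ℂ) * starRingEnd ℂ (p : ℂ) ^ 2) = 1
      field_simp)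
  -- replace the representative of zero
  set q' := q ((1 : ℂ) / (f : ℂ) + 1 / (p : ℂ)) with hq'
  obtain ⟨k0, ⟨hk0, hd0⟩, huniq⟩ := hS 0
  have hterm : ∀ k ∈ S, q (((p : ℂ) / (f : ℂ) + (k : ℂ)) / (p : ℂ)) = if k = k0 then 1 else q' := by
    intro k hk
    have e : ((p : ℂ) / (f : ℂ) + (k : ℂ)) / (p : ℂ) = 1 / (f : ℂ) + (k : ℂ) / (p : ℂ) := by
      field_simp
    rw [e]
    split_ifs with hkk
    · obtain ⟨d, hd1⟩ := hd0
      have e1 : (k : ℂ) = -(p * d) := by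
        rw [hkk]
        have := congrArg Subtype.val hd1
        push_cast at this
        linear_combination -this
      have e2 : 1 / (f : ℂ) + (k : ℂ) / (p : ℂ) = 1 / (f : ℂ) + ((-d : O) : ℂ) := by
        rw [e1]
        push_cast
        field_simp
      rw [e2, hq.per _ hfK, hq1]
    · apply hgal
      have := hP
      refine ((hp.irreducible.coprime_iff_not_dvd).2 fun h => hkk ?_).symm
      refine huniq k ⟨hk, ?_⟩
      rw [zero_sub]
      exact (dvd_neg).2 h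
  have hsum : ∑ k ∈ S, (if k = k0 then (1 : KK O) else q') = 1 + ((S.card - 1 : ℕ) : KK O) * q' := by
    rw [← Finset.add_sum_erase S _ hk0, if_pos rfl]
    congr 1
    rw [Finset.sum_congr rfl (fun k hk => if_neg (Finset.ne_of_mem_erase hk)), Finset.sum_const,
      Finset.card_erase_of_mem hk0, nsmul_eq_mul]
  rw [Finset.sum_congr rfl hterm, hsum, hval, smul_eq_mul] at hd
  have hd' : (1 : ℂ) + ((S.card - 1 : ℕ) : ℂ) * (q' : ℂ) =
      1 / ((p : ℂ) * starRingEnd ℂ (p : ℂ) ^ 2) * (ε p : ℂ) := by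
    have := congrArg Subtype.val hd
    push_cast at this
    exact this
  have hcard := card_reps hO hp.ne_zero hS
  have hSc : 1 ≤ S.card := Finset.card_pos.2 ⟨k0, hk0⟩
  have hc1 : (((S.card - 1 : ℕ) : ℂ)) = ((‖(p : ℂ)‖ ^ 2 - 1 : ℝ) : ℂ) := by
    rw [← hcard]
    push_cast [Nat.cast_sub hSc]
    ring
  have hnorm : ‖(1 : ℂ) / ((p : ℂ) * starRingEnd ℂ (p : ℂ) ^ 2) * (ε p : ℂ)‖ ≤ 1 := by
    rw [norm_mul, norm_div, norm_mul, norm_pow, RCLike.norm_conj, norm_one,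
      (isUnit_iff_norm hO _).1 hεp, mul_one]
    have hp1 : 1 ≤ ‖(p : ℂ)‖ := one_le_norm hO p hp.ne_zero
    rw [div_le_one (by positivity)]
    have : (1 : ℝ) ≤ ‖(p : ℂ)‖ ^ 2 := one_le_pow₀ hp1
    nlinarith
  have hq'n : (‖(p : ℂ)‖ ^ 2 - 1) * ‖(q' : ℂ)‖ ≤ 2 := by
    have e : ((‖(p : ℂ)‖ ^ 2 - 1 : ℝ) : ℂ) * (q' : ℂ) =
        1 / ((p : ℂ) * starRingEnd ℂ (p : ℂ) ^ 2) * (ε p : ℂ) - 1 := by
      rw [← hd', ← hc1]; ring
    have h1 := congrArg (fun z : ℂ => ‖z‖) e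
    simp only [norm_mul, Complex.norm_real] at h1
    rw [Real.norm_of_nonneg (by linarith)] at h1
    rw [h1]
    calc _ ≤ ‖(1 : ℂ) / ((p : ℂ) * starRingEnd ℂ (p : ℂ) ^ 2) * (ε p : ℂ)‖ + ‖(1 : ℂ)‖ := by
          simp only [norm_mul]
          exact le_trans (norm_sub_le _ _) (by simp only [norm_mul]; exact le_refl _)
      _ ≤ 1 + 1 := by rw [norm_one]; linarith
      _ = 2 := by norm_num
  have hq'1 : ‖(q' : ℂ)‖ ≤ 1 := by
    have := norm_nonneg (q' : ℂ)
    nlinarith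
  -- the value at `1/f - 1/p`
  have hm : q ((1 : ℂ) / (f : ℂ) - 1 / (p : ℂ)) = q' := by
    have h1 := hgal (-1) isCoprime_one_left.neg_left
    have e : (1 : ℂ) / (f : ℂ) + (((-1 : O)) : ℂ) / (p : ℂ) = 1 / (f : ℂ) - 1 / (p : ℂ) := by
      push_cast
      ring
    rw [e] at h1
    exact h1
  rw [hm, hq1]
  intro h0
  have h2 : (4 : ℂ) = (q' : ℂ) := by
    have e1 : ((1 : KK O) : ℂ) = 1 := rfl
    rw [e1] at h0
    linear_combination 2 * h0
  have h3 : ‖(q' : ℂ)‖ = 4 := by rw [← h2]; norm_num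
  linarith

end Pool.Agent.KTD
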