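import Pool.Agent.Lib_helper87.KTD.P.RE
import Pool.Agent.Lib_helper87.KTD.P.XA
import Pool.Agent.Lib_helper87.KTD.P.XB
import Pool.Agent.Lib_helper87.KTD.P.XC
import Pool.Agent.Lib_helper87.KTD.P.XD

set_option autoImplicit false

namespace Pool.Agent.KTD

open Complex Pool.Agent.TCL

variable {O : Subring ℂ} {ω : ℂ} {f : O} {ε : O → O} {N : ℕ} {R : Finset O}

/-! ### families indexed by finite types -/

/-- a closed family of level `N` -/
structure Fam (O : Subring ℂ) (f : O) (ε : O → O) (N : ℕ) (ι : Type) [Fintype ι] (x y z : ι → ℂ)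
    (v w : ι → KK O) : Prop where
  x_mem : ∀ i, (N : ℂ) * x i ∈ O
  y_mem : ∀ i, (N : ℂ) * y i ∈ O
  z_mem : ∀ i, (N : ℂ) * z i ∈ O
  zy : ∀ i, z i - y i ∉ O
  xz : ∀ i, x i - z i ∉ O
  yx : ∀ i, y i - x i ∉ O
  closed : ∀ B : ℂ → ℂ → KK O, BD O f ε (KK O) B → ∑ i, dl B (x i) (y i) (z i) (v i) (w i) = 0

open Classical in
/-- the trace for a family -/
noncomputable def TRf (O : Subring ℂ) (ω : ℂ) (ε : O → O) (M : O) (S : Finset O) {ι : Type}
    [Fintype ι] (x y z : ι → ℂ) (v w : ι → KK O) : ℂ :=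
  ∑ c ∈ S.filter (fun c => IsCoprime c M), ∑ i,
    KS O ω (ε c * c * x i) (ε c * c * y i) (ε c * c * z i) (v i) (w i)

theorem xe_natCast : ((N : O) : ℂ) = (N : ℂ) := by simp

theorem xe_mem_KK (hN : 0 < N) {t : ℂ} (ht : (N : ℂ) * t ∈ O) : t ∈ KK O := by
  have h0 : (N : ℂ) ≠ 0 := by exact_mod_cast hN.ne'
  have : t = ((⟨_, ht⟩ : O) : ℂ) / (N : ℂ) := by
    show t = (N : ℂ) * t / N
    field_simp
  rw [this]
  exact div_mem (coe_mem_KK _) (by
    have := coe_mem_KK (N : O)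
    rwa [xe_natCast] at this)

/-- reindexing -/
theorem fam_fin (hN : 0 < N) (hfN : f ∣ (N : O)) {S : Finset O} (hS : IsReps (N : O) S) {ι : Type}
    [Fintype ι] {x y z : ι → ℂ} {v w : ι → KK O} (h : Fam O f ε N ι x y z v w) :
    ∃ (n : ℕ) (e : ι ≃ Fin n), Adm O f ε n (fun i => x (e.symm i)) (fun i => y (e.symm i))
      (fun i => z (e.symm i)) (fun i => v (e.symm i)) (fun i => w (e.symm i)) (N : O) S ∧
      TR O ω ε (N : O) S n (fun i => x (e.symm i)) (fun i => y (e.symm i))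
        (fun i => z (e.symm i)) (fun i => v (e.symm i)) (fun i => w (e.symm i)) =
      TRf O ω ε (N : O) S x y z v w := by
  classical
  have hNO : (N : O) ≠ 0 := by
    intro h
    have := congrArg (Subtype.val) h
    rw [xe_natCast] at this
    have h0 : (N : ℂ) = 0 := this
    exact hN.ne' (by exact_mod_cast h0)
  refine ⟨Fintype.card ι, Fintype.equivFin ι, ⟨⟨?_, ?_, ?_, ?_, ?_, ?_⟩, ?_, hfN, hNO, hS, ?_⟩, ?_⟩
  · exact fun i => xe_mem_KK hN (h.x_mem _)
  · exact fun i => xe_mem_KK hN (h.y_mem _)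
  · exact fun i => xe_mem_KK hN (h.z_mem _)
  · exact fun i => h.zy _
  · exact fun i => h.xz _
  · exact fun i => h.yx _
  · intro B hB
    rw [← h.closed B hB]
    exact Equiv.sum_comp (Fintype.equivFin ι).symm
      (fun i => dl B (x i) (y i) (z i) (v i) (w i))
  · intro i
    rw [xe_natCast]
    exact ⟨h.x_mem _, h.y_mem _, h.z_mem _⟩
  · unfold TR TRf
    refine Finset.sum_congr rfl fun c _ => ?_
    exact Equiv.sum_comp (Fintype.equivFin ι).symm (fun i =>
      KS O ω (ε c * c * x i) (ε c * c * y i) (ε c * c * z i) (v i) (w i))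

/-! ### complex conjugation -/

/-- the conjugate of a `K`-valued bidistribution -/
theorem bd_conj (hO : Quad O ω) (hε : GC O f ε) {u : O} (hu : IsUnit u) {B : ℂ → ℂ → KK O}
    (hB : BD O f ε (KK O) B) :
    BD O f ε (KK O) (fun a b => (⟨starRingEnd ℂ (B (u * starRingEnd ℂ a) (u * starRingEnd ℂ b) : ℂ),
      conj_mem_KK hO (B _ _).2⟩ : KK O)) := by
  have hu0 : (u : ℂ) ≠ 0 := coe_ne_zero hu.ne_zero
  obtain ⟨u', hu'⟩ := hu.exists_right_inv
  have huu : (u : ℂ) * (u' : ℂ) = 1 := by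
    have := congrArg Subtype.val hu'
    push_cast at this
    exact this
  have hK : ∀ a ∈ KK O, (u : ℂ) * starRingEnd ℂ a ∈ KK O := fun a ha =>
    mul_mem (coe_mem_KK u) (conj_mem_KK hO ha)
  have hnO : ∀ a : ℂ, a ∉ O → (u : ℂ) * starRingEnd ℂ a ∉ O := by
    intro a ha h
    apply ha
    have h1 : starRingEnd ℂ a ∈ O := by
      have := O.mul_mem u'.2 h
      have e : (u' : ℂ) * ((u : ℂ) * starRingEnd ℂ a) = starRingEnd ℂ a := by
        rw [← mul_assoc, mul_comm (u' : ℂ), huu, one_mul]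
      rwa [e] at this
    have := conj_mem hO h1
    rwa [starRingEnd_self_apply] at this
  have hreps : ∀ (r : O) (S : Finset O), IsReps r S → ∃ S' : Finset O, IsReps (cj hO r) S' ∧
      ∀ F : O → KK O, ∑ k ∈ S, F (u * cj hO k) = ∑ k ∈ S', F k := by
    intro r S hS
    classical
    refine ⟨S.image (fun k => u * cj hO k), ?_, ?_⟩
    · intro t
      obtain ⟨k, ⟨hk, hd⟩, huniq⟩ := hS (cj hO (u' * t))
      refine ⟨u * cj hO k, ⟨Finset.mem_image_of_mem _ hk, ?_⟩, ?_⟩
      · have h1 := cj_dvd hO hd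
        rw [cj_sub, cj_cj] at h1
        obtain ⟨d, hd1⟩ := h1
        refine ⟨u * d, ?_⟩
        have : t = u * (u' * t) := by rw [← mul_assoc, hu', one_mul]
        rw [this]
        linear_combination u * hd1
      · rintro m ⟨hm, hd2⟩
        obtain ⟨k', hk', rfl⟩ := Finset.mem_image.1 hm
        have h1 : r ∣ cj hO (u' * t) - k' := by
          obtain ⟨d, hd3⟩ := hd2
          refine ⟨cj hO (u' * d), ?_⟩
          have e : u' * t - cj hO k' = cj hO r * (u' * d) := by
            have h5 : u' * (t - u * cj hO k') = u' * (cj hO r * d) := by rw [hd3]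
            have h6 : u' * u = 1 := by rw [mul_comm]; exact hu'
            linear_combination h5 + cj hO k' * h6
          have := congrArg (cj hO) e
          rw [cj_sub, cj_cj, cj_mul hO (cj hO r) (u' * d), cj_cj] at this
          exact this
        rw [huniq k' ⟨hk', h1⟩]
    · intro F
      rw [Finset.sum_image]
      intro a _ b _ hab
      have hab' : u * cj hO a = u * cj hO b := hab
      have h7 := mul_left_cancel₀ hu.ne_zero hab'
      rw [← cj_cj hO a, ← cj_cj hO b, h7]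
  have hsum : ∀ (S : Finset O) (F : O → KK O),
      starRingEnd ℂ ((∑ k ∈ S, F k : KK O) : ℂ) = ∑ k ∈ S, starRingEnd ℂ (F k : ℂ) := by
    intro S F
    rw [AddSubmonoidClass.coe_finsetSum, map_sum]
  refine ⟨?_, ?_, ?_, ?_, ?_⟩
  · intro a ha b hb ha' hb' k
    apply Subtype.ext
    show starRingEnd ℂ (B (u * starRingEnd ℂ (a + k)) (u * starRingEnd ℂ b) : ℂ) = _
    have e : (u : ℂ) * starRingEnd ℂ (a + k) = u * starRingEnd ℂ a + ((u * cj hO k : O) : ℂ) := by
      rw [map_add]; push_cast; rw [coe_cj]; ring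
    rw [e, hB.per1 _ (hK a ha) _ (hK b hb) (hnO a ha') (hnO b hb')]
  · intro a ha b hb ha' hb' k
    apply Subtype.ext
    show starRingEnd ℂ (B (u * starRingEnd ℂ a) (u * starRingEnd ℂ (b + k)) : ℂ) = _
    have e : (u : ℂ) * starRingEnd ℂ (b + k) = u * starRingEnd ℂ b + ((u * cj hO k : O) : ℂ) := by
      rw [map_add]; push_cast; rw [coe_cj]; ring
    rw [e, hB.per2 _ (hK a ha) _ (hK b hb) (hnO a ha') (hnO b hb')]
  · intro a ha b hb ha' hb' r hr S hS c hc
    obtain ⟨S', hS', hF⟩ := hreps r S hS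
    have hr0 : cj hO r ≠ 0 := by
      intro h0
      apply hr
      have := congrArg (cj hO) h0
      rwa [cj_cj, cj_zero] at this
    have hc' : (((⟨starRingEnd ℂ (c : ℂ), conj_mem_KK hO c.2⟩ : KK O) : KK O) : ℂ) *
        starRingEnd ℂ ((cj hO r : O) : ℂ) = 1 := by
      rw [coe_cj]
      show starRingEnd ℂ (c : ℂ) * starRingEnd ℂ (starRingEnd ℂ (r : ℂ)) = 1
      rw [← map_mul, hc, map_one]
    have h1 := hB.dist1 _ (hK a ha) _ (hK b hb) (hnO a ha') (hnO b hb') (cj hO r) hr0 S' hS' _ hc'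
    rw [← hF] at h1
    apply Subtype.ext
    rw [AddSubmonoidClass.coe_finsetSum]
    have e1 : ∀ k : O, (u : ℂ) * starRingEnd ℂ ((a + k) / r) =
        (u * starRingEnd ℂ a + ((u * cj hO k : O) : ℂ)) / ((cj hO r : O) : ℂ) := by
      intro k
      rw [map_div₀, map_add]; push_cast; rw [coe_cj, coe_cj]; ring
    have h2 := congrArg (fun t : KK O => starRingEnd ℂ (t : ℂ)) h1
    simp only [hsum] at h2
    show ∑ k ∈ S, starRingEnd ℂ (B (u * starRingEnd ℂ ((a + k) / r)) (u * starRingEnd ℂ b) : ℂ) = _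
    simp only [e1]
    rw [h2]
    show starRingEnd ℂ (starRingEnd ℂ (c : ℂ) * (B _ _ : ℂ)) = (c : ℂ) * _
    rw [map_mul, starRingEnd_self_apply]
  · intro a ha b hb ha' hb' r hr S hS
    obtain ⟨S', hS', hF⟩ := hreps r S hS
    have hr0 : cj hO r ≠ 0 := by
      intro h0
      apply hr
      have := congrArg (cj hO) h0
      rwa [cj_cj, cj_zero] at this
    have h1 := hB.dist2 _ (hK a ha) _ (hK b hb) (hnO a ha') (hnO b hb') (cj hO r) hr0 S' hS'
    rw [← hF] at h1
    apply Subtype.ext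
    rw [AddSubmonoidClass.coe_finsetSum]
    have e1 : ∀ k : O, (u : ℂ) * starRingEnd ℂ ((b + k) / r) =
        (u * starRingEnd ℂ b + ((u * cj hO k : O) : ℂ)) / ((cj hO r : O) : ℂ) := by
      intro k
      rw [map_div₀, map_add]; push_cast; rw [coe_cj, coe_cj]; ring
    have h2 := congrArg (fun t : KK O => starRingEnd ℂ (t : ℂ)) h1
    simp only [hsum] at h2
    show ∑ k ∈ S, starRingEnd ℂ (B (u * starRingEnd ℂ a) (u * starRingEnd ℂ ((b + k) / r)) : ℂ) = _
    simp only [e1]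
    rw [h2]
  · intro a ha b hb ha' hb' n c hn hna hnb hcop
    apply Subtype.ext
    show starRingEnd ℂ (B (u * starRingEnd ℂ (ε c * c * a)) (u * starRingEnd ℂ (ε c * c * b)) : ℂ) = _
    have e1 : ∀ t : ℂ, (u : ℂ) * starRingEnd ℂ (ε c * c * t) =
        ε (cj hO c) * ((cj hO c : O) : ℂ) * (u * starRingEnd ℂ t) := by
      intro t
      rw [eps_cj hO hε, coe_cj, coe_cj, map_mul, map_mul]; ring
    have hn0 : cj hO n ≠ 0 := by
      intro h0
      apply hn
      have := congrArg (cj hO) h0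
      rwa [cj_cj, cj_zero] at this
    have hm : ∀ t : ℂ, (n : ℂ) * t ∈ O → ((cj hO n : O) : ℂ) * ((u : ℂ) * starRingEnd ℂ t) ∈ O := by
      intro t ht
      have h8 := O.mul_mem u.2 (conj_mem hO ht)
      have e : ((cj hO n : O) : ℂ) * ((u : ℂ) * starRingEnd ℂ t) =
          (u : ℂ) * starRingEnd ℂ ((n : ℂ) * t) := by
        rw [coe_cj, map_mul]; ring
      rw [e]; exact h8
    have hcn : IsCoprime c n := hcop.of_mul_right_left
    have hcf : IsCoprime c f := hcop.of_mul_right_right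
    have hcf' : IsCoprime (cj hO c) f := by
      by_contra h9
      have h10 := hε.zero _ h9
      rw [eps_cj hO hε] at h10
      have h11 := congrArg (cj hO) h10
      rw [cj_cj, cj_zero] at h11
      exact (hε.unit c hcf).ne_zero h11
    have hcop' : IsCoprime (cj hO c) (cj hO n * f) :=
      IsCoprime.mul_right (cj_isCoprime hO hcn) hcf'
    rw [e1, e1, hB.gal _ (hK a ha) _ (hK b hb) (hnO a ha') (hnO b hb') (cj hO n) (cj hO c) hn0
      (hm a hna) (hm b hnb) hcop']

/-- the trace of the conjugate combination, level `N` -/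
theorem trf_conj (hO : Quad O ω) (hε : GC O f ε) (hfN : f ∣ (N : O)) {S : Finset O}
    (hS : IsReps (N : O) S) {ι : Type} [Fintype ι] {x y z : ι → ℂ} {v w v' w' : ι → KK O}
    (hx : ∀ i, (N : ℂ) * x i ∈ O) (hy : ∀ i, (N : ℂ) * y i ∈ O) (hz : ∀ i, (N : ℂ) * z i ∈ O)
    {u : O} (hu : IsUnit u) (hv : ∀ i, (v' i : ℂ) = starRingEnd ℂ (v i : ℂ))
    (hw : ∀ i, (w' i : ℂ) = starRingEnd ℂ (w i : ℂ)) :
    starRingEnd ℂ (TRf O ω ε (N : O) S x y z v w) =
      u * TRf O ω ε (N : O) S (fun i => (u : ℂ) * starRingEnd ℂ (x i))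
        (fun i => (u : ℂ) * starRingEnd ℂ (y i)) (fun i => (u : ℂ) * starRingEnd ℂ (z i)) v' w' := by
  classical
  set G : O → ℂ := fun c => ∑ i,
    KS O ω (ε c * c * ((u : ℂ) * starRingEnd ℂ (x i))) (ε c * c * ((u : ℂ) * starRingEnd ℂ (y i)))
      (ε c * c * ((u : ℂ) * starRingEnd ℂ (z i))) (v' i) (w' i) with hG
  set F : O → ℂ := fun c => if IsCoprime c (N : O) then G c else 0 with hF
  have hmem : ∀ t : ℂ, (N : ℂ) * t ∈ O → (N : ℂ) * ((u : ℂ) * starRingEnd ℂ t) ∈ O := by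
    intro t ht
    have h8 := O.mul_mem u.2 (conj_mem hO ht)
    have e : (N : ℂ) * ((u : ℂ) * starRingEnd ℂ t) = (u : ℂ) * starRingEnd ℂ ((N : ℂ) * t) := by
      rw [map_mul, map_natCast]; ring
    rw [e]; exact h8
  have hper : ∀ a b : O, F (a + (N : O) * b) = F a := by
    intro a b
    have hcop : IsCoprime (a + (N : O) * b) (N : O) ↔ IsCoprime a (N : O) :=
      IsCoprime.add_mul_left_left_iff
    simp only [hF]
    rw [if_congr hcop rfl rfl]
    congr 1
    simp only [hG]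
    refine Finset.sum_congr rfl fun i _ => ?_
    obtain ⟨d, hd'⟩ := hfN
    have e1 : ε (a + (N : O) * b) = ε a := by
      rw [hd', mul_assoc]
      exact hε.per _ _
    have key : ∀ t : ℂ, (N : ℂ) * t ∈ O → ∃ k : O,
        ((ε (a + (N : O) * b) : O) : ℂ) * ((a + (N : O) * b : O) : ℂ) * t = (ε a : ℂ) * a * t + k := by
      intro t ht
      refine ⟨ε a * b * ⟨_, ht⟩, ?_⟩
      rw [e1]
      push_cast
      ring
    obtain ⟨k1, h1⟩ := key _ (hmem _ (hx i))
    obtain ⟨k2, h2⟩ := key _ (hmem _ (hy i))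
    obtain ⟨k3, h3⟩ := key _ (hmem _ (hz i))
    rw [h1, h2, h3, ks_per hO]
  have hT : TRf O ω ε (N : O) S (fun i => (u : ℂ) * starRingEnd ℂ (x i))
        (fun i => (u : ℂ) * starRingEnd ℂ (y i)) (fun i => (u : ℂ) * starRingEnd ℂ (z i)) v' w' =
      ∑ c ∈ S, F c := by
    unfold TRf
    rw [Finset.sum_filter]
  have hR' : IsReps (cj hO (N : O)) S := by
    rw [cj_nat]; exact hS
  have e2 := sum_conj_reps hO hS hR' F hper
  rw [hT, ← e2]
  unfold TRf
  rw [Finset.sum_filter, map_sum, Finset.mul_sum]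
  refine Finset.sum_congr rfl fun c _ => ?_
  have hcop : IsCoprime (cj hO c) (N : O) ↔ IsCoprime c (N : O) := by
    constructor
    · intro h
      have := cj_isCoprime hO h
      rwa [cj_cj, cj_nat] at this
    · intro h
      have := cj_isCoprime hO h
      rwa [cj_nat] at this
  simp only [hF]
  rw [if_congr hcop rfl rfl]
  split_ifs
  · simp only [hG]
    rw [map_sum, Finset.mul_sum]
    refine Finset.sum_congr rfl fun i _ => ?_
    rw [ks_conj hO hu, ← hv, ← hw]
    have key : ∀ t : ℂ, (u : ℂ) * starRingEnd ℂ ((ε c : ℂ) * c * t) =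
        (ε (cj hO c) : ℂ) * ((cj hO c : O) : ℂ) * ((u : ℂ) * starRingEnd ℂ t) := by
      intro t
      rw [eps_cj hO hε, coe_cj, coe_cj, map_mul, map_mul]
      ring
    rw [key, key, key]
  · rw [map_zero, mul_zero]

theorem dl_coe (B : ℂ → ℂ → KK O) (x y z : ℂ) (v w : KK O) :
    ((dl B x y z v w : KK O) : ℂ) = (v : ℂ) * ((B (x - z) (z - y) : ℂ) + (B (y - x) (z - y) : ℂ)) +
      (w : ℂ) * ((B (z - y) (x - z) : ℂ) + (B (y - x) (x - z) : ℂ)) +
      (-(v : ℂ) - (w : ℂ)) * ((B (z - y) (y - x) : ℂ) + (B (x - z) (y - x) : ℂ)) := rfl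

/-- the combination together with its conjugate -/
theorem fam_conj (hO : Quad O ω) (hε : GC O f ε) {ι : Type} [Fintype ι] {x y z : ι → ℂ}
    {v w v' w' : ι → KK O} (h : Fam O f ε N ι x y z v w) {u : O} (hu : IsUnit u)
    (hv : ∀ i, (v' i : ℂ) = starRingEnd ℂ (v i : ℂ))
    (hw : ∀ i, (w' i : ℂ) = starRingEnd ℂ (w i : ℂ)) :
    Fam O f ε N (ι ⊕ ι) (Sum.elim x (fun i => (u : ℂ) * starRingEnd ℂ (x i)))
      (Sum.elim y (fun i => (u : ℂ) * starRingEnd ℂ (y i)))
      (Sum.elim z (fun i => (u : ℂ) * starRingEnd ℂ (z i))) (Sum.elim v v') (Sum.elim w w') := by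
  obtain ⟨u', hu'⟩ := hu.exists_right_inv
  have huu : (u : ℂ) * (u' : ℂ) = 1 := by
    have := congrArg Subtype.val hu'
    push_cast at this
    exact this
  have hmem : ∀ t : ℂ, (N : ℂ) * t ∈ O → (N : ℂ) * ((u : ℂ) * starRingEnd ℂ t) ∈ O := by
    intro t ht
    have h8 := O.mul_mem u.2 (conj_mem hO ht)
    have e : (N : ℂ) * ((u : ℂ) * starRingEnd ℂ t) = (u : ℂ) * starRingEnd ℂ ((N : ℂ) * t) := by
      rw [map_mul, map_natCast]; ring
    rw [e]; exact h8
  have hnO : ∀ a b : ℂ, a - b ∉ O → (u : ℂ) * starRingEnd ℂ a - (u : ℂ) * starRingEnd ℂ b ∉ O := by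
    intro a b ha h
    apply ha
    have h1 : starRingEnd ℂ (a - b) ∈ O := by
      have := O.mul_mem u'.2 h
      have e : (u' : ℂ) * ((u : ℂ) * starRingEnd ℂ a - (u : ℂ) * starRingEnd ℂ b) =
          starRingEnd ℂ (a - b) := by
        rw [map_sub]
        linear_combination (starRingEnd ℂ a - starRingEnd ℂ b) * huu
      rwa [e] at this
    have := conj_mem hO h1
    rwa [starRingEnd_self_apply] at this
  refine ⟨?_, ?_, ?_, ?_, ?_, ?_, ?_⟩
  · rintro (i | i)
    · exact h.x_mem i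
    · exact hmem _ (h.x_mem i)
  · rintro (i | i)
    · exact h.y_mem i
    · exact hmem _ (h.y_mem i)
  · rintro (i | i)
    · exact h.z_mem i
    · exact hmem _ (h.z_mem i)
  · rintro (i | i)
    · exact h.zy i
    · exact hnO _ _ (h.zy i)
  · rintro (i | i)
    · exact h.xz i
    · exact hnO _ _ (h.xz i)
  · rintro (i | i)
    · exact h.yx i
    · exact hnO _ _ (h.yx i)
  · intro B hB
    rw [Fintype.sum_sum_type]
    simp only [Sum.elim_inl, Sum.elim_inr]
    rw [h.closed B hB, zero_add]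
    have h1 := h.closed _ (bd_conj hO hε hu hB)
    apply Subtype.ext
    have h2 : starRingEnd ℂ ((∑ i, dl B ((u : ℂ) * starRingEnd ℂ (x i))
        ((u : ℂ) * starRingEnd ℂ (y i)) ((u : ℂ) * starRingEnd ℂ (z i)) (v' i) (w' i) : KK O) : ℂ)
        = 0 := by
      rw [AddSubmonoidClass.coe_finsetSum, map_sum]
      have h3 := congrArg (Subtype.val) h1
      rw [AddSubmonoidClass.coe_finsetSum] at h3
      rw [← show ((0 : KK O) : ℂ) = 0 from rfl, ← h3]
      refine Finset.sum_congr rfl fun i _ => ?_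
      rw [dl_coe, dl_coe]
      have e : ∀ a b : ℂ, (u : ℂ) * starRingEnd ℂ a - (u : ℂ) * starRingEnd ℂ b =
          (u : ℂ) * starRingEnd ℂ (a - b) := fun a b => by rw [map_sub, mul_sub]
      simp only [e, hv, hw, map_add, map_mul, map_neg, map_sub, starRingEnd_self_apply]
    have h4 := congrArg (starRingEnd ℂ) h2
    rw [starRingEnd_self_apply, map_zero] at h4
    exact h4

end Pool.Agent.KTD
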