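import Pool.Agent.Lib_helper87.KTD.P.XE

set_option autoImplicit false

namespace Pool.Agent.KTD

open Complex Pool.Agent.TCL

variable {O : Subring ℂ} {ω : ℂ} {f : O} {ε : O → O} {N : ℕ} {R : Finset O}

theorem exists_p (hO : Quad O ω) (hP : IsPrincipalIdealRing O) (hf : f ≠ 0) :
    ∃ p : O, Prime p ∧ IsCoprime p f ∧ 3 ≤ ‖(p : ℂ)‖ ^ 2 := by
  obtain ⟨n, hn, hfn⟩ := re_nat hO hf
  set a : O := ((6 * n + 1 : ℕ) : O) with ha
  have hac : (a : ℂ) = ((6 * n + 1 : ℕ) : ℂ) := by rw [ha]; exact xe_natCast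
  have hau : ¬ IsUnit a := by
    intro h
    have h1 := (isUnit_iff_norm hO a).1 h
    rw [hac, Complex.norm_natCast] at h1
    have : (6 * n + 1 : ℕ) = 1 := by exact_mod_cast h1
    omega
  have ha0 : a ≠ 0 := by
    intro h
    have h1 : (a : ℂ) = 0 := by rw [h]; rfl
    rw [hac] at h1
    have : (6 * n + 1 : ℕ) = 0 := by exact_mod_cast h1
    omega
  obtain ⟨p, hp, hpa⟩ := WfDvdMonoid.exists_irreducible_factor hau ha0
  have hp' : Prime p := hp.prime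
  have hcop : IsCoprime p (6 * (n : O)) := by
    have h1 : IsCoprime a (6 * (n : O)) := by
      have : a = 1 + (6 * (n : O)) * 1 := by
        rw [ha]; push_cast; ring
      rw [this]
      exact isCoprime_one_left.add_mul_left_left _
    exact h1.of_isCoprime_of_dvd_left hpa
  have hpf : IsCoprime p f := by
    have h1 : IsCoprime p (n : O) := hcop.of_mul_right_right
    exact h1.of_isCoprime_of_dvd_right hfn
  have hp2 : IsCoprime p (2 : O) := by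
    have h1 : IsCoprime p (6 : O) := hcop.of_mul_right_left
    exact h1.of_isCoprime_of_dvd_right ⟨3, by norm_num⟩
  refine ⟨p, hp', hpf, ?_⟩
  obtain ⟨m, hm⟩ := norm_sq_nat hO p
  rw [hm]
  have h3 : 3 ≤ m := by
    by_contra hlt
    have hm0 : m = 0 ∨ m = 1 ∨ m = 2 := by omega
    rcases hm0 with h0 | h0 | h0
    · rw [h0, Nat.cast_zero] at hm
      have : ‖(p : ℂ)‖ = 0 := by nlinarith [norm_nonneg (p : ℂ)]
      exact hp'.ne_zero (Subtype.ext (norm_eq_zero.1 this))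
    · rw [h0, Nat.cast_one] at hm
      have : ‖(p : ℂ)‖ = 1 := by nlinarith [norm_nonneg (p : ℂ)]
      exact hp'.not_isUnit ((isUnit_iff_norm hO p).2 this)
    · rw [h0] at hm
      apply hp'.not_isUnit
      apply hp2.isUnit_of_dvd
      refine ⟨cj hO p, ?_⟩
      apply Subtype.ext
      show (2 : ℂ) = (p : ℂ) * ((cj hO p : O) : ℂ)
      rw [coe_cj, qa_mul_conj, hm]
      norm_num
  exact_mod_cast h3

/-- the ten symbols: index type -/
abbrev TI (S : Finset O) : Type := (S ⊕ S) ⊕ (Unit ⊕ Unit)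

def tD1 (x1 x2 : ℂ) (S : Finset O) : TI S → ℂ :=
  Sum.elim (Sum.elim (fun _ => -x2) (fun _ => x1)) (Sum.elim (fun _ => x1) (fun _ => x1))

noncomputable def tD2 (x1 x2 : ℂ) (S : Finset O) : TI S → ℂ :=
  Sum.elim (Sum.elim (fun k => (x1 + x2 + (k : O)) / 2) (fun k => (-x1 - x2 + (k : O)) / 2))
    (Sum.elim (fun _ => -x2) (fun _ => x2))

noncomputable def tW1 (V1 V2 : KK O) (S : Finset O) : TI S → KK O :=
  Sum.elim (Sum.elim (fun _ => V1 - V2) (fun _ => V2 - V1))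
    (Sum.elim (fun _ => V1) (fun _ => -V1))

noncomputable def tW2 (V1 V2 : KK O) (S : Finset O) : TI S → KK O :=
  Sum.elim (Sum.elim (fun _ => 2 * V1) (fun _ => 2 * V2))
    (Sum.elim (fun _ => -V2) (fun _ => -V2))

theorem ten_sum {M : Type} [AddCommMonoid M] (x1 x2 : ℂ) (V1 V2 : KK O) (S : Finset O)
    (F : ℂ → ℂ → KK O → KK O → M) :
    ∑ i, F (tD1 x1 x2 S i) (tD2 x1 x2 S i) (tW1 V1 V2 S i) (tW2 V1 V2 S i) =
      ∑ k ∈ S, F (-x2) ((x1 + x2 + k) / 2) (V1 - V2) (2 * V1)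
      + ∑ k ∈ S, F x1 ((-x1 - x2 + k) / 2) (V2 - V1) (2 * V2)
      + F x1 (-x2) V1 (-V2) + F x1 x2 (-V1) (-V2) := by
  rw [Fintype.sum_sum_type, Fintype.sum_sum_type, Fintype.sum_sum_type]
  simp only [tD1, tD2, tW1, tW2, Sum.elim_inl, Sum.elim_inr, Finset.univ_unique,
    Finset.sum_singleton]
  rw [Finset.sum_coe_sort S (fun k => F (-x2) ((x1 + x2 + k) / 2) (V1 - V2) (2 * V1)),
    Finset.sum_coe_sort S (fun k => F x1 ((-x1 - x2 + k) / 2) (V2 - V1) (2 * V2)), ← add_assoc]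

theorem xf_half {t : ℂ} (ht : t ∉ O) (k : O) : (t + k) / 2 ∉ O := by
  intro h
  apply ht
  have h1 := O.mul_mem (natCast_mem O 2) h
  have h2 := O.sub_mem h1 k.2
  have e : ((2 : ℕ) : ℂ) * ((t + k) / 2) - k = t := by
    push_cast
    ring
  rwa [e] at h2

theorem ten_fam {x1 x2 : ℂ} {r' : O} (hN0 : 0 < N) (hN : (N : O) = 2 * r')
    (h1 : (r' : ℂ) * x1 ∈ O) (h2 : (r' : ℂ) * x2 ∈ O) (n1 : x1 ∉ O) (n2 : x2 ∉ O)
    (n3 : x1 + x2 ∉ O) (n4 : x1 - x2 ∉ O) (V1 V2 : KK O) {S : Finset O} (hS : IsReps (2 : O) S) :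
    Fam O f ε N (TI S) (tD2 x1 x2 S) (fun i => - tD1 x1 x2 S i) (fun _ => 0) (tW2 V1 V2 S)
      (fun i => - tW1 V1 V2 S i) := by
  have hNc : (N : ℂ) = 2 * (r' : ℂ) := by
    rw [← xe_natCast (O := O), hN]
    push_cast
    rfl
  have key : ∀ t : ℂ, (r' : ℂ) * t ∈ O → (N : ℂ) * t ∈ O := by
    intro t ht
    rw [hNc, mul_assoc]
    have := O.mul_mem (natCast_mem O 2) ht
    simpa using this
  have key2 : ∀ (t : ℂ) (k : O), (r' : ℂ) * t ∈ O → (N : ℂ) * ((t + k) / 2) ∈ O := by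
    intro t k ht
    have e : (N : ℂ) * ((t + k) / 2) = (r' : ℂ) * t + r' * k := by
      rw [hNc]
      ring
    rw [e]
    exact O.add_mem ht (O.mul_mem r'.2 k.2)
  have hneg : ∀ t : ℂ, (r' : ℂ) * t ∈ O → (r' : ℂ) * (-t) ∈ O := by
    intro t ht
    rw [mul_neg]; exact O.neg_mem ht
  have hadd : (r' : ℂ) * (x1 + x2) ∈ O := by rw [mul_add]; exact O.add_mem h1 h2
  have hadd' : (r' : ℂ) * (-x1 - x2) ∈ O := by
    have := O.neg_mem hadd
    have e : -((r' : ℂ) * (x1 + x2)) = (r' : ℂ) * (-x1 - x2) := by ring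
    rwa [e] at this
  have n3' : -x1 - x2 ∉ O := by
    intro h
    apply n3
    have := O.neg_mem h
    have e : -(-x1 - x2) = x1 + x2 := by ring
    rwa [e] at this
  have n4' : x2 - x1 ∉ O := by
    intro h
    apply n4
    have := O.neg_mem h
    have e : -(x2 - x1) = x1 - x2 := by ring
    rwa [e] at this
  have nneg : ∀ t : ℂ, t ∉ O → -t ∉ O := by
    intro t ht h
    apply ht
    have := O.neg_mem h
    rwa [neg_neg] at this
  refine ⟨?_, ?_, ?_, ?_, ?_, ?_, ?_⟩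
  · rintro ((k | k) | (k | k))
    · exact key2 _ _ hadd
    · exact key2 _ _ hadd'
    · exact key _ (hneg _ h2)
    · exact key _ h2
  · rintro ((k | k) | (k | k))
    · show (N : ℂ) * (-(-x2)) ∈ O
      rw [neg_neg]; exact key _ h2
    · exact key _ (hneg _ h1)
    · exact key _ (hneg _ h1)
    · exact key _ (hneg _ h1)
  · intro i
    rw [mul_zero]; exact O.zero_mem
  · rintro ((k | k) | (k | k))
    · show (0 : ℂ) - -(-x2) ∉ O
      rw [neg_neg, zero_sub]; exact nneg _ n2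
    · show (0 : ℂ) - -x1 ∉ O
      rw [zero_sub, neg_neg]; exact n1
    · show (0 : ℂ) - -x1 ∉ O
      rw [zero_sub, neg_neg]; exact n1
    · show (0 : ℂ) - -x1 ∉ O
      rw [zero_sub, neg_neg]; exact n1
  · rintro ((k | k) | (k | k))
    · show (x1 + x2 + (k : O)) / 2 - 0 ∉ O
      rw [sub_zero]; exact xf_half n3 _
    · show (-x1 - x2 + (k : O)) / 2 - 0 ∉ O
      rw [sub_zero]; exact xf_half n3' _
    · show -x2 - 0 ∉ O
      rw [sub_zero]; exact nneg _ n2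
    · show x2 - 0 ∉ O
      rw [sub_zero]; exact n2
  · rintro ((k | k) | (k | k))
    · show -(-x2) - (x1 + x2 + ((k : O) : ℂ)) / 2 ∉ O
      have e : -(-x2) - (x1 + x2 + ((k : O) : ℂ)) / 2 = (x2 - x1 + ((-(k : O) : O) : ℂ)) / 2 := by
        push_cast
        ring
      rw [e]; exact xf_half n4' _
    · show -x1 - (-x1 - x2 + ((k : O) : ℂ)) / 2 ∉ O
      have e : -x1 - (-x1 - x2 + ((k : O) : ℂ)) / 2 = (x2 - x1 + ((-(k : O) : O) : ℂ)) / 2 := by
        push_cast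
        ring
      rw [e]; exact xf_half n4' _
    · show -x1 - -x2 ∉ O
      have e : -x1 - -x2 = x2 - x1 := by ring
      rw [e]; exact n4'
    · exact n3'
  · intro B hB
    have hK : ∀ t : ℂ, (r' : ℂ) * t ∈ O → t ∈ KK O := fun t ht => xe_mem_KK hN0 (key t ht)
    have e := ten_sum x1 x2 V1 V2 S (fun d1 d2 W1 W2 => dlV B d1 d2 W1 W2)
    have e2 := four_term hB (hK _ h1) (hK _ h2) n1 n2 n3 n4 V1 V2 hS
    rw [← e] at e2
    exact e2

/-- the value of the ten term combination -/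
theorem ten_value {Λ : ℂ →ₗ[KK O] KK O} (h : Ctx O ω f ε N R Λ) {x1 x2 : ℂ} {r' : O}
    (hN : (N : O) = 2 * r')
    (h1 : (r' : ℂ) * x1 ∈ O) (h2 : (r' : ℂ) * x2 ∈ O) (V1 V2 : KK O) {S : Finset O}
    (hS : IsReps (2 : O) S) :
    ∑ c ∈ R, ∑ i, KS O ω (ε c * c * tD2 x1 x2 S i) (ε c * c * (- tD1 x1 x2 S i))
      (ε c * c * 0) (tW2 V1 V2 S i) ((- tW1 V1 V2 S i : KK O) : ℂ) =
    2 * V2 * ∑ c ∈ R, SS O ω (ε c * c * x1) - 2 * V1 * ∑ c ∈ R, SS O ω (ε c * c * x2)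
      + ((V1 : ℂ) - V2) / 4 * ∑ c ∈ R, SS O ω (ε c * c * (x1 + x2))
      - ((V1 : ℂ) + V2) / 4 * ∑ c ∈ R, SS O ω (ε c * c * (x1 - x2)) := by
  have hNc : (N : ℂ) = 2 * (r' : ℂ) := by
    rw [← xe_natCast (O := O), hN]
    push_cast
    rfl
  have key : ∀ t : ℂ, (r' : ℂ) * t ∈ O → (N : ℂ) * t ∈ O := by
    intro t ht
    rw [hNc, mul_assoc]
    have := O.mul_mem (natCast_mem O 2) ht
    simpa using this
  have hadd : (r' : ℂ) * (x1 + x2) ∈ O := by rw [mul_add]; exact O.add_mem h1 h2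
  have hadd' : (r' : ℂ) * (-x1 - x2) ∈ O := by
    have := O.neg_mem hadd
    have e : -((r' : ℂ) * (x1 + x2)) = (r' : ℂ) * (-x1 - x2) := by ring
    rwa [e] at this
  have hneg2 : (N : ℂ) * (-x2) ∈ O := by
    rw [mul_neg]; exact O.neg_mem (key _ h2)
  rw [Finset.sum_comm]
  have e0 : ∀ i, ∑ c ∈ R, KS O ω (ε c * c * tD2 x1 x2 S i) (ε c * c * (- tD1 x1 x2 S i))
      (ε c * c * 0) (tW2 V1 V2 S i) ((- tW1 V1 V2 S i : KK O) : ℂ) =
      TT R (1, 0) (0, 1) (-1, -1) (ten ((tW1 V1 V2 S i : ℂ), (tW2 V1 V2 S i : ℂ))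
        (chi O ω ε N (tD1 x1 x2 S i, tD2 x1 x2 S i))) := by
    intro i
    rw [ks_tt h]
    push_cast
    rw [neg_neg, zero_sub, neg_neg, sub_zero]
  rw [Finset.sum_congr rfl (fun i _ => e0 i)]
  rw [ten_sum x1 x2 V1 V2 S (fun d1 d2 W1 W2 => TT R (1, 0) (0, 1) (-1, -1)
    (ten ((W1 : ℂ), (W2 : ℂ)) (chi O ω ε N (d1, d2))))]
  rw [half_sum h hN hneg2 hadd hS, half_sum h hN (key _ h1) hadd' hS]
  have c1 : (((2 * V1 : KK O) : ℂ)) / 2 = V1 := by
    show (2 : ℂ) * (V1 : ℂ) / 2 = V1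
    ring
  have c2 : (((2 * V2 : KK O) : ℂ)) / 2 = V2 := by
    show (2 : ℂ) * (V2 : ℂ) / 2 = V2
    ring
  rw [c1, c2]
  push_cast
  rw [tri1 h x1 x2, tri2 h x1 x2, tri3 h x1 x2, tri4 x1 x2]
  rw [← four_value h V1.2 V2.2 (key _ h1) (key _ h2)]
  ring

/-- all values are attained -/
theorem attain (hO : Quad O ω) (hP : IsPrincipalIdealRing O) (hf : f ≠ 0) (hε : GC O f ε) :
    ∃ (N : ℕ) (S' : Finset O), 0 < N ∧ f ∣ (N : O) ∧ IsReps (N : O) S' ∧
      ∀ ρ : KK O, ∃ (ι : Type) (_ : Fintype ι) (x y z : ι → ℂ) (v w : ι → KK O),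
        Fam O f ε N ι x y z v w ∧ TRf O ω ε (N : O) S' x y z v w = ρ * LE O ε := by
  classical
  obtain ⟨p, hp, hpf, hp3⟩ := exists_p hO hP hf
  have hfu := f_not_unit hε
  have hpu := hp.not_isUnit
  have hp0 : (p : ℂ) ≠ 0 := coe_ne_zero hp.ne_zero
  have hf0 : (f : ℂ) ≠ 0 := coe_ne_zero hf
  obtain ⟨n1, hn1, hd1⟩ := re_nat hO hf
  obtain ⟨n2, hn2, hd2⟩ := re_nat hO hp.ne_zero
  set N : ℕ := 2 * (n1 * n2) with hNdef
  have hN0 : 0 < N := by positivity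
  set r' : O := ((n1 * n2 : ℕ) : O) with hr'
  have hN : (N : O) = 2 * r' := by
    rw [hNdef, hr']
    push_cast
    ring
  have hfr : f ∣ r' := by
    rw [hr']
    push_cast
    exact Dvd.dvd.mul_right hd1 _
  have hpr : p ∣ r' := by
    rw [hr']
    push_cast
    exact Dvd.dvd.mul_left hd2 _
  have hdiv : ∀ a : O, a ≠ 0 → a ∣ r' → (r' : ℂ) * (1 / (a : ℂ)) ∈ O := by
    intro a ha0 ha
    obtain ⟨d, hd⟩ := ha
    have ha' : (a : ℂ) ≠ 0 := coe_ne_zero ha0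
    have e : (r' : ℂ) * (1 / (a : ℂ)) = d := by
      rw [hd]
      push_cast
      field_simp
    rw [e]; exact d.2
  have h1 := hdiv f hf hfr
  have h2 := hdiv p hp.ne_zero hpr
  have hfN : f ∣ (N : O) := by rw [hN]; exact Dvd.dvd.mul_left hfr _
  have hNO : (N : O) ≠ 0 := by
    intro h
    have := congrArg (Subtype.val) h
    rw [xe_natCast] at this
    have h0 : (N : ℂ) = 0 := this
    exact hN0.ne' (by exact_mod_cast h0)
  -- the points
  have m1 : (1 : ℂ) / (f : ℂ) ∉ O := by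
    intro h
    apply hfu
    have : f * ⟨_, h⟩ = 1 := by
      apply Subtype.ext
      show (f : ℂ) * (1 / (f : ℂ)) = 1
      field_simp
    exact IsUnit.of_mul_eq_one _ this
  have m2 : (1 : ℂ) / (p : ℂ) ∉ O := by
    intro h
    apply hpu
    have : p * ⟨_, h⟩ = 1 := by
      apply Subtype.ext
      show (p : ℂ) * (1 / (p : ℂ)) = 1
      field_simp
    exact IsUnit.of_mul_eq_one _ this
  have m3 : (1 : ℂ) / (f : ℂ) + 1 / (p : ℂ) ∉ O := by
    intro h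
    apply hfu
    have e : f * (⟨_, h⟩ * p - 1) = p := by
      apply Subtype.ext
      show (f : ℂ) * ((1 / (f : ℂ) + 1 / (p : ℂ)) * p - 1) = p
      field_simp
      ring
    exact hpf.symm.isUnit_of_dvd ⟨_, e.symm⟩
  have m4 : (1 : ℂ) / (f : ℂ) - 1 / (p : ℂ) ∉ O := by
    intro h
    apply hfu
    have e : f * (⟨_, h⟩ * p + 1) = p := by
      apply Subtype.ext
      show (f : ℂ) * ((1 / (f : ℂ) - 1 / (p : ℂ)) * p + 1) = p
      field_simp
      ring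
    exact hpf.symm.isUnit_of_dvd ⟨_, e.symm⟩
  obtain ⟨S', hS'⟩ := exists_reps hO (N : O) hNO
  have h20 : (2 : O) ≠ 0 := by
    intro h
    have := congrArg (Subtype.val) h
    have h0 : (2 : ℂ) = 0 := by simpa using this
    norm_num at h0
  obtain ⟨S, hS⟩ := exists_reps hO (2 : O) h20
  set R := S'.filter (fun c => IsCoprime c (N : O)) with hR
  have hctx : Ctx O ω f ε N R (0 : ℂ →ₗ[KK O] KK O) := by
    refine ⟨hO, hP, hf, hε, hN0, hfN, ?_, ?_, rfl⟩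
    · intro a ha
      obtain ⟨k, ⟨hk, hak⟩, huniq⟩ := hS' a
      refine ⟨k, ⟨?_, hak⟩, fun k' hk' => huniq k' ⟨(Finset.mem_filter.1 hk'.1).1, hk'.2⟩⟩
      refine Finset.mem_filter.2 ⟨hk, ?_⟩
      obtain ⟨d, hd⟩ := hak
      have e : k = a + (N : O) * (-d) := by linear_combination -hd
      rw [e]
      exact ha.add_mul_left_left _
    · intro a ha
      exact (Finset.mem_filter.1 ha).2
  obtain ⟨hL, q, κ, ⟨hq, hq1, -⟩, -, hAV, ⟨hκ, -⟩, -⟩ := FIN_main hO hP hf hε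
  have hcard : ((R.card : ℕ) : ℂ) ≠ 0 := by
    have := ib_card hS'
    exact_mod_cast this
  have hκ' : (κ : ℂ) ≠ 0 := fun h => hκ (Subtype.ext h)
  have hA : ∀ t : ℂ, t ∉ O → ((N : O) : ℂ) * t ∈ O →
      ∑ c ∈ R, SS O ω (ε c * c * t) = (R.card : ℂ) / κ * (q t : ℂ) * LE O ε := by
    intro t ht hNt
    have e := hAV (N : O) S' t hfN hNO hS' ht hNt
    unfold AV at e
    rw [← hR] at e
    have e' : (κ : ℂ) * (∑ c ∈ R, SS O ω (ε c * c * t)) = (R.card : ℂ) * (q t * LE O ε) := by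
      rw [← e, mul_comm (R.card : ℂ), mul_assoc, div_mul_cancel₀ _ hcard]
    rw [div_mul_eq_mul_div, div_mul_eq_mul_div, eq_div_iff hκ']
    linear_combination e'
  have hne := q_ne hO hP hf hε hq hq1 hp hpf hp3
  have h2K : (2 : ℂ) ∈ KK O := by
    have := natCast_mem (KK O) 2
    simpa using this
  have h4K : (1 / 4 : ℂ) ∈ KK O := by
    refine div_mem (one_mem _) ?_
    have := natCast_mem (KK O) 4
    simpa using this
  obtain ⟨τ, hτc⟩ : ∃ τ : KK O, (τ : ℂ) = (2 : ℂ) * (q (1 / (f : ℂ)) : ℂ)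
      - (1 / 4) * (q (1 / (f : ℂ) + 1 / (p : ℂ)) : ℂ)
      - (1 / 4) * (q (1 / (f : ℂ) - 1 / (p : ℂ)) : ℂ) :=
    ⟨⟨_, sub_mem (sub_mem (mul_mem h2K (q _).2) (mul_mem h4K (q _).2)) (mul_mem h4K (q _).2)⟩, rfl⟩
  have hτ0 : (τ : ℂ) ≠ 0 := by rw [hτc]; exact hne
  refine ⟨N, S', hN0, hfN, hS', fun ρ => ?_⟩
  set lam : KK O := ρ * κ / ((R.card : KK O) * τ) with hlam
  refine ⟨TI S, inferInstance, tD2 (1 / (f : ℂ)) (1 / (p : ℂ)) S,
    fun i => - tD1 (1 / (f : ℂ)) (1 / (p : ℂ)) S i, fun _ => 0, tW2 0 lam S,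
    fun i => - tW1 0 lam S i, ten_fam hN0 hN h1 h2 m1 m2 m3 m4 0 lam hS, ?_⟩
  have e1 := ten_value hctx hN h1 h2 0 lam hS
  have e2 : TRf O ω ε (N : O) S' (tD2 (1 / (f : ℂ)) (1 / (p : ℂ)) S)
      (fun i => - tD1 (1 / (f : ℂ)) (1 / (p : ℂ)) S i) (fun _ => 0) (tW2 0 lam S)
      (fun i => - tW1 0 lam S i) = _ := e1
  have hmul : ∀ t : ℂ, (r' : ℂ) * t ∈ O → ((N : O) : ℂ) * t ∈ O := by
    intro t ht
    rw [hN]
    have := O.mul_mem (natCast_mem O 2) ht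
    have e : ((2 * r' : O) : ℂ) * t = ((2 : ℕ) : ℂ) * ((r' : ℂ) * t) := by
      show (2 : ℂ) * (r' : ℂ) * t = ((2 : ℕ) : ℂ) * ((r' : ℂ) * t)
      rw [Nat.cast_ofNat]
      ring
    rw [e]; exact this
  rw [e2, hA _ m1 (hmul _ h1), hA _ m3 (hmul _ (by rw [mul_add]; exact O.add_mem h1 h2)),
    hA _ m4 (hmul _ (by rw [mul_sub]; exact O.sub_mem h1 h2))]
  have hlc : (lam : ℂ) = ρ * κ / ((R.card : ℂ) * τ) := by
    rw [hlam]
    push_cast
    rfl
  have hz : ((0 : KK O) : ℂ) = 0 := rfl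
  rw [hz]
  have e3 : (lam : ℂ) * ((R.card : ℂ) / κ * τ) = ρ := by
    rw [hlc]
    field_simp
  rw [← e3, hτc]
  ring

end Pool.Agent.KTD
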