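import Pool.Agent.Lib_helper87.KTD.P.XF

set_option autoImplicit false

namespace Pool.Agent.KTD

open Complex Pool.Agent.TCL

variable {O : Subring ℂ} {ω : ℂ} {f : O} {ε : O → O} {N : ℕ} {R : Finset O}

theorem trf_sum {M : O} {S : Finset O} {ι κ : Type} [Fintype ι] [Fintype κ] (x y z : ι → ℂ)
    (v w : ι → KK O) (x' y' z' : κ → ℂ) (v' w' : κ → KK O) :
    TRf O ω ε M S (Sum.elim x x') (Sum.elim y y') (Sum.elim z z') (Sum.elim v v') (Sum.elim w w') =
      TRf O ω ε M S x y z v w + TRf O ω ε M S x' y' z' v' w' := by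
  unfold TRf
  rw [← Finset.sum_add_distrib]
  refine Finset.sum_congr rfl fun c _ => ?_
  rw [Fintype.sum_sum_type]
  rfl

theorem final (hO : Quad O ω) (hP : IsPrincipalIdealRing O) (hf : f ≠ 0) (hε : GC O f ε) :
    (∀ (n : ℕ) (x y z : Fin n → ℂ) (v w : Fin n → KK O) (M : O) (S : Finset O),
      Adm O f ε n x y z v w M S → ∃ ρ : KK O, TR O ω ε M S n x y z v w = ρ * LE O ε) ∧
    (∀ ρ : KK O, ∃ (n : ℕ) (x y z : Fin n → ℂ) (v w : Fin n → KK O) (M : O) (S : Finset O),
      Adm O f ε n x y z v w M S ∧ TR O ω ε M S n x y z v w = ρ * LE O ε) ∧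
    ∀ (u : O) (δ : KK O), IsUnit u → δ ≠ 0 → starRingEnd ℂ (δ : ℂ) = u * δ →
      (∀ (n : ℕ) (x y z : Fin n → ℂ) (v w : Fin n → KK O) (M : O) (S : Finset O),
        Adm O f ε n x y z v w M S → CInv O u n x y z v w →
          ∃ r : ℚ, TR O ω ε M S n x y z v w = r * δ * LE O ε) ∧
      (∀ r : ℚ, ∃ (n : ℕ) (x y z : Fin n → ℂ) (v w : Fin n → KK O) (M : O) (S : Finset O),
        Adm O f ε n x y z v w M S ∧ CInv O u n x y z v w ∧
          TR O ω ε M S n x y z v w = r * δ * LE O ε) := by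
  obtain ⟨N, S', hN0, hfN, hS', hatt⟩ := attain hO hP hf hε
  refine ⟨?_, ?_, ?_⟩
  · intro n x y z v w M S h
    exact (main2 hO hP hf hε h.cfg h.closed h.dvd h.ne h.reps h.level).1
  · intro ρ
    obtain ⟨ι, inst, x, y, z, v, w, hF, hv⟩ := hatt ρ
    obtain ⟨n, e, hA, hT⟩ := fam_fin (ω := ω) hN0 hfN hS' hF
    exact ⟨n, _, _, _, _, _, _, _, hA, hT.trans hv⟩
  · intro u δ hu hδ hδu
    refine ⟨?_, ?_⟩
    · intro n x y z v w M S h hc
      exact (main2 hO hP hf hε h.cfg h.closed h.dvd h.ne h.reps h.level).2 u hu hc δ hδ hδu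
    · intro r
      have h2K : ((r / 2 : ℚ) : ℂ) ∈ KK O := SubfieldClass.ratCast_mem _ _
      obtain ⟨ι, inst, x, y, z, v, w, hF, hv⟩ := hatt (⟨_, h2K⟩ * δ)
      have huc := unit_mul_conj hO u hu
      set v' : ι → KK O := fun i => ⟨starRingEnd ℂ (v i : ℂ), conj_mem_KK hO (v i).2⟩ with hv'
      set w' : ι → KK O := fun i => ⟨starRingEnd ℂ (w i : ℂ), conj_mem_KK hO (w i).2⟩ with hw'
      have hF2 := fam_conj hO hε hF hu (v' := v') (w' := w') (fun _ => rfl) (fun _ => rfl)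
      obtain ⟨n, e, hA, hT⟩ := fam_fin (ω := ω) hN0 hfN hS' hF2
      refine ⟨n, _, _, _, _, _, _, _, hA, ?_, ?_⟩
      · refine ⟨(e.symm.trans (Equiv.sumComm ι ι)).trans e, fun i => ?_⟩
        have key : ∀ t : ℂ, (u : ℂ) * starRingEnd ℂ ((u : ℂ) * starRingEnd ℂ t) = t := by
          intro t
          rw [map_mul, starRingEnd_self_apply, ← mul_assoc, huc, one_mul]
        simp only [Equiv.trans_apply, Equiv.symm_apply_apply]
        rcases e.symm i with a | a
        · simp only [Equiv.sumComm_apply, Sum.swap_inl, Sum.elim_inl, Sum.elim_inr, sub_self]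
          exact ⟨O.zero_mem, O.zero_mem, O.zero_mem, rfl, rfl⟩
        · simp only [Equiv.sumComm_apply, Sum.swap_inr, Sum.elim_inl, Sum.elim_inr, key, sub_self]
          refine ⟨O.zero_mem, O.zero_mem, O.zero_mem, ?_, ?_⟩
          · show starRingEnd ℂ (starRingEnd ℂ (v a : ℂ)) = v a
            rw [starRingEnd_self_apply]
          · show starRingEnd ℂ (starRingEnd ℂ (w a : ℂ)) = w a
            rw [starRingEnd_self_apply]
      · refine hT.trans ?_
        rw [trf_sum, hv]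
        have h3 := trf_conj hO hε hfN hS' hF.x_mem hF.y_mem hF.z_mem hu (v' := v') (w' := w')
          (v := v) (w := w) (fun _ => rfl) (fun _ => rfl)
        rw [hv, map_mul, LE_conj hO hε] at h3
        have h4 : starRingEnd ℂ ((⟨((r / 2 : ℚ) : ℂ), h2K⟩ * δ : KK O) : ℂ) =
            ((r / 2 : ℚ) : ℂ) * (u * δ) := by
          show starRingEnd ℂ (((r / 2 : ℚ) : ℂ) * (δ : ℂ)) = _
          rw [map_mul, hδu]
          congr 1
          exact map_ratCast (starRingEnd ℂ) _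
        rw [h4] at h3
        have hu0 : (u : ℂ) ≠ 0 := coe_ne_zero hu.ne_zero
        have h5 : TRf O ω ε (N : O) S' (fun i => (u : ℂ) * starRingEnd ℂ (x i))
            (fun i => (u : ℂ) * starRingEnd ℂ (y i)) (fun i => (u : ℂ) * starRingEnd ℂ (z i)) v' w' =
            ((r / 2 : ℚ) : ℂ) * δ * LE O ε := by
          apply mul_left_cancel₀ hu0
          rw [← h3]
          ring
        rw [h5]
        show ((r / 2 : ℚ) : ℂ) * (δ : ℂ) * LE O ε + ((r / 2 : ℚ) : ℂ) * δ * LE O ε = _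
        push_cast
        ring

end Pool.Agent.KTD
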